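import Pool.Agent.Work.ZH.D.Defs

/-! # Module Fejer: exact finite Fourier expansion of the triangular weight in a residue class

`1[k ≡ κ mod W] = (1/W) ∑_{h mod W} e(h(k-κ)/W)`, `∑_k tri N k₀ k e(hk/W) = (1/N) e(h k₀/W) (∑_{a<N} e(ha/W))^2`,
`|∑_{a<N} e(a θ)| ≤ min(N, 1/(2‖θ‖))`; representatives `h` with `-W/2 < h ≤ W/2`. -/

namespace Pool.Agent.ZH.D

open Finset

/-- elementary facts on the weight -/
theorem tri_nonneg (N k₀ k : ℕ) : 0 ≤ tri N k₀ k := by
  unfold tri
  positivity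

theorem tri_le_one (N k₀ k : ℕ) : tri N k₀ k ≤ 1 := by
  unfold tri
  refine div_le_one_of_le₀ ?_ (Nat.cast_nonneg N)
  have h : ((range N ×ˢ range N).filter (fun p => k₀ + p.1 + p.2 = k)).card ≤ (range N).card := by
    refine Finset.card_le_card_of_injOn (fun p => p.1) ?_ ?_
    · intro p hp
      simp only [Finset.coe_filter, Finset.mem_product, Set.mem_ofPred_eq] at hp
      exact hp.1.1
    · intro p hp q hq h
      simp only [Finset.coe_filter, Finset.mem_product, Set.mem_ofPred_eq] at hp hq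
      refine Prod.ext h ?_
      have h' : p.1 = q.1 := h
      have h1 := hp.2
      have h2 := hq.2
      omega
  rw [Finset.card_range] at h
  exact_mod_cast h

/-- `tri ≥ 1/4` on `(K, 2K]` for `N = K`, `k₀ = K/2` -/
theorem quarter_le_tri (K k : ℕ) (hK : 8 ≤ K) (h1 : K ≤ k) (h2 : k ≤ 2 * K) :
    1 / 4 ≤ tri K (K / 2) k := by
  unfold tri
  have hK0 : (0 : ℝ) < K := by
    have : 0 < K := by omega
    exact_mod_cast this
  obtain ⟨d, hd⟩ : ∃ d, k = K / 2 + d := ⟨k - K / 2, by omega⟩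
  have hcard : (Finset.Ico (d + 1 - K) (min (d + 1) K)).card ≤
      ((range K ×ˢ range K).filter (fun p => K / 2 + p.1 + p.2 = k)).card := by
    refine Finset.card_le_card_of_injOn (fun a => (a, d - a)) ?_ ?_
    · intro a ha
      simp only [Finset.coe_Ico, Set.mem_Ico] at ha
      simp only [Finset.coe_filter, Finset.mem_product, Finset.mem_range, Set.mem_ofPred_eq]
      omega
    · intro a _ b _ h
      exact congrArg Prod.fst h
  rw [Nat.card_Ico] at hcard
  rw [div_le_div_iff₀ (by norm_num) hK0, one_mul]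
  have h3 : K ≤ ((range K ×ˢ range K).filter (fun p => K / 2 + p.1 + p.2 = k)).card * 4 := by
    omega
  exact_mod_cast h3

theorem tri_support (N k₀ k : ℕ) (h : tri N k₀ k ≠ 0) : k₀ ≤ k ∧ k < k₀ + 2 * N := by
  unfold tri at h
  have h1 : ((range N ×ˢ range N).filter (fun p => k₀ + p.1 + p.2 = k)).card ≠ 0 := by
    intro h0
    rw [h0] at h
    simp at h
  obtain ⟨p, hp⟩ := Finset.card_pos.1 (Nat.pos_of_ne_zero h1)
  simp only [Finset.mem_filter, Finset.mem_product, Finset.mem_range] at hp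
  omega

/-- sums against the weight are double sums -/
theorem sum_tri (N k₀ X : ℕ) (hN : 1 ≤ N) (hX : k₀ + 2 * N ≤ X) (f : ℕ → ℂ) :
    ∑ k ∈ range X, (tri N k₀ k : ℂ) * f k =
      (1 / (N : ℂ)) * ∑ a ∈ range N, ∑ b ∈ range N, f (k₀ + a + b) := by
  have h1 : ∀ k, (tri N k₀ k : ℂ) * f k =
      (1 / (N : ℂ)) * ∑ p ∈ range N ×ˢ range N, if k₀ + p.1 + p.2 = k then f (k₀ + p.1 + p.2) else 0 := by
    intro k
    unfold tri
    rw [Finset.card_filter]
    push_cast
    rw [div_mul_eq_mul_div, Finset.sum_mul, one_div, div_eq_inv_mul]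
    congr 1
    refine Finset.sum_congr rfl fun p _ => ?_
    by_cases h : k₀ + p.1 + p.2 = k
    · simp [h]
    · simp [h]
  simp_rw [h1]
  rw [← Finset.mul_sum, Finset.sum_comm]
  congr 1
  rw [Finset.sum_product]
  refine Finset.sum_congr rfl fun a ha => Finset.sum_congr rfl fun b hb => ?_
  rw [Finset.mem_range] at ha hb
  rw [Finset.sum_ite_eq]
  rw [if_pos (Finset.mem_range.2 (by omega))]

/-! ### the character -/

theorem e_add (s t : ℝ) : e (s + t) = e s * e t := by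
  unfold e
  rw [← Complex.exp_add]
  congr 1
  push_cast
  ring

theorem e_zero : e 0 = 1 := by
  unfold e
  simp

theorem e_int (n : ℤ) : e n = 1 := by
  unfold e
  have := Complex.exp_int_mul_two_pi_mul_I n
  rw [← this]
  congr 1
  push_cast
  ring

theorem norm_e (t : ℝ) : ‖e t‖ = 1 := by
  unfold e
  have : (2 * Real.pi * t * Complex.I : ℂ) = ((2 * Real.pi * t : ℝ) : ℂ) * Complex.I := by
    push_cast
    ring
  rw [this, Complex.norm_exp_ofReal_mul_I]

theorem e_nat_mul (n : ℕ) (t : ℝ) : e (n * t) = e t ^ n := by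
  induction n with
  | zero => simp [e_zero]
  | succ n ih =>
    push_cast
    rw [add_mul, one_mul, e_add, ih, pow_succ]

theorem norm_e_sub_one (t : ℝ) (h1 : |t| ≤ 1 / 2) : 4 * |t| ≤ ‖e t - 1‖ := by
  have h2 : e t = Complex.exp (Complex.I * ((2 * Real.pi * t : ℝ) : ℂ)) := by
    unfold e
    congr 1
    push_cast
    ring
  rw [h2, Complex.norm_exp_I_mul_ofReal_sub_one]
  have h3 : 2 * Real.pi * t / 2 = Real.pi * t := by ring
  rw [h3, norm_mul, Real.norm_eq_abs, Real.norm_eq_abs, abs_two]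
  have h4 : |Real.sin (Real.pi * t)| = Real.sin (Real.pi * |t|) := by
    rcases abs_cases t with ⟨h5, h6⟩ | ⟨h5, h6⟩
    · rw [h5, abs_of_nonneg]
      apply Real.sin_nonneg_of_nonneg_of_le_pi
      · positivity
      · rw [h5] at h1
        nlinarith [Real.pi_pos]
    · rw [h5, mul_neg, Real.sin_neg, abs_of_nonpos]
      have h7 : 0 ≤ Real.sin (Real.pi * (-t)) := by
        apply Real.sin_nonneg_of_nonneg_of_le_pi
        · have : 0 ≤ -t := by linarith
          positivity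
        · rw [h5] at h1
          nlinarith [Real.pi_pos]
      rw [mul_neg, Real.sin_neg] at h7
      linarith
  rw [h4]
  have h5 := Real.mul_le_sin (x := Real.pi * |t|) (by positivity) (by nlinarith [Real.pi_pos])
  have h6 : 2 / Real.pi * (Real.pi * |t|) = 2 * |t| := by
    field_simp
  rw [h6] at h5
  linarith

/-- the geometric sum -/
theorem norm_geom (N : ℕ) (t : ℝ) (h0 : t ≠ 0) (h1 : |t| ≤ 1 / 2) :
    ‖∑ a ∈ range N, e (a * t)‖ ≤ 1 / (2 * |t|) := by
  have hp : 0 < |t| := abs_pos.2 h0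
  have h2 := norm_e_sub_one t h1
  have h3 : e t - 1 ≠ 0 := by
    intro h
    rw [h, norm_zero] at h2
    linarith
  have h4 : ∑ a ∈ range N, e (a * t) = (e t ^ N - 1) / (e t - 1) := by
    simp_rw [e_nat_mul]
    rw [geom_sum_eq (fun h => h3 (by rw [h, sub_self]))]
  rw [h4, norm_div, div_le_div_iff₀ (by linarith) (by linarith)]
  have h5 : ‖e t ^ N - 1‖ ≤ 2 := by
    refine (norm_sub_le _ _).trans ?_
    rw [norm_pow, norm_e, one_pow, norm_one]
    norm_num
  nlinarith [norm_nonneg (e t ^ N - 1)]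

theorem norm_geom_le (N : ℕ) (t : ℝ) : ‖∑ a ∈ range N, e (a * t)‖ ≤ N := by
  refine (norm_sum_le _ _).trans ?_
  simp [norm_e]

/-- the representatives of the residue classes modulo `W` -/
noncomputable def resI (W : ℕ) : Finset ℤ := Finset.Ico (-(((W - 1) / 2 : ℕ) : ℤ)) (-(((W - 1) / 2 : ℕ) : ℤ) + W)

theorem mem_resI {W : ℕ} (hW : 1 ≤ W) {h : ℤ} : h ∈ resI W ↔ -(W : ℤ) < 2 * h ∧ 2 * h ≤ W := by
  unfold resI
  rw [Finset.mem_Ico]
  omega

/-- orthogonality -/
theorem sum_resI {W : ℕ} (hW : 1 ≤ W) (n : ℤ) :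
    ∑ h ∈ resI W, e ((h * n : ℝ) / W) = if (W : ℤ) ∣ n then (W : ℂ) else 0 := by
  have hW0 : (W : ℝ) ≠ 0 := by
    have : W ≠ 0 := by omega
    exact_mod_cast this
  unfold resI
  set c : ℤ := -(((W - 1) / 2 : ℕ) : ℤ) with hc
  have h1 : ∑ h ∈ Finset.Ico c (c + W), e ((h * n : ℝ) / W) =
      ∑ j ∈ range W, e (((c : ℝ) * n) / W) * e ((j : ℝ) * (n / W)) := by
    symm
    refine Finset.sum_bij (fun (j : ℕ) _ => c + (j : ℤ)) ?_ ?_ ?_ ?_
    · intro j hj
      rw [Finset.mem_range] at hj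
      rw [Finset.mem_Ico]
      omega
    · intro i _ j _ h
      omega
    · intro h hh
      rw [Finset.mem_Ico] at hh
      exact ⟨(h - c).toNat, Finset.mem_range.2 (by omega), by omega⟩
    · intro j _
      rw [← e_add]
      congr 1
      push_cast
      ring
  rw [h1, ← Finset.mul_sum]
  by_cases hd : (W : ℤ) ∣ n
  · obtain ⟨k, rfl⟩ := hd
    rw [if_pos (dvd_mul_right _ _)]
    have h2 : ∀ j : ℕ, e ((j : ℝ) * (((W : ℤ) * k : ℤ) / W)) = 1 := by
      intro j
      have : ((j : ℝ) * (((W : ℤ) * k : ℤ) / W)) = ((j * k : ℤ) : ℝ) := by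
        push_cast
        field_simp
      rw [this, e_int]
    have h3 : e (((c : ℝ) * ((W : ℤ) * k : ℤ)) / W) = 1 := by
      have : (((c : ℝ) * ((W : ℤ) * k : ℤ)) / W) = ((c * k : ℤ) : ℝ) := by
        push_cast
        field_simp
      rw [this, e_int]
    rw [h3, one_mul, Finset.sum_congr rfl (fun j _ => h2 j)]
    simp
  · rw [if_neg hd]
    have h2 : e ((n : ℝ) / W) ≠ 1 := by
      intro h
      unfold e at h
      rw [Complex.exp_eq_one_iff] at h
      obtain ⟨k, hk⟩ := h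
      apply hd
      have hpi : (2 * Real.pi * Complex.I : ℂ) ≠ 0 := by
        simp [Real.pi_ne_zero, Complex.I_ne_zero]
      have h3 : (2 * Real.pi * Complex.I : ℂ) * (((n : ℝ) / W : ℝ) : ℂ) =
          (2 * Real.pi * Complex.I : ℂ) * (k : ℂ) := by
        rw [mul_comm _ (k : ℂ), ← hk]
        ring
      have h4 := mul_left_cancel₀ hpi h3
      have h5 : ((n : ℝ) / W : ℝ) = (k : ℝ) := by
        exact_mod_cast h4
      rw [div_eq_iff hW0] at h5
      refine ⟨k, ?_⟩
      have h6 : (n : ℝ) = ((W * k : ℤ) : ℝ) := by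
        rw [h5]
        push_cast
        ring
      exact_mod_cast h6
    have h3 : ∑ j ∈ range W, e ((j : ℝ) * (n / W)) = 0 := by
      simp_rw [e_nat_mul]
      rw [geom_sum_eq h2, ← e_nat_mul]
      have : (W : ℝ) * ((n : ℝ) / W) = (n : ℝ) := by field_simp
      rw [this, e_int, sub_self, zero_div]
    rw [h3, mul_zero]

theorem fejer (N k₀ : ℕ) (hN : 1 ≤ N) : ∃ g : ℕ → ℤ → ℂ,
    (∀ (W : ℕ) (h : ℤ), 1 ≤ W → ‖g W h‖ ≤ (N : ℝ) / W) ∧
    (∀ (W : ℕ) (h : ℤ), 1 ≤ W → h ≠ 0 → ‖g W h‖ ≤ (W : ℝ) / (4 * N * (h : ℝ) ^ 2)) ∧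
    (∀ (W : ℕ) (h : ℤ), 1 ≤ W → (W : ℤ) < 2 * |h| → g W h = 0) ∧
    ∀ W X : ℕ, 1 ≤ W → k₀ + 2 * N ≤ X → ∀ κ : ℕ,
      ((∑ k ∈ (range X).filter (fun k => k ≡ κ [MOD W]), tri N k₀ k : ℝ) : ℂ) =
        (N : ℂ) / W + ∑ h ∈ (Icc (-(W : ℤ)) W).filter (fun h => h ≠ 0),
          g W h * e (-(h * κ : ℝ) / W) := by
  have hN0 : (0 : ℝ) < N := by exact_mod_cast (show 0 < N by omega)
  have hNC : (N : ℂ) ≠ 0 := by exact_mod_cast (show N ≠ 0 by omega)
  let G : ℕ → ℤ → ℂ := fun W h => (1 / ((N : ℂ) * W)) * e ((h * k₀ : ℝ) / W) *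
    (∑ a ∈ range N, e ((a : ℝ) * (h / W))) ^ 2
  refine ⟨fun W h => if -(W : ℤ) < 2 * h ∧ 2 * h ≤ W then G W h else 0, ?_, ?_, ?_, ?_⟩
  · intro W h hW
    have hW0 : (0 : ℝ) < W := by exact_mod_cast (show 0 < W by omega)
    dsimp only
    split_ifs with hc
    · simp only [G]
      rw [norm_mul, norm_mul, norm_e, mul_one, norm_pow, norm_div, norm_mul, norm_one,
        Complex.norm_natCast, Complex.norm_natCast]
      have h1 := norm_geom_le N (h / W)
      calc 1 / ((N : ℝ) * W) * ‖∑ a ∈ range N, e ((a : ℝ) * (h / W))‖ ^ 2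
          ≤ 1 / ((N : ℝ) * W) * (N : ℝ) ^ 2 := by gcongr
        _ = (N : ℝ) / W := by field_simp
    · rw [norm_zero]
      positivity
  · intro W h hW hh
    have hW0 : (0 : ℝ) < W := by exact_mod_cast (show 0 < W by omega)
    have hh0 : (h : ℝ) ≠ 0 := by exact_mod_cast hh
    dsimp only
    split_ifs with hc
    · simp only [G]
      rw [norm_mul, norm_mul, norm_e, mul_one, norm_pow, norm_div, norm_mul, norm_one,
        Complex.norm_natCast, Complex.norm_natCast]
      have habs : |(h : ℝ) / W| ≤ 1 / 2 := by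
        rw [abs_div, abs_of_pos hW0, div_le_iff₀ hW0]
        have h3 : 2 * |h| ≤ (W : ℤ) := by
          rcases abs_cases h with ⟨h4, _⟩ | ⟨h4, _⟩ <;> rw [h4] <;> omega
        have h4 : 2 * |(h : ℝ)| ≤ (W : ℝ) := by exact_mod_cast h3
        linarith
      have h1 := norm_geom N ((h : ℝ) / W) (div_ne_zero hh0 hW0.ne') habs
      have h2 : 1 / (2 * |(h : ℝ) / W|) = (W : ℝ) / (2 * |(h : ℝ)|) := by
        rw [abs_div, abs_of_pos hW0]
        field_simp
      rw [h2] at h1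
      have h3 : |(h : ℝ)| ^ 2 = (h : ℝ) ^ 2 := sq_abs _
      calc 1 / ((N : ℝ) * W) * ‖∑ a ∈ range N, e ((a : ℝ) * (h / W))‖ ^ 2
          ≤ 1 / ((N : ℝ) * W) * ((W : ℝ) / (2 * |(h : ℝ)|)) ^ 2 := by gcongr
        _ = (W : ℝ) / (4 * N * |(h : ℝ)| ^ 2) := by field_simp; norm_num
        _ = _ := by rw [h3]
    · rw [norm_zero]
      positivity
  · intro W h hW hh
    dsimp only
    rw [if_neg]
    intro hc
    rcases abs_cases h with ⟨h4, _⟩ | ⟨h4, _⟩ <;> rw [h4] at hh <;> omega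
  · intro W X hW hX κ
    have hW0 : (0 : ℝ) < W := by exact_mod_cast (show 0 < W by omega)
    have hWC : (W : ℂ) ≠ 0 := by exact_mod_cast (show W ≠ 0 by omega)
    -- the left side
    have h1 : ((∑ k ∈ (range X).filter (fun k => k ≡ κ [MOD W]), tri N k₀ k : ℝ) : ℂ) =
        ∑ k ∈ range X, (tri N k₀ k : ℂ) * ((1 / (W : ℂ)) *
          ∑ h ∈ resI W, e ((h * ((k : ℤ) - κ : ℤ) : ℝ) / W)) := by
      push_cast
      rw [Finset.sum_filter]
      refine Finset.sum_congr rfl fun k _ => ?_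
      have h2 := sum_resI hW ((k : ℤ) - κ)
      push_cast at h2
      rw [h2]
      have h3 : (W : ℤ) ∣ (k : ℤ) - κ ↔ k ≡ κ [MOD W] := by
        rw [← Int.natCast_modEq_iff, Int.modEq_comm, Int.modEq_iff_dvd]
      by_cases h4 : k ≡ κ [MOD W]
      · rw [if_pos h4, if_pos (h3.2 h4)]
        field_simp
      · rw [if_neg h4, if_neg (fun h => h4 (h3.1 h)), mul_zero, mul_zero]
    rw [h1, sum_tri N k₀ X hN hX]
    have h2 : (1 / (N : ℂ)) * ∑ a ∈ range N, ∑ b ∈ range N, ((1 / (W : ℂ)) *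
          ∑ h ∈ resI W, e ((h * (((k₀ + a + b : ℕ) : ℤ) - κ : ℤ) : ℝ) / W)) =
        ∑ h ∈ resI W, G W h * e (-(h * κ : ℝ) / W) := by
      have h3 : ∀ a b : ℕ, (1 / (W : ℂ)) *
          ∑ h ∈ resI W, e ((h * (((k₀ + a + b : ℕ) : ℤ) - κ : ℤ) : ℝ) / W) =
          ∑ h ∈ resI W, (1 / (W : ℂ)) * (e ((h * k₀ : ℝ) / W) * e (-(h * κ : ℝ) / W) *
            (e ((a : ℝ) * (h / W)) * e ((b : ℝ) * (h / W)))) := by
        intro a b
        rw [Finset.mul_sum]
        refine Finset.sum_congr rfl fun h _ => ?_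
        rw [← e_add, ← e_add, ← e_add]
        congr 2
        push_cast
        field_simp
        ring
      simp_rw [h3]
      have h4 : ∀ h : ℤ, G W h * e (-(h * κ : ℝ) / W) = (1 / (N : ℂ)) * ∑ a ∈ range N,
          ∑ b ∈ range N, (1 / (W : ℂ)) * (e ((h * k₀ : ℝ) / W) * e (-(h * κ : ℝ) / W) *
            (e ((a : ℝ) * (h / W)) * e ((b : ℝ) * (h / W)))) := by
        intro h
        simp only [G]
        rw [sq, Finset.sum_mul_sum]
        simp_rw [Finset.mul_sum, Finset.sum_mul]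
        refine Finset.sum_congr rfl fun a _ => Finset.sum_congr rfl fun b _ => ?_
        field_simp
      simp_rw [h4]
      rw [← Finset.mul_sum]
      congr 1
      symm
      rw [Finset.sum_comm]
      refine Finset.sum_congr rfl fun a _ => ?_
      rw [Finset.sum_comm]
    rw [h2]
    have h0mem : (0 : ℤ) ∈ resI W := (mem_resI hW).2 (by omega)
    rw [← Finset.add_sum_erase _ _ h0mem]
    congr 1
    · simp only [G]
      have h3 : ∀ a : ℕ, e ((a : ℝ) * (((0 : ℤ) : ℝ) / W)) = 1 := by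
        intro a
        have : (a : ℝ) * (((0 : ℤ) : ℝ) / W) = 0 := by simp
        rw [this, e_zero]
      simp_rw [h3]
      have h4 : (((0 : ℤ) : ℝ) * k₀ : ℝ) / W = 0 := by simp
      have h5 : (-(((0 : ℤ) : ℝ) * κ : ℝ)) / W = 0 := by simp
      rw [h4, h5, e_zero]
      simp only [Finset.sum_const, Finset.card_range, nsmul_eq_mul, mul_one]
      field_simp
    · have h3 : ∀ h : ℤ, (if -(W : ℤ) < 2 * h ∧ 2 * h ≤ W then G W h else 0) *
          e (-(h * κ : ℝ) / W) =
          if -(W : ℤ) < 2 * h ∧ 2 * h ≤ W then G W h * e (-(h * κ : ℝ) / W) else 0 := by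
        intro h
        split_ifs
        · rfl
        · rw [zero_mul]
      simp_rw [h3]
      rw [← Finset.sum_filter]
      refine Finset.sum_congr ?_ fun _ _ => rfl
      ext h
      rw [Finset.mem_erase, mem_resI hW, Finset.mem_filter, Finset.mem_filter, Finset.mem_Icc]
      omega

end Pool.Agent.ZH.D
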