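import Pool.Agent.Work.ZH.D.Setup

/-! # Module Count: counting lemmas shared by Bad and Rest -/

namespace Pool.Agent.ZH.D

open Finset

section

variable {M U V L X : ℕ} {T z : ℝ}

/-- `u v` has only prime factors `≥ z` -/
def Rg (z : ℝ) (u v : ℕ) : Prop := ∀ p : ℕ, p.Prime → p ∣ u * v → z ≤ (p : ℝ)

noncomputable instance (z : ℝ) (u v : ℕ) : Decidable (Rg z u v) := Classical.dec _

/-- `1 ≤ T` -/
theorem one_le_T (hT : ∀ n : ℕ, 0 < n → n ≤ X → tau n ≤ T) (hX : 1 ≤ X) : 1 ≤ T := by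
  have h := hT 1 one_pos hX
  simpa [tau] using h

/-- divisors of `n` in any finite set -/
theorem card_dvd_le (hT : ∀ n : ℕ, 0 < n → n ≤ X → tau n ≤ T) (A : Finset ℕ) {n : ℕ} (h0 : 0 < n)
    (hn : n ≤ X) : ((A.filter (fun m => m ∣ n)).card : ℝ) ≤ T := by
  refine le_trans ?_ (hT n h0 hn)
  unfold tau
  have h : A.filter (fun m => m ∣ n) ⊆ n.divisors := by
    intro m hm
    exact Nat.mem_divisors.2 ⟨(mem_filter.1 hm).2, h0.ne'⟩
  exact_mod_cast card_le_card h

/-- the same as a sum -/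
theorem sum_dvd_le (hT : ∀ n : ℕ, 0 < n → n ≤ X → tau n ≤ T) (A : Finset ℕ) {n : ℕ} (h0 : 0 < n)
    (hn : n ≤ X) : ∑ m ∈ A, (if m ∣ n then (1 : ℝ) else 0) ≤ T := by
  rw [Finset.sum_boole]
  exact card_dvd_le hT A h0 hn

theorem sum_dvd_nonneg (A : Finset ℕ) (n : ℕ) : 0 ≤ ∑ m ∈ A, (if m ∣ n then (1 : ℝ) else 0) :=
  sum_nonneg fun m _ => by split_ifs <;> norm_num

/-- pairs `(u,v)` with `u v ∣ n` -/
theorem sum_pair_le (hT : ∀ n : ℕ, 0 < n → n ≤ X → tau n ≤ T) (B C : Finset ℕ) {n : ℕ}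
    (h0 : 0 < n) (hn : n ≤ X) :
    ∑ u ∈ B, ∑ v ∈ C, (if u * v ∣ n then (1 : ℝ) else 0) ≤ T ^ 2 := by
  have hB := sum_dvd_le hT B h0 hn
  have hC := sum_dvd_le hT C h0 hn
  have hB0 := sum_dvd_nonneg B n
  have hC0 := sum_dvd_nonneg C n
  calc ∑ u ∈ B, ∑ v ∈ C, (if u * v ∣ n then (1 : ℝ) else 0)
      ≤ ∑ u ∈ B, ∑ v ∈ C, (if u ∣ n then (1 : ℝ) else 0) * (if v ∣ n then (1 : ℝ) else 0) := by
        refine sum_le_sum fun u _ => sum_le_sum fun v _ => ?_
        by_cases h : u * v ∣ n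
        · rw [if_pos h, if_pos (dvd_of_mul_right_dvd h), if_pos (dvd_of_mul_left_dvd h)]
          norm_num
        · rw [if_neg h]
          split_ifs <;> norm_num
    _ = (∑ u ∈ B, (if u ∣ n then (1 : ℝ) else 0)) * ∑ v ∈ C, (if v ∣ n then (1 : ℝ) else 0) := by
        rw [Finset.sum_mul_sum]
    _ ≤ T * T := mul_le_mul hB hC hC0 (hB0.trans hB)
    _ = T ^ 2 := by ring

/-- triples `(m,u,v)` with `m u v ∣ n` -/
theorem sum_triple_le (hT : ∀ n : ℕ, 0 < n → n ≤ X → tau n ≤ T) (A B C : Finset ℕ) {n : ℕ}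
    (h0 : 0 < n) (hn : n ≤ X) :
    ∑ m ∈ A, ∑ u ∈ B, ∑ v ∈ C, (if m * u * v ∣ n then (1 : ℝ) else 0) ≤ T ^ 3 := by
  have hA := sum_dvd_le hT A h0 hn
  have hA0 := sum_dvd_nonneg A n
  have hP := sum_pair_le hT B C h0 hn
  have hP0 : 0 ≤ ∑ u ∈ B, ∑ v ∈ C, (if u * v ∣ n then (1 : ℝ) else 0) :=
    sum_nonneg fun m _ => sum_nonneg fun _ _ => by split_ifs <;> norm_num
  calc ∑ m ∈ A, ∑ u ∈ B, ∑ v ∈ C, (if m * u * v ∣ n then (1 : ℝ) else 0)
      ≤ ∑ m ∈ A, ∑ u ∈ B, ∑ v ∈ C,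
          (if m ∣ n then (1 : ℝ) else 0) * (if u * v ∣ n then (1 : ℝ) else 0) := by
        refine sum_le_sum fun m _ => sum_le_sum fun u _ => sum_le_sum fun v _ => ?_
        by_cases h : m * u * v ∣ n
        · have h1 : m ∣ n := by
            rw [mul_assoc] at h
            exact dvd_of_mul_right_dvd h
          have h2 : u * v ∣ n := by
            rw [mul_assoc] at h
            exact dvd_of_mul_left_dvd h
          rw [if_pos h, if_pos h1, if_pos h2]
          norm_num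
        · rw [if_neg h]
          split_ifs <;> norm_num
    _ = (∑ m ∈ A, (if m ∣ n then (1 : ℝ) else 0)) *
          ∑ u ∈ B, ∑ v ∈ C, (if u * v ∣ n then (1 : ℝ) else 0) := by
        rw [Finset.sum_mul]
        refine sum_congr rfl fun m _ => ?_
        rw [Finset.mul_sum]
        refine sum_congr rfl fun u _ => ?_
        rw [Finset.mul_sum]
    _ ≤ T * T ^ 2 := mul_le_mul hA hP hP0 (hA0.trans hA)
    _ = T ^ 3 := by ring

/-- `l' ≡ l mod q` in `[L,2L)` -/
theorem sum_modEq_le (L q l : ℕ) (hq : 1 ≤ q) :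
    ∑ l' ∈ Ico L (2 * L), (if l ≡ l' [MOD q] then (1 : ℝ) else 0) ≤ (L : ℝ) / q + 1 := by
  rw [Finset.sum_boole]
  have hq0 : 0 < q := hq
  have h1 := Nat.Ico_filter_modEq_card L (2 * L) hq0 l
  have h2 : (Ico L (2 * L)).filter (fun l' => l ≡ l' [MOD q]) =
      (Ico L (2 * L)).filter (fun l' => l' ≡ l [MOD q]) := by
    refine filter_congr fun x _ => ⟨fun h => h.symm, fun h => h.symm⟩
  rw [h2]
  have hqQ : (0 : ℚ) < q := by exact_mod_cast hq0
  have h3 : (((Ico L (2 * L)).filter (fun l' => l' ≡ l [MOD q])).card : ℚ) ≤ (L : ℚ) / q + 1 := by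
    have h4 : ((((Ico L (2 * L)).filter (fun l' => l' ≡ l [MOD q])).card : ℤ) : ℚ) ≤ (L : ℚ) / q + 1 := by
      rw [h1]
      push_cast
      refine max_le ?_ (by positivity)
      have h5 := Int.ceil_lt_add_one ((2 * (L : ℚ) - l) / q)
      have h6 := Int.le_ceil (((L : ℚ) - l) / q)
      have h7 : (2 * (L : ℚ) - l) / q - ((L : ℚ) - l) / q = (L : ℚ) / q := by
        field_simp
        ring
      linarith
    exact_mod_cast h4
  have h5 : ((((Ico L (2 * L)).filter (fun l' => l' ≡ l [MOD q])).card : ℚ) : ℝ) ≤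
      (((L : ℚ) / q + 1 : ℚ) : ℝ) := by exact_mod_cast h3
  push_cast at h5
  exact h5

theorem sum_inv_le (U : ℕ) (hU : 1 ≤ U) : ∑ u ∈ Ico U (2 * U), (1 : ℝ) / u ≤ 1 := by
  have hU0 : (0 : ℝ) < U := by exact_mod_cast (show 0 < U by omega)
  calc ∑ u ∈ Ico U (2 * U), (1 : ℝ) / u ≤ ∑ u ∈ Ico U (2 * U), (1 : ℝ) / U := by
        refine sum_le_sum fun u hu => ?_
        have : (U : ℝ) ≤ u := by exact_mod_cast (mem_Ico.1 hu).1
        exact one_div_le_one_div_of_le hU0 this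
    _ = 1 := by
        rw [sum_const, Nat.card_Ico, nsmul_eq_mul]
        have : 2 * U - U = U := by omega
        rw [this]
        field_simp

/-- multiples of `p`: `∑ 1/u ≤ 3/p` -/
theorem sum_inv_mult_le (U p : ℕ) (hU : 1 ≤ U) (hp : 1 ≤ p) :
    ∑ u ∈ Ico U (2 * U), (if p ∣ u then (1 : ℝ) / u else 0) ≤ 3 / p := by
  have hU0 : (0 : ℝ) < U := by exact_mod_cast (show 0 < U by omega)
  have hp0 : (0 : ℝ) < p := by exact_mod_cast (show 0 < p by omega)
  by_cases hne : ∃ u ∈ Ico U (2 * U), p ∣ u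
  · obtain ⟨u₀, hu₀, hpu⟩ := hne
    have hu₀' := mem_Ico.1 hu₀
    have hpU : (p : ℝ) ≤ 2 * U := by
      have : p ≤ u₀ := Nat.le_of_dvd (by omega) hpu
      exact_mod_cast (show p ≤ 2 * U by omega)
    calc ∑ u ∈ Ico U (2 * U), (if p ∣ u then (1 : ℝ) / u else 0)
        ≤ ∑ u ∈ Ico U (2 * U), (if 0 ≡ u [MOD p] then (1 : ℝ) else 0) * (1 / U) := by
          refine sum_le_sum fun u hu => ?_
          have h1 : (U : ℝ) ≤ u := by exact_mod_cast (mem_Ico.1 hu).1
          by_cases h : p ∣ u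
          · have h2 : 0 ≡ u [MOD p] := ((Nat.modEq_zero_iff_dvd).2 h).symm
            rw [if_pos h, if_pos h2, one_mul]
            exact one_div_le_one_div_of_le hU0 h1
          · rw [if_neg h]
            split_ifs <;> positivity
      _ = (∑ u ∈ Ico U (2 * U), (if 0 ≡ u [MOD p] then (1 : ℝ) else 0)) * (1 / U) := by
          rw [Finset.sum_mul]
      _ ≤ ((U : ℝ) / p + 1) * (1 / U) := by
          gcongr
          exact sum_modEq_le U p 0 hp
      _ = 1 / p + 1 / U := by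
          field_simp
      _ ≤ 1 / p + 2 / p := by
          have : (1 : ℝ) / U ≤ 2 / p := by
            rw [div_le_div_iff₀ hU0 hp0]
            linarith
          linarith
      _ = 3 / p := by ring
  · push Not at hne
    rw [Finset.sum_eq_zero]
    · positivity
    · intro u hu
      rw [if_neg (hne u hu)]

/-- `n/φ(n) ≤ τ(n)` -/
theorem le_totient_mul_tau : ∀ n : ℕ, n ≤ n.totient * n.divisors.card := by
  intro n
  induction n using Nat.recOnPrimePow with
  | zero => simp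
  | one => simp
  | prime_pow_mul a p k hp hpa hk ih =>
    have hcop : (p ^ k).Coprime a := Nat.Coprime.pow_left k ((Nat.Prime.coprime_iff_not_dvd hp).2 hpa)
    rw [Nat.totient_mul hcop, Nat.Coprime.card_divisors_mul hcop, Nat.totient_prime_pow hp hk,
      Nat.divisors_prime_pow hp, Finset.card_map, Finset.card_range]
    have h1 : p ^ k ≤ p ^ (k - 1) * (p - 1) * (k + 1) := by
      obtain ⟨j, rfl⟩ : ∃ j, k = j + 1 := ⟨k - 1, by omega⟩
      rw [Nat.add_sub_cancel, pow_succ, mul_assoc]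
      refine Nat.mul_le_mul_left _ ?_
      have h2 := hp.two_le
      calc p ≤ (p - 1) * 2 := by omega
        _ ≤ (p - 1) * (j + 1 + 1) := Nat.mul_le_mul_left _ (by omega)
    calc p ^ k * a ≤ (p ^ (k - 1) * (p - 1) * (k + 1)) * (a.totient * a.divisors.card) :=
          Nat.mul_le_mul h1 ih
      _ = _ := by ring

theorem inv_totient_le {n : ℕ} (hn : 0 < n) : 1 / ((n.totient : ℕ) : ℝ) ≤ tau n / n := by
  have h1 : (0 : ℝ) < ((n.totient : ℕ) : ℝ) := by exact_mod_cast Nat.totient_pos.2 hn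
  have h2 : (0 : ℝ) < n := by exact_mod_cast hn
  rw [div_le_div_iff₀ h1 h2, one_mul]
  have h3 := le_totient_mul_tau n
  have h4 : (n : ℝ) ≤ ((n.totient : ℕ) : ℝ) * (n.divisors.card : ℝ) := by exact_mod_cast h3
  unfold tau
  linarith [mul_comm ((n.totient : ℕ) : ℝ) (n.divisors.card : ℝ)]

theorem inv_totient_sub_nonneg {n : ℕ} (hn : 0 < n) : 0 ≤ 1 / ((n.totient : ℕ) : ℝ) - 1 / n := by
  have h1 : (0 : ℝ) < ((n.totient : ℕ) : ℝ) := by exact_mod_cast Nat.totient_pos.2 hn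
  have h2 : ((n.totient : ℕ) : ℝ) ≤ n := by exact_mod_cast Nat.totient_le n
  rw [sub_nonneg]
  exact one_div_le_one_div_of_le h1 h2

/-- `n/φ(n) - 1 ≤ τ(n)^2/z` if all prime factors of `n` are `≥ z` -/
theorem ratio_sub_one_le (hz : 1 ≤ z) : ∀ n : ℕ, 0 < n →
    (∀ p : ℕ, p.Prime → p ∣ n → z ≤ (p : ℝ)) →
    (n : ℝ) / ((n.totient : ℕ) : ℝ) - 1 ≤ tau n ^ 2 / z := by
  intro n
  have hz0 : 0 < z := by linarith
  induction n using Nat.recOnPrimePow with
  | zero => intro h; omega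
  | one =>
    intro _ _
    simp only [Nat.cast_one, Nat.totient_one, div_one, sub_self]
    positivity
  | prime_pow_mul a p k hp hpa hk ih =>
    intro hn hr
    have ha : 0 < a := Nat.pos_of_ne_zero (by rintro rfl; simp at hn)
    have hcop : (p ^ k).Coprime a := Nat.Coprime.pow_left k ((Nat.Prime.coprime_iff_not_dvd hp).2 hpa)
    have ih' := ih ha (fun q hq hqa => hr q hq (Dvd.dvd.mul_left hqa _))
    have hpz : z ≤ (p : ℝ) := hr p hp (Dvd.dvd.mul_right (dvd_pow_self p hk.ne') _)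
    have htau : tau (p ^ k * a) = (k + 1) * tau a := by
      unfold tau
      rw [Nat.Coprime.card_divisors_mul hcop, Nat.divisors_prime_pow hp, Finset.card_map,
        Finset.card_range]
      push_cast
      ring
    have htot : ((p ^ k * a : ℕ) : ℝ) / (((p ^ k * a).totient : ℕ) : ℝ) =
        (1 + 1 / ((p : ℝ) - 1)) * ((a : ℝ) / ((a.totient : ℕ) : ℝ)) := by
      rw [Nat.totient_mul hcop, Nat.totient_prime_pow hp hk]
      obtain ⟨j, rfl⟩ : ∃ j, k = j + 1 := ⟨k - 1, by omega⟩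
      have h2 := hp.two_le
      have hp1 : ((p - 1 : ℕ) : ℝ) = (p : ℝ) - 1 := by
        rw [Nat.cast_sub (by omega)]
        norm_num
      have hp0 : (0 : ℝ) < (p : ℝ) - 1 := by
        have : (2 : ℝ) ≤ p := by exact_mod_cast h2
        linarith
      have hpp : (0 : ℝ) < p := by linarith
      have hat : (0 : ℝ) < ((a.totient : ℕ) : ℝ) := by exact_mod_cast Nat.totient_pos.2 ha
      rw [Nat.add_sub_cancel]
      push_cast
      rw [hp1]
      field_simp
      ring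
    have hp2 : (2 : ℝ) ≤ p := by exact_mod_cast hp.two_le
    have h1 : 1 / ((p : ℝ) - 1) ≤ 2 / z := by
      rw [div_le_div_iff₀ (by linarith) hz0]
      linarith
    have h2 : (a : ℝ) / ((a.totient : ℕ) : ℝ) ≤ tau a := by
      have h3 := inv_totient_le ha
      have ha0 : (0 : ℝ) < a := by exact_mod_cast ha
      rw [le_div_iff₀ ha0] at h3
      calc (a : ℝ) / ((a.totient : ℕ) : ℝ) = 1 / ((a.totient : ℕ) : ℝ) * a := by ring
        _ ≤ tau a := h3
    have h3 : 1 ≤ tau a := by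
      unfold tau
      have : 0 < a.divisors.card := Finset.card_pos.2 ⟨1, Nat.mem_divisors.2 ⟨one_dvd _, ha.ne'⟩⟩
      exact_mod_cast this
    have h4 : 0 ≤ (a : ℝ) / ((a.totient : ℕ) : ℝ) := by positivity
    rw [htot, htau]
    have hk1 : (1 : ℝ) ≤ k := by exact_mod_cast hk
    have h5 : 1 / ((p : ℝ) - 1) * ((a : ℝ) / ((a.totient : ℕ) : ℝ)) ≤ 2 / z * tau a :=
      mul_le_mul h1 h2 h4 (by positivity)
    have h6 : (2 * tau a) ^ 2 / z ≤ (((k : ℝ) + 1) * tau a) ^ 2 / z := by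
      gcongr
      linarith
    have h7 : tau a ^ 2 / z + 2 / z * tau a ≤ (2 * tau a) ^ 2 / z := by
      rw [← mul_div_right_comm, ← add_div]
      gcongr
      nlinarith
    linarith

theorem inv_totient_sub_le {n : ℕ} (hn : 0 < n) (hz : 1 ≤ z)
    (hr : ∀ p : ℕ, p.Prime → p ∣ n → z ≤ (p : ℝ)) :
    1 / ((n.totient : ℕ) : ℝ) - 1 / n ≤ tau n ^ 2 / (z * n) := by
  have h := ratio_sub_one_le hz n hn hr
  have hn0 : (0 : ℝ) < n := by exact_mod_cast hn
  have h1 : 1 / ((n.totient : ℕ) : ℝ) - 1 / n = ((n : ℝ) / ((n.totient : ℕ) : ℝ) - 1) / n := by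
    have h2 : (0 : ℝ) < ((n.totient : ℕ) : ℝ) := by exact_mod_cast Nat.totient_pos.2 hn
    field_simp
  rw [h1]
  calc ((n : ℝ) / ((n.totient : ℕ) : ℝ) - 1) / n ≤ (tau n ^ 2 / z) / n := by gcongr
    _ = tau n ^ 2 / (z * n) := by rw [div_div]

/-- pointwise bound of `1/φ(uv)` -/
theorem phi_le (hT : ∀ n : ℕ, 0 < n → n ≤ X → tau n ≤ T) (hU : 1 ≤ U) (hV : 1 ≤ V)
    (hX : 4 * U * V ≤ X) {u v : ℕ} (hu : u ∈ Ico U (2 * U)) (hv : v ∈ Ico V (2 * V)) :
    0 < u * v ∧ u * v ≤ X ∧ 1 / (((u * v).totient : ℕ) : ℝ) ≤ T * (1 / u * (1 / v)) := by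
  rw [mem_Ico] at hu hv
  have h0 : 0 < u * v := Nat.mul_pos (by omega) (by omega)
  have h1 : u * v ≤ X := by
    calc u * v ≤ (2 * U) * (2 * V) := Nat.mul_le_mul (by omega) (by omega)
      _ = 4 * U * V := by ring
      _ ≤ X := hX
  refine ⟨h0, h1, (inv_totient_le h0).trans ?_⟩
  have h2 := hT _ h0 h1
  have h3 : (0 : ℝ) < ((u * v : ℕ) : ℝ) := by exact_mod_cast h0
  calc tau (u * v) / ((u * v : ℕ) : ℝ) ≤ T / ((u * v : ℕ) : ℝ) := by gcongr
    _ = T * (1 / u * (1 / v)) := by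
      push_cast
      rw [div_mul_div_comm, one_mul, div_eq_mul_one_div]

/-- `∑ 1/φ(uv) ≤ T` -/
theorem sum_phi_le (hT : ∀ n : ℕ, 0 < n → n ≤ X → tau n ≤ T) (hU : 1 ≤ U) (hV : 1 ≤ V)
    (hX : 4 * U * V ≤ X) :
    ∑ u ∈ Ico U (2 * U), ∑ v ∈ Ico V (2 * V), 1 / (((u * v).totient : ℕ) : ℝ) ≤ T := by
  have hX1 : 1 ≤ X := by
    have : 1 ≤ 4 * U * V := Nat.mul_pos (by omega) (by omega)
    omega
  have hT1 := one_le_T hT hX1
  calc ∑ u ∈ Ico U (2 * U), ∑ v ∈ Ico V (2 * V), 1 / (((u * v).totient : ℕ) : ℝ)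
      ≤ ∑ u ∈ Ico U (2 * U), ∑ v ∈ Ico V (2 * V), T * (1 / u * (1 / v)) :=
        sum_le_sum fun u hu => sum_le_sum fun v hv => (phi_le hT hU hV hX hu hv).2.2
    _ = T * ((∑ u ∈ Ico U (2 * U), (1 : ℝ) / u) * ∑ v ∈ Ico V (2 * V), (1 : ℝ) / v) := by
        rw [Finset.sum_mul_sum, Finset.mul_sum]
        refine sum_congr rfl fun u _ => ?_
        rw [Finset.mul_sum]
    _ ≤ T * (1 * 1) := by
        have h1 := sum_inv_le U hU
        have h2 := sum_inv_le V hV
        gcongr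
    _ = T := by ring

/-- `∑_{p ∣ uv} 1/φ(uv) ≤ 6T/p`, `p` prime -/
theorem sum_phi_dvd_le (hT : ∀ n : ℕ, 0 < n → n ≤ X → tau n ≤ T) (hU : 1 ≤ U) (hV : 1 ≤ V)
    (hX : 4 * U * V ≤ X) {p : ℕ} (hp : p.Prime) :
    ∑ u ∈ Ico U (2 * U), ∑ v ∈ Ico V (2 * V),
      (if p ∣ u * v then 1 / (((u * v).totient : ℕ) : ℝ) else 0) ≤ 6 * T / p := by
  have hX1 : 1 ≤ X := by
    have : 1 ≤ 4 * U * V := Nat.mul_pos (by omega) (by omega)
    omega
  have hT1 := one_le_T hT hX1
  have hT0 : 0 ≤ T := by linarith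
  have hp1 : 1 ≤ p := hp.one_lt.le
  calc ∑ u ∈ Ico U (2 * U), ∑ v ∈ Ico V (2 * V),
      (if p ∣ u * v then 1 / (((u * v).totient : ℕ) : ℝ) else 0)
      ≤ ∑ u ∈ Ico U (2 * U), ∑ v ∈ Ico V (2 * V),
          T * ((if p ∣ u then (1 : ℝ) / u else 0) * (1 / v) +
            1 / u * (if p ∣ v then (1 : ℝ) / v else 0)) := by
        refine sum_le_sum fun u hu => sum_le_sum fun v hv => ?_
        obtain ⟨h0, _, h2⟩ := phi_le hT hU hV hX hu hv
        by_cases h : p ∣ u * v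
        · rw [if_pos h]
          refine h2.trans (mul_le_mul_of_nonneg_left ?_ hT0)
          rcases (hp.dvd_mul).1 h with h3 | h3
          · rw [if_pos h3]
            have : 0 ≤ 1 / (u : ℝ) * (if p ∣ v then (1 : ℝ) / v else 0) := by
              split_ifs <;> positivity
            linarith
          · rw [if_pos h3]
            have : 0 ≤ (if p ∣ u then (1 : ℝ) / u else 0) * (1 / (v : ℝ)) := by
              split_ifs <;> positivity
            linarith
        · rw [if_neg h]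
          refine mul_nonneg hT0 (add_nonneg ?_ ?_)
          · split_ifs <;> positivity
          · split_ifs <;> positivity
    _ = T * ((∑ u ∈ Ico U (2 * U), (if p ∣ u then (1 : ℝ) / u else 0)) *
          (∑ v ∈ Ico V (2 * V), (1 : ℝ) / v) +
          (∑ u ∈ Ico U (2 * U), (1 : ℝ) / u) *
            ∑ v ∈ Ico V (2 * V), (if p ∣ v then (1 : ℝ) / v else 0)) := by
        rw [Finset.sum_mul_sum, Finset.sum_mul_sum, ← Finset.sum_add_distrib, Finset.mul_sum]
        refine sum_congr rfl fun u _ => ?_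
        rw [← Finset.sum_add_distrib, Finset.mul_sum]
    _ ≤ T * (3 / p * 1 + 1 * (3 / p)) := by
        have h1 := sum_inv_le U hU
        have h2 := sum_inv_le V hV
        have h3 := sum_inv_mult_le U p hU hp1
        have h4 := sum_inv_mult_le V p hV hp1
        have h5 : 0 ≤ ∑ v ∈ Ico V (2 * V), (1 : ℝ) / v := sum_nonneg fun _ _ => by positivity
        have h6 : 0 ≤ ∑ v ∈ Ico V (2 * V), (if p ∣ v then (1 : ℝ) / v else 0) :=
          sum_nonneg fun _ _ => by split_ifs <;> positivity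
        refine mul_le_mul_of_nonneg_left (add_le_add ?_ ?_) hT0
        · exact mul_le_mul h3 h2 h5 (by positivity)
        · exact mul_le_mul h1 h4 h6 (by norm_num)
    _ = 6 * T / p := by ring

/-- `∑_{(k, uv) > 1, uv rough} 1/φ(uv) ≤ 6T²/z` -/
theorem sum_phi_ncop_le (hT : ∀ n : ℕ, 0 < n → n ≤ X → tau n ≤ T) (hU : 1 ≤ U) (hV : 1 ≤ V)
    (hX : 4 * U * V ≤ X) (hz : 1 ≤ z) {k : ℕ} (hk : 0 < k) (hkX : k ≤ X) :
    ∑ u ∈ Ico U (2 * U), ∑ v ∈ Ico V (2 * V),
      (if Rg z u v ∧ ¬ k.Coprime (u * v) then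
        1 / (((u * v).totient : ℕ) : ℝ) else 0) ≤ 6 * T ^ 2 / z := by
  classical
  have hX1 : 1 ≤ X := by
    have : 1 ≤ 4 * U * V := Nat.mul_pos (by omega) (by omega)
    omega
  have hT1 := one_le_T hT hX1
  have hz0 : 0 < z := by linarith
  set P := k.primeFactors.filter (fun p : ℕ => z ≤ (p : ℝ)) with hP
  calc ∑ u ∈ Ico U (2 * U), ∑ v ∈ Ico V (2 * V),
      (if Rg z u v ∧ ¬ k.Coprime (u * v) then 1 / (((u * v).totient : ℕ) : ℝ) else 0)
      ≤ ∑ u ∈ Ico U (2 * U), ∑ v ∈ Ico V (2 * V), ∑ p ∈ P,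
          (if p ∣ u * v then 1 / (((u * v).totient : ℕ) : ℝ) else 0) := by
        refine sum_le_sum fun u hu => sum_le_sum fun v hv => ?_
        by_cases h : Rg z u v ∧ ¬ k.Coprime (u * v)
        · rw [if_pos h]
          obtain ⟨hr, hc⟩ := h
          obtain ⟨p, hp, hpk, hpuv⟩ := Nat.Prime.not_coprime_iff_dvd.1 hc
          have hpP : p ∈ P := mem_filter.2 ⟨Nat.mem_primeFactors.2 ⟨hp, hpk, hk.ne'⟩, hr p hp hpuv⟩
          have h1 : 1 / (((u * v).totient : ℕ) : ℝ) =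
              (if p ∣ u * v then 1 / (((u * v).totient : ℕ) : ℝ) else 0) := by rw [if_pos hpuv]
          exact h1.le.trans (Finset.single_le_sum (f := fun p : ℕ =>
            (if p ∣ u * v then 1 / (((u * v).totient : ℕ) : ℝ) else 0))
            (fun q _ => by split_ifs <;> positivity) hpP)
        · rw [if_neg h]
          exact sum_nonneg fun q _ => by split_ifs <;> positivity
    _ = ∑ p ∈ P, ∑ u ∈ Ico U (2 * U), ∑ v ∈ Ico V (2 * V),
          (if p ∣ u * v then 1 / (((u * v).totient : ℕ) : ℝ) else 0) := by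
        rw [Finset.sum_comm]
        conv_rhs => rw [Finset.sum_comm]
        rw [Finset.sum_comm]
        refine sum_congr rfl fun u _ => ?_
        rw [Finset.sum_comm]
    _ ≤ ∑ p ∈ P, 6 * T / z := by
        refine sum_le_sum fun p hp => ?_
        rw [hP, mem_filter] at hp
        have hpp := Nat.prime_of_mem_primeFactors hp.1
        refine (sum_phi_dvd_le hT hU hV hX hpp).trans ?_
        have : (0 : ℝ) < p := by exact_mod_cast hpp.pos
        gcongr
        exact hp.2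
    _ ≤ T * (6 * T / z) := by
        rw [sum_const, nsmul_eq_mul]
        refine mul_le_mul_of_nonneg_right ?_ (by positivity)
        refine le_trans ?_ (hT k hk hkX)
        unfold tau
        have : P.card ≤ k.divisors.card := by
          refine card_le_card fun p hp => ?_
          rw [hP, mem_filter] at hp
          exact Nat.mem_divisors.2 ⟨Nat.dvd_of_mem_primeFactors hp.1, hk.ne'⟩
        exact_mod_cast this
    _ = 6 * T ^ 2 / z := by ring

/-- `∑ (1/φ(uv) - 1/(uv)) ≤ T²/z` over rough `uv` -/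
theorem sum_phi_sub_le (hT : ∀ n : ℕ, 0 < n → n ≤ X → tau n ≤ T) (hU : 1 ≤ U) (hV : 1 ≤ V)
    (hX : 4 * U * V ≤ X) (hz : 1 ≤ z) :
    ∑ u ∈ Ico U (2 * U), ∑ v ∈ Ico V (2 * V),
      (if Rg z u v then
        1 / (((u * v).totient : ℕ) : ℝ) - 1 / ((u : ℝ) * v) else 0) ≤ T ^ 2 / z := by
  have hX1 : 1 ≤ X := by
    have : 1 ≤ 4 * U * V := Nat.mul_pos (by omega) (by omega)
    omega
  have hT1 := one_le_T hT hX1
  have hz0 : 0 < z := by linarith
  calc ∑ u ∈ Ico U (2 * U), ∑ v ∈ Ico V (2 * V),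
      (if Rg z u v then 1 / (((u * v).totient : ℕ) : ℝ) - 1 / ((u : ℝ) * v) else 0)
      ≤ ∑ u ∈ Ico U (2 * U), ∑ v ∈ Ico V (2 * V), T ^ 2 / z * (1 / u * (1 / v)) := by
        refine sum_le_sum fun u hu => sum_le_sum fun v hv => ?_
        obtain ⟨h0, h1, _⟩ := phi_le hT hU hV hX hu hv
        split_ifs with h
        · have h2 := inv_totient_sub_le h0 hz h
          have h3 := hT _ h0 h1
          have h4 : (0 : ℝ) ≤ tau (u * v) := by unfold tau; positivity
          have h5 : (0 : ℝ) < ((u * v : ℕ) : ℝ) := by exact_mod_cast h0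
          calc 1 / (((u * v).totient : ℕ) : ℝ) - 1 / ((u : ℝ) * v)
              = 1 / (((u * v).totient : ℕ) : ℝ) - 1 / ((u * v : ℕ) : ℝ) := by push_cast; ring
            _ ≤ tau (u * v) ^ 2 / (z * ((u * v : ℕ) : ℝ)) := h2
            _ ≤ T ^ 2 / (z * ((u * v : ℕ) : ℝ)) := by gcongr
            _ = T ^ 2 / z * (1 / u * (1 / v)) := by
              push_cast
              rw [div_mul_div_comm, div_mul_div_comm]
              ring
        · positivity
    _ = T ^ 2 / z * ((∑ u ∈ Ico U (2 * U), (1 : ℝ) / u) * ∑ v ∈ Ico V (2 * V), (1 : ℝ) / v) := by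
        rw [Finset.sum_mul_sum, Finset.mul_sum]
        refine sum_congr rfl fun u _ => ?_
        rw [Finset.mul_sum]
    _ ≤ T ^ 2 / z * (1 * 1) := by
        have h1 := sum_inv_le U hU
        have h2 := sum_inv_le V hV
        gcongr
    _ = T ^ 2 / z := by ring

end

end Pool.Agent.ZH.D
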