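import Pool.Agent.Work.ZH.D.Setup
import Pool.Agent.Work.ZH.D.Count

/-! # Module Bad: the tuples which are not good, by divisor bounds

Only tuples with `c m u₁ v₁ ≠ 0 ≠ c m u₂ v₂` count. If `¬ Gd` and one of the four sums is not zero then
`l ≡ l' mod m`, `(l, m u₁ v₁) = 1 = (l', m u₂ v₂)`, hence `l = l'` or `(u₁ v₁, u₂ v₂) > 1`; in the second case
a prime `p ≥ z` divides both. Counting: for given `(k,l)` the `(m,u₁,v₁)` with `k l ≡ 1 mod m u₁ v₁` number at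
most `τ(kl-1)^3 ≤ T^3` (`kl ≠ 1`), `l' ≡ l mod m p`: `≤ L/(M p) + 1`, `(u₂,v₂)` with `u₂ v₂ | k l' - 1`: `≤ T^2`.
With `G2` use `∑ 1/φ(u₂ v₂) ≤ T`, `∑_{p | u₂ v₂} 1/φ(u₂ v₂) ≤ 6 T/p`. -/

namespace Pool.Agent.ZH.D

open Finset

namespace BadAux

/-- `G1 + G2` -/
noncomputable def g (m u v k l : ℕ) : ℝ := G1 m u v k l + G2 m u v k l

theorem G1n (m u v k l : ℕ) : 0 ≤ G1 m u v k l := by
  unfold G1; split_ifs <;> norm_num

theorem G2n (m u v k l : ℕ) : 0 ≤ G2 m u v k l := by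
  unfold G2; split_ifs
  · positivity
  · norm_num

theorem gn (m u v k l : ℕ) : 0 ≤ g m u v k l := add_nonneg (G1n _ _ _ _ _) (G2n _ _ _ _ _)

theorem g_ne {m u v k l : ℕ} (h : g m u v k l ≠ 0) :
    k * l ≡ 1 [MOD m] ∧ (k * l).Coprime (u * v) := by
  by_cases h1 : k * l ≡ 1 [MOD m * u * v]
  · refine ⟨h1.of_dvd (by rw [mul_assoc]; exact Dvd.intro _ rfl), ?_⟩
    have h2 : k * l ≡ 1 [MOD u * v] := h1.of_dvd (by rw [mul_assoc]; exact Dvd.intro_left _ rfl)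
    have := h2.gcd_eq
    rw [Nat.Coprime, this]
    simp
  · by_cases h2 : k * l ≡ 1 [MOD m] ∧ (k * l).Coprime (u * v)
    · exact h2
    · exfalso
      apply h
      unfold g G1 G2
      rw [if_neg h1, if_neg h2, add_zero]

theorem modEq_dvd {q n : ℕ} (hn : 1 ≤ n) (h : n ≡ 1 [MOD q]) : q ∣ n - 1 :=
  (Nat.modEq_iff_dvd' hn).1 h.symm

theorem tri_pos_imp {N k₀ k : ℕ} (h : tri N k₀ k ≠ 0) : k₀ ≤ k := by
  by_contra hk
  push Not at hk
  apply h
  unfold tri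
  rw [Finset.filter_false_of_mem, Finset.card_empty]
  · simp
  · intro p _ hp
    omega

/-- the pairs for a common prime -/
noncomputable def J (z : ℝ) (u₁ v₁ u₂ v₂ : ℕ) : ℝ :=
  ∑ p ∈ (u₁ * v₁).primeFactors.filter (fun p : ℕ => z ≤ (p : ℝ)), (if p ∣ u₂ * v₂ then (1 : ℝ) else 0)

theorem Jn (z : ℝ) (u₁ v₁ u₂ v₂ : ℕ) : 0 ≤ J z u₁ v₁ u₂ v₂ :=
  Finset.sum_nonneg fun p _ => by split_ifs <;> norm_num

theorem cop_of_modEq {k l m : ℕ} (h : k * l ≡ 1 [MOD m]) : (k * l).Coprime m := by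
  have := h.gcd_eq
  rw [Nat.Coprime, this]
  simp

/-- pointwise: a bad tuple with nonzero weight is diagonal or has a common prime -/
theorem bad_pt {M U V K L X : ℕ} {z T : ℝ} {c : ℕ → ℕ → ℕ → ℝ} (S : Setup M U V K L X z T c)
    {m u₁ v₁ u₂ v₂ l l' k : ℕ} (h0 : u₁ * v₁ ≠ 0) (hb : ¬ Gd m u₁ v₁ u₂ v₂ l l')
    (h1 : c m u₁ v₁ ≠ 0) :
    g m u₁ v₁ k l * g m u₂ v₂ k l' ≤ g m u₁ v₁ k l * (((if l = l' then 1 else 0) + J z u₁ v₁ u₂ v₂) *
      g m u₂ v₂ k l') := by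
  by_cases hg1 : g m u₁ v₁ k l = 0
  · rw [hg1]; simp
  by_cases hg2 : g m u₂ v₂ k l' = 0
  · rw [hg2]; simp
  have hp1 : 0 < g m u₁ v₁ k l := lt_of_le_of_ne (gn _ _ _ _ _) (Ne.symm hg1)
  have hp2 : 0 < g m u₂ v₂ k l' := lt_of_le_of_ne (gn _ _ _ _ _) (Ne.symm hg2)
  obtain ⟨a1, a2⟩ := g_ne hg1
  obtain ⟨b1, b2⟩ := g_ne hg2
  have key : (1 : ℝ) ≤ (if l = l' then 1 else 0) + J z u₁ v₁ u₂ v₂ := by
    by_cases hl : l = l'
    · rw [if_pos hl]
      linarith [Jn z u₁ v₁ u₂ v₂]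
    · rw [if_neg hl, zero_add]
      have hk : k.Coprime m := Nat.Coprime.coprime_mul_right (cop_of_modEq a1)
      have hll : l ≡ l' [MOD m] := Nat.ModEq.cancel_left_of_coprime (c := k)
        (by rw [Nat.gcd_comm]; exact hk) (a1.trans b1.symm)
      have hc1 : l.Coprime (m * u₁ * v₁) := by
        rw [mul_assoc]
        exact Nat.Coprime.mul_right (Nat.Coprime.coprime_mul_left (cop_of_modEq a1))
          (Nat.Coprime.coprime_mul_left a2)
      have hc2 : l'.Coprime (m * u₂ * v₂) := by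
        rw [mul_assoc]
        exact Nat.Coprime.mul_right (Nat.Coprime.coprime_mul_left (cop_of_modEq b1))
          (Nat.Coprime.coprime_mul_left b2)
      have hnc : ¬ (u₁ * v₁).Coprime (u₂ * v₂) := fun h => hb ⟨h, hl, hll, hc1, hc2⟩
      obtain ⟨p, hp, hpa, hpb⟩ := Nat.Prime.not_coprime_iff_dvd.1 hnc
      have hz : z ≤ (p : ℝ) := S.c_rough _ _ _ h1 p hp hpa
      have hmem : p ∈ (u₁ * v₁).primeFactors.filter (fun p : ℕ => z ≤ (p : ℝ)) := by
        rw [Finset.mem_filter, Nat.mem_primeFactors]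
        exact ⟨⟨hp, hpa, h0⟩, hz⟩
      unfold J
      calc (1 : ℝ) = (if p ∣ u₂ * v₂ then (1 : ℝ) else 0) := by rw [if_pos hpb]
        _ ≤ _ := Finset.single_le_sum (f := fun p : ℕ => (if p ∣ u₂ * v₂ then (1 : ℝ) else 0))
          (fun q _ => by split_ifs <;> norm_num) hmem
  calc g m u₁ v₁ k l * g m u₂ v₂ k l' = g m u₁ v₁ k l * (1 * g m u₂ v₂ k l') := by ring
    _ ≤ _ := by
      apply mul_le_mul_of_nonneg_left _ hp1.le
      exact mul_le_mul_of_nonneg_right key hp2.le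

section

variable {M U V K L X : ℕ} {T z : ℝ}

/-- fixed modulus: the pairs -/
theorem sum_pair_g (hT : ∀ n : ℕ, 0 < n → n ≤ X → tau n ≤ T) (hU : 1 ≤ U) (hV : 1 ≤ V)
    (hX : 4 * U * V ≤ X) (hT1 : 1 ≤ T) (m k l : ℕ) (h2 : 2 ≤ k * l) (hkl : k * l ≤ X) :
    ∑ u ∈ Ico U (2 * U), ∑ v ∈ Ico V (2 * V), g m u v k l ≤
      (if m ∣ k * l - 1 then 2 * T ^ 2 else 0) := by
  by_cases hm : m ∣ k * l - 1
  · rw [if_pos hm]
    have e1 : ∑ u ∈ Ico U (2 * U), ∑ v ∈ Ico V (2 * V), G1 m u v k l ≤ T ^ 2 := by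
      refine le_trans ?_ (sum_pair_le hT (Ico U (2 * U)) (Ico V (2 * V)) (n := k * l - 1)
        (by omega) (by omega))
      refine Finset.sum_le_sum fun u _ => Finset.sum_le_sum fun v _ => ?_
      unfold G1
      by_cases h : k * l ≡ 1 [MOD m * u * v]
      · rw [if_pos h, if_pos]
        exact (Dvd.intro_left m (by ring)).trans (modEq_dvd (by omega) h)
      · rw [if_neg h]; split_ifs <;> norm_num
    have e2 : ∑ u ∈ Ico U (2 * U), ∑ v ∈ Ico V (2 * V), G2 m u v k l ≤ T := by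
      refine le_trans ?_ (sum_phi_le hT hU hV hX)
      refine Finset.sum_le_sum fun u _ => Finset.sum_le_sum fun v _ => ?_
      unfold G2
      split_ifs
      · exact le_rfl
      · positivity
    have : ∑ u ∈ Ico U (2 * U), ∑ v ∈ Ico V (2 * V), g m u v k l =
        ∑ u ∈ Ico U (2 * U), ∑ v ∈ Ico V (2 * V), G1 m u v k l +
        ∑ u ∈ Ico U (2 * U), ∑ v ∈ Ico V (2 * V), G2 m u v k l := by
      simp only [g, Finset.sum_add_distrib]
    rw [this]
    nlinarith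
  · rw [if_neg hm]
    refine le_of_eq (Finset.sum_eq_zero fun u _ => Finset.sum_eq_zero fun v _ => ?_)
    by_contra h
    exact hm (modEq_dvd (by omega) (g_ne h).1)

theorem sum_triple_g (hT : ∀ n : ℕ, 0 < n → n ≤ X → tau n ≤ T) (hU : 1 ≤ U) (hV : 1 ≤ V)
    (hX : 4 * U * V ≤ X) (hT1 : 1 ≤ T) (k l : ℕ) (h2 : 2 ≤ k * l) (hkl : k * l ≤ X) :
    ∑ m ∈ Ico M (2 * M), ∑ u ∈ Ico U (2 * U), ∑ v ∈ Ico V (2 * V), g m u v k l ≤ 2 * T ^ 3 := by
  calc ∑ m ∈ Ico M (2 * M), ∑ u ∈ Ico U (2 * U), ∑ v ∈ Ico V (2 * V), g m u v k l ≤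
      ∑ m ∈ Ico M (2 * M), (if m ∣ k * l - 1 then 2 * T ^ 2 else 0) :=
        Finset.sum_le_sum fun m _ => sum_pair_g hT hU hV hX hT1 m k l h2 hkl
    _ = (2 * T ^ 2) * ∑ m ∈ Ico M (2 * M), (if m ∣ k * l - 1 then (1 : ℝ) else 0) := by
        rw [Finset.mul_sum]
        refine Finset.sum_congr rfl fun m _ => ?_
        split_ifs <;> ring
    _ ≤ (2 * T ^ 2) * T := by
        apply mul_le_mul_of_nonneg_left _ (by positivity)
        exact sum_dvd_le hT _ (by omega) (by omega)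
    _ = 2 * T ^ 3 := by ring

/-- the `l'` with `k l' ≡ 1 mod q` -/
theorem sum_inv_modEq_le (L q k : ℕ) (hq : 1 ≤ q) :
    ∑ l' ∈ Ico L (2 * L), (if k * l' ≡ 1 [MOD q] then (1 : ℝ) else 0) ≤ (L : ℝ) / q + 1 := by
  by_cases h : ∃ l₀, k * l₀ ≡ 1 [MOD q]
  · obtain ⟨l₀, h0⟩ := h
    refine le_trans ?_ (sum_modEq_le L q l₀ hq)
    refine Finset.sum_le_sum fun l' _ => ?_
    by_cases h1 : k * l' ≡ 1 [MOD q]
    · rw [if_pos h1, if_pos]
      have hk : k.Coprime q := Nat.Coprime.coprime_mul_right (cop_of_modEq h0)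
      exact Nat.ModEq.cancel_left_of_coprime (c := k)
        (by rw [Nat.gcd_comm]; exact hk) (h0.trans h1.symm)
    · rw [if_neg h1]; split_ifs <;> norm_num
  · push Not at h
    rw [Finset.sum_eq_zero]
    · positivity
    · intro l' _
      rw [if_neg (h l')]

/-- the inner sum with a common prime -/
theorem sum_prime_g (hT : ∀ n : ℕ, 0 < n → n ≤ X → tau n ≤ T) (hU : 1 ≤ U) (hV : 1 ≤ V)
    (hX : 4 * U * V ≤ X) (hT1 : 1 ≤ T) (hM : 1 ≤ M) (hML : M ≤ L) (hL : 1 ≤ L) (hz : 1 ≤ z)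
    {m k p : ℕ} (hm : M ≤ m)
    (hk : 2 ≤ k) (hkl : k * (2 * L) ≤ X) (hp : p.Prime) (hzp : z ≤ (p : ℝ)) :
    ∑ l' ∈ Ico L (2 * L), ∑ u ∈ Ico U (2 * U), ∑ v ∈ Ico V (2 * V),
      (if p ∣ u * v then (1 : ℝ) else 0) * g m u v k l' ≤
      13 * T ^ 2 * ((L : ℝ) / M * (1 / z + M / L)) := by
  have hMr : (0 : ℝ) < M := by exact_mod_cast hM
  have hLr : (0 : ℝ) < L := by exact_mod_cast hL
  have hz0 : 0 < z := by linarith
  have hpr : (0 : ℝ) < p := by linarith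
  have hmr : (0 : ℝ) < m := by exact_mod_cast (lt_of_lt_of_le hM hm)
  have hMm : (M : ℝ) ≤ m := by exact_mod_cast hm
  have e1 : ∑ l' ∈ Ico L (2 * L), ∑ u ∈ Ico U (2 * U), ∑ v ∈ Ico V (2 * V),
      (if p ∣ u * v then (1 : ℝ) else 0) * G1 m u v k l' ≤ T ^ 2 * ((L : ℝ) / ((m * p : ℕ) : ℝ) + 1) := by
    calc ∑ l' ∈ Ico L (2 * L), ∑ u ∈ Ico U (2 * U), ∑ v ∈ Ico V (2 * V),
          (if p ∣ u * v then (1 : ℝ) else 0) * G1 m u v k l' ≤
        ∑ l' ∈ Ico L (2 * L), (if k * l' ≡ 1 [MOD m * p] then T ^ 2 else 0) := by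
          refine Finset.sum_le_sum fun l' hl' => ?_
          rw [Finset.mem_Ico] at hl'
          have hkl2 : 2 ≤ k * l' := by nlinarith
          have hklX : k * l' ≤ X := le_trans (Nat.mul_le_mul_left k hl'.2.le) hkl
          by_cases h1 : k * l' ≡ 1 [MOD m * p]
          · rw [if_pos h1]
            refine le_trans ?_ (sum_pair_le hT (Ico U (2 * U)) (Ico V (2 * V)) (n := k * l' - 1)
              (by omega) (by omega))
            refine Finset.sum_le_sum fun u _ => Finset.sum_le_sum fun v _ => ?_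
            unfold G1
            by_cases h : k * l' ≡ 1 [MOD m * u * v]
            · rw [if_pos h, if_pos ((Dvd.intro_left m (by ring)).trans (modEq_dvd (by omega) h))]
              split_ifs <;> norm_num
            · rw [if_neg h, mul_zero]; split_ifs <;> norm_num
          · rw [if_neg h1]
            refine le_of_eq (Finset.sum_eq_zero fun u _ => Finset.sum_eq_zero fun v _ => ?_)
            by_cases hpu : p ∣ u * v
            · rw [if_pos hpu, one_mul]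
              unfold G1
              rw [if_neg]
              intro h
              apply h1
              refine h.of_dvd ?_
              rw [mul_assoc]
              exact Nat.mul_dvd_mul_left m hpu
            · rw [if_neg hpu, zero_mul]
      _ = T ^ 2 * ∑ l' ∈ Ico L (2 * L), (if k * l' ≡ 1 [MOD m * p] then (1 : ℝ) else 0) := by
          rw [Finset.mul_sum]
          refine Finset.sum_congr rfl fun m _ => ?_
          split_ifs <;> ring
      _ ≤ _ := by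
          apply mul_le_mul_of_nonneg_left _ (by positivity)
          exact sum_inv_modEq_le L (m * p) k (Nat.mul_pos (lt_of_lt_of_le hM hm) hp.pos)
  have e2 : ∑ l' ∈ Ico L (2 * L), ∑ u ∈ Ico U (2 * U), ∑ v ∈ Ico V (2 * V),
      (if p ∣ u * v then (1 : ℝ) else 0) * G2 m u v k l' ≤ (6 * T / p) * ((L : ℝ) / m + 1) := by
    calc ∑ l' ∈ Ico L (2 * L), ∑ u ∈ Ico U (2 * U), ∑ v ∈ Ico V (2 * V),
          (if p ∣ u * v then (1 : ℝ) else 0) * G2 m u v k l' ≤
        ∑ l' ∈ Ico L (2 * L), (if k * l' ≡ 1 [MOD m] then 6 * T / p else 0) := by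
          refine Finset.sum_le_sum fun l' hl' => ?_
          by_cases h1 : k * l' ≡ 1 [MOD m]
          · rw [if_pos h1]
            refine le_trans ?_ (sum_phi_dvd_le hT hU hV hX hp)
            refine Finset.sum_le_sum fun u _ => Finset.sum_le_sum fun v _ => ?_
            unfold G2
            by_cases hpu : p ∣ u * v
            · rw [if_pos hpu, if_pos hpu, one_mul]
              split_ifs
              · exact le_rfl
              · positivity
            · rw [if_neg hpu, if_neg hpu, zero_mul]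
          · rw [if_neg h1]
            refine le_of_eq (Finset.sum_eq_zero fun u _ => Finset.sum_eq_zero fun v _ => ?_)
            have hG : G2 m u v k l' = 0 := by
              unfold G2
              rw [if_neg]
              exact fun h => h1 h.1
            rw [hG, mul_zero]
      _ = (6 * T / p) * ∑ l' ∈ Ico L (2 * L), (if k * l' ≡ 1 [MOD m] then (1 : ℝ) else 0) := by
          rw [Finset.mul_sum]
          refine Finset.sum_congr rfl fun m _ => ?_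
          split_ifs <;> ring
      _ ≤ _ := by
          apply mul_le_mul_of_nonneg_left _ (by positivity)
          exact sum_inv_modEq_le L m k (lt_of_lt_of_le hM hm)
  have hsplit : ∑ l' ∈ Ico L (2 * L), ∑ u ∈ Ico U (2 * U), ∑ v ∈ Ico V (2 * V),
      (if p ∣ u * v then (1 : ℝ) else 0) * g m u v k l' =
      ∑ l' ∈ Ico L (2 * L), ∑ u ∈ Ico U (2 * U), ∑ v ∈ Ico V (2 * V),
        (if p ∣ u * v then (1 : ℝ) else 0) * G1 m u v k l' +
      ∑ l' ∈ Ico L (2 * L), ∑ u ∈ Ico U (2 * U), ∑ v ∈ Ico V (2 * V),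
        (if p ∣ u * v then (1 : ℝ) else 0) * G2 m u v k l' := by
    simp only [g, mul_add, Finset.sum_add_distrib]
  rw [hsplit]
  have b1 : (L : ℝ) / ((m * p : ℕ) : ℝ) ≤ L / M * (1 / z) := by
    rw [Nat.cast_mul, div_mul_div_comm, mul_one]
    gcongr
  have b2 : (L : ℝ) / m + 1 ≤ 2 * (L / M) := by
    have h1 : (L : ℝ) / m ≤ L / M := by gcongr
    have h2 : (1 : ℝ) ≤ L / M := by
      rw [le_div_iff₀ hMr, one_mul]; exact_mod_cast hML
    linarith
  have b3 : 6 * T / p ≤ 6 * T ^ 2 * (1 / z) := by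
    have h1 : 6 * T / p ≤ 6 * T ^ 2 / z := by
      gcongr
      nlinarith
    calc 6 * T / p ≤ 6 * T ^ 2 / z := h1
      _ = _ := by ring
  have hLM : (L : ℝ) / M * (1 / z + M / L) = L / M * (1 / z) + 1 := by
    field_simp
  rw [hLM]
  have e3 : (6 * T / p) * ((L : ℝ) / m + 1) ≤ (6 * T ^ 2 * (1 / z)) * (2 * (L / M)) := by
    apply mul_le_mul b3 b2 (by positivity) (by positivity)
  have e4 : T ^ 2 * ((L : ℝ) / ((m * p : ℕ) : ℝ) + 1) ≤ T ^ 2 * (L / M * (1 / z) + 1) := by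
    apply mul_le_mul_of_nonneg_left _ (by positivity)
    linarith
  have e5 : (0 : ℝ) ≤ T ^ 2 := by positivity
  nlinarith

end

theorem perm4 (A B C D : Finset ℕ) (f : ℕ → ℕ → ℕ → ℕ → ℝ) :
    ∑ a ∈ A, ∑ b ∈ B, ∑ c ∈ C, ∑ d ∈ D, f a b c d =
      ∑ c ∈ C, ∑ d ∈ D, ∑ a ∈ A, ∑ b ∈ B, f a b c d := by
  calc ∑ a ∈ A, ∑ b ∈ B, ∑ c ∈ C, ∑ d ∈ D, f a b c d =
      ∑ a ∈ A, ∑ c ∈ C, ∑ b ∈ B, ∑ d ∈ D, f a b c d :=
        Finset.sum_congr rfl fun a _ => Finset.sum_comm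
    _ = ∑ c ∈ C, ∑ a ∈ A, ∑ b ∈ B, ∑ d ∈ D, f a b c d := Finset.sum_comm
    _ = ∑ c ∈ C, ∑ a ∈ A, ∑ d ∈ D, ∑ b ∈ B, f a b c d :=
        Finset.sum_congr rfl fun c _ => Finset.sum_congr rfl fun a _ => Finset.sum_comm
    _ = ∑ c ∈ C, ∑ d ∈ D, ∑ a ∈ A, ∑ b ∈ B, f a b c d :=
        Finset.sum_congr rfl fun c _ => Finset.sum_comm

theorem perm5 (A B C D E : Finset ℕ) (f : ℕ → ℕ → ℕ → ℕ → ℕ → ℝ) :
    ∑ a ∈ A, ∑ b ∈ B, ∑ c ∈ C, ∑ d ∈ D, ∑ e ∈ E, f a b c d e =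
      ∑ e ∈ E, ∑ c ∈ C, ∑ d ∈ D, ∑ a ∈ A, ∑ b ∈ B, f a b c d e := by
  calc ∑ a ∈ A, ∑ b ∈ B, ∑ c ∈ C, ∑ d ∈ D, ∑ e ∈ E, f a b c d e =
      ∑ c ∈ C, ∑ d ∈ D, ∑ a ∈ A, ∑ b ∈ B, ∑ e ∈ E, f a b c d e :=
        perm4 A B C D (fun a b c d => ∑ e ∈ E, f a b c d e)
    _ = ∑ c ∈ C, ∑ d ∈ D, ∑ e ∈ E, ∑ a ∈ A, ∑ b ∈ B, f a b c d e := by
        refine Finset.sum_congr rfl fun c _ => Finset.sum_congr rfl fun d _ => ?_
        calc ∑ a ∈ A, ∑ b ∈ B, ∑ e ∈ E, f a b c d e = ∑ a ∈ A, ∑ e ∈ E, ∑ b ∈ B, f a b c d e :=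
              Finset.sum_congr rfl fun a _ => Finset.sum_comm
          _ = _ := Finset.sum_comm
    _ = ∑ c ∈ C, ∑ e ∈ E, ∑ d ∈ D, ∑ a ∈ A, ∑ b ∈ B, f a b c d e :=
        Finset.sum_congr rfl fun c _ => Finset.sum_comm
    _ = _ := Finset.sum_comm

theorem wtn (K k : ℕ) : 0 ≤ wt K k := by unfold wt tri; positivity

theorem wt1 {K : ℕ} (hK : 1 ≤ K) (k : ℕ) : wt K k ≤ 1 := by
  unfold wt tri
  have hKr : (0 : ℝ) < K := by exact_mod_cast hK
  rw [div_le_one hKr]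
  have : ((range K ×ˢ range K).filter (fun p => K / 2 + p.1 + p.2 = k)).card ≤ K := by
    calc ((range K ×ˢ range K).filter (fun p => K / 2 + p.1 + p.2 = k)).card ≤ (range K).card := by
          apply Finset.card_le_card_of_injOn (fun p => p.1)
          · intro p hp
            have := Finset.mem_coe.1 hp
            rw [Finset.mem_filter, Finset.mem_product] at this
            exact this.1.1
          · intro p hp q hq hpq
            have h1 := Finset.mem_coe.1 hp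
            have h2 := Finset.mem_coe.1 hq
            rw [Finset.mem_filter] at h1 h2
            have hpq' : p.1 = q.1 := hpq
            apply Prod.ext hpq'
            have := h1.2
            have := h2.2
            omega
      _ = K := Finset.card_range K
  exact_mod_cast this

/-- all pairs and `l'` together -/
theorem inner_le {M U V K L X : ℕ} {z T : ℝ} {c : ℕ → ℕ → ℕ → ℝ} (S : Setup M U V K L X z T c)
    {m u₁ v₁ k l : ℕ} (hT1 : 1 ≤ T) (hm : M ≤ m) (hu1 : 1 ≤ u₁) (hv1 : 1 ≤ v₁) (hu : u₁ < 2 * U)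
    (hv : v₁ < 2 * V) (hk : 2 ≤ k) (hk3 : k < 3 * K) (hl : l ∈ Ico L (2 * L)) :
    ∑ l' ∈ Ico L (2 * L), ∑ u₂ ∈ Ico U (2 * U), ∑ v₂ ∈ Ico V (2 * V),
      (((if l = l' then 1 else 0) + J z u₁ v₁ u₂ v₂) * g m u₂ v₂ k l') ≤
      15 * T ^ 3 * ((L : ℝ) / M * (1 / z + M / L)) := by
  have hT := S.tau_le
  have hU := S.posU
  have hV := S.posV
  have hM := S.posM
  have hL8 := S.L8
  have hML := S.ML
  have hz := S.z1
  have hX0 : 4 * U * V ≤ X := by
    refine le_trans ?_ S.X2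
    have h1 : 1 ≤ U * V := Nat.mul_pos hU hV
    calc 4 * U * V = 4 * (U * V) := by ring
      _ ≤ 1024 * M * (U * V) * (U * V) := by
        have : 4 * (U * V) ≤ 1024 * M * (U * V) := by nlinarith
        nlinarith [Nat.zero_le (1024 * M * (U * V))]
      _ = 1024 * M * U ^ 2 * V ^ 2 := by ring
      _ ≤ 1024 * M * U ^ 2 * V ^ 4 := by
        apply Nat.mul_le_mul_left
        exact Nat.pow_le_pow_right hV (by norm_num)
  have hKL : k * (2 * L) ≤ X := by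
    refine le_trans ?_ S.X1
    nlinarith
  have hl1 := Finset.mem_Ico.1 hl
  have hkl2 : 2 ≤ k * l := by nlinarith
  have hklX : k * l ≤ X := le_trans (Nat.mul_le_mul_left k hl1.2.le) hKL
  have hMr : (0 : ℝ) < M := by exact_mod_cast hM
  have hLr : (0 : ℝ) < L := by exact_mod_cast (by omega : 0 < L)
  have hLM : (L : ℝ) / M * (1 / z + M / L) = L / M * (1 / z) + 1 := by
    field_simp
  have hW0 : (1 : ℝ) ≤ (L : ℝ) / M * (1 / z + M / L) := by
    rw [hLM]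
    have : 0 ≤ (L : ℝ) / M * (1 / z) := by positivity
    linarith
  -- diagonal part
  have d1 : ∑ l' ∈ Ico L (2 * L), ∑ u₂ ∈ Ico U (2 * U), ∑ v₂ ∈ Ico V (2 * V),
      ((if l = l' then (1 : ℝ) else 0) * g m u₂ v₂ k l') ≤ 2 * T ^ 2 := by
    have : ∑ l' ∈ Ico L (2 * L), ∑ u₂ ∈ Ico U (2 * U), ∑ v₂ ∈ Ico V (2 * V),
        ((if l = l' then (1 : ℝ) else 0) * g m u₂ v₂ k l') =
        ∑ l' ∈ Ico L (2 * L), (if l = l' then (∑ u₂ ∈ Ico U (2 * U), ∑ v₂ ∈ Ico V (2 * V),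
          g m u₂ v₂ k l') else 0) := by
      refine Finset.sum_congr rfl fun l' _ => ?_
      by_cases h : l = l'
      · simp [h]
      · simp [h]
    rw [this, Finset.sum_ite_eq, if_pos hl]
    refine (sum_pair_g hT hU hV hX0 hT1 m k l hkl2 hklX).trans ?_
    split_ifs
    · exact le_rfl
    · positivity
  -- prime part
  have hpf : (((u₁ * v₁).primeFactors.filter (fun p : ℕ => z ≤ (p : ℝ))).card : ℝ) ≤ T := by
    have hn0 : 0 < u₁ * v₁ := Nat.mul_pos hu1 hv1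
    have hnX : u₁ * v₁ ≤ X := by
      refine le_trans ?_ hX0
      calc u₁ * v₁ ≤ (2 * U) * (2 * V) := Nat.mul_le_mul hu.le hv.le
        _ = 4 * U * V := by ring
    refine le_trans ?_ (hT _ hn0 hnX)
    unfold tau
    have : ((u₁ * v₁).primeFactors.filter (fun p : ℕ => z ≤ (p : ℝ))) ⊆ (u₁ * v₁).divisors := by
      intro p hp
      rw [Finset.mem_filter, Nat.mem_primeFactors] at hp
      rw [Nat.mem_divisors]
      exact ⟨hp.1.2.1, hp.1.2.2⟩
    exact_mod_cast Finset.card_le_card this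
  have d2 : ∑ l' ∈ Ico L (2 * L), ∑ u₂ ∈ Ico U (2 * U), ∑ v₂ ∈ Ico V (2 * V),
      (J z u₁ v₁ u₂ v₂ * g m u₂ v₂ k l') ≤ T * (13 * T ^ 2 * ((L : ℝ) / M * (1 / z + M / L))) := by
    have e1 : ∑ l' ∈ Ico L (2 * L), ∑ u₂ ∈ Ico U (2 * U), ∑ v₂ ∈ Ico V (2 * V),
        (J z u₁ v₁ u₂ v₂ * g m u₂ v₂ k l') =
        ∑ p ∈ (u₁ * v₁).primeFactors.filter (fun p : ℕ => z ≤ (p : ℝ)),
          ∑ l' ∈ Ico L (2 * L), ∑ u₂ ∈ Ico U (2 * U), ∑ v₂ ∈ Ico V (2 * V),
            ((if p ∣ u₂ * v₂ then (1 : ℝ) else 0) * g m u₂ v₂ k l') := by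
      symm
      rw [Finset.sum_comm]
      refine Finset.sum_congr rfl fun l' _ => ?_
      rw [Finset.sum_comm]
      refine Finset.sum_congr rfl fun u _ => ?_
      rw [Finset.sum_comm]
      refine Finset.sum_congr rfl fun v _ => ?_
      unfold J
      rw [Finset.sum_mul]
    rw [e1]
    calc _ ≤ ∑ p ∈ (u₁ * v₁).primeFactors.filter (fun p : ℕ => z ≤ (p : ℝ)),
          (13 * T ^ 2 * ((L : ℝ) / M * (1 / z + M / L))) := by
          refine Finset.sum_le_sum fun p hp => ?_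
          rw [Finset.mem_filter, Nat.mem_primeFactors] at hp
          exact sum_prime_g hT hU hV hX0 hT1 hM hML (by omega) hz hm hk hKL hp.1.1 hp.2
      _ = (((u₁ * v₁).primeFactors.filter (fun p : ℕ => z ≤ (p : ℝ))).card : ℝ) *
          (13 * T ^ 2 * ((L : ℝ) / M * (1 / z + M / L))) := by
          rw [Finset.sum_const, nsmul_eq_mul]
      _ ≤ _ := by
          apply mul_le_mul_of_nonneg_right hpf
          positivity
  have hs : ∑ l' ∈ Ico L (2 * L), ∑ u₂ ∈ Ico U (2 * U), ∑ v₂ ∈ Ico V (2 * V),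
      (((if l = l' then 1 else 0) + J z u₁ v₁ u₂ v₂) * g m u₂ v₂ k l') =
      ∑ l' ∈ Ico L (2 * L), ∑ u₂ ∈ Ico U (2 * U), ∑ v₂ ∈ Ico V (2 * V),
        ((if l = l' then (1 : ℝ) else 0) * g m u₂ v₂ k l') +
      ∑ l' ∈ Ico L (2 * L), ∑ u₂ ∈ Ico U (2 * U), ∑ v₂ ∈ Ico V (2 * V),
        (J z u₁ v₁ u₂ v₂ * g m u₂ v₂ k l') := by
    simp only [add_mul, Finset.sum_add_distrib]
  rw [hs]
  have h3 : (1 : ℝ) ≤ T ^ 3 := one_le_pow₀ hT1
  have h23 : T ^ 2 ≤ T ^ 3 := pow_le_pow_right₀ hT1 (by norm_num)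
  have h4 : 2 * T ^ 2 ≤ 2 * T ^ 3 * ((L : ℝ) / M * (1 / z + M / L)) := by
    calc 2 * T ^ 2 ≤ 2 * T ^ 3 * 1 := by linarith
      _ ≤ _ := by apply mul_le_mul_of_nonneg_left hW0 (by positivity)
  nlinarith

end BadAux

open BadAux in
theorem Bad_bound {M U V K L X : ℕ} {z T : ℝ} {c : ℕ → ℕ → ℕ → ℝ} (S : Setup M U V K L X z T c) :
    ∑ m ∈ Ico M (2 * M), ∑ u₁ ∈ Ico U (2 * U), ∑ v₁ ∈ Ico V (2 * V), ∑ u₂ ∈ Ico U (2 * U),
      ∑ v₂ ∈ Ico V (2 * V), ∑ l ∈ Ico L (2 * L), ∑ l' ∈ Ico L (2 * L),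
        (if Gd m u₁ v₁ u₂ v₂ l l' then 0 else c m u₁ v₁ * c m u₂ v₂ *
          (A11 K m u₁ v₁ u₂ v₂ l l' + A12 K m u₁ v₁ u₂ v₂ l l' + A21 K m u₁ v₁ u₂ v₂ l l' +
            A22 K m u₁ v₁ u₂ v₂ l l')) ≤
      10000 * T ^ 12 * ((K : ℝ) * L ^ 2 / M) * (1 / z + (M : ℝ) / L) := by
  have hT := S.tau_le
  have hU := S.posU
  have hV := S.posV
  have hM := S.posM
  have hL8 := S.L8
  have hK8 := S.K8
  have hML := S.ML
  have hz := S.z1
  have hX1 : 1 ≤ X := by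
    refine le_trans ?_ S.X1
    have : 0 < K * L := Nat.mul_pos (by omega) (by omega)
    nlinarith
  have hT1 : 1 ≤ T := one_le_T hT hX1
  have hT0 : 0 ≤ T := by linarith
  have hMr : (0 : ℝ) < M := by exact_mod_cast hM
  have hLr : (0 : ℝ) < L := by exact_mod_cast (by omega : 0 < L)
  have hX0 : 4 * U * V ≤ X := by
    refine le_trans ?_ S.X2
    have h1 : 1 ≤ U * V := Nat.mul_pos hU hV
    calc 4 * U * V = 4 * (U * V) := by ring
      _ ≤ 1024 * M * (U * V) * (U * V) := by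
        have : 4 * (U * V) ≤ 1024 * M * (U * V) := by nlinarith
        nlinarith [Nat.zero_le (1024 * M * (U * V))]
      _ = 1024 * M * U ^ 2 * V ^ 2 := by ring
      _ ≤ 1024 * M * U ^ 2 * V ^ 4 := by
        apply Nat.mul_le_mul_left
        exact Nat.pow_le_pow_right hV (by norm_num)
  set W : ℝ := 15 * T ^ 3 * ((L : ℝ) / M * (1 / z + M / L)) with hW
  have hWn : 0 ≤ W := by
    rw [hW]
    have hz0 : 0 < z := by linarith
    positivity
  -- fixed `m, u₁, v₁`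
  have step : ∀ m ∈ Ico M (2 * M), ∀ u₁ ∈ Ico U (2 * U), ∀ v₁ ∈ Ico V (2 * V),
      ∑ u₂ ∈ Ico U (2 * U), ∑ v₂ ∈ Ico V (2 * V), ∑ l ∈ Ico L (2 * L), ∑ l' ∈ Ico L (2 * L),
        (if Gd m u₁ v₁ u₂ v₂ l l' then 0 else c m u₁ v₁ * c m u₂ v₂ *
          (A11 K m u₁ v₁ u₂ v₂ l l' + A12 K m u₁ v₁ u₂ v₂ l l' + A21 K m u₁ v₁ u₂ v₂ l l' +
            A22 K m u₁ v₁ u₂ v₂ l l')) ≤
      T ^ 2 * W * ∑ k ∈ range (3 * K), ∑ l ∈ Ico L (2 * L), wt K k * g m u₁ v₁ k l := by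
    intro m hm u₁ hu₁ v₁ hv₁
    rw [Finset.mem_Ico] at hm hu₁ hv₁
    calc ∑ u₂ ∈ Ico U (2 * U), ∑ v₂ ∈ Ico V (2 * V), ∑ l ∈ Ico L (2 * L), ∑ l' ∈ Ico L (2 * L),
        (if Gd m u₁ v₁ u₂ v₂ l l' then 0 else c m u₁ v₁ * c m u₂ v₂ *
          (A11 K m u₁ v₁ u₂ v₂ l l' + A12 K m u₁ v₁ u₂ v₂ l l' + A21 K m u₁ v₁ u₂ v₂ l l' +
            A22 K m u₁ v₁ u₂ v₂ l l')) ≤
        ∑ u₂ ∈ Ico U (2 * U), ∑ v₂ ∈ Ico V (2 * V), ∑ l ∈ Ico L (2 * L), ∑ l' ∈ Ico L (2 * L),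
          ∑ k ∈ range (3 * K), T ^ 2 * (wt K k * (g m u₁ v₁ k l *
            (((if l = l' then 1 else 0) + J z u₁ v₁ u₂ v₂) * g m u₂ v₂ k l'))) := by
          refine Finset.sum_le_sum fun u₂ _ => Finset.sum_le_sum fun v₂ _ =>
            Finset.sum_le_sum fun l _ => Finset.sum_le_sum fun l' _ => ?_
          have hn : ∀ k ∈ range (3 * K), 0 ≤ T ^ 2 * (wt K k * (g m u₁ v₁ k l *
            (((if l = l' then 1 else 0) + J z u₁ v₁ u₂ v₂) * g m u₂ v₂ k l'))) := by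
            intro k _
            have h1 : (0 : ℝ) ≤ (if l = l' then 1 else 0) := by split_ifs <;> norm_num
            have h2 := Jn z u₁ v₁ u₂ v₂
            have h3 := gn m u₁ v₁ k l
            have h4 := gn m u₂ v₂ k l'
            have h5 := wtn K k
            positivity
          by_cases hG : Gd m u₁ v₁ u₂ v₂ l l'
          · rw [if_pos hG]
            exact Finset.sum_nonneg hn
          rw [if_neg hG]
          by_cases hc : c m u₁ v₁ = 0
          · rw [hc, zero_mul, zero_mul]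
            exact Finset.sum_nonneg hn
          have hA : A11 K m u₁ v₁ u₂ v₂ l l' + A12 K m u₁ v₁ u₂ v₂ l l' + A21 K m u₁ v₁ u₂ v₂ l l' +
            A22 K m u₁ v₁ u₂ v₂ l l' = ∑ k ∈ range (3 * K), wt K k * (g m u₁ v₁ k l *
              g m u₂ v₂ k l') := by
            unfold A11 A12 A21 A22 g
            simp only [← Finset.sum_add_distrib]
            refine Finset.sum_congr rfl fun k _ => ?_
            ring
          have hcc : c m u₁ v₁ * c m u₂ v₂ ≤ T ^ 2 := by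
            rw [pow_two]
            exact mul_le_mul (S.c_le _ _ _) (S.c_le _ _ _) (S.c_nonneg _ _ _) hT0
          have hAn : 0 ≤ ∑ k ∈ range (3 * K), wt K k * (g m u₁ v₁ k l * g m u₂ v₂ k l') :=
            Finset.sum_nonneg fun k _ => mul_nonneg (wtn K k) (mul_nonneg (gn _ _ _ _ _) (gn _ _ _ _ _))
          rw [hA]
          refine (mul_le_mul_of_nonneg_right hcc hAn).trans ?_
          rw [Finset.mul_sum]
          refine Finset.sum_le_sum fun k _ => ?_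
          apply mul_le_mul_of_nonneg_left _ (by positivity)
          apply mul_le_mul_of_nonneg_left _ (wtn K k)
          refine bad_pt S ?_ hG hc
          exact (Nat.mul_pos (lt_of_lt_of_le hU hu₁.1) (lt_of_lt_of_le hV hv₁.1)).ne'
      _ = ∑ k ∈ range (3 * K), ∑ l ∈ Ico L (2 * L), ∑ l' ∈ Ico L (2 * L), ∑ u₂ ∈ Ico U (2 * U),
          ∑ v₂ ∈ Ico V (2 * V), T ^ 2 * (wt K k * (g m u₁ v₁ k l *
            (((if l = l' then 1 else 0) + J z u₁ v₁ u₂ v₂) * g m u₂ v₂ k l'))) :=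
          perm5 _ _ _ _ _ _
      _ = ∑ k ∈ range (3 * K), ∑ l ∈ Ico L (2 * L), T ^ 2 * (wt K k * g m u₁ v₁ k l) *
          ∑ l' ∈ Ico L (2 * L), ∑ u₂ ∈ Ico U (2 * U), ∑ v₂ ∈ Ico V (2 * V),
            (((if l = l' then 1 else 0) + J z u₁ v₁ u₂ v₂) * g m u₂ v₂ k l') := by
          refine Finset.sum_congr rfl fun k _ => Finset.sum_congr rfl fun l _ => ?_
          rw [Finset.mul_sum]
          refine Finset.sum_congr rfl fun l' _ => ?_
          rw [Finset.mul_sum]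
          refine Finset.sum_congr rfl fun u _ => ?_
          rw [Finset.mul_sum]
          refine Finset.sum_congr rfl fun v _ => ?_
          ring
      _ ≤ ∑ k ∈ range (3 * K), ∑ l ∈ Ico L (2 * L), T ^ 2 * (wt K k * g m u₁ v₁ k l) * W := by
          refine Finset.sum_le_sum fun k hk => Finset.sum_le_sum fun l hl => ?_
          by_cases hw : wt K k = 0
          · rw [hw]; simp
          · have hk2 : K / 2 ≤ k := tri_pos_imp hw
            apply mul_le_mul_of_nonneg_left _ (mul_nonneg (by positivity)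
              (mul_nonneg (wtn K k) (gn _ _ _ _ _)))
            exact inner_le S hT1 hm.1 (lt_of_lt_of_le hU hu₁.1) (lt_of_lt_of_le hV hv₁.1) hu₁.2 hv₁.2
              (by omega) (Finset.mem_range.1 hk) hl
      _ = T ^ 2 * W * ∑ k ∈ range (3 * K), ∑ l ∈ Ico L (2 * L), wt K k * g m u₁ v₁ k l := by
          rw [Finset.mul_sum]
          refine Finset.sum_congr rfl fun k _ => ?_
          rw [Finset.mul_sum]
          refine Finset.sum_congr rfl fun l _ => ?_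
          ring
  -- the outer sum
  have outer : ∑ m ∈ Ico M (2 * M), ∑ u₁ ∈ Ico U (2 * U), ∑ v₁ ∈ Ico V (2 * V),
      ∑ k ∈ range (3 * K), ∑ l ∈ Ico L (2 * L), wt K k * g m u₁ v₁ k l ≤ 6 * K * L * T ^ 3 := by
    calc ∑ m ∈ Ico M (2 * M), ∑ u₁ ∈ Ico U (2 * U), ∑ v₁ ∈ Ico V (2 * V),
        ∑ k ∈ range (3 * K), ∑ l ∈ Ico L (2 * L), wt K k * g m u₁ v₁ k l =
        ∑ m ∈ Ico M (2 * M), ∑ k ∈ range (3 * K), ∑ l ∈ Ico L (2 * L),
          ∑ u₁ ∈ Ico U (2 * U), ∑ v₁ ∈ Ico V (2 * V), wt K k * g m u₁ v₁ k l :=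
          Finset.sum_congr rfl fun m _ => perm4 _ _ _ _ (fun u v k l => wt K k * g m u v k l)
      _ = ∑ k ∈ range (3 * K), ∑ l ∈ Ico L (2 * L), ∑ m ∈ Ico M (2 * M),
          ∑ u₁ ∈ Ico U (2 * U), ∑ v₁ ∈ Ico V (2 * V), wt K k * g m u₁ v₁ k l := by
          rw [Finset.sum_comm]
          exact Finset.sum_congr rfl fun k _ => Finset.sum_comm
      _ ≤ ∑ k ∈ range (3 * K), ∑ l ∈ Ico L (2 * L), 2 * T ^ 3 := by
          refine Finset.sum_le_sum fun k hk => Finset.sum_le_sum fun l hl => ?_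
          rw [Finset.mem_range] at hk
          rw [Finset.mem_Ico] at hl
          have e1 : ∑ m ∈ Ico M (2 * M), ∑ u₁ ∈ Ico U (2 * U), ∑ v₁ ∈ Ico V (2 * V),
              wt K k * g m u₁ v₁ k l = wt K k * ∑ m ∈ Ico M (2 * M), ∑ u₁ ∈ Ico U (2 * U),
                ∑ v₁ ∈ Ico V (2 * V), g m u₁ v₁ k l := by
            simp only [Finset.mul_sum]
          rw [e1]
          by_cases hw : wt K k = 0
          · rw [hw, zero_mul]; positivity
          · have hk2 : K / 2 ≤ k := tri_pos_imp hw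
            have hkl2 : 2 ≤ k * l := by
              have h4 : 4 ≤ k := by omega
              have h8 : 8 ≤ l := by omega
              have := Nat.mul_le_mul h4 h8
              omega
            have hklX : k * l ≤ X := by
              refine le_trans ?_ S.X1
              calc k * l ≤ (3 * K) * (2 * L) := Nat.mul_le_mul hk.le hl.2.le
                _ = 6 * K * L := by ring
            calc wt K k * ∑ m ∈ Ico M (2 * M), ∑ u₁ ∈ Ico U (2 * U),
                ∑ v₁ ∈ Ico V (2 * V), g m u₁ v₁ k l ≤ 1 * (2 * T ^ 3) := by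
                  apply mul_le_mul (wt1 (by omega) k) (sum_triple_g hT hU hV hX0 hT1 k l hkl2 hklX)
                  · exact Finset.sum_nonneg fun _ _ => Finset.sum_nonneg fun _ _ =>
                      Finset.sum_nonneg fun _ _ => gn _ _ _ _ _
                  · norm_num
              _ = 2 * T ^ 3 := one_mul _
      _ = 6 * K * L * T ^ 3 := by
          rw [Finset.sum_const, Finset.sum_const, Finset.card_range, Nat.card_Ico, nsmul_eq_mul,
            nsmul_eq_mul]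
          have : 2 * L - L = L := by omega
          rw [this]
          push_cast
          ring
  have fin : ∑ m ∈ Ico M (2 * M), ∑ u₁ ∈ Ico U (2 * U), ∑ v₁ ∈ Ico V (2 * V),
      T ^ 2 * W * ∑ k ∈ range (3 * K), ∑ l ∈ Ico L (2 * L), wt K k * g m u₁ v₁ k l ≤
      T ^ 2 * W * (6 * K * L * T ^ 3) := by
    have e1 : ∑ m ∈ Ico M (2 * M), ∑ u₁ ∈ Ico U (2 * U), ∑ v₁ ∈ Ico V (2 * V),
        T ^ 2 * W * ∑ k ∈ range (3 * K), ∑ l ∈ Ico L (2 * L), wt K k * g m u₁ v₁ k l =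
        T ^ 2 * W * ∑ m ∈ Ico M (2 * M), ∑ u₁ ∈ Ico U (2 * U), ∑ v₁ ∈ Ico V (2 * V),
          ∑ k ∈ range (3 * K), ∑ l ∈ Ico L (2 * L), wt K k * g m u₁ v₁ k l := by
      rw [Finset.mul_sum]
      refine Finset.sum_congr rfl fun m _ => ?_
      rw [Finset.mul_sum]
      refine Finset.sum_congr rfl fun u _ => ?_
      rw [Finset.mul_sum]
    rw [e1]
    exact mul_le_mul_of_nonneg_left outer (mul_nonneg (by positivity) hWn)
  refine le_trans (Finset.sum_le_sum fun m hm => Finset.sum_le_sum fun u₁ hu₁ =>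
    Finset.sum_le_sum fun v₁ hv₁ => step m hm u₁ hu₁ v₁ hv₁) (fin.trans ?_)
  rw [hW]
  have hz0 : 0 < z := by linarith
  have h8 : T ^ 8 ≤ T ^ 12 := pow_le_pow_right₀ hT1 (by norm_num)
  have hQ : 0 ≤ ((K : ℝ) * L ^ 2 / M) * (1 / z + (M : ℝ) / L) := by positivity
  calc T ^ 2 * (15 * T ^ 3 * ((L : ℝ) / M * (1 / z + M / L))) * (6 * K * L * T ^ 3) =
      90 * T ^ 8 * (((K : ℝ) * L ^ 2 / M) * (1 / z + (M : ℝ) / L)) := by ring
    _ ≤ 10000 * T ^ 12 * (((K : ℝ) * L ^ 2 / M) * (1 / z + (M : ℝ) / L)) := by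
      apply mul_le_mul_of_nonneg_right _ hQ
      have : 0 ≤ T ^ 12 := by positivity
      linarith
    _ = _ := by ring

end Pool.Agent.ZH.D
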