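import Pool.Agent.Work.ZH.D.Defs

/-! # Module Phase: CRT splitting of the phases

`W = R w`, `(R,w) = 1`: `e(-hκ/W) = ψ_R(-h w⁻¹ κ) ψ_w(-h R⁻¹ κ)`, `ψ = ZMod.stdAddChar`.
Modulo `R` the class `κ` is the inverse of `l + r`; modulo `w` it depends on `l mod w` only
(`F0`, put `0` when `l` resp. `l'` is not coprime to `v₁` resp. `v₂`). -/

namespace Pool.Agent.ZH.D

open Finset

theorem phase_e_add (x y : ℝ) : e (x + y) = e x * e y := by
  unfold e
  rw [← Complex.exp_add]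
  congr 1
  push_cast
  ring

theorem phase_e_int (n : ℤ) : e (n : ℝ) = 1 := by
  unfold e
  rw [Complex.exp_eq_one_iff]
  refine ⟨n, ?_⟩
  push_cast
  ring

theorem phase_stdAddChar (N : ℕ) [NeZero N] (j : ℤ) :
    ZMod.stdAddChar ((j : ℤ) : ZMod N) = e ((j : ℝ) / N) := by
  rw [ZMod.stdAddChar_coe]
  unfold e
  congr 1
  push_cast
  ring

/-- norm of the standard character -/
theorem phase_norm_std (N : ℕ) [NeZero N] (t : ZMod N) : ‖ZMod.stdAddChar t‖ = 1 := by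
  rw [← ZMod.natCast_zmod_val t, ← Int.cast_natCast, phase_stdAddChar]
  unfold e
  have : (2 * (Real.pi : ℂ) * ((((t.val : ℤ) : ℝ) / (N : ℝ) : ℝ) : ℂ) * Complex.I) =
    ((2 * Real.pi * (((t.val : ℤ) : ℝ) / N) : ℝ) : ℂ) * Complex.I := by push_cast; ring
  rw [this, Complex.norm_exp_ofReal_mul_I]

/-- CRT for `e` -/
theorem phase_crt {a b : ℕ} [NeZero a] [NeZero b] (h : a.Coprime b) (n : ℤ) :
    e ((n : ℝ) / ((a * b : ℕ) : ℝ)) =
      ZMod.stdAddChar ((n : ZMod a) * (b : ZMod a)⁻¹) * ZMod.stdAddChar ((n : ZMod b) * (a : ZMod b)⁻¹) := by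
  have ha : (a : ℝ) ≠ 0 := by exact_mod_cast NeZero.ne a
  have hb : (b : ℝ) ≠ 0 := by exact_mod_cast NeZero.ne b
  set b' : ℤ := (((b : ZMod a)⁻¹).val : ℤ) with hb'
  set a' : ℤ := (((a : ZMod b)⁻¹).val : ℤ) with ha'
  have e1 : (b : ZMod a)⁻¹ = ((b' : ℤ) : ZMod a) := by
    rw [hb', Int.cast_natCast, ZMod.natCast_zmod_val]
  have e2 : (a : ZMod b)⁻¹ = ((a' : ℤ) : ZMod b) := by
    rw [ha', Int.cast_natCast, ZMod.natCast_zmod_val]
  have d1 : (a : ℤ) ∣ b * b' - 1 := by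
    rw [← ZMod.intCast_zmod_eq_zero_iff_dvd]
    push_cast
    rw [← e1, ZMod.coe_mul_inv_eq_one b h.symm, sub_self]
  have d2 : (b : ℤ) ∣ a * a' - 1 := by
    rw [← ZMod.intCast_zmod_eq_zero_iff_dvd]
    push_cast
    rw [← e2, ZMod.coe_mul_inv_eq_one a h, sub_self]
  have d3 : ((a : ℤ) * b) ∣ b * b' + a * a' - 1 := by
    have hc : IsCoprime (a : ℤ) (b : ℤ) := Nat.isCoprime_iff_coprime.2 h
    refine hc.mul_dvd ?_ ?_
    · have : (b : ℤ) * b' + a * a' - 1 = (b * b' - 1) + a * a' := by ring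
      rw [this]
      exact dvd_add d1 (dvd_mul_right _ _)
    · have : (b : ℤ) * b' + a * a' - 1 = (a * a' - 1) + b * b' := by ring
      rw [this]
      exact dvd_add d2 (dvd_mul_right _ _)
  obtain ⟨t, ht⟩ := d3
  rw [e1, e2, ← Int.cast_mul, ← Int.cast_mul, phase_stdAddChar, phase_stdAddChar, ← phase_e_add]
  have key : ((n * b' : ℤ) : ℝ) / a + ((n * a' : ℤ) : ℝ) / b = (n : ℝ) / ((a * b : ℕ) : ℝ) + ((n * t : ℤ) : ℝ) := by
    have ht' : (b : ℝ) * b' + a * a' = 1 + a * b * t := by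
      have := congrArg (fun z : ℤ => (z : ℝ)) ht
      push_cast at this
      linarith
    push_cast
    field_simp
    linear_combination (n : ℝ) * ht'
  rw [key, phase_e_add, phase_e_int, mul_one]

theorem phase_int_crt {a b : ℕ} (h : a.Coprime b) (t : ℤ) : ∃ r : ℤ, (a : ℤ) ∣ r ∧ (b : ℤ) ∣ r - t := by
  have hc : IsCoprime (a : ℤ) (b : ℤ) := Nat.isCoprime_iff_coprime.2 h
  obtain ⟨x, y, hxy⟩ := hc
  refine ⟨a * (x * t), dvd_mul_right _ _, ⟨-(y * t), ?_⟩⟩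
  linear_combination t * hxy

theorem phase_kph_of_mul {R : ℕ} [NeZero R] {A t κ : ZMod R} (h : κ * t = 1) :
    kph R A t = ZMod.stdAddChar (A * κ) := by
  have hu : IsUnit t := IsUnit.of_mul_eq_one κ (by rw [mul_comm]; exact h)
  have h1 : t⁻¹ = κ := by
    have h2 : t * t⁻¹ = 1 := ZMod.mul_inv_of_unit t hu
    calc t⁻¹ = (κ * t) * t⁻¹ := by rw [h, one_mul]
      _ = κ * (t * t⁻¹) := by ring
      _ = κ := by rw [h2, mul_one]
  unfold kph
  rw [if_pos hu, h1]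

/-- product of two phases with the same shift -/
theorem kph_mul_conj (R : ℕ) [NeZero R] (A B t : ZMod R) :
    kph R A t * (starRingEnd ℂ) (kph R B t) = kph R (A - B) t := by
  unfold kph
  split_ifs with h
  · have h1 : (starRingEnd ℂ) (ZMod.stdAddChar (B * t⁻¹)) = ZMod.stdAddChar (-(B * t⁻¹)) := by
      rw [AddChar.map_neg_eq_conj]
    rw [h1, ← AddChar.map_add_eq_mul]
    congr 1
    ring
  · simp

theorem norm_kph_le (R : ℕ) [NeZero R] (A t : ZMod R) : ‖kph R A t‖ ≤ 1 := by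
  unfold kph
  split_ifs with h
  · exact (phase_norm_std R _).le
  · simp

theorem phase_gcd_int (R : ℕ) [NeZero R] (n : ℤ) :
    Nat.gcd ((n : ZMod R)).val R = Int.gcd n R := by
  have h1 : (((n : ZMod R).val : ℕ) : ℤ) = n % R := ZMod.val_intCast n
  have h2 : Nat.gcd ((n : ZMod R)).val R = Int.gcd (((n : ZMod R).val : ℕ) : ℤ) (R : ℤ) := by
    rw [Int.gcd_natCast_natCast]
  rw [h2, h1, Int.gcd_emod]

/-- the gcd of the combined numerator: `Δ = h' w - h w'` -/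
theorem gcd_phase (R : ℕ) [NeZero R] (w w' : ℕ) (hw : w.Coprime R) (hw' : w'.Coprime R)
    (h h' : ℤ) :
    Nat.gcd ((-(h : ZMod R) * (w : ZMod R)⁻¹) - (-(h' : ZMod R) * (w' : ZMod R)⁻¹)).val R =
      Int.gcd (h' * w - h * w') R := by
  have i1 : (w : ZMod R) * (w : ZMod R)⁻¹ = 1 := ZMod.coe_mul_inv_eq_one w hw
  have i2 : (w' : ZMod R) * (w' : ZMod R)⁻¹ = 1 := ZMod.coe_mul_inv_eq_one w' hw'
  set c : ZMod R := (w : ZMod R)⁻¹ * (w' : ZMod R)⁻¹ with hc
  have hcu : IsUnit c := by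
    refine IsUnit.of_mul_eq_one ((w : ZMod R) * (w' : ZMod R)) ?_
    calc c * ((w : ZMod R) * (w' : ZMod R)) = ((w : ZMod R) * (w : ZMod R)⁻¹) * ((w' : ZMod R) * (w' : ZMod R)⁻¹) := by
          rw [hc]; ring
      _ = 1 := by rw [i1, i2, one_mul]
  have hcv : (c.val).Coprime R := by
    have : IsUnit ((c.val : ℕ) : ZMod R) := by rw [ZMod.natCast_zmod_val]; exact hcu
    exact (ZMod.isUnit_iff_coprime _ _).1 this
  have e1 : (-(h : ZMod R) * (w : ZMod R)⁻¹) - (-(h' : ZMod R) * (w' : ZMod R)⁻¹) =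
      (((h' * w - h * w') * (c.val : ℤ) : ℤ) : ZMod R) := by
    push_cast
    rw [ZMod.natCast_zmod_val]
    calc (-(h : ZMod R) * (w : ZMod R)⁻¹) - (-(h' : ZMod R) * (w' : ZMod R)⁻¹)
        = (h' : ZMod R) * ((w : ZMod R) * (w : ZMod R)⁻¹) * (w' : ZMod R)⁻¹ -
            (h : ZMod R) * (w : ZMod R)⁻¹ * ((w' : ZMod R) * (w' : ZMod R)⁻¹) := by rw [i1, i2]; ring
      _ = _ := by rw [hc]; ring
  rw [e1, phase_gcd_int]
  rw [Int.gcd_eq_natAbs, Int.gcd_eq_natAbs, Int.natAbs_mul, Int.natAbs_natCast, Int.natAbs_natCast]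
  exact Nat.Coprime.gcd_mul_right_cancel _ hcv

/-- phase of the pair of congruences `κ l ≡ 1 (m u₁ v₁)`, `κ l' ≡ 1 (m u₂ v₂)`, `l' = l + m j` -/
theorem phase_pair (m u₁ u₂ : ℕ) [NeZero (m * u₁ * u₂)] (hc : (m * u₁).Coprime u₂) (j : ℤ) :
    ∃ r : ZMod (m * u₁ * u₂), ∀ v₁ v₂ : ℕ, 0 < v₁ → 0 < v₂ → (v₁ * v₂).Coprime (m * u₁ * u₂) →
      v₁.Coprime v₂ → ∀ h : ℤ, ∃ F0 : ℕ → ℂ, (∀ t, ‖F0 t‖ ≤ 1) ∧
        (∀ t, F0 (t + v₁ * v₂) = F0 t) ∧
        (∀ l l' κ : ℕ, (l' : ℤ) = l + m * j → κ * l ≡ 1 [MOD m * u₁ * v₁] →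
          κ * l' ≡ 1 [MOD m * u₂ * v₂] →
          e (-(h * κ : ℝ) / ((m * u₁ * u₂ * (v₁ * v₂) : ℕ) : ℝ)) =
            F0 l * kph (m * u₁ * u₂) (-(h : ZMod _) * ((v₁ * v₂ : ℕ) : ZMod _)⁻¹)
              ((l : ZMod _) + r)) ∧
        (∀ l l' : ℕ, (l' : ℤ) = l + m * j →
          ¬(l.Coprime (m * u₁ * v₁) ∧ l'.Coprime (m * u₂ * v₂)) →
          F0 l * kph (m * u₁ * u₂) (-(h : ZMod _) * ((v₁ * v₂ : ℕ) : ZMod _)⁻¹)
              ((l : ZMod _) + r) = 0) := by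
  obtain ⟨r0, hr1, hr2⟩ := phase_int_crt hc ((m : ℤ) * j)
  refine ⟨(r0 : ZMod (m * u₁ * u₂)), fun v₁ v₂ hv₁ hv₂ hcop hv h => ?_⟩
  obtain ⟨s0, hs1, hs2⟩ := phase_int_crt hv ((m : ℤ) * j)
  have : NeZero (v₁ * v₂) := ⟨(Nat.mul_pos hv₁ hv₂).ne'⟩
  refine ⟨fun l => kph (v₁ * v₂) (-(h : ZMod _) * ((m * u₁ * u₂ : ℕ) : ZMod _)⁻¹) ((l : ZMod _) + (s0 : ZMod _)),
    fun t => norm_kph_le _ _ _, fun t => ?_, fun l l' κ hl' h1 h2 => ?_, fun l l' hl' hn => ?_⟩
  · show kph (v₁ * v₂) _ (((t + v₁ * v₂ : ℕ) : ZMod (v₁ * v₂)) + _) = _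
    rw [Nat.cast_add, ZMod.natCast_self, add_zero]
  · -- the two congruences
    have c1 : ((m * u₁ * v₁ : ℕ) : ℤ) ∣ κ * l - 1 := by
      have := (Nat.modEq_iff_dvd.1 h1.symm)
      push_cast at this ⊢
      exact this
    have c2 : ((m * u₂ * v₂ : ℕ) : ℤ) ∣ κ * l' - 1 := by
      have := (Nat.modEq_iff_dvd.1 h2.symm)
      push_cast at this ⊢
      exact this
    have m1 : ((m * u₁ : ℕ) : ℤ) ∣ κ * l - 1 := dvd_trans (by push_cast; exact dvd_mul_right _ _) c1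
    have m2 : (v₁ : ℤ) ∣ κ * l - 1 := dvd_trans (by push_cast; exact dvd_mul_left _ _) c1
    have m3 : (u₂ : ℤ) ∣ κ * l' - 1 :=
      dvd_trans (by push_cast; exact Dvd.intro_left (m : ℤ) rfl |>.trans (dvd_mul_right _ _)) c2
    have m4 : (v₂ : ℤ) ∣ κ * l' - 1 := dvd_trans (by push_cast; exact dvd_mul_left _ _) c2
    have k1 : (κ : ZMod (m * u₁ * u₂)) * ((l : ZMod (m * u₁ * u₂)) + (r0 : ZMod (m * u₁ * u₂))) = 1 := by
      have hd : ((m * u₁ * u₂ : ℕ) : ℤ) ∣ κ * (l + r0) - 1 := by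
        have hcc : IsCoprime ((m * u₁ : ℕ) : ℤ) (u₂ : ℤ) := Nat.isCoprime_iff_coprime.2 hc
        rw [Nat.cast_mul]
        refine hcc.mul_dvd ?_ ?_
        · have : (κ : ℤ) * (l + r0) - 1 = (κ * l - 1) + κ * r0 := by ring
          rw [this]
          exact dvd_add m1 (Dvd.dvd.mul_left hr1 _)
        · have : (κ : ℤ) * (l + r0) - 1 = (κ * l' - 1) + κ * (r0 - m * j) := by rw [hl']; ring
          rw [this]
          exact dvd_add m3 (Dvd.dvd.mul_left hr2 _)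
      have := (ZMod.intCast_zmod_eq_zero_iff_dvd _ _).2 hd
      push_cast at this
      linear_combination this
    have k2 : (κ : ZMod (v₁ * v₂)) * ((l : ZMod (v₁ * v₂)) + (s0 : ZMod (v₁ * v₂))) = 1 := by
      have hd : ((v₁ * v₂ : ℕ) : ℤ) ∣ κ * (l + s0) - 1 := by
        have hcc : IsCoprime (v₁ : ℤ) (v₂ : ℤ) := Nat.isCoprime_iff_coprime.2 hv
        rw [Nat.cast_mul]
        refine hcc.mul_dvd ?_ ?_
        · have : (κ : ℤ) * (l + s0) - 1 = (κ * l - 1) + κ * s0 := by ring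
          rw [this]
          exact dvd_add m2 (Dvd.dvd.mul_left hs1 _)
        · have : (κ : ℤ) * (l + s0) - 1 = (κ * l' - 1) + κ * (s0 - m * j) := by rw [hl']; ring
          rw [this]
          exact dvd_add m4 (Dvd.dvd.mul_left hs2 _)
      have := (ZMod.intCast_zmod_eq_zero_iff_dvd _ _).2 hd
      push_cast at this
      linear_combination this
    simp only
    rw [phase_kph_of_mul k1, phase_kph_of_mul k2]
    have hcrt := phase_crt (a := m * u₁ * u₂) (b := v₁ * v₂) hcop.symm (-(h * κ))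
    have e0 : (-(h * κ : ℝ) / ((m * u₁ * u₂ * (v₁ * v₂) : ℕ) : ℝ)) =
        (((-(h * (κ : ℤ)) : ℤ) : ℝ)) / ((m * u₁ * u₂ * (v₁ * v₂) : ℕ) : ℝ) := by
      push_cast; ring
    rw [e0, hcrt, mul_comm]
    congr 1
    · congr 1
      push_cast
      ring
    · congr 1
      push_cast
      ring
  · by_contra hne
    have hne' := mul_ne_zero_iff.1 hne
    have u1 : IsUnit ((l : ZMod (v₁ * v₂)) + (s0 : ZMod (v₁ * v₂))) := by
      by_contra hu
      apply hne'.1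
      simp only [kph, if_neg hu]
    have u2 : IsUnit ((l : ZMod (m * u₁ * u₂)) + (r0 : ZMod (m * u₁ * u₂))) := by
      by_contra hu
      apply hne'.2
      simp only [kph, if_neg hu]
    have w1 : IsCoprime ((v₁ * v₂ : ℕ) : ℤ) ((l : ℤ) + s0) := by
      rw [← ZMod.coe_int_isUnit_iff_isCoprime]
      push_cast
      exact u1
    have w2 : IsCoprime ((m * u₁ * u₂ : ℕ) : ℤ) ((l : ℤ) + r0) := by
      rw [← ZMod.coe_int_isUnit_iff_isCoprime]
      push_cast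
      exact u2
    -- transfer of coprimality along congruences
    have tr : ∀ (q : ℕ) (x y : ℤ), IsCoprime (q : ℤ) x → (q : ℤ) ∣ y - x → IsCoprime (q : ℤ) y := by
      rintro q x y hx ⟨c, hc'⟩
      have : y = x + q * c := by linarith
      rw [this]
      exact IsCoprime.add_mul_left_right hx c
    have a1 : IsCoprime (v₁ : ℤ) (l : ℤ) := by
      refine tr v₁ _ _ (IsCoprime.of_isCoprime_of_dvd_left w1 (by push_cast; exact dvd_mul_right _ _)) ?_
      have : (l : ℤ) - (l + s0) = -s0 := by ring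
      rw [this]; exact (dvd_neg).2 hs1
    have a2 : IsCoprime (v₂ : ℤ) (l' : ℤ) := by
      refine tr v₂ _ _ (IsCoprime.of_isCoprime_of_dvd_left w1 (by push_cast; exact dvd_mul_left _ _)) ?_
      have : (l' : ℤ) - (l + s0) = -(s0 - m * j) := by rw [hl']; ring
      rw [this]; exact (dvd_neg).2 hs2
    have a3 : IsCoprime ((m * u₁ : ℕ) : ℤ) (l : ℤ) := by
      refine tr (m * u₁) _ _ (IsCoprime.of_isCoprime_of_dvd_left w2 (by push_cast; exact dvd_mul_right _ _)) ?_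
      have : (l : ℤ) - (l + r0) = -r0 := by ring
      rw [this]; exact (dvd_neg).2 hr1
    have a4 : IsCoprime (u₂ : ℤ) (l' : ℤ) := by
      refine tr u₂ _ _ (IsCoprime.of_isCoprime_of_dvd_left w2 (by push_cast; exact dvd_mul_left _ _)) ?_
      have : (l' : ℤ) - (l + r0) = -(r0 - m * j) := by rw [hl']; ring
      rw [this]; exact (dvd_neg).2 hr2
    have a5 : IsCoprime (m : ℤ) (l' : ℤ) := by
      refine tr m _ _ (IsCoprime.of_isCoprime_of_dvd_left a3 (by push_cast; exact dvd_mul_right _ _)) ?_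
      rw [hl']
      exact ⟨j, by ring⟩
    apply hn
    constructor
    · rw [← Nat.isCoprime_iff_coprime]
      have := IsCoprime.mul_left a3 a1
      exact_mod_cast this.symm
    · rw [← Nat.isCoprime_iff_coprime]
      have := IsCoprime.mul_left (IsCoprime.mul_left a5 a4) a2
      exact_mod_cast this.symm

/-- phase of the single congruence `κ l ≡ 1 (R v)` -/
theorem phase_single (R : ℕ) [NeZero R] (v : ℕ) (hv : 0 < v) (hc : v.Coprime R) (h : ℤ) :
    ∃ F0 : ℕ → ℂ, (∀ t, ‖F0 t‖ ≤ 1) ∧ (∀ t, F0 (t + v) = F0 t) ∧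
      (∀ l κ : ℕ, κ * l ≡ 1 [MOD R * v] →
        e (-(h * κ : ℝ) / ((R * v : ℕ) : ℝ)) =
          F0 l * kph R (-(h : ZMod R) * (v : ZMod R)⁻¹) (l : ZMod R)) ∧
      (∀ l : ℕ, ¬ l.Coprime (R * v) →
        F0 l * kph R (-(h : ZMod R) * (v : ZMod R)⁻¹) (l : ZMod R) = 0) := by
  have : NeZero v := ⟨hv.ne'⟩
  refine ⟨fun l => kph v (-(h : ZMod v) * (R : ZMod v)⁻¹) (l : ZMod v),
    fun t => norm_kph_le _ _ _, fun t => ?_, fun l κ h1 => ?_, fun l hn => ?_⟩
  · show kph v _ ((t + v : ℕ) : ZMod v) = _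
    rw [Nat.cast_add, ZMod.natCast_self, add_zero]
  · have k1 : (κ : ZMod R) * (l : ZMod R) = 1 := by
      have := (ZMod.natCast_eq_natCast_iff _ _ _).2 (h1.of_mul_right v)
      push_cast at this
      exact this
    have k2 : (κ : ZMod v) * (l : ZMod v) = 1 := by
      have := (ZMod.natCast_eq_natCast_iff _ _ _).2 (h1.of_mul_left R)
      push_cast at this
      exact this
    simp only
    rw [phase_kph_of_mul k1, phase_kph_of_mul k2]
    have hcrt := phase_crt (a := R) (b := v) hc.symm (-(h * κ))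
    have e0 : (-(h * κ : ℝ) / ((R * v : ℕ) : ℝ)) =
        (((-(h * (κ : ℤ)) : ℤ) : ℝ)) / ((R * v : ℕ) : ℝ) := by
      push_cast; ring
    rw [e0, hcrt, mul_comm]
    congr 1
    · congr 1
      push_cast
      ring
    · congr 1
      push_cast
      ring
  · by_contra hne
    have hne' := mul_ne_zero_iff.1 hne
    have u1 : IsUnit (l : ZMod v) := by
      by_contra hu
      apply hne'.1
      simp only [kph, if_neg hu]
    have u2 : IsUnit (l : ZMod R) := by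
      by_contra hu
      apply hne'.2
      simp only [kph, if_neg hu]
    exact hn (Nat.Coprime.mul_right ((ZMod.isUnit_iff_coprime _ _).1 u2) ((ZMod.isUnit_iff_coprime _ _).1 u1))

end Pool.Agent.ZH.D
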