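import Pool.Agent.Work.ZH.D.IncSum
import Pool.Agent.Work.ZH.D.Fejer
import Pool.Agent.Work.ZH.D.Phase

/-! # Module Bilinear: mean square over `l` of a sum of phases

Paper proof. `1 ≤ 4 tri L (L/2) l` on `[L, 2L)` (`quarter_le_tri`), open the square, exchange, and for
each pair `(i,i')` use `sum_tri` and `inc_sum` with `q = w i * w i'`, `F0 = F0_i conj F0_i'`,
`A = A_i - A_i'`, `gcd(A,R) = gcd(h' w - h w', R)` (`gcd_phase`); pairs with `h' w = h w'` trivially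
(`∑ tri = L`). `q^2 (L/q+1)^(5/4) / L ≤ 2^(5/4) q^(3/4) L^(1/4)` as `q ≤ L`. -/

namespace Pool.Agent.ZH.D

open Finset

/-- opening the square against a nonnegative weight -/
theorem open_sq {ι : Type*} (S : Finset ι) (N : Finset ℕ) (t : ℕ → ℝ) (x : ι → ℕ → ℂ) :
    ((∑ k ∈ N, t k * ‖∑ i ∈ S, x i k‖ ^ 2 : ℝ) : ℂ) =
      ∑ p ∈ S ×ˢ S, ∑ k ∈ N, (t k : ℂ) * (x p.1 k * (starRingEnd ℂ) (x p.2 k)) := by
  rw [Finset.sum_comm]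
  push_cast
  refine Finset.sum_congr rfl fun k _ => ?_
  rw [← Finset.mul_sum]
  congr 1
  rw [← Complex.mul_conj', map_sum, Finset.sum_mul_sum, Finset.sum_product]

/-- the numerical inequality `q^2 (L/q+1)^(5/4) / L ≤ 2^(5/4) q^(3/4) L^(1/4)` -/
theorem bilin_num (q L Ω : ℝ) (hq : 1 ≤ q) (hqL : q ≤ L) (hqΩ : q ≤ Ω ^ 2) (hΩ : 0 ≤ Ω) :
    1 / L * (q ^ 2 * (L / q + 1) ^ (5 / 4 : ℝ)) ≤
      (2 : ℝ) ^ (5 / 4 : ℝ) * (Ω ^ (3 / 2 : ℝ) * L ^ (1 / 4 : ℝ)) := by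
  have hq0 : 0 < q := by linarith
  have hL0 : 0 < L := by linarith
  have h1 : L / q + 1 ≤ 2 * L / q := by
    rw [div_add_one hq0.ne']
    gcongr
    linarith
  have h2 : (L / q + 1) ^ (5 / 4 : ℝ) ≤ (2 * L / q) ^ (5 / 4 : ℝ) :=
    Real.rpow_le_rpow (by positivity) h1 (by norm_num)
  have h3 : 1 / L * (q ^ 2 * (2 * L / q) ^ (5 / 4 : ℝ)) =
      (2 : ℝ) ^ (5 / 4 : ℝ) * (q ^ (3 / 4 : ℝ) * L ^ (1 / 4 : ℝ)) := by
    rw [Real.div_rpow (by positivity) hq0.le, Real.mul_rpow (by norm_num) hL0.le]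
    have e1 : L ^ (5 / 4 : ℝ) = L * L ^ (1 / 4 : ℝ) := by
      rw [show (5 / 4 : ℝ) = 1 + 1 / 4 by norm_num, Real.rpow_add hL0, Real.rpow_one]
    have e2 : q ^ 2 = q ^ (5 / 4 : ℝ) * q ^ (3 / 4 : ℝ) := by
      rw [← Real.rpow_add hq0, ← Real.rpow_natCast]
      norm_num
    have hq54 : q ^ (5 / 4 : ℝ) ≠ 0 := (Real.rpow_pos_of_pos hq0 _).ne'
    rw [e1, e2]
    field_simp
  have h4 : q ^ (3 / 4 : ℝ) ≤ Ω ^ (3 / 2 : ℝ) := by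
    have : (Ω ^ 2) ^ (3 / 4 : ℝ) = Ω ^ (3 / 2 : ℝ) := by
      rw [← Real.rpow_natCast, ← Real.rpow_mul hΩ]
      norm_num
    rw [← this]
    exact Real.rpow_le_rpow hq0.le hqΩ (by norm_num)
  calc 1 / L * (q ^ 2 * (L / q + 1) ^ (5 / 4 : ℝ)) ≤ 1 / L * (q ^ 2 * (2 * L / q) ^ (5 / 4 : ℝ)) := by gcongr
    _ = (2 : ℝ) ^ (5 / 4 : ℝ) * (q ^ (3 / 4 : ℝ) * L ^ (1 / 4 : ℝ)) := h3
    _ ≤ _ := by gcongr

theorem two_pow_three_half : (2 : ℝ) ^ (5 / 4 : ℝ) * (2 : ℝ) ^ (1 / 4 : ℝ) ≤ 3 := by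
  rw [← Real.rpow_add (by norm_num)]
  have h : ((2 : ℝ) ^ (5 / 4 + 1 / 4 : ℝ)) ^ 2 = 8 := by
    rw [← Real.rpow_natCast, ← Real.rpow_mul (by norm_num)]
    norm_num
  nlinarith [Real.rpow_pos_of_pos (show (0 : ℝ) < 2 by norm_num) (5 / 4 + 1 / 4 : ℝ)]

/-- one off-diagonal pair -/
theorem bilin_pair (R L : ℕ) [NeZero R] (hL : 8 ≤ L) (r : ZMod R) (w w' : ℕ) (h h' : ℤ)
    (F0 F0' : ℕ → ℂ) (Y : ℝ) (ω : ℕ) (hY : 1 ≤ Y) (hω : (ω : ℝ) ^ 2 ≤ L)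
    (hw1 : 1 ≤ w) (hw1' : 1 ≤ w') (hw2 : w ≤ ω) (hw2' : w' ≤ ω) (hcop : w.Coprime R)
    (hcop' : w'.Coprime R) (hh : |(h : ℝ)| ≤ Y) (hh' : |(h' : ℝ)| ≤ Y) (hF : ∀ t, ‖F0 t‖ ≤ 1)
    (hF' : ∀ t, ‖F0' t‖ ≤ 1) (hper : ∀ t, F0 (t + w) = F0 t) (hper' : ∀ t, F0' (t + w') = F0' t)
    (hR : L / (w * w') + 1 ≤ R) (hne : h' * (w : ℤ) ≠ h * (w' : ℤ)) :
    ‖∑ k ∈ range (3 * L), (tri L (L / 2) k : ℂ) *
      ((F0 k * kph R (-(h : ZMod R) * (w : ZMod R)⁻¹) ((k : ZMod R) + r)) *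
        (starRingEnd ℂ) (F0' k * kph R (-(h' : ZMod R) * (w' : ZMod R)⁻¹) ((k : ZMod R) + r)))‖ ≤
      3 * ((ω : ℝ) ^ (3 / 2 : ℝ) * (L : ℝ) ^ (1 / 4 : ℝ) *
          tau R ^ (3 / 4 : ℝ) * (R : ℝ) ^ (1 / 2 : ℝ) * (2 * Y * ω) ^ (1 / 4 : ℝ)) := by
  set A : ZMod R := -(h : ZMod R) * (w : ZMod R)⁻¹ with hA
  set A' : ZMod R := -(h' : ZMod R) * (w' : ZMod R)⁻¹ with hA'
  set G : ℕ → ℂ := fun t => F0 t * (starRingEnd ℂ) (F0' t) with hGdef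
  have hG1 : ∀ t, ‖G t‖ ≤ 1 := by
    intro t
    simp only [hGdef, norm_mul, RCLike.norm_conj]
    exact mul_le_one₀ (hF t) (norm_nonneg _) (hF' t)
  have hperm : ∀ n t, F0 (t + n * w) = F0 t := by
    intro n
    induction n with
    | zero => intro t; simp
    | succ n ih => intro t; rw [show t + (n + 1) * w = (t + n * w) + w by ring, hper, ih]
  have hperm' : ∀ n t, F0' (t + n * w') = F0' t := by
    intro n
    induction n with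
    | zero => intro t; simp
    | succ n ih => intro t; rw [show t + (n + 1) * w' = (t + n * w') + w' by ring, hper', ih]
  have hGper : ∀ t, G (t + w * w') = G t := by
    intro t
    simp only [hGdef]
    rw [show t + w * w' = t + w' * w by ring, hperm, show t + w' * w = t + w * w' by ring, hperm']
  have hq1 : 1 ≤ w * w' := Nat.mul_pos hw1 hw1'
  have key := inc_sum R (w * w') hq1 (Nat.Coprime.mul_left hcop hcop') G hG1 hGper (A - A') r L (L / 2) hR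
  have hf : ∀ k : ℕ, (tri L (L / 2) k : ℂ) * ((F0 k * kph R A ((k : ZMod R) + r)) *
        (starRingEnd ℂ) (F0' k * kph R A' ((k : ZMod R) + r))) =
      (tri L (L / 2) k : ℂ) * (fun t : ℕ => G t * kph R (A - A') ((t : ZMod R) + r)) k := by
    intro k
    simp only [hGdef, map_mul]
    rw [← kph_mul_conj]
    ring
  rw [Finset.sum_congr rfl (fun k _ => hf k), sum_tri L (L / 2) (3 * L) (by omega) (by omega), norm_mul]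
  have hLr : (0 : ℝ) < L := by
    have : 0 < L := by omega
    exact_mod_cast this
  have hn : ‖(1 / (L : ℂ))‖ = 1 / (L : ℝ) := by
    rw [norm_div, norm_one, Complex.norm_natCast]
  rw [hn]
  -- the gcd
  have hgcd : (Nat.gcd (A - A').val R : ℝ) ≤ 2 * Y * ω := by
    rw [hA, hA', gcd_phase R w w' hcop hcop' h h']
    have hne0 : h' * (w : ℤ) - h * (w' : ℤ) ≠ 0 := sub_ne_zero.2 hne
    have h1 : (Int.gcd (h' * w - h * w') R : ℤ) ≤ |h' * (w : ℤ) - h * (w' : ℤ)| := by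
      have : (Int.gcd (h' * w - h * w') R : ℤ) ∣ |h' * (w : ℤ) - h * (w' : ℤ)| :=
        (dvd_abs _ _).2 (Int.gcd_dvd_left _ _)
      exact Int.le_of_dvd (abs_pos.2 hne0) this
    have h2 : ((Int.gcd (h' * w - h * w') R : ℤ) : ℝ) ≤ |(h' : ℝ) * w - h * w'| := by
      have := (Int.cast_le (R := ℝ)).2 h1
      push_cast at this
      simpa using this
    have h3 : |(h' : ℝ) * w - h * w'| ≤ |(h' : ℝ)| * w + |(h : ℝ)| * w' := by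
      refine (abs_sub _ _).trans ?_
      rw [abs_mul, abs_mul, Nat.abs_cast, Nat.abs_cast]
    have hwr : (w : ℝ) ≤ ω := by exact_mod_cast hw2
    have hwr' : (w' : ℝ) ≤ ω := by exact_mod_cast hw2'
    have h4 : |(h' : ℝ)| * w + |(h : ℝ)| * w' ≤ Y * ω + Y * ω := by
      gcongr
    have h5 : ((Int.gcd (h' * w - h * w') R : ℕ) : ℝ) ≤ |(h' : ℝ) * w - h * w'| := by
      simpa using h2
    linarith
  have hτ : 0 ≤ tau R := by unfold tau; positivity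
  have hpow : (2 * tau R ^ 3 * (R : ℝ) ^ 2 * (Nat.gcd (A - A').val R : ℝ)) ^ (1 / 4 : ℝ) ≤
      (2 : ℝ) ^ (1 / 4 : ℝ) * (tau R ^ (3 / 4 : ℝ) * (R : ℝ) ^ (1 / 2 : ℝ) * (2 * Y * ω) ^ (1 / 4 : ℝ)) := by
    have e1 : (2 * tau R ^ 3 * (R : ℝ) ^ 2 * (2 * Y * ω)) ^ (1 / 4 : ℝ) =
        (2 : ℝ) ^ (1 / 4 : ℝ) * (tau R ^ (3 / 4 : ℝ) * (R : ℝ) ^ (1 / 2 : ℝ) * (2 * Y * ω) ^ (1 / 4 : ℝ)) := by
      rw [Real.mul_rpow (by positivity) (by positivity), Real.mul_rpow (by positivity) (by positivity),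
        Real.mul_rpow (by positivity) (by positivity)]
      rw [show (tau R ^ 3) ^ (1 / 4 : ℝ) = tau R ^ (3 / 4 : ℝ) by
        rw [← Real.rpow_natCast, ← Real.rpow_mul hτ]; norm_num]
      rw [show ((R : ℝ) ^ 2) ^ (1 / 4 : ℝ) = (R : ℝ) ^ (1 / 2 : ℝ) by
        rw [← Real.rpow_natCast, ← Real.rpow_mul (Nat.cast_nonneg R)]; norm_num]
      ring
    rw [← e1]
    refine Real.rpow_le_rpow (by positivity) ?_ (by norm_num)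
    gcongr
  have hnum := bilin_num ((w * w' : ℕ) : ℝ) L ω (by exact_mod_cast hq1) (by
      have : ((w * w' : ℕ) : ℝ) ≤ (ω : ℝ) ^ 2 := by
        rw [sq]
        exact_mod_cast Nat.mul_le_mul hw2 hw2'
      linarith) (by
      rw [sq]
      exact_mod_cast Nat.mul_le_mul hw2 hw2') (Nat.cast_nonneg ω)
  calc 1 / (L : ℝ) * ‖∑ a ∈ range L, ∑ b ∈ range L, (fun t : ℕ => G t * kph R (A - A') ((t : ZMod R) + r))
        (L / 2 + a + b)‖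
      ≤ 1 / (L : ℝ) * ((((w * w' : ℕ) : ℝ)) ^ 2 * ((L : ℝ) / ((w * w' : ℕ) : ℝ) + 1) ^ (5 / 4 : ℝ) *
        (2 * tau R ^ 3 * (R : ℝ) ^ 2 * (Nat.gcd (A - A').val R : ℝ)) ^ (1 / 4 : ℝ)) := by
        gcongr
    _ = (1 / (L : ℝ) * ((((w * w' : ℕ) : ℝ)) ^ 2 * ((L : ℝ) / ((w * w' : ℕ) : ℝ) + 1) ^ (5 / 4 : ℝ))) *
        (2 * tau R ^ 3 * (R : ℝ) ^ 2 * (Nat.gcd (A - A').val R : ℝ)) ^ (1 / 4 : ℝ) := by ring
    _ ≤ ((2 : ℝ) ^ (5 / 4 : ℝ) * ((ω : ℝ) ^ (3 / 2 : ℝ) * (L : ℝ) ^ (1 / 4 : ℝ))) *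
        ((2 : ℝ) ^ (1 / 4 : ℝ) * (tau R ^ (3 / 4 : ℝ) * (R : ℝ) ^ (1 / 2 : ℝ) * (2 * Y * ω) ^ (1 / 4 : ℝ))) := by
        gcongr
    _ = ((2 : ℝ) ^ (5 / 4 : ℝ) * (2 : ℝ) ^ (1 / 4 : ℝ)) * ((ω : ℝ) ^ (3 / 2 : ℝ) * (L : ℝ) ^ (1 / 4 : ℝ) *
          tau R ^ (3 / 4 : ℝ) * (R : ℝ) ^ (1 / 2 : ℝ) * (2 * Y * ω) ^ (1 / 4 : ℝ)) := by ring
    _ ≤ _ := by
        gcongr
        exact two_pow_three_half

/-- total mass of the weight -/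
theorem sum_tri_mass (L : ℕ) (hL : 1 ≤ L) : ∑ k ∈ range (3 * L), tri L (L / 2) k = L := by
  have h := sum_tri L (L / 2) (3 * L) hL (by omega) (fun _ => 1)
  have hLr : (L : ℂ) ≠ 0 := by
    have : L ≠ 0 := by omega
    exact_mod_cast this
  have h2 : ((∑ k ∈ range (3 * L), tri L (L / 2) k : ℝ) : ℂ) = (L : ℂ) := by
    push_cast
    simp only [mul_one] at h
    rw [h]
    simp
    field_simp
  exact_mod_cast h2

theorem bilinear {ι : Type*} [DecidableEq ι] (S : Finset ι) (R L : ℕ) [NeZero R] (hL : 8 ≤ L)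
    (r : ZMod R) (w : ι → ℕ) (h : ι → ℤ) (F0 : ι → ℕ → ℂ) (γ : ι → ℂ) (G Y : ℝ) (ω₀ ω : ℕ)
    (hG : 0 ≤ G) (hY : 1 ≤ Y) (hω₀ : 1 ≤ ω₀) (hω : (ω : ℝ) ^ 2 ≤ L)
    (hw₁ : ∀ i ∈ S, ω₀ ≤ w i) (hw₂ : ∀ i ∈ S, w i ≤ ω) (hcop : ∀ i ∈ S, (w i).Coprime R)
    (hh : ∀ i ∈ S, |(h i : ℝ)| ≤ Y) (hF : ∀ i ∈ S, ∀ t, ‖F0 i t‖ ≤ 1)
    (hper : ∀ i ∈ S, ∀ t, F0 i (t + w i) = F0 i t) (hγ : ∀ i ∈ S, ‖γ i‖ ≤ G)
    (hR : L / (ω₀ * ω₀) + 1 ≤ R) :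
    ∑ l ∈ Ico L (2 * L), ‖∑ i ∈ S, γ i * (F0 i l *
        kph R (-(h i : ZMod R) * (w i : ZMod R)⁻¹) ((l : ZMod R) + r))‖ ^ 2 ≤
      4 * G ^ 2 * ((L : ℝ) * (((S ×ˢ S).filter
          (fun p => h p.2 * (w p.1 : ℤ) = h p.1 * (w p.2 : ℤ))).card : ℝ) +
        3 * (S.card : ℝ) ^ 2 * ((ω : ℝ) ^ (3 / 2 : ℝ) * (L : ℝ) ^ (1 / 4 : ℝ) *
          tau R ^ (3 / 4 : ℝ) * (R : ℝ) ^ (1 / 2 : ℝ) * (2 * Y * ω) ^ (1 / 4 : ℝ))) := by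
  classical
  set Φ : ι → ℕ → ℂ := fun i l => F0 i l * kph R (-(h i : ZMod R) * (w i : ZMod R)⁻¹) ((l : ZMod R) + r)
    with hΦ
  set Q : ℝ := (ω : ℝ) ^ (3 / 2 : ℝ) * (L : ℝ) ^ (1 / 4 : ℝ) *
          tau R ^ (3 / 4 : ℝ) * (R : ℝ) ^ (1 / 2 : ℝ) * (2 * Y * ω) ^ (1 / 4 : ℝ) with hQ
  have hτ : 0 ≤ tau R := by unfold tau; positivity
  have hQ0 : 0 ≤ Q := by positivity
  have hΦ1 : ∀ i ∈ S, ∀ l, ‖Φ i l‖ ≤ 1 := by
    intro i hi l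
    simp only [hΦ, norm_mul]
    exact mul_le_one₀ (hF i hi l) (norm_nonneg _) (norm_kph_le _ _ _)
  -- step 1: insert the weight
  have s1 : ∑ l ∈ Ico L (2 * L), ‖∑ i ∈ S, γ i * Φ i l‖ ^ 2 ≤
      4 * ∑ k ∈ range (3 * L), tri L (L / 2) k * ‖∑ i ∈ S, γ i * Φ i k‖ ^ 2 := by
    rw [Finset.mul_sum]
    refine le_trans (Finset.sum_le_sum (f := fun l => ‖∑ i ∈ S, γ i * Φ i l‖ ^ 2)
      (g := fun k => 4 * (tri L (L / 2) k * ‖∑ i ∈ S, γ i * Φ i k‖ ^ 2)) ?_) ?_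
    · intro l hl
      rw [Finset.mem_Ico] at hl
      have := quarter_le_tri L l hL hl.1 hl.2.le
      nlinarith [sq_nonneg ‖∑ i ∈ S, γ i * Φ i l‖]
    · refine Finset.sum_le_sum_of_subset_of_nonneg ?_ ?_
      · intro l hl
        rw [Finset.mem_Ico] at hl
        rw [Finset.mem_range]
        omega
      · intro k _ _
        have := tri_nonneg L (L / 2) k
        positivity
  -- step 2: open the square
  have s2 : ∑ k ∈ range (3 * L), tri L (L / 2) k * ‖∑ i ∈ S, γ i * Φ i k‖ ^ 2 ≤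
      ∑ p ∈ S ×ˢ S, G ^ 2 * ‖∑ k ∈ range (3 * L), (tri L (L / 2) k : ℂ) *
        (Φ p.1 k * (starRingEnd ℂ) (Φ p.2 k))‖ := by
    have e := open_sq S (range (3 * L)) (fun k => tri L (L / 2) k) (fun i k => γ i * Φ i k)
    have hnn : 0 ≤ ∑ k ∈ range (3 * L), tri L (L / 2) k * ‖∑ i ∈ S, γ i * Φ i k‖ ^ 2 :=
      Finset.sum_nonneg fun k _ => mul_nonneg (tri_nonneg _ _ _) (sq_nonneg _)
    have e2 : ∑ k ∈ range (3 * L), tri L (L / 2) k * ‖∑ i ∈ S, γ i * Φ i k‖ ^ 2 =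
        ‖((∑ k ∈ range (3 * L), tri L (L / 2) k * ‖∑ i ∈ S, γ i * Φ i k‖ ^ 2 : ℝ) : ℂ)‖ := by
      rw [Complex.norm_real, Real.norm_of_nonneg hnn]
    rw [e2, e]
    refine (norm_sum_le _ _).trans (Finset.sum_le_sum fun p hp => ?_)
    rw [Finset.mem_product] at hp
    have e3 : ∑ k ∈ range (3 * L), (tri L (L / 2) k : ℂ) *
        (γ p.1 * Φ p.1 k * (starRingEnd ℂ) (γ p.2 * Φ p.2 k)) =
        (γ p.1 * (starRingEnd ℂ) (γ p.2)) * ∑ k ∈ range (3 * L), (tri L (L / 2) k : ℂ) *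
        (Φ p.1 k * (starRingEnd ℂ) (Φ p.2 k)) := by
      rw [Finset.mul_sum]
      refine Finset.sum_congr rfl fun k _ => ?_
      rw [map_mul]
      ring
    rw [e3, norm_mul, norm_mul, RCLike.norm_conj, sq]
    gcongr
    · exact hγ _ hp.1
    · exact hγ _ hp.2
  -- step 3: one pair
  have s3 : ∀ p ∈ S ×ˢ S, ‖∑ k ∈ range (3 * L), (tri L (L / 2) k : ℂ) *
        (Φ p.1 k * (starRingEnd ℂ) (Φ p.2 k))‖ ≤
      (if h p.2 * (w p.1 : ℤ) = h p.1 * (w p.2 : ℤ) then (L : ℝ) else 0) + 3 * Q := by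
    intro p hp
    rw [Finset.mem_product] at hp
    split_ifs with hc
    · have h1 : ‖∑ k ∈ range (3 * L), (tri L (L / 2) k : ℂ) * (Φ p.1 k * (starRingEnd ℂ) (Φ p.2 k))‖ ≤
          ∑ k ∈ range (3 * L), tri L (L / 2) k := by
        refine (norm_sum_le _ _).trans (Finset.sum_le_sum fun k _ => ?_)
        rw [norm_mul, norm_mul, RCLike.norm_conj, Complex.norm_real,
          Real.norm_of_nonneg (tri_nonneg _ _ _)]
        have := mul_le_one₀ (hΦ1 _ hp.1 k) (norm_nonneg _) (hΦ1 _ hp.2 k)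
        have := tri_nonneg L (L / 2) k
        nlinarith
      rw [sum_tri_mass L (by omega)] at h1
      linarith
    · rw [zero_add]
      have hq : L / (w p.1 * w p.2) + 1 ≤ R := by
        have h1 : ω₀ * ω₀ ≤ w p.1 * w p.2 := Nat.mul_le_mul (hw₁ _ hp.1) (hw₁ _ hp.2)
        have h2 : L / (w p.1 * w p.2) ≤ L / (ω₀ * ω₀) := Nat.div_le_div_left h1 (Nat.mul_pos hω₀ hω₀)
        omega
      exact bilin_pair R L hL r (w p.1) (w p.2) (h p.1) (h p.2) (F0 p.1) (F0 p.2) Y ω hY hω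
        (hω₀.trans (hw₁ _ hp.1)) (hω₀.trans (hw₁ _ hp.2)) (hw₂ _ hp.1) (hw₂ _ hp.2) (hcop _ hp.1)
        (hcop _ hp.2) (hh _ hp.1) (hh _ hp.2) (hF _ hp.1) (hF _ hp.2) (hper _ hp.1) (hper _ hp.2) hq hc
  -- step 4: sum up
  have s4 : ∑ p ∈ S ×ˢ S, G ^ 2 * ‖∑ k ∈ range (3 * L), (tri L (L / 2) k : ℂ) *
        (Φ p.1 k * (starRingEnd ℂ) (Φ p.2 k))‖ ≤
      G ^ 2 * ((L : ℝ) * (((S ×ˢ S).filter
          (fun p => h p.2 * (w p.1 : ℤ) = h p.1 * (w p.2 : ℤ))).card : ℝ) + 3 * (S.card : ℝ) ^ 2 * Q) := by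
    rw [← Finset.mul_sum]
    have h1 : ∑ p ∈ S ×ˢ S, ‖∑ k ∈ range (3 * L), (tri L (L / 2) k : ℂ) *
        (Φ p.1 k * (starRingEnd ℂ) (Φ p.2 k))‖ ≤
        ∑ p ∈ S ×ˢ S, ((if h p.2 * (w p.1 : ℤ) = h p.1 * (w p.2 : ℤ) then (L : ℝ) else 0) + 3 * Q) :=
      Finset.sum_le_sum s3
    have h2 : ∑ p ∈ S ×ˢ S, ((if h p.2 * (w p.1 : ℤ) = h p.1 * (w p.2 : ℤ) then (L : ℝ) else 0) + 3 * Q) =
        (L : ℝ) * (((S ×ˢ S).filter
          (fun p => h p.2 * (w p.1 : ℤ) = h p.1 * (w p.2 : ℤ))).card : ℝ) + 3 * (S.card : ℝ) ^ 2 * Q := by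
      rw [Finset.sum_add_distrib, ← Finset.sum_filter, Finset.sum_const, Finset.sum_const,
        Finset.card_product]
      simp only [nsmul_eq_mul]
      push_cast
      ring
    rw [h2] at h1
    gcongr
  calc _ ≤ 4 * ∑ k ∈ range (3 * L), tri L (L / 2) k * ‖∑ i ∈ S, γ i * Φ i k‖ ^ 2 := s1
    _ ≤ 4 * (G ^ 2 * ((L : ℝ) * (((S ×ˢ S).filter
          (fun p => h p.2 * (w p.1 : ℤ) = h p.1 * (w p.2 : ℤ))).card : ℝ) + 3 * (S.card : ℝ) ^ 2 * Q)) := by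
        gcongr
        exact s2.trans s4
    _ = _ := by ring

end Pool.Agent.ZH.D
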