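import Pool.Agent.Work.ZH.D.Bilinear

/-! # Module Blocks: mean value over `l` of the complete Fourier expansion (common part of T1 and T2)

Paper proof. Split the frequencies into dyadic blocks `J_i = {h : 2^i ≤ |h| < 2^(i+1)}`, `2^i ≤ H`; their number is
at most `T` (`tau (2^i) = i + 1`, `2^i ≤ H ≤ X`). Triangle inequality over the blocks, Cauchy over `l`, `bilinear` with
index type `ι × ℤ`, `S = S0 ×ˢ J_i`, `γ (i,h) * g i h`, `|..| ≤ G0 G_i`, `G_i = min(a, b / 4^i)`, `Y = 2^(i+1)`,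
`|S| ≤ n₀ Y`, `#diag ≤ P Y`:
`∑_l |..| ≤ L^(1/2) 2 G0 G_i ((L P Y)^(1/2) + (3 (n₀ Y)^2 ω^(3/2) L^(1/4) τ(R)^(3/4) R^(1/2) (2 Y ω)^(1/4))^(1/2))`,
`G_i Y^(1/2) ≤ a^(3/4) (4b)^(1/4)`, `G_i Y^(9/8) ≤ a^(7/16) (4b)^(9/16)` (`min(a,c) ≤ a^(1-θ) c^θ`, `c = 4b/Y^2`). -/

namespace Pool.Agent.ZH.D

open Finset

namespace Blocks

theorem min_rpow {a c : ℝ} (ha : 0 ≤ a) (hc : 0 ≤ c) {s : ℝ} (h0 : 0 < s) (h1 : s < 1) :
    min a c ≤ a ^ s * c ^ (1 - s) := by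
  have hm : 0 ≤ min a c := le_min ha hc
  have h2 : min a c = (min a c) ^ s * (min a c) ^ (1 - s) := by
    rw [← Real.rpow_add_of_nonneg hm h0.le (by linarith)]
    rw [show s + (1 - s) = 1 by ring, Real.rpow_one]
  rw [h2]
  refine mul_le_mul ?_ ?_ (by positivity) (by positivity)
  · exact Real.rpow_le_rpow hm (min_le_left _ _) h0.le
  · exact Real.rpow_le_rpow hm (min_le_right _ _) (by linarith)

theorem rpow_sq {x : ℝ} (hx : 0 ≤ x) (s : ℝ) : (x ^ s) ^ 2 = x ^ (s * 2) := by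
  rw [← Real.rpow_natCast, ← Real.rpow_mul hx]
  norm_num

theorem gy1 {a b Y : ℝ} (ha : 0 ≤ a) (hb : 0 ≤ b) (hY : 0 < Y) :
    (min a (4 * b / Y ^ 2)) ^ 2 * Y ≤ 2 * (a ^ (3 / 4 : ℝ) * b ^ (1 / 4 : ℝ)) ^ 2 := by
  have hc : 0 ≤ 4 * b / Y ^ 2 := by positivity
  have h1 := min_rpow ha hc (s := 3 / 4) (by norm_num) (by norm_num)
  have hm : 0 ≤ min a (4 * b / Y ^ 2) := le_min ha hc
  have e1 : (1 - 3 / 4 : ℝ) = 1 / 4 := by norm_num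
  rw [e1] at h1
  have h2 : ((4 * b / Y ^ 2) ^ (1 / 4 : ℝ)) ^ 2 * Y = 2 * (b ^ (1 / 4 : ℝ)) ^ 2 := by
    rw [rpow_sq hc, rpow_sq hb]
    have e2 : (1 / 4 * 2 : ℝ) = 1 / 2 := by norm_num
    rw [e2, Real.div_rpow (by positivity) (by positivity), Real.mul_rpow (by norm_num) hb]
    have e3 : (4 : ℝ) ^ (1 / 2 : ℝ) = 2 := by
      rw [show (4 : ℝ) = 2 ^ (2 : ℝ) by norm_num, ← Real.rpow_mul (by norm_num)]
      norm_num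
    have e4 : (Y ^ 2) ^ (1 / 2 : ℝ) = Y := by
      rw [← Real.rpow_natCast, ← Real.rpow_mul hY.le]
      norm_num
    rw [e3, e4]
    field_simp
  calc (min a (4 * b / Y ^ 2)) ^ 2 * Y
      ≤ (a ^ (3 / 4 : ℝ) * (4 * b / Y ^ 2) ^ (1 / 4 : ℝ)) ^ 2 * Y := by gcongr
    _ = (a ^ (3 / 4 : ℝ)) ^ 2 * (((4 * b / Y ^ 2) ^ (1 / 4 : ℝ)) ^ 2 * Y) := by ring
    _ = _ := by rw [h2]; ring

theorem four_pow_le : (4 : ℝ) ^ (9 / 8 : ℝ) ≤ 5 := by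
  have h1 : ((4 : ℝ) ^ (9 / 8 : ℝ)) ^ 8 = 4 ^ 9 := by
    rw [← Real.rpow_natCast, ← Real.rpow_mul (by norm_num)]
    norm_num
  by_contra h
  push Not at h
  have h2 : (5 : ℝ) ^ 8 < ((4 : ℝ) ^ (9 / 8 : ℝ)) ^ 8 := by gcongr
  rw [h1] at h2
  norm_num at h2

theorem gy2 {a b Y : ℝ} (ha : 0 ≤ a) (hb : 0 ≤ b) (hY : 0 < Y) :
    (min a (4 * b / Y ^ 2)) ^ 2 * Y ^ (9 / 4 : ℝ) ≤
      5 * (a ^ (7 / 16 : ℝ) * b ^ (9 / 16 : ℝ)) ^ 2 := by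
  have hc : 0 ≤ 4 * b / Y ^ 2 := by positivity
  have h1 := min_rpow ha hc (s := 7 / 16) (by norm_num) (by norm_num)
  have hm : 0 ≤ min a (4 * b / Y ^ 2) := le_min ha hc
  have e1 : (1 - 7 / 16 : ℝ) = 9 / 16 := by norm_num
  rw [e1] at h1
  have h2 : ((4 * b / Y ^ 2) ^ (9 / 16 : ℝ)) ^ 2 * Y ^ (9 / 4 : ℝ) =
      (4 : ℝ) ^ (9 / 8 : ℝ) * (b ^ (9 / 16 : ℝ)) ^ 2 := by
    rw [rpow_sq hc, rpow_sq hb]
    have e2 : (9 / 16 * 2 : ℝ) = 9 / 8 := by norm_num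
    rw [e2, Real.div_rpow (by positivity) (by positivity), Real.mul_rpow (by norm_num) hb]
    have e4 : (Y ^ 2) ^ (9 / 8 : ℝ) = Y ^ (9 / 4 : ℝ) := by
      rw [← Real.rpow_natCast, ← Real.rpow_mul hY.le]
      norm_num
    rw [e4]
    have : Y ^ (9 / 4 : ℝ) ≠ 0 := by positivity
    field_simp
  calc (min a (4 * b / Y ^ 2)) ^ 2 * Y ^ (9 / 4 : ℝ)
      ≤ (a ^ (7 / 16 : ℝ) * (4 * b / Y ^ 2) ^ (9 / 16 : ℝ)) ^ 2 * Y ^ (9 / 4 : ℝ) := by gcongr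
    _ = (a ^ (7 / 16 : ℝ)) ^ 2 * (((4 * b / Y ^ 2) ^ (9 / 16 : ℝ)) ^ 2 * Y ^ (9 / 4 : ℝ)) := by ring
    _ = (4 : ℝ) ^ (9 / 8 : ℝ) * ((a ^ (7 / 16 : ℝ)) ^ 2 * (b ^ (9 / 16 : ℝ)) ^ 2) := by
        rw [h2]; ring
    _ ≤ 5 * ((a ^ (7 / 16 : ℝ)) ^ 2 * (b ^ (9 / 16 : ℝ)) ^ 2) := by
        gcongr
        exact four_pow_le
    _ = _ := by ring

/-- the numerical inequality of one block -/
theorem block_num {a b Y G0 P n₀ L ω t R : ℝ} (ha : 0 ≤ a) (hb : 0 ≤ b) (hY : 0 < Y)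
    (hP : 0 ≤ P) (hn : 0 ≤ n₀) (hL : 0 < L) (hω : 0 ≤ ω) (ht : 0 ≤ t) (hR : 0 ≤ R) :
    L * (4 * (G0 * min a (4 * b / Y ^ 2)) ^ 2 * (L * (P * Y) + 3 * (n₀ * Y) ^ 2 *
      (ω ^ (3 / 2 : ℝ) * L ^ (1 / 4 : ℝ) * t ^ (3 / 4 : ℝ) * R ^ (1 / 2 : ℝ) *
        (2 * Y * ω) ^ (1 / 4 : ℝ)))) ≤
    (20 * G0 * (L * P ^ (1 / 2 : ℝ) * (a ^ (3 / 4 : ℝ) * b ^ (1 / 4 : ℝ)) +
        n₀ * ω ^ (7 / 8 : ℝ) * L ^ (5 / 8 : ℝ) * t ^ (3 / 8 : ℝ) *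
          R ^ (1 / 4 : ℝ) * (a ^ (7 / 16 : ℝ) * b ^ (9 / 16 : ℝ)))) ^ 2 := by
  have g1 := gy1 ha hb hY
  have g2 := gy2 ha hb hY
  set m := min a (4 * b / Y ^ 2) with hm
  have hm0 : 0 ≤ m := le_min ha (by positivity)
  set Z1 := L * P ^ (1 / 2 : ℝ) * (a ^ (3 / 4 : ℝ) * b ^ (1 / 4 : ℝ)) with hZ1
  set Z2 := n₀ * ω ^ (7 / 8 : ℝ) * L ^ (5 / 8 : ℝ) * t ^ (3 / 8 : ℝ) *
          R ^ (1 / 4 : ℝ) * (a ^ (7 / 16 : ℝ) * b ^ (9 / 16 : ℝ)) with hZ2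
  have z1 : 0 ≤ Z1 := by positivity
  have z2 : 0 ≤ Z2 := by positivity
  have s1 : (P ^ (1 / 2 : ℝ)) ^ 2 = P := by
    rw [← Real.rpow_natCast, ← Real.rpow_mul hP]
    norm_num
  have s2 : (ω ^ (7 / 8 : ℝ)) ^ 2 = ω ^ (3 / 2 : ℝ) * ω ^ (1 / 4 : ℝ) := by
    rw [← Real.rpow_natCast, ← Real.rpow_mul hω, ← Real.rpow_add_of_nonneg hω (by norm_num) (by norm_num)]
    norm_num
  have s3 : (L ^ (5 / 8 : ℝ)) ^ 2 = L * L ^ (1 / 4 : ℝ) := by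
    rw [← Real.rpow_natCast, ← Real.rpow_mul hL.le]
    nth_rewrite 2 [← Real.rpow_one L]
    rw [← Real.rpow_add hL]
    norm_num
  have s4 : (t ^ (3 / 8 : ℝ)) ^ 2 = t ^ (3 / 4 : ℝ) := by
    rw [← Real.rpow_natCast, ← Real.rpow_mul ht]
    norm_num
  have s5 : (R ^ (1 / 4 : ℝ)) ^ 2 = R ^ (1 / 2 : ℝ) := by
    rw [← Real.rpow_natCast, ← Real.rpow_mul hR]
    norm_num
  have s6 : (2 * Y * ω) ^ (1 / 4 : ℝ) ≤ 2 * (Y ^ (1 / 4 : ℝ) * ω ^ (1 / 4 : ℝ)) := by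
    rw [Real.mul_rpow (by positivity) hω, Real.mul_rpow (by norm_num) hY.le, mul_assoc]
    have : (2 : ℝ) ^ (1 / 4 : ℝ) ≤ 2 := by
      calc (2 : ℝ) ^ (1 / 4 : ℝ) ≤ (2 : ℝ) ^ (1 : ℝ) :=
            Real.rpow_le_rpow_of_exponent_le (by norm_num) (by norm_num)
        _ = 2 := Real.rpow_one 2
    gcongr
  have s7 : Y ^ 2 * Y ^ (1 / 4 : ℝ) = Y ^ (9 / 4 : ℝ) := by
    rw [← Real.rpow_natCast, ← Real.rpow_add hY]
    norm_num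
  have q1 : Z1 ^ 2 = L ^ 2 * P * (a ^ (3 / 4 : ℝ) * b ^ (1 / 4 : ℝ)) ^ 2 := by
    rw [hZ1, mul_pow, mul_pow, s1]
  have q2 : Z2 ^ 2 = n₀ ^ 2 * (ω ^ (3 / 2 : ℝ) * ω ^ (1 / 4 : ℝ)) * (L * L ^ (1 / 4 : ℝ)) *
      t ^ (3 / 4 : ℝ) * R ^ (1 / 2 : ℝ) * (a ^ (7 / 16 : ℝ) * b ^ (9 / 16 : ℝ)) ^ 2 := by
    rw [hZ2, mul_pow, mul_pow, mul_pow, mul_pow, mul_pow, s2, s3, s4, s5]
  have p1 : L ^ 2 * P * (m ^ 2 * Y) ≤ 2 * Z1 ^ 2 := by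
    rw [q1]
    calc L ^ 2 * P * (m ^ 2 * Y) ≤ L ^ 2 * P * (2 * (a ^ (3 / 4 : ℝ) * b ^ (1 / 4 : ℝ)) ^ 2) := by
          gcongr
      _ = _ := by ring
  have p2 : L * (n₀ * Y) ^ 2 * m ^ 2 * (ω ^ (3 / 2 : ℝ) * L ^ (1 / 4 : ℝ) * t ^ (3 / 4 : ℝ) *
      R ^ (1 / 2 : ℝ) * (2 * Y * ω) ^ (1 / 4 : ℝ)) ≤ 10 * Z2 ^ 2 := by
    rw [q2]
    calc _ ≤ L * (n₀ * Y) ^ 2 * m ^ 2 * (ω ^ (3 / 2 : ℝ) * L ^ (1 / 4 : ℝ) * t ^ (3 / 4 : ℝ) *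
          R ^ (1 / 2 : ℝ) * (2 * (Y ^ (1 / 4 : ℝ) * ω ^ (1 / 4 : ℝ)))) := by gcongr
      _ = 2 * (n₀ ^ 2 * (ω ^ (3 / 2 : ℝ) * ω ^ (1 / 4 : ℝ)) * (L * L ^ (1 / 4 : ℝ)) *
          t ^ (3 / 4 : ℝ) * R ^ (1 / 2 : ℝ)) * (m ^ 2 * (Y ^ 2 * Y ^ (1 / 4 : ℝ))) := by ring
      _ = 2 * (n₀ ^ 2 * (ω ^ (3 / 2 : ℝ) * ω ^ (1 / 4 : ℝ)) * (L * L ^ (1 / 4 : ℝ)) *
          t ^ (3 / 4 : ℝ) * R ^ (1 / 2 : ℝ)) * (m ^ 2 * Y ^ (9 / 4 : ℝ)) := by rw [s7]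
      _ ≤ 2 * (n₀ ^ 2 * (ω ^ (3 / 2 : ℝ) * ω ^ (1 / 4 : ℝ)) * (L * L ^ (1 / 4 : ℝ)) *
          t ^ (3 / 4 : ℝ) * R ^ (1 / 2 : ℝ)) * (5 * (a ^ (7 / 16 : ℝ) * b ^ (9 / 16 : ℝ)) ^ 2) := by
          gcongr
      _ = _ := by ring
  have hG2 : 0 ≤ G0 ^ 2 := sq_nonneg _
  calc _ = 4 * G0 ^ 2 * (L ^ 2 * P * (m ^ 2 * Y)) + 12 * G0 ^ 2 * (L * (n₀ * Y) ^ 2 * m ^ 2 *
        (ω ^ (3 / 2 : ℝ) * L ^ (1 / 4 : ℝ) * t ^ (3 / 4 : ℝ) *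
        R ^ (1 / 2 : ℝ) * (2 * Y * ω) ^ (1 / 4 : ℝ))) := by ring
    _ ≤ 4 * G0 ^ 2 * (2 * Z1 ^ 2) + 12 * G0 ^ 2 * (10 * Z2 ^ 2) := by gcongr
    _ ≤ (20 * G0 * (Z1 + Z2)) ^ 2 := by
        have h3 : 0 ≤ G0 ^ 2 * (Z1 * Z2) := by positivity
        have h4 : 0 ≤ G0 ^ 2 * Z1 ^ 2 := by positivity
        have h5 : 0 ≤ G0 ^ 2 * Z2 ^ 2 := by positivity
        nlinarith

/-- all frequencies below `2^J` -/
noncomputable def freq (J : ℕ) : Finset ℤ :=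
  (Icc (-(2 ^ J : ℤ)) (2 ^ J)).filter (fun h => h ≠ 0 ∧ h.natAbs < 2 ^ J)

/-- a dyadic block of frequencies -/
noncomputable def blk (J j : ℕ) : Finset ℤ := (freq J).filter (fun h => Nat.log 2 h.natAbs = j)

theorem mem_freq {J : ℕ} {h : ℤ} : h ∈ freq J ↔ h ≠ 0 ∧ h.natAbs < 2 ^ J := by
  unfold freq
  rw [Finset.mem_filter, Finset.mem_Icc]
  constructor
  · exact fun h => h.2
  · intro hh
    refine ⟨?_, hh⟩
    have h1 : (h.natAbs : ℤ) < 2 ^ J := by exact_mod_cast hh.2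
    omega

theorem mem_blk {J j : ℕ} {h : ℤ} (hh : h ∈ blk J j) :
    h ≠ 0 ∧ 2 ^ j ≤ h.natAbs ∧ h.natAbs < 2 ^ (j + 1) := by
  unfold blk at hh
  rw [Finset.mem_filter, mem_freq] at hh
  obtain ⟨⟨h1, h2⟩, h3⟩ := hh
  have h4 : h.natAbs ≠ 0 := Int.natAbs_ne_zero.2 h1
  refine ⟨h1, ?_, ?_⟩
  · rw [← h3]
    exact Nat.pow_log_le_self 2 h4
  · rw [← h3]
    exact Nat.lt_pow_succ_log_self (by norm_num) _

theorem card_blk (J j : ℕ) : (blk J j).card ≤ 2 ^ (j + 1) := by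
  have hsub : blk J j ⊆ ((Ico (2 ^ j) (2 ^ (j + 1))).image (fun n : ℕ => (n : ℤ))) ∪
      ((Ico (2 ^ j) (2 ^ (j + 1))).image (fun n : ℕ => -(n : ℤ))) := by
    intro h hh
    obtain ⟨_, h2, h3⟩ := mem_blk hh
    rw [Finset.mem_union, Finset.mem_image, Finset.mem_image]
    rcases le_total 0 h with h4 | h4
    · left
      exact ⟨h.natAbs, Finset.mem_Ico.2 ⟨h2, h3⟩, by omega⟩
    · right
      exact ⟨h.natAbs, Finset.mem_Ico.2 ⟨h2, h3⟩, by omega⟩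
  calc (blk J j).card ≤ _ := Finset.card_le_card hsub
    _ ≤ _ := Finset.card_union_le _ _
    _ ≤ (Ico (2 ^ j) (2 ^ (j + 1))).card + (Ico (2 ^ j) (2 ^ (j + 1))).card :=
        add_le_add Finset.card_image_le Finset.card_image_le
    _ = 2 ^ (j + 1) := by
        rw [Nat.card_Ico]
        have : 2 ^ (j + 1) = 2 * 2 ^ j := by ring
        omega

/-- the decomposition into blocks -/
theorem sum_blk (J : ℕ) (f : ℤ → ℂ) : ∑ h ∈ freq J, f h = ∑ j ∈ range J, ∑ h ∈ blk J j, f h := by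
  unfold blk
  rw [Finset.sum_fiberwise_of_maps_to]
  intro h hh
  rw [mem_freq] at hh
  rw [Finset.mem_range]
  exact Nat.log_lt_of_lt_pow (Int.natAbs_ne_zero.2 hh.1) hh.2

end Blocks

open Blocks in
theorem blocks {ι : Type*} [DecidableEq ι] (S : Finset ι) (R L H X : ℕ) [NeZero R] (hL : 8 ≤ L)
    (r : ZMod R) (w B : ι → ℕ) (F0 : ι → ℤ → ℕ → ℂ) (γ : ι → ℂ) (g : ι → ℤ → ℂ) (G0 a b T P : ℝ)
    (ω₀ ω n₀ : ℕ) (hG0 : 0 ≤ G0) (ha : 0 ≤ a) (hb : 0 ≤ b) (hP : 0 ≤ P) (hω₀ : 1 ≤ ω₀)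
    (hω : (ω : ℝ) ^ 2 ≤ L) (hw₁ : ∀ i ∈ S, ω₀ ≤ w i) (hw₂ : ∀ i ∈ S, w i ≤ ω)
    (hcop : ∀ i ∈ S, (w i).Coprime R) (hF : ∀ i ∈ S, ∀ h t, ‖F0 i h t‖ ≤ 1)
    (hper : ∀ i ∈ S, ∀ h t, F0 i h (t + w i) = F0 i h t) (hγ : ∀ i ∈ S, ‖γ i‖ ≤ G0)
    (hR : L / (ω₀ * ω₀) + 1 ≤ R) (hg0 : ∀ i ∈ S, ∀ h : ℤ, h ≠ 0 → ‖g i h‖ ≤ a)
    (hg1 : ∀ i ∈ S, ∀ h : ℤ, h ≠ 0 → ‖g i h‖ ≤ b / (h : ℝ) ^ 2)
    (hg2 : ∀ i ∈ S, ∀ h : ℤ, (H : ℤ) < |h| → g i h = 0)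
    (hT : ∀ n : ℕ, 0 < n → n ≤ X → tau n ≤ T) (hHX : H ≤ X) (hX1 : 1 ≤ X)
    (hdiag : ∀ Y : ℝ, 1 ≤ Y → Y ≤ 2 * H → ∀ J : Finset ℤ, (∀ h ∈ J, h ≠ 0 ∧ |(h : ℝ)| ≤ Y) →
      ((((S ×ˢ J) ×ˢ (S ×ˢ J)).filter (fun p : (ι × ℤ) × (ι × ℤ) =>
        p.2.2 * (w p.1.1 : ℤ) = p.1.2 * (w p.2.1 : ℤ))).card : ℝ) ≤ P * Y)
    (hn₀ : S.card ≤ n₀) :
    ∑ l ∈ Ico L (2 * L), ‖∑ i ∈ S, γ i * ∑ h ∈ (Icc (-(B i : ℤ)) (B i)).filter (fun h => h ≠ 0),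
        g i h * (F0 i h l * kph R (-(h : ZMod R) * (w i : ZMod R)⁻¹) ((l : ZMod R) + r))‖ ≤
      20 * T * G0 * ((L : ℝ) * P ^ (1 / 2 : ℝ) * (a ^ (3 / 4 : ℝ) * b ^ (1 / 4 : ℝ)) +
        (n₀ : ℝ) * (ω : ℝ) ^ (7 / 8 : ℝ) * (L : ℝ) ^ (5 / 8 : ℝ) * tau R ^ (3 / 8 : ℝ) *
          (R : ℝ) ^ (1 / 4 : ℝ) * (a ^ (7 / 16 : ℝ) * b ^ (9 / 16 : ℝ))) := by
  have hL0 : (0 : ℝ) < L := by exact_mod_cast (show 0 < L by omega)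
  have htau : 0 ≤ tau R := by unfold tau; positivity
  set Z : ℝ := (L : ℝ) * P ^ (1 / 2 : ℝ) * (a ^ (3 / 4 : ℝ) * b ^ (1 / 4 : ℝ)) +
        (n₀ : ℝ) * (ω : ℝ) ^ (7 / 8 : ℝ) * (L : ℝ) ^ (5 / 8 : ℝ) * tau R ^ (3 / 8 : ℝ) *
          (R : ℝ) ^ (1 / 4 : ℝ) * (a ^ (7 / 16 : ℝ) * b ^ (9 / 16 : ℝ)) with hZ
  have hZ0 : 0 ≤ Z := by positivity
  have hT1 : 1 ≤ T := by
    have := hT 1 one_pos hX1
    refine le_trans ?_ this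
    unfold tau
    simp
  rcases Nat.eq_zero_or_pos H with hH | hH
  · -- no frequencies
    have h1 : ∀ l ∈ Ico L (2 * L), ‖∑ i ∈ S, γ i *
        ∑ h ∈ (Icc (-(B i : ℤ)) (B i)).filter (fun h => h ≠ 0),
        g i h * (F0 i h l * kph R (-(h : ZMod R) * (w i : ZMod R)⁻¹) ((l : ZMod R) + r))‖ = 0 := by
      intro l _
      rw [norm_eq_zero]
      refine Finset.sum_eq_zero fun i hi => ?_
      rw [Finset.sum_eq_zero, mul_zero]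
      intro h hh
      rw [Finset.mem_filter] at hh
      rw [hg2 i hi h (by rw [hH]; simpa using hh.2), zero_mul]
    rw [Finset.sum_eq_zero h1]
    positivity
  -- the number of blocks
  set J := Nat.log 2 H + 1 with hJ
  have hJT : (J : ℝ) ≤ T := by
    have h1 : 2 ^ Nat.log 2 H ≤ H := Nat.pow_log_le_self 2 hH.ne'
    have h2 := hT (2 ^ Nat.log 2 H) (by positivity) (h1.trans hHX)
    have h3 : tau (2 ^ Nat.log 2 H) = J := by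
      unfold tau
      rw [Nat.divisors_prime_pow Nat.prime_two, Finset.card_map, Finset.card_range]
    rw [h3] at h2
    exact h2
  have hHJ : H < 2 ^ J := Nat.lt_pow_succ_log_self (by norm_num) H
  -- the weights
  let γ' : ι × ℤ → ℂ := fun q => γ q.1 * (if q.2.natAbs ≤ B q.1 then g q.1 q.2 else 0)
  let Φ : ℕ → ι × ℤ → ℂ := fun l q => F0 q.1 q.2 l *
    kph R (-(q.2 : ZMod R) * (w q.1 : ZMod R)⁻¹) ((l : ZMod R) + r)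
  have hdec : ∀ l : ℕ, ∑ i ∈ S, γ i * ∑ h ∈ (Icc (-(B i : ℤ)) (B i)).filter (fun h => h ≠ 0),
        g i h * (F0 i h l * kph R (-(h : ZMod R) * (w i : ZMod R)⁻¹) ((l : ZMod R) + r)) =
      ∑ j ∈ range J, ∑ q ∈ S ×ˢ blk J j, γ' q * Φ l q := by
    intro l
    have h1 : ∀ i ∈ S, γ i * ∑ h ∈ (Icc (-(B i : ℤ)) (B i)).filter (fun h => h ≠ 0),
        g i h * (F0 i h l * kph R (-(h : ZMod R) * (w i : ZMod R)⁻¹) ((l : ZMod R) + r)) =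
        ∑ j ∈ range J, ∑ h ∈ blk J j, γ' (i, h) * Φ l (i, h) := by
      intro i hi
      rw [← sum_blk J (fun h => γ' (i, h) * Φ l (i, h)), Finset.mul_sum]
      have h2 : ∑ h ∈ (Icc (-(B i : ℤ)) (B i)).filter (fun h => h ≠ 0),
          γ i * (g i h * (F0 i h l * kph R (-(h : ZMod R) * (w i : ZMod R)⁻¹) ((l : ZMod R) + r))) =
          ∑ h ∈ ((Icc (-(B i : ℤ)) (B i)).filter (fun h => h ≠ 0)) ∩ freq J, γ' (i, h) * Φ l (i, h) := by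
        symm
        refine Finset.sum_subset_zero_on_sdiff Finset.inter_subset_left ?_ ?_
        · intro h hh
          rw [Finset.mem_sdiff, Finset.mem_inter, not_and, Finset.mem_filter, mem_freq] at hh
          obtain ⟨⟨h3, h4⟩, h5⟩ := hh
          have h6 : ¬ h.natAbs < 2 ^ J := fun h6 => h5 ⟨h3, h4⟩ ⟨h4, h6⟩
          rw [hg2 i hi h, zero_mul, mul_zero]
          have h7 : H < h.natAbs := lt_of_lt_of_le hHJ (not_lt.1 h6)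
          have h8 : |h| = (h.natAbs : ℤ) := Int.abs_eq_natAbs h
          rw [h8]
          exact_mod_cast h7
        · intro h hh
          rw [Finset.mem_inter, Finset.mem_filter, Finset.mem_Icc] at hh
          simp only [γ', Φ]
          rw [if_pos (by omega)]
          ring
      rw [h2]
      refine Finset.sum_subset_zero_on_sdiff Finset.inter_subset_right ?_ (fun _ _ => rfl)
      intro h hh
      rw [Finset.mem_sdiff, Finset.mem_inter, not_and', Finset.mem_filter, Finset.mem_Icc,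
        mem_freq] at hh
      obtain ⟨h3, h4⟩ := hh
      have h5 := h4 h3
      simp only [γ']
      rw [if_neg, mul_zero, zero_mul]
      intro h6
      exact h5 ⟨by omega, h3.1⟩
    rw [Finset.sum_congr rfl h1, Finset.sum_comm]
    refine Finset.sum_congr rfl fun j _ => ?_
    rw [Finset.sum_product]
  -- one block
  have hblock : ∀ j ∈ range J, ∑ l ∈ Ico L (2 * L), ‖∑ q ∈ S ×ˢ blk J j, γ' q * Φ l q‖ ≤
      20 * G0 * Z := by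
    intro j hj
    rw [Finset.mem_range] at hj
    set Y : ℝ := 2 ^ (j + 1) with hY
    have hY0 : 0 < Y := by positivity
    have hY1 : 1 ≤ Y := one_le_pow₀ (by norm_num)
    have hYH : Y ≤ 2 * H := by
      have h1 : 2 ^ j ≤ H := by
        calc 2 ^ j ≤ 2 ^ Nat.log 2 H := Nat.pow_le_pow_right (by norm_num) (by omega)
          _ ≤ H := Nat.pow_log_le_self 2 hH.ne'
      have h2 : ((2 ^ j : ℕ) : ℝ) ≤ H := by exact_mod_cast h1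
      rw [hY, pow_succ]
      push_cast at h2
      linarith
    have habs : ∀ h ∈ blk J j, h ≠ 0 ∧ |(h : ℝ)| ≤ Y := by
      intro h hh
      obtain ⟨h1, h2, h3⟩ := mem_blk hh
      refine ⟨h1, ?_⟩
      have h4 : |(h : ℝ)| = (h.natAbs : ℝ) := by
        rw [← Int.cast_abs, Int.abs_eq_natAbs, Int.cast_natCast]
      rw [h4, hY]
      have h5 : (h.natAbs : ℝ) < ((2 ^ (j + 1) : ℕ) : ℝ) := by exact_mod_cast h3
      push_cast at h5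
      exact h5.le
    set m := min a (4 * b / Y ^ 2) with hm
    have hm0 : 0 ≤ m := le_min ha (by positivity)
    have hgm : ∀ i ∈ S, ∀ h ∈ blk J j, ‖g i h‖ ≤ m := by
      intro i hi h hh
      obtain ⟨h1, h2, h3⟩ := mem_blk hh
      refine le_min (hg0 i hi h h1) ((hg1 i hi h h1).trans ?_)
      have h4 : |(h : ℝ)| = (h.natAbs : ℝ) := by
        rw [← Int.cast_abs, Int.abs_eq_natAbs, Int.cast_natCast]
      have h5 : (2 : ℝ) ^ j ≤ |(h : ℝ)| := by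
        rw [h4]
        exact_mod_cast h2
      have h6 : ((2 : ℝ) ^ j) ^ 2 ≤ (h : ℝ) ^ 2 := by
        rw [← sq_abs (h : ℝ)]
        gcongr
      have h7 : Y ^ 2 = 4 * ((2 : ℝ) ^ j) ^ 2 := by
        rw [hY, pow_succ]
        ring
      rw [h7]
      calc b / (h : ℝ) ^ 2 ≤ b / ((2 : ℝ) ^ j) ^ 2 := by gcongr
        _ = _ := by field_simp
    have hbil := bilinear (S ×ˢ blk J j) R L hL r (fun q => w q.1) (fun q => q.2)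
      (fun q t => F0 q.1 q.2 t) γ' (G0 * m) Y ω₀ ω (by positivity) hY1 hω₀ hω
      (fun q hq => hw₁ _ (Finset.mem_product.1 hq).1) (fun q hq => hw₂ _ (Finset.mem_product.1 hq).1)
      (fun q hq => hcop _ (Finset.mem_product.1 hq).1)
      (fun q hq => (habs _ (Finset.mem_product.1 hq).2).2)
      (fun q hq t => hF _ (Finset.mem_product.1 hq).1 _ _)
      (fun q hq t => hper _ (Finset.mem_product.1 hq).1 _ _)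
      (fun q hq => by
        simp only [γ']
        rw [norm_mul]
        have h1 := hgm _ (Finset.mem_product.1 hq).1 _ (Finset.mem_product.1 hq).2
        refine mul_le_mul (hγ _ (Finset.mem_product.1 hq).1) ?_ (norm_nonneg _) hG0
        split_ifs
        · exact h1
        · rw [norm_zero]; exact hm0) hR
    have hd := hdiag Y hY1 hYH (blk J j) habs
    have hcard : ((S ×ˢ blk J j).card : ℝ) ≤ n₀ * Y := by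
      rw [Finset.card_product]
      push_cast
      have h1 : ((blk J j).card : ℝ) ≤ Y := by
        rw [hY]
        exact_mod_cast card_blk J j
      have h2 : (S.card : ℝ) ≤ n₀ := by exact_mod_cast hn₀
      gcongr
    have hcs : (∑ l ∈ Ico L (2 * L), ‖∑ q ∈ S ×ˢ blk J j, γ' q * Φ l q‖) ^ 2 ≤
        L * ∑ l ∈ Ico L (2 * L), ‖∑ q ∈ S ×ˢ blk J j, γ' q * Φ l q‖ ^ 2 := by
      refine sq_sum_le_card_mul_sum_sq.trans (le_of_eq ?_)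
      rw [Nat.card_Ico, show 2 * L - L = L by omega]
    have hnum := block_num (R := (R : ℝ)) (t := tau R) (ω := (ω : ℝ)) (n₀ := (n₀ : ℝ)) ha hb hY0
      (G0 := G0) hP (Nat.cast_nonneg _) hL0 (Nat.cast_nonneg _) htau (Nat.cast_nonneg _)
    refine le_of_sq_le_sq ?_ (by positivity)
    calc (∑ l ∈ Ico L (2 * L), ‖∑ q ∈ S ×ˢ blk J j, γ' q * Φ l q‖) ^ 2
        ≤ L * ∑ l ∈ Ico L (2 * L), ‖∑ q ∈ S ×ˢ blk J j, γ' q * Φ l q‖ ^ 2 := hcs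
      _ ≤ L * (4 * (G0 * m) ^ 2 * ((L : ℝ) * ((((S ×ˢ blk J j) ×ˢ (S ×ˢ blk J j)).filter
          (fun p : (ι × ℤ) × (ι × ℤ) =>
            p.2.2 * (w p.1.1 : ℤ) = p.1.2 * (w p.2.1 : ℤ))).card : ℝ) +
        3 * ((S ×ˢ blk J j).card : ℝ) ^ 2 * ((ω : ℝ) ^ (3 / 2 : ℝ) * (L : ℝ) ^ (1 / 4 : ℝ) *
          tau R ^ (3 / 4 : ℝ) * (R : ℝ) ^ (1 / 2 : ℝ) * (2 * Y * ω) ^ (1 / 4 : ℝ)))) := by
          gcongr
      _ ≤ L * (4 * (G0 * m) ^ 2 * ((L : ℝ) * (P * Y) +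
        3 * (n₀ * Y) ^ 2 * ((ω : ℝ) ^ (3 / 2 : ℝ) * (L : ℝ) ^ (1 / 4 : ℝ) *
          tau R ^ (3 / 4 : ℝ) * (R : ℝ) ^ (1 / 2 : ℝ) * (2 * Y * ω) ^ (1 / 4 : ℝ)))) := by
          gcongr
      _ ≤ (20 * G0 * Z) ^ 2 := hnum
  calc ∑ l ∈ Ico L (2 * L), ‖∑ i ∈ S, γ i *
        ∑ h ∈ (Icc (-(B i : ℤ)) (B i)).filter (fun h => h ≠ 0),
        g i h * (F0 i h l * kph R (-(h : ZMod R) * (w i : ZMod R)⁻¹) ((l : ZMod R) + r))‖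
      ≤ ∑ l ∈ Ico L (2 * L), ∑ j ∈ range J, ‖∑ q ∈ S ×ˢ blk J j, γ' q * Φ l q‖ := by
        refine Finset.sum_le_sum fun l _ => ?_
        rw [hdec]
        exact norm_sum_le _ _
    _ = ∑ j ∈ range J, ∑ l ∈ Ico L (2 * L), ‖∑ q ∈ S ×ˢ blk J j, γ' q * Φ l q‖ := Finset.sum_comm
    _ ≤ ∑ j ∈ range J, 20 * G0 * Z := Finset.sum_le_sum hblock
    _ = J * (20 * G0 * Z) := by rw [Finset.sum_const, Finset.card_range, nsmul_eq_mul]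
    _ ≤ T * (20 * G0 * Z) := by gcongr
    _ = 20 * T * G0 * Z := by ring

end Pool.Agent.ZH.D
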