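import Pool.Agent.Work.ZH.D.Disp
import Pool.Agent.Work.ZH.D.Count
import Pool.Agent.Work.ZH.Defs

/-! # Module BoxRem: from the modulus `m u v` to the modulus `m`

`Dab(m u v) = ∑ α β (G1 - G2) + (1/φ(u v)) Dab(m) - (1/φ(u v)) ∑_{(k l, u v) > 1} α β (1[kl ≡ 1 (m)] - 1[(kl,m)=1]/φ(m))`
(`φ(m u v) = φ(m) φ(u v)`). First part: `E1`. Last part: a prime `p ≥ z` divides `k l` and `u v`;
`∑_{(u,v) : p | u v} 1/φ(u v) ≤ 6 T/p`, at most `T` primes, `∑_m 1[m | kl - 1] ≤ T` (`kl ≠ 1`), `∑_m 1/φ(m) ≤ T`. -/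

namespace Pool.Agent.ZH.D

open Finset

/-- the kernel of `Dab` -/
noncomputable def brF (m k l : ℕ) : ℂ :=
  (if k * l ≡ 1 [MOD m] then 1 else 0) -
    (if Nat.Coprime (k * l) m then 1 / (m.totient : ℂ) else 0)

/-- indicator of `(n, w) > 1` -/
noncomputable def brn (n w : ℕ) : ℝ := if n.Coprime w then 0 else 1

theorem brn_nonneg (n w : ℕ) : 0 ≤ brn n w := by
  unfold brn; split_ifs <;> norm_num

theorem brF_split {m u v : ℕ} (h : m.Coprime (u * v)) (k l : ℕ) :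
    brF (m * u * v) k l = ((G1 m u v k l - G2 m u v k l : ℝ) : ℂ) +
      ((1 / (((u * v).totient : ℕ) : ℝ) : ℝ) : ℂ) * brF m k l -
      ((1 / (((u * v).totient : ℕ) : ℝ) * brn (k * l) (u * v) : ℝ) : ℂ) * brF m k l := by
  have hphi : (m * u * v).totient = m.totient * (u * v).totient := by
    rw [mul_assoc, Nat.totient_mul h]
  have hcop : Nat.Coprime (k * l) (m * u * v) ↔
      Nat.Coprime (k * l) m ∧ Nat.Coprime (k * l) (u * v) := by
    rw [mul_assoc, Nat.coprime_mul_iff_right]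
  have e1 : ∀ (P : Prop) [Decidable P] (a : ℝ), (((if P then a else 0 : ℝ)) : ℂ) = if P then (a : ℂ) else 0 := by
    intro P _ a; split_ifs <;> simp
  unfold brF G1 G2 brn
  by_cases h1 : Nat.Coprime (k * l) (u * v)
  · have h3 : (k * l ≡ 1 [MOD m] ∧ (k * l).Coprime (u * v)) ↔ k * l ≡ 1 [MOD m] := and_iff_left h1
    have h4 : Nat.Coprime (k * l) (m * u * v) ↔ Nat.Coprime (k * l) m := by
      rw [hcop]; exact and_iff_left h1
    rw [if_congr h3 rfl rfl, if_congr h4 rfl rfl, if_pos h1, hphi]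
    push_cast [e1]
    split_ifs <;> ring
  · have h3 : ¬ (k * l ≡ 1 [MOD m] ∧ (k * l).Coprime (u * v)) := fun h => h1 h.2
    have h4 : ¬ Nat.Coprime (k * l) (m * u * v) := fun h => h1 (hcop.1 h).2
    rw [if_neg h3, if_neg h4, if_neg h1]
    push_cast [e1]
    split_ifs <;> ring

/-- the remainder term -/
noncomputable def brR (α β : ℕ → ℂ) (K L m u v : ℕ) : ℂ :=
  ∑ k ∈ Ico K (2 * K), ∑ l ∈ Ico L (2 * L), α k * β l *
    (((1 / (((u * v).totient : ℕ) : ℝ) * brn (k * l) (u * v) : ℝ) : ℂ) * brF m k l)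

theorem br_Dab_split {m u v : ℕ} (h : m.Coprime (u * v)) (α β : ℕ → ℂ) (K L : ℕ) :
    Dab α β K L (m * u * v) =
      ∑ k ∈ Ico K (2 * K), ∑ l ∈ Ico L (2 * L),
        α k * β l * ((G1 m u v k l - G2 m u v k l : ℝ) : ℂ) +
      ((1 / (((u * v).totient : ℕ) : ℝ) : ℝ) : ℂ) * Dab α β K L m - brR α β K L m u v := by
  have h1 : Dab α β K L (m * u * v) =
      ∑ k ∈ Ico K (2 * K), ∑ l ∈ Ico L (2 * L), α k * β l * brF (m * u * v) k l := rfl
  have h2 : Dab α β K L m =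
      ∑ k ∈ Ico K (2 * K), ∑ l ∈ Ico L (2 * L), α k * β l * brF m k l := rfl
  rw [h1, h2, brR, mul_sum, ← sum_add_distrib, ← sum_sub_distrib]
  refine sum_congr rfl fun k _ => ?_
  rw [mul_sum, ← sum_add_distrib, ← sum_sub_distrib]
  refine sum_congr rfl fun l _ => ?_
  rw [brF_split h k l]
  ring

theorem norm_brF_le (m k l : ℕ) : ‖brF m k l‖ ≤
    (if k * l ≡ 1 [MOD m] then (1 : ℝ) else 0) + 1 / ((m.totient : ℕ) : ℝ) := by
  unfold brF
  refine (norm_sub_le _ _).trans (add_le_add ?_ ?_)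
  · split_ifs <;> simp
  · split_ifs <;> simp

section

variable {M U V K L X : ℕ} {z T : ℝ} {c : ℕ → ℕ → ℕ → ℝ}

theorem brX_ge (S : Setup M U V K L X z T c) : 1 ≤ X := by
  have := S.X1; have := S.K8; have := S.L8
  nlinarith

theorem brUV_le (S : Setup M U V K L X z T c) : 4 * U * V ≤ X := by
  have h1 := S.posM; have h2 := S.posU; have h3 := S.posV
  have h := S.X2
  have a1 : U ≤ U ^ 2 := Nat.le_self_pow (by norm_num) U
  have a2 : V ≤ V ^ 4 := Nat.le_self_pow (by norm_num) V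
  calc 4 * U * V ≤ 1024 * M * U ^ 2 * V ^ 4 := by
        have : 4 * 1 * U * V ≤ 1024 * M * U ^ 2 * V ^ 4 := by gcongr; norm_num
        simpa using this
    _ ≤ X := h

theorem brM_le (S : Setup M U V K L X z T c) : 2 * M ≤ X := by
  have h2 := S.posU; have h3 := S.posV
  have h := S.X2
  have a1 : 1 ≤ U ^ 2 := Nat.one_le_pow _ _ h2
  have a2 : 1 ≤ V ^ 4 := Nat.one_le_pow _ _ h3
  calc 2 * M ≤ 1024 * M * U ^ 2 * V ^ 4 := by
        have : 2 * M * 1 * 1 ≤ 1024 * M * U ^ 2 * V ^ 4 := by gcongr; norm_num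
        simpa using this
    _ ≤ X := h

/-- `∑_m ‖F m k l‖ ≤ 2T` -/
theorem sum_brF_le (S : Setup M U V K L X z T c) {k l : ℕ} (hk : k ∈ Ico K (2 * K))
    (hl : l ∈ Ico L (2 * L)) : ∑ m ∈ Ico M (2 * M), ‖brF m k l‖ ≤ 2 * T := by
  rw [mem_Ico] at hk hl
  have hT0 : 1 ≤ T := one_le_T S.tau_le (brX_ge S)
  have K8 := S.K8; have L8 := S.L8; have X1 := S.X1
  have hkl : 64 ≤ k * l := by nlinarith
  have hklX : k * l ≤ X := by
    have : k * l ≤ (2 * K) * (2 * L) := Nat.mul_le_mul hk.2.le hl.2.le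
    nlinarith
  have h1 : ∑ m ∈ Ico M (2 * M), (if k * l ≡ 1 [MOD m] then (1 : ℝ) else 0) ≤ T := by
    have := sum_dvd_le S.tau_le (Ico M (2 * M)) (n := k * l - 1) (by omega) (by omega)
    refine le_trans (le_of_eq (sum_congr rfl fun m _ => ?_)) this
    have : k * l ≡ 1 [MOD m] ↔ m ∣ k * l - 1 := by
      rw [← Nat.modEq_iff_dvd' (by omega)]
      exact ⟨fun h => h.symm, fun h => h.symm⟩
    simp only [this]
  have h2 : ∑ m ∈ Ico M (2 * M), 1 / ((m.totient : ℕ) : ℝ) ≤ T := by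
    calc ∑ m ∈ Ico M (2 * M), 1 / ((m.totient : ℕ) : ℝ)
        ≤ ∑ m ∈ Ico M (2 * M), T * ((1 : ℝ) / m) := by
          refine sum_le_sum fun m hm => ?_
          rw [mem_Ico] at hm
          have hm0 : 0 < m := lt_of_lt_of_le S.posM hm.1
          refine (inv_totient_le hm0).trans ?_
          rw [mul_one_div]
          gcongr
          exact S.tau_le m hm0 (hm.2.le.trans (brM_le S))
      _ = T * ∑ m ∈ Ico M (2 * M), (1 : ℝ) / m := by rw [mul_sum]
      _ ≤ T * 1 := by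
          gcongr
          exact sum_inv_le M S.posM
      _ = T := mul_one T
  calc ∑ m ∈ Ico M (2 * M), ‖brF m k l‖
      ≤ ∑ m ∈ Ico M (2 * M), ((if k * l ≡ 1 [MOD m] then (1 : ℝ) else 0) +
          1 / ((m.totient : ℕ) : ℝ)) := sum_le_sum fun m _ => norm_brF_le m k l
    _ ≤ 2 * T := by rw [sum_add_distrib]; linarith

/-- `∑_{u,v} (c/φ(uv)) 1[(n,uv)>1] ≤ 6T³/z` -/
theorem sum_brn_le (S : Setup M U V K L X z T c) (m : ℕ) {n : ℕ} (hn : 0 < n) (hnX : n ≤ X) :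
    ∑ u ∈ Ico U (2 * U), ∑ v ∈ Ico V (2 * V),
      c m u v * (1 / (((u * v).totient : ℕ) : ℝ) * brn n (u * v)) ≤ 6 * T ^ 3 / z := by
  have hT0 : 1 ≤ T := one_le_T S.tau_le (brX_ge S)
  have hz : 1 ≤ z := S.z1
  have key : ∀ u v : ℕ, c m u v * (1 / (((u * v).totient : ℕ) : ℝ) * brn n (u * v)) ≤
      ∑ p ∈ n.primeFactors.filter (fun p : ℕ => z ≤ (p : ℝ)),
        T * (if p ∣ u * v then 1 / (((u * v).totient : ℕ) : ℝ) else 0) := by
    intro u v
    have hnn : ∀ p ∈ n.primeFactors.filter (fun p : ℕ => z ≤ (p : ℝ)),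
        0 ≤ T * (if p ∣ u * v then 1 / (((u * v).totient : ℕ) : ℝ) else 0) := by
      intro p _
      split_ifs <;> positivity
    by_cases hc : c m u v = 0
    · rw [hc, zero_mul]; exact sum_nonneg hnn
    by_cases hcop : n.Coprime (u * v)
    · have : brn n (u * v) = 0 := by unfold brn; rw [if_pos hcop]
      rw [this, mul_zero, mul_zero]; exact sum_nonneg hnn
    · have h1 : brn n (u * v) = 1 := by unfold brn; rw [if_neg hcop]
      rw [h1, mul_one]
      obtain ⟨p, hp, hpn, hpw⟩ := Nat.Prime.not_coprime_iff_dvd.1 hcop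
      have hzp : z ≤ (p : ℝ) := S.c_rough m u v hc p hp hpw
      have hmem : p ∈ n.primeFactors.filter (fun p : ℕ => z ≤ (p : ℝ)) := by
        rw [mem_filter, Nat.mem_primeFactors]
        exact ⟨⟨hp, hpn, hn.ne'⟩, hzp⟩
      refine le_trans ?_ (single_le_sum hnn hmem)
      rw [if_pos hpw]
      gcongr
      exact S.c_le m u v
  calc ∑ u ∈ Ico U (2 * U), ∑ v ∈ Ico V (2 * V),
        c m u v * (1 / (((u * v).totient : ℕ) : ℝ) * brn n (u * v))
      ≤ ∑ u ∈ Ico U (2 * U), ∑ v ∈ Ico V (2 * V),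
          ∑ p ∈ n.primeFactors.filter (fun p : ℕ => z ≤ (p : ℝ)),
            T * (if p ∣ u * v then 1 / (((u * v).totient : ℕ) : ℝ) else 0) :=
        sum_le_sum fun u _ => sum_le_sum fun v _ => key u v
    _ = ∑ p ∈ n.primeFactors.filter (fun p : ℕ => z ≤ (p : ℝ)),
          T * ∑ u ∈ Ico U (2 * U), ∑ v ∈ Ico V (2 * V),
            (if p ∣ u * v then 1 / (((u * v).totient : ℕ) : ℝ) else 0) := by
        simp only [mul_sum]
        rw [sum_congr rfl fun u _ => sum_comm, sum_comm]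
    _ ≤ ∑ p ∈ n.primeFactors.filter (fun p : ℕ => z ≤ (p : ℝ)), T * (6 * T / z) := by
        refine sum_le_sum fun p hp => ?_
        rw [mem_filter, Nat.mem_primeFactors] at hp
        gcongr
        refine (sum_phi_dvd_le S.tau_le S.posU S.posV (brUV_le S) hp.1.1).trans ?_
        gcongr
        exact hp.2
    _ = ((n.primeFactors.filter (fun p : ℕ => z ≤ (p : ℝ))).card : ℝ) * (T * (6 * T / z)) := by
        rw [sum_const, nsmul_eq_mul]
    _ ≤ T * (T * (6 * T / z)) := by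
        gcongr
        refine le_trans ?_ (S.tau_le n hn hnX)
        unfold tau
        refine Nat.cast_le.2 (card_le_card ?_)
        intro p hp
        rw [mem_filter, Nat.mem_primeFactors] at hp
        exact Nat.mem_divisors.2 hp.1.2
    _ = 6 * T ^ 3 / z := by ring

theorem sum_brR_le (S : Setup M U V K L X z T c)
    (α β : ℕ → ℂ) (hα : ∀ k, ‖α k‖ ≤ 1) (hβ : ∀ l, ‖β l‖ ≤ 1) :
    ‖∑ m ∈ Ico M (2 * M), ∑ u ∈ Ico U (2 * U), ∑ v ∈ Ico V (2 * V),
        (c m u v : ℂ) * brR α β K L m u v‖ ≤ 100 * T ^ 4 * ((K : ℝ) * L) / z := by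
  have hT0 : 1 ≤ T := one_le_T S.tau_le (brX_ge S)
  have hz : 1 ≤ z := S.z1
  have h1 : ∀ m u v : ℕ, ‖(c m u v : ℂ) * brR α β K L m u v‖ ≤
      ∑ k ∈ Ico K (2 * K), ∑ l ∈ Ico L (2 * L),
        ‖brF m k l‖ * (c m u v * (1 / (((u * v).totient : ℕ) : ℝ) * brn (k * l) (u * v))) := by
    intro m u v
    rw [norm_mul, Complex.norm_real, Real.norm_of_nonneg (S.c_nonneg m u v), brR]
    have : ‖∑ k ∈ Ico K (2 * K), ∑ l ∈ Ico L (2 * L), α k * β l *
        (((1 / (((u * v).totient : ℕ) : ℝ) * brn (k * l) (u * v) : ℝ) : ℂ) * brF m k l)‖ ≤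
        ∑ k ∈ Ico K (2 * K), ∑ l ∈ Ico L (2 * L),
          (1 / (((u * v).totient : ℕ) : ℝ) * brn (k * l) (u * v)) * ‖brF m k l‖ := by
      refine (norm_sum_le _ _).trans (sum_le_sum fun k _ => ?_)
      refine (norm_sum_le _ _).trans (sum_le_sum fun l _ => ?_)
      rw [norm_mul, norm_mul, norm_mul, Complex.norm_real,
        Real.norm_of_nonneg (mul_nonneg (by positivity) (brn_nonneg _ _))]
      have hab : ‖α k‖ * ‖β l‖ ≤ 1 := by
        calc ‖α k‖ * ‖β l‖ ≤ 1 * 1 := by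
              gcongr
              · exact hα k
              · exact hβ l
          _ = 1 := one_mul 1
      have hn := brn_nonneg (k * l) (u * v)
      have : 0 ≤ (1 / (((u * v).totient : ℕ) : ℝ) * brn (k * l) (u * v)) * ‖brF m k l‖ := by
        positivity
      nlinarith
    calc c m u v * ‖∑ k ∈ Ico K (2 * K), ∑ l ∈ Ico L (2 * L), α k * β l *
        (((1 / (((u * v).totient : ℕ) : ℝ) * brn (k * l) (u * v) : ℝ) : ℂ) * brF m k l)‖
        ≤ c m u v * ∑ k ∈ Ico K (2 * K), ∑ l ∈ Ico L (2 * L),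
          (1 / (((u * v).totient : ℕ) : ℝ) * brn (k * l) (u * v)) * ‖brF m k l‖ :=
          mul_le_mul_of_nonneg_left this (S.c_nonneg m u v)
      _ = _ := by
          simp only [mul_sum]
          refine sum_congr rfl fun k _ => sum_congr rfl fun l _ => ?_
          ring
  calc ‖∑ m ∈ Ico M (2 * M), ∑ u ∈ Ico U (2 * U), ∑ v ∈ Ico V (2 * V),
        (c m u v : ℂ) * brR α β K L m u v‖
      ≤ ∑ m ∈ Ico M (2 * M), ∑ u ∈ Ico U (2 * U), ∑ v ∈ Ico V (2 * V),
          ∑ k ∈ Ico K (2 * K), ∑ l ∈ Ico L (2 * L),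
            ‖brF m k l‖ * (c m u v * (1 / (((u * v).totient : ℕ) : ℝ) * brn (k * l) (u * v))) := by
        refine (norm_sum_le _ _).trans (sum_le_sum fun m _ => ?_)
        refine (norm_sum_le _ _).trans (sum_le_sum fun u _ => ?_)
        refine (norm_sum_le _ _).trans (sum_le_sum fun v _ => ?_)
        exact h1 m u v
    _ = ∑ m ∈ Ico M (2 * M), ∑ k ∈ Ico K (2 * K), ∑ l ∈ Ico L (2 * L),
          ‖brF m k l‖ * ∑ u ∈ Ico U (2 * U), ∑ v ∈ Ico V (2 * V),
            (c m u v * (1 / (((u * v).totient : ℕ) : ℝ) * brn (k * l) (u * v))) := by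
        refine sum_congr rfl fun m _ => ?_
        simp only [mul_sum]
        calc ∑ u ∈ Ico U (2 * U), ∑ v ∈ Ico V (2 * V), ∑ k ∈ Ico K (2 * K), ∑ l ∈ Ico L (2 * L),
              ‖brF m k l‖ * (c m u v * (1 / (((u * v).totient : ℕ) : ℝ) * brn (k * l) (u * v)))
            = ∑ u ∈ Ico U (2 * U), ∑ k ∈ Ico K (2 * K), ∑ v ∈ Ico V (2 * V), ∑ l ∈ Ico L (2 * L),
              ‖brF m k l‖ * (c m u v * (1 / (((u * v).totient : ℕ) : ℝ) * brn (k * l) (u * v))) :=
              sum_congr rfl fun u _ => sum_comm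
          _ = ∑ k ∈ Ico K (2 * K), ∑ u ∈ Ico U (2 * U), ∑ v ∈ Ico V (2 * V), ∑ l ∈ Ico L (2 * L),
              ‖brF m k l‖ * (c m u v * (1 / (((u * v).totient : ℕ) : ℝ) * brn (k * l) (u * v))) :=
              sum_comm
          _ = ∑ k ∈ Ico K (2 * K), ∑ u ∈ Ico U (2 * U), ∑ l ∈ Ico L (2 * L), ∑ v ∈ Ico V (2 * V),
              ‖brF m k l‖ * (c m u v * (1 / (((u * v).totient : ℕ) : ℝ) * brn (k * l) (u * v))) :=
              sum_congr rfl fun k _ => sum_congr rfl fun u _ => sum_comm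
          _ = ∑ k ∈ Ico K (2 * K), ∑ l ∈ Ico L (2 * L), ∑ u ∈ Ico U (2 * U), ∑ v ∈ Ico V (2 * V),
              ‖brF m k l‖ * (c m u v * (1 / (((u * v).totient : ℕ) : ℝ) * brn (k * l) (u * v))) :=
              sum_congr rfl fun k _ => sum_comm
    _ ≤ ∑ m ∈ Ico M (2 * M), ∑ k ∈ Ico K (2 * K), ∑ l ∈ Ico L (2 * L),
          ‖brF m k l‖ * (6 * T ^ 3 / z) := by
        refine sum_le_sum fun m _ => sum_le_sum fun k hk => sum_le_sum fun l hl => ?_
        rw [mem_Ico] at hk hl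
        have K8 := S.K8; have L8 := S.L8; have X1 := S.X1
        have hkl : 64 ≤ k * l := by nlinarith
        have hklX : k * l ≤ X := by
          have : k * l ≤ (2 * K) * (2 * L) := Nat.mul_le_mul hk.2.le hl.2.le
          nlinarith
        exact mul_le_mul_of_nonneg_left (sum_brn_le S m (by omega) hklX) (norm_nonneg _)
    _ = ∑ k ∈ Ico K (2 * K), ∑ l ∈ Ico L (2 * L),
          (∑ m ∈ Ico M (2 * M), ‖brF m k l‖) * (6 * T ^ 3 / z) := by
        rw [sum_comm]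
        refine sum_congr rfl fun k _ => ?_
        rw [sum_comm]
        refine sum_congr rfl fun l _ => ?_
        rw [sum_mul]
    _ ≤ ∑ k ∈ Ico K (2 * K), ∑ l ∈ Ico L (2 * L), (2 * T) * (6 * T ^ 3 / z) := by
        refine sum_le_sum fun k hk => sum_le_sum fun l hl => ?_
        exact mul_le_mul_of_nonneg_right (sum_brF_le S hk hl) (by positivity)
    _ = (K : ℝ) * (L * ((2 * T) * (6 * T ^ 3 / z))) := by
        simp only [sum_const, Nat.card_Ico, nsmul_eq_mul]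
        have e1 : ((2 * K - K : ℕ) : ℝ) = K := by congr 1; omega
        have e2 : ((2 * L - L : ℕ) : ℝ) = L := by congr 1; omega
        rw [e1, e2]
    _ = 12 * T ^ 4 * ((K : ℝ) * L) / z := by ring
    _ ≤ 100 * T ^ 4 * ((K : ℝ) * L) / z := by
        gcongr
        norm_num

theorem dab_split (S : Setup M U V K L X z T c)
    (α β : ℕ → ℂ) (hα : ∀ k, ‖α k‖ ≤ 1) (hβ : ∀ l, ‖β l‖ ≤ 1) :
    ‖∑ m ∈ Ico M (2 * M), ∑ u ∈ Ico U (2 * U), ∑ v ∈ Ico V (2 * V),
        (c m u v : ℂ) * Dab α β K L (m * u * v)‖ ≤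
      1000 * T ^ 6 * ((K : ℝ) * L) * (rho M U V K L z) ^ (1 / 2 : ℝ) + 100 * T ^ 4 * ((K : ℝ) * L) / z +
        ∑ m ∈ Ico M (2 * M), (∑ u ∈ Ico U (2 * U), ∑ v ∈ Ico V (2 * V),
          c m u v / (((u * v).totient : ℕ) : ℝ)) * ‖Dab α β K L m‖ := by
  have h0 : ∀ m u v : ℕ, (c m u v : ℂ) * Dab α β K L (m * u * v) =
      (c m u v : ℂ) * ∑ k ∈ Ico K (2 * K), ∑ l ∈ Ico L (2 * L),
        α k * β l * ((G1 m u v k l - G2 m u v k l : ℝ) : ℂ) -
      (c m u v : ℂ) * brR α β K L m u v +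
      ((c m u v / (((u * v).totient : ℕ) : ℝ) : ℝ) : ℂ) * Dab α β K L m := by
    intro m u v
    by_cases hc : c m u v = 0
    · rw [hc]; simp
    · rw [br_Dab_split (S.c_cop m u v hc)]
      push_cast
      ring
  have h1 : ∑ m ∈ Ico M (2 * M), ∑ u ∈ Ico U (2 * U), ∑ v ∈ Ico V (2 * V),
        (c m u v : ℂ) * Dab α β K L (m * u * v) =
      ∑ m ∈ Ico M (2 * M), ∑ u ∈ Ico U (2 * U), ∑ v ∈ Ico V (2 * V), (c m u v : ℂ) *
        ∑ k ∈ Ico K (2 * K), ∑ l ∈ Ico L (2 * L),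
          α k * β l * ((G1 m u v k l - G2 m u v k l : ℝ) : ℂ) -
      ∑ m ∈ Ico M (2 * M), ∑ u ∈ Ico U (2 * U), ∑ v ∈ Ico V (2 * V),
        (c m u v : ℂ) * brR α β K L m u v +
      ∑ m ∈ Ico M (2 * M), ∑ u ∈ Ico U (2 * U), ∑ v ∈ Ico V (2 * V),
        ((c m u v / (((u * v).totient : ℕ) : ℝ) : ℝ) : ℂ) * Dab α β K L m := by
    rw [← sum_sub_distrib, ← sum_add_distrib]
    refine sum_congr rfl fun m _ => ?_
    rw [← sum_sub_distrib, ← sum_add_distrib]
    refine sum_congr rfl fun u _ => ?_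
    rw [← sum_sub_distrib, ← sum_add_distrib]
    refine sum_congr rfl fun v _ => ?_
    exact h0 m u v
  have h2 : ‖∑ m ∈ Ico M (2 * M), ∑ u ∈ Ico U (2 * U), ∑ v ∈ Ico V (2 * V),
        ((c m u v / (((u * v).totient : ℕ) : ℝ) : ℝ) : ℂ) * Dab α β K L m‖ ≤
      ∑ m ∈ Ico M (2 * M), (∑ u ∈ Ico U (2 * U), ∑ v ∈ Ico V (2 * V),
          c m u v / (((u * v).totient : ℕ) : ℝ)) * ‖Dab α β K L m‖ := by
    refine (norm_sum_le _ _).trans (sum_le_sum fun m _ => ?_)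
    rw [sum_mul]
    refine (norm_sum_le _ _).trans (sum_le_sum fun u _ => ?_)
    rw [sum_mul]
    refine (norm_sum_le _ _).trans (sum_le_sum fun v _ => ?_)
    rw [norm_mul, Complex.norm_real, Real.norm_of_nonneg]
    exact div_nonneg (S.c_nonneg m u v) (Nat.cast_nonneg _)
  rw [h1]
  refine (norm_add_le _ _).trans (add_le_add ((norm_sub_le _ _).trans (add_le_add ?_ ?_)) h2)
  · exact E1 S α β hα hβ
  · exact sum_brR_le S α β hα hβ

end

end Pool.Agent.ZH.D
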