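import Pool.Agent.Work.ZH.D.BoxErr
import Pool.Agent.Work.ZH.D.Count
import Pool.Agent.Work.ZH.ThmC

/-! # Module BoxSum: the sum over `m` by the variance theorem and the fourth moment of the weights

`f i = (m', u, v)` is the chosen factorization `i.2 = m' u v`. `cbox m u v` = sum of `c i` over the `i` with
`i.1 m' = m`, `f i = (m', u, v)`. `n/φ(n) ≤ 2` for `n = u v` (rough). Then, with `E_m = ‖Dab α β K L m‖`,
`∑_m C_m E_m ≤ (2K²/M)^(1/2) (∑_m C_m²/τ(m))^(1/2) (∑_m τ(m) err_m)^(1/2)`,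
`C_m ≤ 2 ∑_{i₁ m' = m} inner(i₁, m')`, `C_m²/τ(m) ≤ 4 ∑ inner²`, `∑ inner² ≤ (∑ inner⁴)^(1/2) (#pairs)^(1/2)`. -/

namespace Pool.Agent.ZH.D

open Finset

/-- the weight of `(m, u, v)` -/
noncomputable def cbox (S : Finset (ℕ × ℕ)) (c : ℕ × ℕ → ℝ) (f : ℕ × ℕ → ℕ × ℕ × ℕ) (m u v : ℕ) : ℝ :=
  ∑ i ∈ S.filter (fun i => i.1 * (f i).1 = m ∧ (f i).2.1 = u ∧ (f i).2.2 = v), c i

/-- `f` chooses a good factorization for every element of `S` -/
structure Fact (x : ℕ) (L : ℕ) (S : Finset (ℕ × ℕ)) (f : ℕ × ℕ → ℕ × ℕ × ℕ) : Prop where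
  eq : ∀ i ∈ S, i.2 = (f i).1 * (f i).2.1 * (f i).2.2
  good : ∀ i ∈ S, Good x (i.1 * (f i).1) (f i).2.1 (f i).2.2
  v_le : ∀ i ∈ S, ((f i).2.2 : ℝ) ≤ RR x ^ 150
  lo : ∀ i ∈ S, ((i.1 * (f i).1 : ℕ) : ℝ) * RR x ^ 11 ≤ L
  hi : ∀ i ∈ S, (L : ℝ) ≤ ((i.1 * (f i).1 : ℕ) : ℝ) * RR x ^ 163

/-- the inner sum of `Dens.fourth` -/
noncomputable def inn (S : Finset (ℕ × ℕ)) (c : ℕ × ℕ → ℝ) (U V : ℕ) (i : ℕ × ℕ) : ℝ :=
  ∑ u ∈ Ico U (2 * U), ∑ v ∈ Ico V (2 * V),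
    if (i.1, i.2 * u * v) ∈ S then c (i.1, i.2 * u * v) / ((u * v : ℕ) : ℝ) else 0

/-- `cbox` by pairs `(m₁, m')` with product `m` -/
theorem cbox_le {x L : ℕ} {S : Finset (ℕ × ℕ)} {c : ℕ × ℕ → ℝ} {f : ℕ × ℕ → ℕ × ℕ × ℕ}
    (hf : Fact x L S f) (hc : ∀ i ∈ S, 0 ≤ c i) (m u v : ℕ) (hm : 0 < m) :
    cbox S c f m u v ≤ ∑ p ∈ m.divisorsAntidiagonal,
      if (p.1, p.2 * u * v) ∈ S then c (p.1, p.2 * u * v) else 0 := by
  classical
  unfold cbox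
  have h1 : ∑ i ∈ S.filter (fun i => i.1 * (f i).1 = m ∧ (f i).2.1 = u ∧ (f i).2.2 = v), c i =
      ∑ p ∈ (S.filter (fun i => i.1 * (f i).1 = m ∧ (f i).2.1 = u ∧ (f i).2.2 = v)).image
        (fun i => (i.1, (f i).1)), (if (p.1, p.2 * u * v) ∈ S then c (p.1, p.2 * u * v) else 0) := by
    rw [Finset.sum_image]
    · refine Finset.sum_congr rfl fun i hi => ?_
      rw [Finset.mem_filter] at hi
      obtain ⟨hiS, h1, h2, h3⟩ := hi
      have e : (i.1, (f i).1 * u * v) = i := by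
        rw [← h2, ← h3, ← hf.eq i hiS]
      simp only [e, hiS, if_true]
    · intro i hi j hj hij
      simp only [Finset.coe_filter, Set.mem_ofPred_eq] at hi hj
      simp only [Prod.mk.injEq] at hij
      refine Prod.ext hij.1 ?_
      rw [hf.eq i hi.1, hf.eq j hj.1, hij.2, hi.2.2.1, hi.2.2.2, hj.2.2.1, hj.2.2.2]
  rw [h1]
  refine Finset.sum_le_sum_of_subset_of_nonneg ?_ ?_
  · intro p hp
    rw [Finset.mem_image] at hp
    obtain ⟨i, hi, rfl⟩ := hp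
    rw [Finset.mem_filter] at hi
    rw [Nat.mem_divisorsAntidiagonal]
    exact ⟨hi.2.1, hm.ne'⟩
  · intro p _ _
    split_ifs with h
    · exact hc _ h
    · exact le_rfl

theorem cbox_nonneg {S : Finset (ℕ × ℕ)} {c : ℕ × ℕ → ℝ} {f : ℕ × ℕ → ℕ × ℕ × ℕ}
    (hc : ∀ i ∈ S, 0 ≤ c i) (m u v : ℕ) : 0 ≤ cbox S c f m u v :=
  Finset.sum_nonneg fun i hi => hc i (Finset.mem_filter.1 hi).1

/-- a nonzero weight comes from an element of `S` -/
theorem cbox_ne {S : Finset (ℕ × ℕ)} {c : ℕ × ℕ → ℝ} {f : ℕ × ℕ → ℕ × ℕ × ℕ} {m u v : ℕ}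
    (h : cbox S c f m u v ≠ 0) : ∃ i ∈ S, i.1 * (f i).1 = m ∧ (f i).2.1 = u ∧ (f i).2.2 = v := by
  unfold cbox at h
  obtain ⟨i, hi, _⟩ := Finset.exists_ne_zero_of_sum_ne_zero h
  rw [Finset.mem_filter] at hi
  exact ⟨i, hi.1, hi.2⟩

theorem RR_ge_two : ∃ x₀ : ℕ, ∀ x ≥ x₀, 2 ≤ RR x := by
  obtain ⟨x₀, h⟩ := small_log 0 2
  exact ⟨x₀, fun x hx => by simpa using h x hx⟩

/-- `m₁ m₂ ≤ x` for a good pair -/
theorem goodPair_mul_le {x m₁ m₂ : ℕ} (h : GoodPair x m₁ m₂) (hx : 1 ≤ x) : m₁ * m₂ ≤ x := by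
  have h1 := h.hi
  have h2 : RR x ^ 3 ≤ x := by
    calc RR x ^ 3 ≤ RR x ^ 1000000 := pow_le_pow_right₀ (one_le_RR hx) (by norm_num)
      _ = x := RR_pow x
  have hx0 : (0 : ℝ) < x := by exact_mod_cast (show 0 < x by omega)
  have h3 : ((m₁ * m₂ : ℕ) : ℝ) ^ 2 ≤ (x : ℝ) ^ 2 := by nlinarith
  have h4 : ((m₁ * m₂ : ℕ) : ℝ) ≤ x := by
    exact (sq_le_sq₀ (by positivity) (by positivity)).1 h3
  exact_mod_cast h4

/-- `1/φ(u v) ≤ 2/(u v)` -/
theorem rough_two : ∃ x₀ : ℕ, ∀ x ≥ x₀, ∀ (L : ℕ) (S : Finset (ℕ × ℕ)) (f : ℕ × ℕ → ℕ × ℕ × ℕ),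
    (∀ i ∈ S, GoodPair x i.1 i.2) → Fact x L S f → ∀ i ∈ S,
      1 / ((((f i).2.1 * (f i).2.2).totient : ℕ) : ℝ) ≤ 2 / (((f i).2.1 * (f i).2.2 : ℕ) : ℝ) := by
  obtain ⟨x₁, h₁⟩ := small_tau 2
  refine ⟨max x₁ 1, fun x hx L S f hG hf i hi => ?_⟩
  have hx1 : x₁ ≤ x := le_trans (le_max_left _ _) hx
  have hx0 : 1 ≤ x := le_trans (le_max_right _ _) hx
  have hgood := hf.good i hi
  set u := (f i).2.1
  set v := (f i).2.2
  have hm := hgood.mpos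
  have hR1 := one_le_RR hx0
  have hv : 0 < v := hgood.vprime.pos
  have hu : 0 < u := Nat.pos_of_ne_zero hgood.usq.ne_zero
  have huv : 0 < u * v := Nat.mul_pos hu hv
  have hi1 : 0 < i.1 := Nat.pos_of_mul_pos_right hm
  have hfi : 0 < (f i).1 := Nat.pos_of_mul_pos_left hm
  have hle : u * v ≤ x := by
    have h1 := goodPair_mul_le (hG i hi) hx0
    have h2 : i.2 = (f i).1 * u * v := hf.eq i hi
    calc u * v ≤ (f i).1 * (u * v) := Nat.le_mul_of_pos_left _ hfi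
      _ = i.2 := by rw [h2]; ring
      _ ≤ i.1 * i.2 := Nat.le_mul_of_pos_left _ hi1
      _ ≤ x := h1
  have hle4 : u * v ≤ x ^ 4 := hle.trans (Nat.le_self_pow (by norm_num) x)
  have ht := h₁ x hx1 (u * v) huv hle4
  have hrough : ∀ p : ℕ, p.Prime → p ∣ u * v → RR x ^ 100 ≤ (p : ℝ) := by
    intro p hp hd
    rcases (hp.dvd_mul).1 hd with h | h
    · exact hgood.upr p hp h
    · rw [(Nat.prime_dvd_prime_iff_eq hp hgood.vprime).1 h]
      exact hgood.vlo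
  have hz : (1 : ℝ) ≤ RR x ^ 100 := one_le_pow₀ hR1
  have key := inv_totient_sub_le huv hz hrough
  have hn : (0 : ℝ) < ((u * v : ℕ) : ℝ) := by exact_mod_cast huv
  have h5 : tau (u * v) ^ 2 ≤ RR x ^ 100 := by
    unfold tau
    calc _ ≤ RR x := ht
      _ ≤ RR x ^ 100 := le_self_pow₀ hR1 (by norm_num)
  have h6 : tau (u * v) ^ 2 / (RR x ^ 100 * ((u * v : ℕ) : ℝ)) ≤ 1 / ((u * v : ℕ) : ℝ) := by
    rw [div_le_div_iff₀ (by positivity) hn]
    nlinarith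
  have h7 : (2 : ℝ) / ((u * v : ℕ) : ℝ) = 1 / ((u * v : ℕ) : ℝ) + 1 / ((u * v : ℕ) : ℝ) := by ring
  rw [h7]
  linarith

/-- `C_m ≤ 2 ∑ inner` -/
theorem Cm_le {x L U V : ℕ} {S : Finset (ℕ × ℕ)} {c : ℕ × ℕ → ℝ} {f : ℕ × ℕ → ℕ × ℕ × ℕ}
    (hf : Fact x L S f) (hc : ∀ i ∈ S, 0 ≤ c i)
    (h2 : ∀ i ∈ S, 1 / ((((f i).2.1 * (f i).2.2).totient : ℕ) : ℝ) ≤ 2 / (((f i).2.1 * (f i).2.2 : ℕ) : ℝ))
    (m : ℕ) (hm : 0 < m) :
    ∑ u ∈ Ico U (2 * U), ∑ v ∈ Ico V (2 * V), cbox S c f m u v / (((u * v).totient : ℕ) : ℝ) ≤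
      2 * ∑ p ∈ m.divisorsAntidiagonal, inn S c U V p := by
  have h1 : ∀ u v : ℕ, cbox S c f m u v / (((u * v).totient : ℕ) : ℝ) ≤
      2 * ∑ p ∈ m.divisorsAntidiagonal,
        if (p.1, p.2 * u * v) ∈ S then c (p.1, p.2 * u * v) / ((u * v : ℕ) : ℝ) else 0 := by
    intro u v
    have hr : 0 ≤ ∑ p ∈ m.divisorsAntidiagonal,
        if (p.1, p.2 * u * v) ∈ S then c (p.1, p.2 * u * v) / ((u * v : ℕ) : ℝ) else 0 := by
      refine Finset.sum_nonneg fun p _ => ?_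
      split_ifs with h
      · exact div_nonneg (hc _ h) (Nat.cast_nonneg _)
      · exact le_rfl
    by_cases h0 : cbox S c f m u v = 0
    · rw [h0, zero_div]
      linarith
    · obtain ⟨i, hi, _, hu, hv⟩ := cbox_ne h0
      have h3 := h2 i hi
      rw [hu, hv] at h3
      have h4 := cbox_le hf hc m u v hm
      have h5 := cbox_nonneg (f := f) hc m u v
      calc cbox S c f m u v / (((u * v).totient : ℕ) : ℝ)
          = cbox S c f m u v * (1 / (((u * v).totient : ℕ) : ℝ)) := by ring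
        _ ≤ cbox S c f m u v * (2 / ((u * v : ℕ) : ℝ)) := by gcongr
        _ ≤ (∑ p ∈ m.divisorsAntidiagonal,
            if (p.1, p.2 * u * v) ∈ S then c (p.1, p.2 * u * v) else 0) * (2 / ((u * v : ℕ) : ℝ)) := by
            gcongr
        _ = _ := by
            rw [Finset.sum_mul, Finset.mul_sum]
            refine Finset.sum_congr rfl fun p _ => ?_
            split_ifs
            · ring
            · simp
  calc _ ≤ ∑ u ∈ Ico U (2 * U), ∑ v ∈ Ico V (2 * V), 2 * ∑ p ∈ m.divisorsAntidiagonal,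
        (if (p.1, p.2 * u * v) ∈ S then c (p.1, p.2 * u * v) / ((u * v : ℕ) : ℝ) else 0) :=
        Finset.sum_le_sum fun u _ => Finset.sum_le_sum fun v _ => h1 u v
    _ = _ := by
        simp only [inn, ← Finset.mul_sum]
        congr 1
        rw [Finset.sum_congr rfl (fun u _ => Finset.sum_comm (s := Ico V (2 * V)) (t := m.divisorsAntidiagonal))]
        exact Finset.sum_comm

theorem card_dAnti (m : ℕ) : m.divisorsAntidiagonal.card = m.divisors.card := by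
  rw [← Nat.map_div_right_divisors, Finset.card_map]

/-- the pairs with product in `[M, 2M)` -/
def prs (x M : ℕ) : Finset (ℕ × ℕ) := (Icc 1 x ×ˢ Icc 1 x).filter (fun i => M ≤ i.1 * i.2 ∧ i.1 * i.2 < 2 * M)

theorem sum_prs (x M : ℕ) (hM : 1 ≤ M) (hx : 2 * M ≤ x) (g : ℕ × ℕ → ℝ) :
    ∑ m ∈ Ico M (2 * M), ∑ p ∈ m.divisorsAntidiagonal, g p = ∑ p ∈ prs x M, g p := by
  rw [Finset.sum_sigma']
  refine Finset.sum_bij (fun a _ => a.2) ?_ ?_ ?_ ?_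
  · rintro ⟨m, p⟩ h
    simp only [Finset.mem_sigma, Finset.mem_Ico, Nat.mem_divisorsAntidiagonal] at h
    obtain ⟨⟨h1, h2⟩, h3, h4⟩ := h
    unfold prs
    simp only [Finset.mem_filter, Finset.mem_product, Finset.mem_Icc]
    have ha : 0 < p.1 := Nat.pos_of_ne_zero (fun h => h4 (by rw [← h3, h, zero_mul]))
    have hb : 0 < p.2 := Nat.pos_of_ne_zero (fun h => h4 (by rw [← h3, h, mul_zero]))
    have hc : p.1 ≤ p.1 * p.2 := Nat.le_mul_of_pos_right _ hb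
    have hd : p.2 ≤ p.1 * p.2 := Nat.le_mul_of_pos_left _ ha
    omega
  · rintro ⟨m, p⟩ h ⟨m', p'⟩ h' he
    simp only [Finset.mem_sigma, Finset.mem_Ico, Nat.mem_divisorsAntidiagonal] at h h'
    simp only at he
    subst he
    obtain ⟨_, h3, _⟩ := h
    obtain ⟨_, h3', _⟩ := h'
    rw [← h3, ← h3']
  · intro p hp
    unfold prs at hp
    simp only [Finset.mem_filter, Finset.mem_product, Finset.mem_Icc] at hp
    refine ⟨⟨p.1 * p.2, p⟩, ?_, rfl⟩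
    simp only [Finset.mem_sigma, Finset.mem_Ico, Nat.mem_divisorsAntidiagonal]
    refine ⟨⟨hp.2.1, hp.2.2⟩, trivial, ?_⟩
    omega
  · intro a _
    rfl

theorem box_sum (A C₁ : ℕ) : ∃ C : ℝ, 0 < C ∧ ∃ x₀ : ℕ, ∀ x ≥ x₀, ∀ ρ : ℝ, 0 < ρ → ρ ≤ 1 →
    ∀ (S : Finset (ℕ × ℕ)) (c : ℕ × ℕ → ℝ), Dens x ρ C₁ S c → ∀ (f : ℕ × ℕ → ℕ × ℕ × ℕ) (K L M U V : ℕ),
    Fact x L S f → Hyp x K L M U V → ∀ α β : ℕ → ℂ, (∀ k, ‖α k‖ ≤ 1) → (∀ l, ‖β l‖ ≤ 1) → Struct β →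
    ∑ m ∈ Ico M (2 * M), (∑ u ∈ Ico U (2 * U), ∑ v ∈ Ico V (2 * V),
        cbox S c f m u v / (((u * v).totient : ℕ) : ℝ)) * ‖Dab α β K L m‖ ≤
      C * ρ * x / Real.log x ^ A := by
  obtain ⟨C₃, hC₃, B, h₃⟩ := sum_tau_pow 1
  obtain ⟨C₂, hC₂, x₂, h₂⟩ := thm_C (2 * A + B + C₁)
  obtain ⟨x₄, h₄⟩ := RR_ge_two
  obtain ⟨x₅, h₅⟩ := rough_two
  refine ⟨8 * (3 * C₃ + 1) * C₂ + 1, by positivity, max (max x₂ x₄) (max x₅ 3), ?_⟩
  intro x hx ρ hρ hρ1 S c hD f K L M U V hf hH α β hα hβ hS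
  have hx2 : x₂ ≤ x := le_trans (le_trans (le_max_left _ _) (le_max_left _ _)) hx
  have hx4 : x₄ ≤ x := le_trans (le_trans (le_max_right _ _) (le_max_left _ _)) hx
  have hx5 : x₅ ≤ x := le_trans (le_trans (le_max_left _ _) (le_max_right _ _)) hx
  have hx3 : 3 ≤ x := le_trans (le_trans (le_max_right _ _) (le_max_right _ _)) hx
  have hR2 := h₄ x hx4
  obtain ⟨hL0, hM0, hU0, hV0⟩ := hH.pos
  have hK0 : 0 < K := lt_of_lt_of_le hL0 hH.LK
  have hxr : (0 : ℝ) < x := by exact_mod_cast (show 0 < x by omega)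
  have hLr : (0 : ℝ) < L := by exact_mod_cast hL0
  have hMr : (0 : ℝ) < M := by exact_mod_cast hM0
  have hKr : (0 : ℝ) < K := by exact_mod_cast hK0
  have hlog : 1 ≤ Real.log x := by
    rw [Real.le_log_iff_exp_le hxr]
    calc Real.exp 1 ≤ 3 := Real.exp_one_lt_three.le
      _ ≤ x := by exact_mod_cast hx3
  have hLx : L ≤ x := by
    calc L ≤ K * L := Nat.le_mul_of_pos_left _ hK0
      _ ≤ x := hH.KL
  have hML : (M : ℝ) * 3 ≤ L := by
    calc (M : ℝ) * 3 ≤ M * RR x ^ 10 := by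
          gcongr
          calc (3 : ℝ) ≤ 2 ^ 10 := by norm_num
            _ ≤ RR x ^ 10 := by gcongr
      _ ≤ L := hH.ML
  have hML' : M * 3 ≤ L := by exact_mod_cast hML
  have hMK : (M : ℝ) ≤ K := by
    have h1 : (L : ℝ) ≤ K := by exact_mod_cast hH.LK
    linarith
  have h2M : 2 * M ≤ x := by omega
  have hrough := h₅ x hx5 L S f hD.good hf
  -- notation
  set Cm : ℕ → ℝ := fun m => ∑ u ∈ Ico U (2 * U), ∑ v ∈ Ico V (2 * V),
        cbox S c f m u v / (((u * v).totient : ℕ) : ℝ) with hCm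
  set τ : ℕ → ℝ := fun m => (m.divisors.card : ℝ) with hτ
  have hτ1 : ∀ m ∈ Ico M (2 * M), 1 ≤ τ m := by
    intro m hm
    rw [Finset.mem_Ico] at hm
    have : 0 < m.divisors.card := Finset.card_pos.2 ⟨1, Nat.one_mem_divisors.2 (by omega)⟩
    simp only [hτ]
    exact_mod_cast this
  have hCm0 : ∀ m, 0 ≤ Cm m := fun m =>
    Finset.sum_nonneg fun u _ => Finset.sum_nonneg fun v _ =>
      div_nonneg (cbox_nonneg hD.nonneg m u v) (Nat.cast_nonneg _)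
  -- part 1: second moment of the weights
  have p1 : ∑ m ∈ Ico M (2 * M), Cm m ^ 2 / τ m ≤ 4 * ∑ p ∈ prs x M, inn S c U V p ^ 2 := by
    rw [← sum_prs x M hM0 h2M, Finset.mul_sum]
    refine Finset.sum_le_sum fun m hm => ?_
    have hm1 := hτ1 m hm
    rw [Finset.mem_Ico] at hm
    have hm0 : 0 < m := by omega
    have h1 := Cm_le (U := U) (V := V) hf hD.nonneg hrough m hm0
    have h2 : (∑ p ∈ m.divisorsAntidiagonal, inn S c U V p) ^ 2 ≤
        τ m * ∑ p ∈ m.divisorsAntidiagonal, inn S c U V p ^ 2 := by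
      have := sq_sum_le_card_mul_sum_sq (s := m.divisorsAntidiagonal) (f := fun p => inn S c U V p)
      rwa [card_dAnti] at this
    rw [div_le_iff₀ (by linarith)]
    calc Cm m ^ 2 ≤ (2 * ∑ p ∈ m.divisorsAntidiagonal, inn S c U V p) ^ 2 := by
          exact pow_le_pow_left₀ (hCm0 m) h1 2
      _ = 4 * (∑ p ∈ m.divisorsAntidiagonal, inn S c U V p) ^ 2 := by ring
      _ ≤ 4 * (τ m * ∑ p ∈ m.divisorsAntidiagonal, inn S c U V p ^ 2) := by gcongr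
      _ = _ := by ring
  -- part 2: the fourth moment
  have hUV : RR x ^ 99 ≤ ((U * V : ℕ) : ℝ) := by
    have h1 := hH.V1
    have h2 : RR x ^ 100 = RR x ^ 99 * RR x := by ring
    have h3 : RR x ^ 99 * 2 ≤ RR x ^ 99 * RR x := by gcongr
    have h4 : RR x ^ 99 ≤ V := by linarith
    have h5 : (1 : ℝ) ≤ U := by exact_mod_cast hU0
    push_cast
    have h6 : (0 : ℝ) ≤ V := Nat.cast_nonneg _
    nlinarith
  have p2 : ∑ p ∈ prs x M, inn S c U V p ^ 4 ≤ M * ρ ^ 4 * Real.log x ^ C₁ :=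
    hD.fourth M U V hM0 hU0 hV0 hUV
  have p3 : ((prs x M).card : ℝ) ≤ 3 * C₃ * M * Real.log x ^ B := by
    have h1 : ((prs x M).card : ℝ) = ∑ m ∈ Ico M (2 * M), τ m := by
      have := sum_prs x M hM0 h2M (fun _ => (1 : ℝ))
      simp only [Finset.sum_const, nsmul_eq_mul, mul_one] at this
      rw [← this]
      refine Finset.sum_congr rfl fun m _ => ?_
      simp only [hτ, card_dAnti]
    have h2 : ∑ m ∈ Ico M (2 * M), τ m ≤ ∑ n ∈ Icc 1 (2 * M + 1), (n.divisors.card : ℝ) ^ 1 := by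
      simp only [pow_one]
      refine Finset.sum_le_sum_of_subset_of_nonneg ?_ (fun _ _ _ => Nat.cast_nonneg _)
      intro m hm
      rw [Finset.mem_Ico] at hm
      rw [Finset.mem_Icc]
      omega
    have h3 := h₃ (2 * M + 1) (by omega)
    have h4 : Real.log ((2 * M + 1 : ℕ) : ℝ) ≤ Real.log x := by
      apply Real.log_le_log
      · positivity
      · exact_mod_cast (show 2 * M + 1 ≤ x by omega)
    have h5 : 0 ≤ Real.log ((2 * M + 1 : ℕ) : ℝ) := Real.log_natCast_nonneg _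
    have hM1 : (1 : ℝ) ≤ M := by exact_mod_cast hM0
    calc ((prs x M).card : ℝ) = ∑ m ∈ Ico M (2 * M), τ m := h1
      _ ≤ _ := h2
      _ ≤ C₃ * ((2 * M + 1 : ℕ) : ℝ) * Real.log ((2 * M + 1 : ℕ) : ℝ) ^ B := h3
      _ ≤ C₃ * (3 * M) * Real.log x ^ B := by
          gcongr
          push_cast
          linarith
      _ = _ := by ring
  have p4 : ∑ p ∈ prs x M, inn S c U V p ^ 2 ≤ (3 * C₃ + 1) * M * ρ ^ 2 * Real.log x ^ (B + C₁) := by
    have h1 : (∑ p ∈ prs x M, inn S c U V p ^ 2) ^ 2 ≤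
        (prs x M).card * ∑ p ∈ prs x M, inn S c U V p ^ 4 := by
      have := sq_sum_le_card_mul_sum_sq (s := prs x M) (f := fun p => inn S c U V p ^ 2)
      simpa only [← pow_mul] using this
    have h2 : ((prs x M).card : ℝ) * ∑ p ∈ prs x M, inn S c U V p ^ 4 ≤
        (3 * C₃ * M * Real.log x ^ B) * (M * ρ ^ 4 * Real.log x ^ C₁) := by
      apply mul_le_mul p3 p2 (Finset.sum_nonneg fun p _ => by positivity) (by positivity)
    have h3 : (3 * C₃ * M * Real.log x ^ B) * (M * ρ ^ 4 * Real.log x ^ C₁) ≤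
        ((3 * C₃ + 1) * M * ρ ^ 2 * Real.log x ^ (B + C₁)) ^ 2 := by
      have e1 : (3 * C₃ * M * Real.log x ^ B) * (M * ρ ^ 4 * Real.log x ^ C₁) =
          (3 * C₃) * (M ^ 2 * ρ ^ 4) * Real.log x ^ (B + C₁) := by
        rw [pow_add]
        ring
      have e2 : ((3 * C₃ + 1) * M * ρ ^ 2 * Real.log x ^ (B + C₁)) ^ 2 =
          (3 * C₃ + 1) ^ 2 * (M ^ 2 * ρ ^ 4) * (Real.log x ^ (B + C₁)) ^ 2 := by ring
      rw [e1, e2]
      have h5 : 1 ≤ Real.log x ^ (B + C₁) := one_le_pow₀ hlog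
      have h6 : Real.log x ^ (B + C₁) ≤ (Real.log x ^ (B + C₁)) ^ 2 := le_self_pow₀ h5 (by norm_num)
      gcongr
      nlinarith
    exact (sq_le_sq₀ (Finset.sum_nonneg fun p _ => by positivity) (by positivity)).1
      (h1.trans (h2.trans h3))
  -- part 3: the variance
  have hE := h₂ x hx2 L M (by
      have h1 := hH.L5
      have h2 : (1 : ℝ) ≤ RR x ^ 4900 := one_le_pow₀ (by linarith)
      have h3 : (x : ℝ) ^ 2 ≤ (L : ℝ) ^ 5 := by nlinarith [sq_nonneg (x : ℝ)]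
      exact_mod_cast h3) hLx hH.ML β hβ hS
  have p5 : ∑ m ∈ Ico M (2 * M), τ m * ‖Dab α β K L m‖ ^ 2 ≤
      2 * K ^ 2 / M * (C₂ * (L : ℝ) ^ 2 / Real.log x ^ (2 * A + B + C₁)) := by
    calc ∑ m ∈ Ico M (2 * M), τ m * ‖Dab α β K L m‖ ^ 2
        ≤ ∑ m ∈ Ico M (2 * M), 2 * K ^ 2 / M * (τ m * err β L m) := by
          refine Finset.sum_le_sum fun m hm => ?_
          have hm1 := hτ1 m hm
          rw [Finset.mem_Ico] at hm
          have hm0 : 0 < m := by omega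
          have h1 := dab_err α β K L m hm0 hα
          have h2 := err_nonneg β L m hm0
          have hmr : (M : ℝ) ≤ m := by exact_mod_cast hm.1
          have h3 : (K : ℝ) * (K / m + 1) ≤ 2 * K ^ 2 / M := by
            have h4 : (K : ℝ) / m ≤ K / M := by gcongr
            have h5 : (1 : ℝ) ≤ K / M := by rw [le_div_iff₀ hMr]; linarith
            calc (K : ℝ) * (K / m + 1) ≤ K * (K / M + K / M) := by gcongr
              _ = _ := by ring
          calc τ m * ‖Dab α β K L m‖ ^ 2 ≤ τ m * (K * (K / m + 1) * err β L m) := by gcongr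
            _ ≤ τ m * (2 * K ^ 2 / M * err β L m) := by gcongr
            _ = _ := by ring
      _ = 2 * K ^ 2 / M * ∑ m ∈ Ico M (2 * M), τ m * err β L m := by rw [Finset.mul_sum]
      _ ≤ _ := by
          gcongr
  -- Cauchy
  have p6 : (∑ m ∈ Ico M (2 * M), Cm m * ‖Dab α β K L m‖) ^ 2 ≤
      (∑ m ∈ Ico M (2 * M), Cm m ^ 2 / τ m) * ∑ m ∈ Ico M (2 * M), τ m * ‖Dab α β K L m‖ ^ 2 := by
    have h1 := Finset.sum_mul_sq_le_sq_mul_sq (Ico M (2 * M)) (fun m => Cm m / Real.sqrt (τ m))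
      (fun m => Real.sqrt (τ m) * ‖Dab α β K L m‖)
    have e1 : ∑ m ∈ Ico M (2 * M), Cm m / Real.sqrt (τ m) * (Real.sqrt (τ m) * ‖Dab α β K L m‖) =
        ∑ m ∈ Ico M (2 * M), Cm m * ‖Dab α β K L m‖ := by
      refine Finset.sum_congr rfl fun m hm => ?_
      have h2 : 0 < Real.sqrt (τ m) := Real.sqrt_pos.2 (by linarith [hτ1 m hm])
      field_simp
    have e2 : ∑ m ∈ Ico M (2 * M), (Cm m / Real.sqrt (τ m)) ^ 2 = ∑ m ∈ Ico M (2 * M), Cm m ^ 2 / τ m := by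
      refine Finset.sum_congr rfl fun m hm => ?_
      rw [div_pow, Real.sq_sqrt (by linarith [hτ1 m hm])]
    have e3 : ∑ m ∈ Ico M (2 * M), (Real.sqrt (τ m) * ‖Dab α β K L m‖) ^ 2 =
        ∑ m ∈ Ico M (2 * M), τ m * ‖Dab α β K L m‖ ^ 2 := by
      refine Finset.sum_congr rfl fun m hm => ?_
      rw [mul_pow, Real.sq_sqrt (by linarith [hτ1 m hm])]
    rwa [e1, e2, e3] at h1
  have p7 : (∑ m ∈ Ico M (2 * M), Cm m * ‖Dab α β K L m‖) ^ 2 ≤
      ((8 * (3 * C₃ + 1) * C₂ + 1) * ρ * x / Real.log x ^ A) ^ 2 := by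
    have hlp : 0 < Real.log x := by linarith
    have h1 : ∑ m ∈ Ico M (2 * M), Cm m ^ 2 / τ m ≤
        4 * ((3 * C₃ + 1) * M * ρ ^ 2 * Real.log x ^ (B + C₁)) := p1.trans (by gcongr)
    have hKL : ((K : ℝ) * L) ≤ x := by exact_mod_cast hH.KL
    calc _ ≤ _ := p6
      _ ≤ (4 * ((3 * C₃ + 1) * M * ρ ^ 2 * Real.log x ^ (B + C₁))) *
          (2 * K ^ 2 / M * (C₂ * (L : ℝ) ^ 2 / Real.log x ^ (2 * A + B + C₁))) := by
          apply mul_le_mul h1 p5 (Finset.sum_nonneg fun m hm => ?_) (by positivity)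
          have := hτ1 m hm
          positivity
      _ = (8 * (3 * C₃ + 1) * C₂) * ρ ^ 2 * (K * L) ^ 2 / (Real.log x ^ A) ^ 2 := by
          rw [show 2 * A + B + C₁ = A + A + (B + C₁) by ring, pow_add, pow_add]
          field_simp
          ring
      _ ≤ (8 * (3 * C₃ + 1) * C₂ + 1) ^ 2 * ρ ^ 2 * x ^ 2 / (Real.log x ^ A) ^ 2 := by
          gcongr
          have : 0 ≤ 8 * (3 * C₃ + 1) * C₂ := by positivity
          nlinarith
      _ = _ := by ring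
  have hlp : 0 < Real.log x := by linarith
  exact (sq_le_sq₀ (Finset.sum_nonneg fun m _ => mul_nonneg (hCm0 m) (norm_nonneg _)) (by positivity)).1 p7

end Pool.Agent.ZH.D
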