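import Pool.Agent.Work.ZH.D.BoxNum
import Pool.Agent.Work.ZH.D.BoxRem
import Pool.Agent.Work.ZH.D.BoxSum

/-! # Module Box: one dyadic box of the bilinear form (assembly)

`f` chooses a factorization `i.2 = m' u v` for every `i ∈ S` (`GoodPair.split`); the `i` are sorted by the dyadic
sizes `(2^a, 2^b, 2^d)` of `(i.1 m', u, v)`; for every nonempty class `Hyp` and `Setup` hold, and `dab_split`,
`rho_le`, `box_sum` bound it. At most `(3 log x)^3` classes. -/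

namespace Pool.Agent.ZH.D

open Finset

theorem good_rough {x m u v : ℕ} (h : Good x m u v) (p : ℕ) (hp : p.Prime) (hd : p ∣ u * v) :
    RR x ^ 100 ≤ (p : ℝ) := by
  rcases (hp.dvd_mul).1 hd with h1 | h1
  · exact h.upr p hp h1
  · rw [(Nat.prime_dvd_prime_iff_eq hp h.vprime).1 h1]
    exact h.vlo

/-- sorting the elements of `S` by `(m, u, v)` -/
theorem box_eq {x L : ℕ} {S : Finset (ℕ × ℕ)} {c : ℕ × ℕ → ℝ} {f : ℕ × ℕ → ℕ × ℕ × ℕ}
    (hf : Fact x L S f) (D : ℕ → ℂ) (P Q R : Finset ℕ) :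
    ∑ m ∈ P, ∑ u ∈ Q, ∑ v ∈ R, (cbox S c f m u v : ℂ) * D (m * u * v) =
      ∑ i ∈ S.filter (fun i => i.1 * (f i).1 ∈ P ∧ (f i).2.1 ∈ Q ∧ (f i).2.2 ∈ R),
        (c i : ℂ) * D (i.1 * i.2) := by
  classical
  have h1 : ∀ m u v : ℕ, (cbox S c f m u v : ℂ) * D (m * u * v) =
      ∑ i ∈ S, if i.1 * (f i).1 = m then (if (f i).2.1 = u then (if (f i).2.2 = v then
        (c i : ℂ) * D (i.1 * i.2) else 0) else 0) else 0 := by
    intro m u v
    unfold cbox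
    rw [Finset.sum_filter]
    push_cast
    rw [Finset.sum_mul]
    refine Finset.sum_congr rfl fun i hi => ?_
    by_cases a1 : i.1 * (f i).1 = m <;> by_cases a2 : (f i).2.1 = u <;> by_cases a3 : (f i).2.2 = v
    · have e : m * u * v = i.1 * i.2 := by
        rw [hf.eq i hi, ← a1, ← a2, ← a3]
        ring
      simp [a1, a2, a3, e]
    all_goals simp [a1, a2, a3]
  simp only [h1]
  rw [Finset.sum_congr rfl (fun m _ => Finset.sum_congr rfl (fun u _ => Finset.sum_comm (s := R) (t := S)))]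
  rw [Finset.sum_congr rfl (fun m _ => Finset.sum_comm (s := Q) (t := S))]
  rw [Finset.sum_comm (s := P) (t := S), Finset.sum_filter]
  refine Finset.sum_congr rfl fun i _ => ?_
  by_cases a1 : i.1 * (f i).1 ∈ P <;> by_cases a2 : (f i).2.1 ∈ Q <;> by_cases a3 : (f i).2.2 ∈ R <;>
    simp [a1, a2, a3]

/-- `T` exists -/
theorem T_ex : ∃ x₀ : ℕ, ∀ x ≥ x₀, ∃ T : ℝ, 1 ≤ T ∧ T ^ 6 ≤ RR x ∧ ∀ n : ℕ, 0 < n → n ≤ x ^ 4 → tau n ≤ T := by
  obtain ⟨x₁, h₁⟩ := small_tau 6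
  refine ⟨max x₁ 1, fun x hx => ?_⟩
  have hx1 : x₁ ≤ x := le_trans (le_max_left _ _) hx
  have hx0 : 1 ≤ x := le_trans (le_max_right _ _) hx
  have hR := one_le_RR hx0
  have hR0 : 0 ≤ RR x := by linarith
  refine ⟨RR x ^ (1 / 6 : ℝ), Real.one_le_rpow hR (by norm_num), ?_, ?_⟩
  · rw [← Real.rpow_natCast, ← Real.rpow_mul hR0]
    norm_num
  · intro n hn hnx
    have h := h₁ x hx1 n hn hnx
    have h2 : tau n = ((tau n) ^ 6) ^ (1 / 6 : ℝ) := by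
      have ht : 0 ≤ tau n := by unfold tau; positivity
      rw [← Real.rpow_natCast, ← Real.rpow_mul ht]
      norm_num
    rw [h2]
    apply Real.rpow_le_rpow (by unfold tau; positivity) _ (by norm_num)
    unfold tau
    exact h

/-- `Hyp` for the class of an element of `S` -/
theorem hyp_of {x K L : ℕ} {S : Finset (ℕ × ℕ)} {f : ℕ × ℕ → ℕ × ℕ × ℕ} (hx : 1 ≤ x) (hR : 2 ≤ RR x)
    (hG : ∀ i ∈ S, GoodPair x i.1 i.2) (hf : Fact x L S f) (hLK : L ≤ K) (hKL : K * L ≤ x)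
    (hKL' : (x : ℝ) ≤ K * L * RR x ^ 12) (hL5 : (x : ℝ) ^ 2 * RR x ^ 4900 ≤ (L : ℝ) ^ 5)
    {i : ℕ × ℕ} (hi : i ∈ S) {M U V : ℕ} (hM : i.1 * (f i).1 ∈ Ico M (2 * M))
    (hU : (f i).2.1 ∈ Ico U (2 * U)) (hV : (f i).2.2 ∈ Ico V (2 * V)) : Hyp x K L M U V := by
  rw [Finset.mem_Ico] at hM hU hV
  have hxr : (0 : ℝ) < x := by exact_mod_cast (show 0 < x by omega)
  have hR0 : 0 < RR x := by linarith
  have hR1 : 1 ≤ RR x := by linarith
  have hL0 : 0 < L := by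
    rcases Nat.eq_zero_or_pos L with h | h
    · rw [h] at hL5
      have : 0 < (x : ℝ) ^ 2 * RR x ^ 4900 := by positivity
      norm_num at hL5
      linarith
    · exact h
  have hM0 : 0 < M := by omega
  have hU0 : 0 < U := by omega
  have hV0 : 0 < V := by omega
  have hmr : (M : ℝ) ≤ ((i.1 * (f i).1 : ℕ) : ℝ) := by exact_mod_cast hM.1
  have hmr' : ((i.1 * (f i).1 : ℕ) : ℝ) ≤ 2 * M := by
    have : i.1 * (f i).1 ≤ 2 * M := hM.2.le
    exact_mod_cast this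
  have hvr : (V : ℝ) ≤ (f i).2.2 := by exact_mod_cast hV.1
  have hvr' : ((f i).2.2 : ℝ) ≤ 2 * V := by
    have : (f i).2.2 ≤ 2 * V := hV.2.le
    exact_mod_cast this
  refine ⟨⟨hL0, hM0, hU0, hV0⟩, hLK, hKL, hKL', ?_, ?_, ?_, ?_, ?_, hL5⟩
  · calc (M : ℝ) * RR x ^ 10 ≤ ((i.1 * (f i).1 : ℕ) : ℝ) * RR x ^ 11 := by
          apply mul_le_mul hmr (pow_le_pow_right₀ hR1 (by norm_num)) (by positivity) (by positivity)
      _ ≤ (L : ℝ) := hf.lo i hi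
  · calc (L : ℝ) ≤ ((i.1 * (f i).1 : ℕ) : ℝ) * RR x ^ 163 := hf.hi i hi
      _ ≤ (2 * M) * RR x ^ 163 := by gcongr
      _ = M * (2 * RR x ^ 163) := by ring
      _ ≤ M * (RR x * RR x ^ 163) := by gcongr
      _ = M * RR x ^ 164 := by ring
      _ ≤ M * RR x ^ 165 :=
          mul_le_mul_of_nonneg_left (pow_le_pow_right₀ hR1 (by norm_num)) (Nat.cast_nonneg _)
  · exact (hf.good i hi).vlo.trans hvr'
  · calc (V : ℝ) ≤ (f i).2.2 := hvr
      _ ≤ RR x ^ 150 := hf.v_le i hi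
      _ ≤ RR x ^ 151 := pow_le_pow_right₀ hR1 (by norm_num)
  · have h1 : M * U * V ≤ i.1 * i.2 := by
      calc M * U * V ≤ (i.1 * (f i).1) * (f i).2.1 * (f i).2.2 := by
            exact Nat.mul_le_mul (Nat.mul_le_mul hM.1 hU.1) hV.1
        _ = i.1 * i.2 := by rw [hf.eq i hi]; ring
    have h2 : ((M * U * V : ℕ) : ℝ) ≤ ((i.1 * i.2 : ℕ) : ℝ) := by exact_mod_cast h1
    calc ((M * U * V : ℕ) : ℝ) ^ 2 ≤ ((i.1 * i.2 : ℕ) : ℝ) ^ 2 := by gcongr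
      _ ≤ x * RR x ^ 3 := (hG i hi).hi
      _ ≤ (K * L * RR x ^ 12) * RR x ^ 3 := by gcongr
      _ = K * L * RR x ^ 15 := by ring
      _ ≤ K * L * RR x ^ 16 :=
          mul_le_mul_of_nonneg_left (pow_le_pow_right₀ hR1 (by norm_num)) (by positivity)

/-- `Setup` for the weights `cbox` -/
theorem setup_of {x K L M U V : ℕ} {T : ℝ} {S : Finset (ℕ × ℕ)} {c : ℕ × ℕ → ℝ}
    {f : ℕ × ℕ → ℕ × ℕ × ℕ} (hx : 1 ≤ x) (hG : ∀ i ∈ S, GoodPair x i.1 i.2) (hc0 : ∀ i ∈ S, 0 ≤ c i)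
    (hc1 : ∀ i ∈ S, c i ≤ 1) (hf : Fact x L S f) (hT : ∀ n : ℕ, 0 < n → n ≤ x ^ 4 → tau n ≤ T)
    (hT1 : 1 ≤ T) (hH : Hyp x K L M U V) (hN : 8 ≤ K ∧ 8 ≤ L ∧ M ≤ K ∧ M ≤ L ∧ 16 * V ^ 4 ≤ L ∧
      L / V ^ 2 + 1 ≤ M ∧ 6 * K * L ≤ x ^ 4 ∧ 1024 * M * U ^ 2 * V ^ 4 ≤ x ^ 4) :
    Setup M U V K L (x ^ 4) (RR x ^ 100) T (cbox S c f) := by
  obtain ⟨n1, n2, n3, n4, n5, n6, n7, n8⟩ := hN
  obtain ⟨_, hM0, hU0, hV0⟩ := hH.pos
  refine ⟨hM0, hU0, hV0, n1, n2, n3, n4, n5, n6, one_le_pow₀ (one_le_RR hx), n7, n8, hT,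
    fun m u v => cbox_nonneg hc0 m u v, ?_, ?_, ?_, ?_⟩
  · intro m u v
    by_cases h0 : cbox S c f m u v = 0
    · rw [h0]; linarith
    · obtain ⟨i, hi, h1, _, _⟩ := cbox_ne h0
      have hm0 : 0 < m := by rw [← h1]; exact (hf.good i hi).mpos
      have hmx : m ≤ x ^ 4 := by
        have g := hf.good i hi
        have h2 : m ≤ i.1 * i.2 := by
          have huv : 0 < (f i).2.1 * (f i).2.2 :=
            Nat.mul_pos (Nat.pos_of_ne_zero g.usq.ne_zero) g.vprime.pos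
          calc m = i.1 * (f i).1 := h1.symm
            _ ≤ i.1 * (f i).1 * ((f i).2.1 * (f i).2.2) := Nat.le_mul_of_pos_right _ huv
            _ = i.1 * i.2 := by rw [hf.eq i hi]; ring
        exact (h2.trans (goodPair_mul_le (hG i hi) hx)).trans (Nat.le_self_pow (by norm_num) x)
      calc cbox S c f m u v ≤ ∑ p ∈ m.divisorsAntidiagonal,
            (if (p.1, p.2 * u * v) ∈ S then c (p.1, p.2 * u * v) else 0) := cbox_le hf hc0 m u v hm0
        _ ≤ ∑ p ∈ m.divisorsAntidiagonal, (1 : ℝ) := by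
            refine Finset.sum_le_sum fun p _ => ?_
            split_ifs with h
            · exact hc1 _ h
            · norm_num
        _ = tau m := by
            rw [Finset.sum_const, nsmul_eq_mul, mul_one, card_dAnti]
            rfl
        _ ≤ T := hT m hm0 hmx
  · intro m u v h
    obtain ⟨i, hi, h1, h2, h3⟩ := cbox_ne h
    have := (hf.good i hi).cop
    rwa [h1, h2, h3] at this
  · intro m u v h
    obtain ⟨i, hi, h1, h2, h3⟩ := cbox_ne h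
    have := (hf.good i hi).cop'
    rwa [h2, h3] at this
  · intro m u v h p hp hd
    obtain ⟨i, hi, h1, h2, h3⟩ := cbox_ne h
    have := good_rough (hf.good i hi) p hp
    rw [h2, h3] at this
    exact this hd

end Pool.Agent.ZH.D

namespace Pool.Agent.ZH

open Finset D

theorem thm_box (A C₁ : ℕ) : ∃ C : ℝ, 0 < C ∧ ∃ x₀ : ℕ, ∀ x ≥ x₀, ∀ ρ : ℝ, 1 ≤ ρ ^ 4 * RR x → ρ ≤ 1 → 0 < ρ →
    ∀ (S : Finset (ℕ × ℕ)) (c : ℕ × ℕ → ℝ), Dens x ρ C₁ S c → ∀ K L : ℕ, L ≤ K → K * L ≤ x →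
    (x : ℝ) ≤ K * L * RR x ^ 12 → (x : ℝ) ^ 2 * RR x ^ 4900 ≤ (L : ℝ) ^ 5 →
    ∀ α β : ℕ → ℂ, (∀ k, ‖α k‖ ≤ 1) → (∀ l, ‖β l‖ ≤ 1) → Struct β →
    ‖∑ i ∈ S, (c i : ℂ) * Dab α β K L (i.1 * i.2)‖ ≤ C * ρ * x / Real.log x ^ A := by
  classical
  obtain ⟨C₀, hC₀, x₁, h₁⟩ := box_sum (A + 3) C₁
  obtain ⟨x₂, h₂⟩ := setup_num
  obtain ⟨x₃, h₃⟩ := rho_le
  obtain ⟨x₄, h₄⟩ := RR_ge_two
  obtain ⟨x₅, h₅⟩ := T_ex
  obtain ⟨x₆, h₆⟩ := small_log (A + 3) 1100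
  refine ⟨27 * (C₀ + 1), by positivity, max (max (max x₁ x₂) (max x₃ x₄)) (max (max x₅ x₆) 3), ?_⟩
  intro x hx ρ hρ4 hρ1 hρ S c hD K L hLK hKL hKL' hL5 α β hα hβ hS
  simp only [ge_iff_le, max_le_iff] at hx
  obtain ⟨⟨⟨hx1, hx2⟩, hx3, hx4⟩, ⟨hx5, hx6⟩, hx7⟩ := hx
  have hR2 := h₄ x hx4
  have hR1 : 1 ≤ RR x := by linarith
  have hR0 : 0 < RR x := by linarith
  obtain ⟨T, hT1, hT6, hT⟩ := h₅ x hx5
  have hlogs := h₆ x hx6
  have hxr : (0 : ℝ) < x := by exact_mod_cast (show 0 < x by omega)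
  have hlog : 1 ≤ Real.log x := by
    rw [Real.le_log_iff_exp_le hxr]
    calc Real.exp 1 ≤ 3 := Real.exp_one_lt_three.le
      _ ≤ x := by exact_mod_cast hx7
  have hlp : 0 < Real.log x := by linarith
  have hL2 : L ^ 2 ≤ x := by
    calc L ^ 2 = L * L := by ring
      _ ≤ K * L := Nat.mul_le_mul_right _ hLK
      _ ≤ x := hKL
  -- the factorizations
  have hch : ∀ i : ℕ × ℕ, i ∈ S → ∃ t : ℕ × ℕ × ℕ, i.2 = t.1 * t.2.1 * t.2.2 ∧
      Good x (i.1 * t.1) t.2.1 t.2.2 ∧ (t.2.2 : ℝ) ≤ RR x ^ 150 ∧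
      ((i.1 * t.1 : ℕ) : ℝ) * RR x ^ 11 ≤ L ∧ (L : ℝ) ≤ ((i.1 * t.1 : ℕ) : ℝ) * RR x ^ 163 := by
    intro i hi
    obtain ⟨m', u, v, h1, h2, h3, h4, h5⟩ := (hD.good i hi).split L hL5 hL2
    exact ⟨(m', u, v), h1, h2, h3, h4, h5⟩
  choose! f hf0 using hch
  have hf : Fact x L S f := ⟨fun i hi => (hf0 i hi).1, fun i hi => (hf0 i hi).2.1,
    fun i hi => (hf0 i hi).2.2.1, fun i hi => (hf0 i hi).2.2.2.1, fun i hi => (hf0 i hi).2.2.2.2⟩
  have hpos : ∀ i ∈ S, 0 < i.1 * (f i).1 ∧ 0 < (f i).2.1 ∧ 0 < (f i).2.2 ∧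
      i.1 * (f i).1 ≤ x ∧ (f i).2.1 ≤ x ∧ (f i).2.2 ≤ x := by
    intro i hi
    have g := hf.good i hi
    have hm := g.mpos
    have hu : 0 < (f i).2.1 := Nat.pos_of_ne_zero g.usq.ne_zero
    have hv : 0 < (f i).2.2 := g.vprime.pos
    have e : i.1 * i.2 = (i.1 * (f i).1) * (f i).2.1 * (f i).2.2 := by rw [hf.eq i hi]; ring
    have hle := goodPair_mul_le (hD.good i hi) (show 1 ≤ x by omega)
    rw [e] at hle
    refine ⟨hm, hu, hv, ?_, ?_, ?_⟩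
    · refine le_trans ?_ hle
      calc i.1 * (f i).1 ≤ i.1 * (f i).1 * (f i).2.1 := Nat.le_mul_of_pos_right _ hu
        _ ≤ _ := Nat.le_mul_of_pos_right _ hv
    · refine le_trans ?_ hle
      calc (f i).2.1 ≤ i.1 * (f i).1 * (f i).2.1 := Nat.le_mul_of_pos_left _ hm
        _ ≤ _ := Nat.le_mul_of_pos_right _ hv
    · exact le_trans (Nat.le_mul_of_pos_left _ (Nat.mul_pos hm hu)) hle
  -- sorting
  set Q : Finset ℕ := range (Nat.log 2 x + 1) with hQ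
  set key : ℕ × ℕ → ℕ × ℕ × ℕ := fun i =>
    (Nat.log 2 (i.1 * (f i).1), Nat.log 2 (f i).2.1, Nat.log 2 (f i).2.2) with hkey
  have hmaps : ∀ i ∈ S, key i ∈ Q ×ˢ Q ×ˢ Q := by
    intro i hi
    obtain ⟨_, _, _, h4, h5, h6⟩ := hpos i hi
    simp only [hkey, hQ, Finset.mem_product, Finset.mem_range]
    have := Nat.log_mono_right (b := 2) h4
    have := Nat.log_mono_right (b := 2) h5
    have := Nat.log_mono_right (b := 2) h6
    omega
  have hlogIco : ∀ n a : ℕ, 0 < n → (Nat.log 2 n = a ↔ n ∈ Ico (2 ^ a) (2 * 2 ^ a)) := by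
    intro n a hn
    rw [Finset.mem_Ico, show 2 * 2 ^ a = 2 ^ (a + 1) by rw [pow_succ]; ring]
    exact Nat.log_eq_iff (Or.inr ⟨by norm_num, hn.ne'⟩)
  have hsplit : ∑ i ∈ S, (c i : ℂ) * Dab α β K L (i.1 * i.2) =
      ∑ t ∈ Q ×ˢ Q ×ˢ Q, ∑ m ∈ Ico (2 ^ t.1) (2 * 2 ^ t.1), ∑ u ∈ Ico (2 ^ t.2.1) (2 * 2 ^ t.2.1),
        ∑ v ∈ Ico (2 ^ t.2.2) (2 * 2 ^ t.2.2), (cbox S c f m u v : ℂ) * Dab α β K L (m * u * v) := by
    rw [← Finset.sum_fiberwise_of_maps_to hmaps]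
    refine Finset.sum_congr rfl fun t _ => ?_
    rw [box_eq hf]
    refine Finset.sum_congr ?_ fun _ _ => rfl
    ext i
    simp only [Finset.mem_filter]
    constructor
    · rintro ⟨hi, h⟩
      obtain ⟨p1, p2, p3, _⟩ := hpos i hi
      refine ⟨hi, (hlogIco _ _ p1).1 ?_, (hlogIco _ _ p2).1 ?_, (hlogIco _ _ p3).1 ?_⟩ <;>
        rw [← h]
    · rintro ⟨hi, h1, h2, h3⟩
      obtain ⟨p1, p2, p3, _⟩ := hpos i hi
      refine ⟨hi, ?_⟩
      simp only [hkey]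
      rw [(hlogIco _ _ p1).2 h1, (hlogIco _ _ p2).2 h2, (hlogIco _ _ p3).2 h3]
  -- one class
  have hone : ∀ t ∈ Q ×ˢ Q ×ˢ Q, ‖∑ m ∈ Ico (2 ^ t.1) (2 * 2 ^ t.1), ∑ u ∈ Ico (2 ^ t.2.1) (2 * 2 ^ t.2.1),
        ∑ v ∈ Ico (2 ^ t.2.2) (2 * 2 ^ t.2.2), (cbox S c f m u v : ℂ) * Dab α β K L (m * u * v)‖ ≤
      (C₀ + 1) * ρ * x / Real.log x ^ (A + 3) := by
    intro t _
    by_cases hemp : (S.filter (fun i => i.1 * (f i).1 ∈ Ico (2 ^ t.1) (2 * 2 ^ t.1) ∧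
        (f i).2.1 ∈ Ico (2 ^ t.2.1) (2 * 2 ^ t.2.1) ∧ (f i).2.2 ∈ Ico (2 ^ t.2.2) (2 * 2 ^ t.2.2))).Nonempty
    · obtain ⟨i, hi⟩ := hemp
      rw [Finset.mem_filter] at hi
      obtain ⟨hi, k1, k2, k3⟩ := hi
      set M : ℕ := 2 ^ t.1
      set U : ℕ := 2 ^ t.2.1
      set V : ℕ := 2 ^ t.2.2
      have hH : Hyp x K L M U V := hyp_of (by omega) hR2 hD.good hf hLK hKL hKL' hL5 hi k1 k2 k3
      have hSet := setup_of (by omega) hD.good hD.nonneg hD.le_one hf hT hT1 hH (h₂ x hx2 K L M U V hH)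
      have d1 := dab_split hSet α β hα hβ
      have d2 := h₃ x hx3 K L M U V hH
      have d3 := h₁ x hx1 ρ hρ hρ1 S c hD f K L M U V hf hH α β hα hβ hS
      have hKLr : ((K : ℝ) * L) ≤ x := by exact_mod_cast hKL
      have hrho : (rho M U V K L (RR x ^ 100)) ^ (1 / 2 : ℝ) ≤ 1 / RR x ^ 4 := by
        have hn : 0 ≤ rho M U V K L (RR x ^ 100) := by
          unfold rho
          positivity
        calc (rho M U V K L (RR x ^ 100)) ^ (1 / 2 : ℝ) ≤ (1 / RR x ^ 8) ^ (1 / 2 : ℝ) :=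
              Real.rpow_le_rpow hn d2 (by norm_num)
          _ = 1 / RR x ^ 4 := by
              rw [show (1 : ℝ) / RR x ^ 8 = (1 / RR x ^ 4) ^ 2 by field_simp,
                ← Real.rpow_natCast, ← Real.rpow_mul (by positivity)]
              norm_num
      have hρR : 1 ≤ ρ * RR x := by
        have : ρ ^ 4 ≤ ρ := by
          calc ρ ^ 4 ≤ ρ ^ 1 := pow_le_pow_of_le_one hρ.le hρ1 (by norm_num)
            _ = ρ := pow_one ρ
        nlinarith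
      have hT4 : T ^ 4 ≤ RR x := (pow_le_pow_right₀ hT1 (by norm_num)).trans hT6
      have e1 : 1000 * T ^ 6 * ((K : ℝ) * L) * (rho M U V K L (RR x ^ 100)) ^ (1 / 2 : ℝ) ≤
          1000 * x / RR x ^ 3 := by
        calc 1000 * T ^ 6 * ((K : ℝ) * L) * (rho M U V K L (RR x ^ 100)) ^ (1 / 2 : ℝ)
            ≤ 1000 * RR x * x * (1 / RR x ^ 4) := by
              apply mul_le_mul _ hrho (Real.rpow_nonneg (by unfold rho; positivity) _) (by positivity)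
              gcongr
          _ = 1000 * x / RR x ^ 3 := by field_simp
      have e2 : 100 * T ^ 4 * ((K : ℝ) * L) / RR x ^ 100 ≤ 100 * x / RR x ^ 3 := by
        calc 100 * T ^ 4 * ((K : ℝ) * L) / RR x ^ 100 ≤ 100 * RR x * x / RR x ^ 100 := by gcongr
          _ ≤ 100 * RR x * x / RR x ^ 4 := by
              apply div_le_div_of_nonneg_left (by positivity) (by positivity)
              exact pow_le_pow_right₀ hR1 (by norm_num)
          _ = 100 * x / RR x ^ 3 := by field_simp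
      have e3 : 1100 * (x : ℝ) / RR x ^ 3 ≤ ρ * x / Real.log x ^ (A + 3) := by
        rw [div_le_div_iff₀ (by positivity) (by positivity)]
        have g1 : 1100 * (x : ℝ) * Real.log x ^ (A + 3) ≤ x * RR x := by nlinarith
        have g2 : (x : ℝ) * RR x ≤ ρ * x * RR x ^ 3 := by
          have : (1 : ℝ) ≤ ρ * RR x * RR x := by nlinarith
          calc (x : ℝ) * RR x = x * RR x * 1 := by ring
            _ ≤ x * RR x * (ρ * RR x * RR x) := by gcongr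
            _ = _ := by ring
        linarith
      calc _ ≤ _ := d1
        _ ≤ 1000 * x / RR x ^ 3 + 100 * x / RR x ^ 3 + C₀ * ρ * x / Real.log x ^ (A + 3) := by
            gcongr
        _ = 1100 * (x : ℝ) / RR x ^ 3 + C₀ * ρ * x / Real.log x ^ (A + 3) := by ring
        _ ≤ ρ * x / Real.log x ^ (A + 3) + C₀ * ρ * x / Real.log x ^ (A + 3) := by gcongr
        _ = _ := by ring
    · rw [box_eq hf, Finset.not_nonempty_iff_eq_empty.1 hemp, Finset.sum_empty, norm_zero]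
      positivity
  -- the number of classes
  have hcard : ((Q ×ˢ Q ×ˢ Q).card : ℝ) ≤ 27 * Real.log x ^ 3 := by
    have h1 : ((Nat.log 2 x : ℕ) : ℝ) ≤ 2 * Real.log x := by
      have h2 : ((Nat.log 2 x : ℕ) : ℝ) ≤ Real.logb 2 x := by
        have := Real.natLog_le_logb x 2
        exact_mod_cast this
      have h3 : Real.logb 2 x ≤ 2 * Real.log x := by
        unfold Real.logb
        rw [div_le_iff₀ (Real.log_pos (by norm_num))]
        have := Real.log_two_gt_d9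
        nlinarith
      linarith
    have h4 : ((Q.card : ℕ) : ℝ) ≤ 3 * Real.log x := by
      rw [hQ, Finset.card_range]
      push_cast
      linarith
    rw [Finset.card_product, Finset.card_product]
    push_cast
    calc ((Q.card : ℕ) : ℝ) * (((Q.card : ℕ) : ℝ) * ((Q.card : ℕ) : ℝ))
        ≤ (3 * Real.log x) * ((3 * Real.log x) * (3 * Real.log x)) := by gcongr
      _ = _ := by ring
  rw [hsplit]
  calc _ ≤ ∑ t ∈ Q ×ˢ Q ×ˢ Q, (C₀ + 1) * ρ * x / Real.log x ^ (A + 3) :=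
        (norm_sum_le _ _).trans (Finset.sum_le_sum hone)
    _ = ((Q ×ˢ Q ×ˢ Q).card : ℝ) * ((C₀ + 1) * ρ * x / Real.log x ^ (A + 3)) := by
        rw [Finset.sum_const, nsmul_eq_mul]
    _ ≤ (27 * Real.log x ^ 3) * ((C₀ + 1) * ρ * x / Real.log x ^ (A + 3)) := by gcongr
    _ = 27 * (C₀ + 1) * ρ * x / Real.log x ^ A := by
        rw [pow_add]
        field_simp

end Pool.Agent.ZH
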