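import Pool.Agent.Work.ZH.Defs

/-! # Module BoxErr: the discrepancy modulo `m` by the variance of `β`

`A_a = ∑_{k ≡ a} α k`, `B_a = ∑_{l ≡ a} β l` for the unit classes `a` mod `m`:
`Dab α β K L m = ∑_a A_{a⁻¹} (B_a - (1/φ) ∑_b B_b)`, `∑_a |B_a - mean|² = err β L m`,
`∑_a |A_a|² ≤ K (K/m + 1)`. -/

namespace Pool.Agent.ZH.D

open Finset

/-- the sum of `β` over one unit class -/
private noncomputable def clB (m : ℕ) (β : ℕ → ℂ) (L : ℕ) (u : (ZMod m)ˣ) : ℂ :=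
  ∑ l ∈ Ico L (2 * L), if (l : ZMod m) = (u : ZMod m) then β l else 0

open Classical in
private theorem sum_units_ind (m : ℕ) [NeZero m] (a : ZMod m) (z : ℂ) :
    ∑ u : (ZMod m)ˣ, (if a = (u : ZMod m) then z else 0) = if IsUnit a then z else 0 := by
  split_ifs with h
  · obtain ⟨w, hw⟩ := h
    rw [sum_eq_single w]
    · rw [if_pos hw.symm]
    · intro b _ hb
      rw [if_neg]
      intro h1
      exact hb (Units.ext (h1.symm.trans hw.symm))
    · intro h1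
      exact absurd (mem_univ w) h1
  · refine sum_eq_zero fun u _ => if_neg ?_
    rintro rfl
    exact h u.isUnit

private theorem sum_clB (m : ℕ) [NeZero m] (β : ℕ → ℂ) (L : ℕ) :
    ∑ u : (ZMod m)ˣ, clB m β L u = Bs β L m := by
  classical
  unfold clB Bs
  rw [sum_comm, sum_filter]
  refine sum_congr rfl fun l _ => ?_
  rw [sum_units_ind]
  simp only [ZMod.isUnit_iff_coprime]

private theorem sum_clB_sq (m : ℕ) [NeZero m] (β : ℕ → ℂ) (L : ℕ) :
    ((∑ u : (ZMod m)ˣ, ‖clB m β L u‖ ^ 2 : ℝ) : ℂ) = Sbb β L m := by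
  classical
  unfold Sbb
  push_cast
  have h1 : ∀ u : (ZMod m)ˣ, ((‖clB m β L u‖ : ℂ)) ^ 2 =
      ∑ l₁ ∈ Ico L (2 * L), ∑ l₂ ∈ Ico L (2 * L),
        if (l₁ : ZMod m) = (u : ZMod m) then
          (if (l₂ : ZMod m) = (u : ZMod m) then β l₁ * (starRingEnd ℂ) (β l₂) else 0) else 0 := by
    intro u
    rw [← Complex.mul_conj']
    unfold clB
    rw [map_sum, sum_mul_sum]
    refine sum_congr rfl fun l₁ _ => sum_congr rfl fun l₂ _ => ?_
    split_ifs <;> simp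
  rw [sum_congr rfl fun u _ => h1 u, sum_comm]
  refine sum_congr rfl fun l₁ _ => ?_
  rw [sum_comm]
  refine sum_congr rfl fun l₂ _ => ?_
  have h2 : ∀ u : (ZMod m)ˣ, (if (l₁ : ZMod m) = (u : ZMod m) then
          (if (l₂ : ZMod m) = (u : ZMod m) then β l₁ * (starRingEnd ℂ) (β l₂) else 0) else 0) =
      if (l₁ : ZMod m) = (u : ZMod m) then
          (if (l₂ : ZMod m) = (l₁ : ZMod m) then β l₁ * (starRingEnd ℂ) (β l₂) else 0) else 0 := by
    intro u
    split_ifs with a b c <;> simp_all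
  rw [sum_congr rfl fun u _ => h2 u, sum_units_ind]
  by_cases hu : IsUnit (l₁ : ZMod m)
  · rw [if_pos hu]
    have hc : Nat.Coprime l₁ m := (ZMod.isUnit_iff_coprime _ _).1 hu
    by_cases he : (l₂ : ZMod m) = (l₁ : ZMod m)
    · rw [if_pos he, if_pos ⟨((ZMod.natCast_eq_natCast_iff _ _ _).1 he).symm, hc⟩]
    · rw [if_neg he, if_neg]
      rintro ⟨h3, _⟩
      exact he ((ZMod.natCast_eq_natCast_iff _ _ _).2 h3.symm)
  · rw [if_neg hu, if_neg]
    rintro ⟨_, h3⟩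
    exact hu ((ZMod.isUnit_iff_coprime _ _).2 h3)

/-- the variance -/
private theorem err_eq (m : ℕ) [NeZero m] (β : ℕ → ℂ) (L : ℕ) :
    err β L m = ∑ u : (ZMod m)ˣ, ‖clB m β L u - Bs β L m / (m.totient : ℂ)‖ ^ 2 := by
  have hφ : (0 : ℝ) < m.totient := by exact_mod_cast Nat.totient_pos.2 (NeZero.pos m)
  have hcard : (Fintype.card (ZMod m)ˣ : ℝ) = m.totient := by rw [ZMod.card_units_eq_totient]
  have h1 : (Sbb β L m).re = ∑ u : (ZMod m)ˣ, ‖clB m β L u‖ ^ 2 := by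
    rw [← sum_clB_sq m β L, Complex.ofReal_re]
  unfold err
  rw [h1]
  set c : ℂ := Bs β L m / (m.totient : ℂ) with hc
  have hφc : (m.totient : ℂ) ≠ 0 := by exact_mod_cast hφ.ne'
  have hBs : Bs β L m = (m.totient : ℂ) * c := by
    rw [hc]; field_simp
  have h2 : ∀ u : (ZMod m)ˣ, ‖clB m β L u - c‖ ^ 2 =
      ‖clB m β L u‖ ^ 2 - 2 * (clB m β L u * (starRingEnd ℂ) c).re + ‖c‖ ^ 2 := by
    intro u
    rw [← Complex.normSq_eq_norm_sq, ← Complex.normSq_eq_norm_sq, ← Complex.normSq_eq_norm_sq,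
      Complex.normSq_sub]
    ring
  rw [sum_congr rfl fun u _ => h2 u, sum_add_distrib, sum_sub_distrib, ← mul_sum, ← Complex.re_sum,
    ← sum_mul, sum_clB, sum_const, card_univ, nsmul_eq_mul, hcard]
  have h3 : (Bs β L m * (starRingEnd ℂ) c).re = m.totient * ‖c‖ ^ 2 := by
    rw [hBs, mul_assoc, Complex.mul_conj']
    have : ((m.totient : ℂ) * (‖c‖ : ℂ) ^ 2) = ((m.totient * ‖c‖ ^ 2 : ℝ) : ℂ) := by push_cast; ring
    rw [this, Complex.ofReal_re]
  have h4 : ‖Bs β L m‖ ^ 2 / m.totient = m.totient * ‖c‖ ^ 2 := by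
    rw [hBs, norm_mul, Complex.norm_natCast]
    field_simp
  rw [h3, h4]
  ring

theorem err_nonneg (β : ℕ → ℂ) (L m : ℕ) (hm : 0 < m) : 0 ≤ err β L m := by
  have : NeZero m := ⟨hm.ne'⟩
  rw [err_eq]
  exact sum_nonneg fun u _ => by positivity

/-- the sum of `α` over the inverse class -/
private noncomputable def clA (m : ℕ) (α : ℕ → ℂ) (K : ℕ) (u : (ZMod m)ˣ) : ℂ :=
  ∑ k ∈ Ico K (2 * K), if (k : ZMod m) = ((u⁻¹ : (ZMod m)ˣ) : ZMod m) then α k else 0

private theorem dab_eq (m : ℕ) [NeZero m] (α β : ℕ → ℂ) (K L : ℕ) :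
    Dab α β K L m = ∑ u : (ZMod m)ˣ, clA m α K u * (clB m β L u - Bs β L m / (m.totient : ℂ)) := by
  classical
  have hφ : (m.totient : ℂ) ≠ 0 := by exact_mod_cast (Nat.totient_pos.2 (NeZero.pos m)).ne'
  have h1 : ∑ u : (ZMod m)ˣ, clA m α K u * clB m β L u =
      ∑ k ∈ Ico K (2 * K), ∑ l ∈ Ico L (2 * L), α k * β l * (if k * l ≡ 1 [MOD m] then 1 else 0) := by
    have h2 : ∀ u : (ZMod m)ˣ, clA m α K u * clB m β L u = ∑ k ∈ Ico K (2 * K), ∑ l ∈ Ico L (2 * L),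
        if (l : ZMod m) = (u : ZMod m) then
          (if (k : ZMod m) * (l : ZMod m) = 1 then α k * β l else 0) else 0 := by
      intro u
      unfold clA clB
      rw [sum_mul_sum]
      refine sum_congr rfl fun k _ => sum_congr rfl fun l _ => ?_
      by_cases hl : (l : ZMod m) = (u : ZMod m)
      · rw [if_pos hl, if_pos hl]
        have h3 : (k : ZMod m) = ((u⁻¹ : (ZMod m)ˣ) : ZMod m) ↔ (k : ZMod m) * (l : ZMod m) = 1 := by
          rw [hl]
          constructor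
          · intro h; rw [h]; exact u.inv_mul
          · intro h
            calc (k : ZMod m) = k * (u * ((u⁻¹ : (ZMod m)ˣ) : ZMod m)) := by rw [u.mul_inv, mul_one]
              _ = _ := by rw [← mul_assoc, h, one_mul]
        by_cases hk : (k : ZMod m) = ((u⁻¹ : (ZMod m)ˣ) : ZMod m)
        · rw [if_pos hk, if_pos (h3.1 hk)]
        · rw [if_neg hk, if_neg fun h => hk (h3.2 h)]; simp
      · rw [if_neg hl, if_neg hl, mul_zero]
    rw [sum_congr rfl fun u _ => h2 u, sum_comm]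
    refine sum_congr rfl fun k _ => ?_
    rw [sum_comm]
    refine sum_congr rfl fun l _ => ?_
    rw [sum_units_ind]
    have h4 : (k : ZMod m) * (l : ZMod m) = 1 ↔ k * l ≡ 1 [MOD m] := by
      rw [← ZMod.natCast_eq_natCast_iff]
      push_cast
      rfl
    by_cases hk : k * l ≡ 1 [MOD m]
    · have h5 := h4.2 hk
      have h6 : IsUnit (l : ZMod m) := IsUnit.of_mul_eq_one (k : ZMod m) (by rw [mul_comm]; exact h5)
      rw [if_pos h6, if_pos h5, if_pos hk, mul_one]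
    · rw [if_neg fun h => hk (h4.1 h), if_neg hk]
      simp
  have h7 : (∑ u : (ZMod m)ˣ, clA m α K u) * Bs β L m =
      ∑ k ∈ Ico K (2 * K), ∑ l ∈ Ico L (2 * L), α k * β l * (if Nat.Coprime (k * l) m then 1 else 0) := by
    have h8 : ∑ u : (ZMod m)ˣ, clA m α K u = ∑ k ∈ Ico K (2 * K), if Nat.Coprime k m then α k else 0 := by
      unfold clA
      rw [sum_comm]
      refine sum_congr rfl fun k _ => ?_
      have h9 : ∑ u : (ZMod m)ˣ, (if (k : ZMod m) = ((u⁻¹ : (ZMod m)ˣ) : ZMod m) then α k else 0) =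
          ∑ u : (ZMod m)ˣ, (if (k : ZMod m) = (u : ZMod m) then α k else 0) :=
        Fintype.sum_equiv (Equiv.inv (ZMod m)ˣ) _ _ (fun u => rfl)
      rw [h9, sum_units_ind]
      simp only [ZMod.isUnit_iff_coprime]
    rw [h8]
    unfold Bs
    rw [sum_filter, sum_mul_sum]
    refine sum_congr rfl fun k _ => sum_congr rfl fun l _ => ?_
    have h10 : Nat.Coprime (k * l) m ↔ Nat.Coprime k m ∧ Nat.Coprime l m := Nat.coprime_mul_iff_left
    by_cases a : Nat.Coprime k m <;> by_cases b : Nat.Coprime l m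
    · rw [if_pos a, if_pos b, if_pos (h10.2 ⟨a, b⟩), mul_one]
    · rw [if_neg b, if_neg fun h => b (h10.1 h).2, mul_zero, mul_zero]
    · rw [if_neg a, if_neg fun h => a (h10.1 h).1, zero_mul, mul_zero]
    · rw [if_neg a, if_neg fun h => a (h10.1 h).1, zero_mul, mul_zero]
  have h9 : ∑ u : (ZMod m)ˣ, clA m α K u * (clB m β L u - Bs β L m / (m.totient : ℂ)) =
      ∑ u : (ZMod m)ˣ, clA m α K u * clB m β L u - (∑ u : (ZMod m)ˣ, clA m α K u) * Bs β L m / (m.totient : ℂ) := by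
    rw [mul_div_assoc, sum_mul, ← sum_sub_distrib]
    exact sum_congr rfl fun u _ => by ring
  rw [h9, h1, h7]
  unfold Dab
  rw [sum_div, ← sum_sub_distrib]
  refine sum_congr rfl fun k _ => ?_
  rw [sum_div, ← sum_sub_distrib]
  refine sum_congr rfl fun l _ => ?_
  split_ifs <;> ring

private theorem norm_clA_le (m : ℕ) [NeZero m] (α : ℕ → ℂ) (K : ℕ) (hα : ∀ k, ‖α k‖ ≤ 1) (u : (ZMod m)ˣ) :
    ‖clA m α K u‖ ≤ (((Ico K (2 * K)).filter (fun k : ℕ => (k : ZMod m) = ((u⁻¹ : (ZMod m)ˣ) : ZMod m))).card : ℝ) := by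
  classical
  unfold clA
  rw [← sum_filter]
  refine (norm_sum_le _ _).trans ?_
  calc _ ≤ ∑ k ∈ (Ico K (2 * K)).filter (fun k : ℕ => (k : ZMod m) = ((u⁻¹ : (ZMod m)ˣ) : ZMod m)), (1 : ℝ) :=
        sum_le_sum fun k _ => hα k
    _ = _ := by simp

private theorem card_cl_le (m : ℕ) [NeZero m] (K : ℕ) (a : ZMod m) :
    (((Ico K (2 * K)).filter (fun k : ℕ => (k : ZMod m) = a)).card : ℝ) ≤ (K : ℝ) / m + 1 := by
  have hm : 0 < m := NeZero.pos m
  have h0 : (Ico K (2 * K)).filter (fun k : ℕ => (k : ZMod m) = a) = (Ico K (2 * K)).filter (fun k => k ≡ a.val [MOD m]) := by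
    refine filter_congr fun k _ => ?_
    rw [← ZMod.natCast_eq_natCast_iff, ZMod.natCast_zmod_val]
  rw [h0]
  have h1 := Nat.Ico_filter_modEq_card K (2 * K) (r := m) hm a.val
  have hmq : (0 : ℚ) < m := by exact_mod_cast hm
  have h2 : ((((Ico K (2 * K)).filter (fun k => k ≡ a.val [MOD m])).card : ℤ) : ℚ) ≤ (K : ℚ) / m + 1 := by
    rw [h1]
    rw [Int.cast_max]
    refine max_le ?_ (by push_cast; positivity)
    have ha := Int.ceil_lt_add_one ((((2 * K : ℕ) : ℚ) - (a.val : ℚ)) / (m : ℚ))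
    have hb := Int.le_ceil (((K : ℚ) - (a.val : ℚ)) / (m : ℚ))
    have hd : (((2 * K : ℕ) : ℚ) - (a.val : ℚ)) / (m : ℚ) - ((K : ℚ) - (a.val : ℚ)) / (m : ℚ) = (K : ℚ) / m := by
      push_cast
      rw [← sub_div]
      congr 1
      ring
    rw [Int.cast_sub]
    linarith
  have h3 : (((((Ico K (2 * K)).filter (fun k => k ≡ a.val [MOD m])).card : ℤ) : ℚ) : ℝ) ≤ (((K : ℚ) / m + 1 : ℚ) : ℝ) :=
    Rat.cast_le.2 h2
  push_cast at h3
  exact h3

private theorem sum_clA_sq (m : ℕ) [NeZero m] (α : ℕ → ℂ) (K : ℕ) (hα : ∀ k, ‖α k‖ ≤ 1) :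
    ∑ u : (ZMod m)ˣ, ‖clA m α K u‖ ^ 2 ≤ (K : ℝ) * (K / m + 1) := by
  classical
  have hK : (0 : ℝ) ≤ (K : ℝ) / m + 1 := by positivity
  calc ∑ u : (ZMod m)ˣ, ‖clA m α K u‖ ^ 2 ≤
      ∑ u : (ZMod m)ˣ, ((K : ℝ) / m + 1) *
        (((Ico K (2 * K)).filter (fun k : ℕ => (k : ZMod m) = ((u⁻¹ : (ZMod m)ˣ) : ZMod m))).card : ℝ) := by
        refine sum_le_sum fun u _ => ?_
        rw [pow_two]
        refine mul_le_mul ((norm_clA_le m α K hα u).trans (card_cl_le m K _)) (norm_clA_le m α K hα u)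
          (norm_nonneg _) hK
    _ = ((K : ℝ) / m + 1) * ∑ u : (ZMod m)ˣ,
        (((Ico K (2 * K)).filter (fun k : ℕ => (k : ZMod m) = ((u⁻¹ : (ZMod m)ˣ) : ZMod m))).card : ℝ) := by
        rw [mul_sum]
    _ ≤ ((K : ℝ) / m + 1) * K := by
        refine mul_le_mul_of_nonneg_left ?_ hK
        have h1 : ∑ u : (ZMod m)ˣ, ((Ico K (2 * K)).filter (fun k : ℕ => (k : ZMod m) = ((u⁻¹ : (ZMod m)ˣ) : ZMod m))).card ≤ K := by
          rw [← card_biUnion]
          · refine (card_le_card (biUnion_subset.2 fun u _ => filter_subset _ _)).trans ?_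
            simp
            omega
          · intro u _ w _ huw
            rw [Function.onFun, disjoint_left]
            intro k hk hk'
            have e1 := (mem_filter.1 hk).2
            have e2 := (mem_filter.1 hk').2
            exact huw (inv_injective (Units.ext (e1.symm.trans e2)))
        exact_mod_cast h1
    _ = _ := by ring

theorem dab_err (α β : ℕ → ℂ) (K L m : ℕ) (hm : 0 < m) (hα : ∀ k, ‖α k‖ ≤ 1) :
    ‖Dab α β K L m‖ ^ 2 ≤ (K : ℝ) * (K / m + 1) * err β L m := by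
  have : NeZero m := ⟨hm.ne'⟩
  rw [dab_eq, err_eq]
  have h1 : ‖∑ u : (ZMod m)ˣ, clA m α K u * (clB m β L u - Bs β L m / (m.totient : ℂ))‖ ≤
      ∑ u : (ZMod m)ˣ, ‖clA m α K u‖ * ‖clB m β L u - Bs β L m / (m.totient : ℂ)‖ :=
    (norm_sum_le _ _).trans (le_of_eq (sum_congr rfl fun u _ => norm_mul _ _))
  calc _ ≤ (∑ u : (ZMod m)ˣ, ‖clA m α K u‖ * ‖clB m β L u - Bs β L m / (m.totient : ℂ)‖) ^ 2 :=
        pow_le_pow_left₀ (norm_nonneg _) h1 2
    _ ≤ (∑ u : (ZMod m)ˣ, ‖clA m α K u‖ ^ 2) * ∑ u : (ZMod m)ˣ, ‖clB m β L u - Bs β L m / (m.totient : ℂ)‖ ^ 2 :=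
        sum_mul_sq_le_sq_mul_sq _ _ _
    _ ≤ _ := mul_le_mul_of_nonneg_right (sum_clA_sq m α K hα) (sum_nonneg fun u _ => by positivity)

end Pool.Agent.ZH.D
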