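import Pool.Agent.Work.ZH.D.Disp
import Pool.Agent.Work.ZH.Small

/-! # Module BoxNum: numerics of one box

`R = RR x`, `R ≥ 100` for large `x`. `x = R^1000000`, `L^5 ≥ R^2004900`, so `L ≥ R^400980`.
`D/K = (MUV)²/(M K) ≤ R^16 L/M ≤ R^181`, `MUV/K ≤ R^8`, `K^(1/4) L^(-5/8) ≤ (x²/L^5)^(1/8) ≤ R^(-612.5)`. -/

namespace Pool.Agent.ZH.D

open Finset

namespace BN

theorem large : ∃ x₀ : ℕ, ∀ x ≥ x₀, 100 ≤ RR x ∧ 100 ≤ x := by
  have hlim : Filter.Tendsto (fun x : ℝ => x ^ (1 / 1000000 : ℝ)) Filter.atTop Filter.atTop :=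
    tendsto_rpow_atTop (by norm_num)
  have hev := (hlim.comp tendsto_natCast_atTop_atTop).eventually_ge_atTop 100
  obtain ⟨x₀, hx₀⟩ := Filter.eventually_atTop.1 hev
  exact ⟨max x₀ 100, fun x hx => ⟨hx₀ x (le_trans (le_max_left _ _) hx),
    le_trans (le_max_right _ _) hx⟩⟩

section

variable {x K L M U V : ℕ} (h : Hyp x K L M U V) (hR : 100 ≤ RR x) (hx : 100 ≤ x)

include h hR

theorem R_pos : 0 < RR x := by linarith

theorem L_big : RR x ^ 400980 ≤ (L : ℝ) := by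
  have h1 := h.L5
  have h2 : (x : ℝ) ^ 2 * RR x ^ 4900 = (RR x ^ 400980) ^ 5 := by
    rw [← RR_pow x, ← pow_mul, ← pow_add, ← pow_mul]
  rw [h2] at h1
  exact le_of_pow_le_pow_left₀ (by norm_num) (Nat.cast_nonneg L) h1

theorem M_big : RR x ^ 400815 ≤ (M : ℝ) := by
  have h1 := L_big h hR
  have h2 := h.LM
  have h3 : 0 < RR x ^ 165 := by
    have := R_pos h hR
    positivity
  have h4 : RR x ^ 400980 = RR x ^ 400815 * RR x ^ 165 := by rw [← pow_add]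
  rw [h4] at h1
  exact le_of_mul_le_mul_right (h1.trans h2) h3

theorem one_le_pow_RR (k : ℕ) : 1 ≤ RR x ^ k := one_le_pow₀ (by linarith)

theorem M_le_L : (M : ℝ) ≤ L := by
  have h1 := h.ML
  have h2 := one_le_pow_RR h hR 10
  have h3 : (0 : ℝ) ≤ M := Nat.cast_nonneg M
  nlinarith

theorem D_le : ((M : ℝ) * U ^ 2 * V ^ 2) / K ≤ RR x ^ 181 := by
  have hL : 0 < (L : ℝ) := by exact_mod_cast h.pos.1
  have hK : 0 < (K : ℝ) := by exact_mod_cast lt_of_lt_of_le h.pos.1 h.LK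
  have hM : 0 < (M : ℝ) := by exact_mod_cast h.pos.2.1
  have hRp := R_pos h hR
  rw [div_le_iff₀ hK]
  have h1 := h.MUV
  push_cast at h1
  have h2 := h.LM
  have h3 : (M : ℝ) * ((M : ℝ) * U ^ 2 * V ^ 2) ≤ M * (RR x ^ 181 * K) := by
    calc (M : ℝ) * ((M : ℝ) * U ^ 2 * V ^ 2) = ((M : ℝ) * U * V) ^ 2 := by ring
      _ ≤ K * L * RR x ^ 16 := h1
      _ ≤ K * (M * RR x ^ 165) * RR x ^ 16 := by gcongr
      _ = M * (RR x ^ 181 * K) := by ring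
  exact le_of_mul_le_mul_left h3 hM

theorem MUV_le : (M : ℝ) * U * V ≤ K * RR x ^ 8 := by
  have hK : 0 < (K : ℝ) := by exact_mod_cast lt_of_lt_of_le h.pos.1 h.LK
  have hRp := R_pos h hR
  have h1 := h.MUV
  push_cast at h1
  have hLK : (L : ℝ) ≤ K := by exact_mod_cast h.LK
  have h2 : ((M : ℝ) * U * V) ^ 2 ≤ (K * RR x ^ 8) ^ 2 := by
    calc ((M : ℝ) * U * V) ^ 2 ≤ K * L * RR x ^ 16 := h1
      _ ≤ K * K * RR x ^ 16 := by gcongr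
      _ = _ := by ring
  exact le_of_sq_le_sq h2 (by positivity)

theorem KL_le : (K : ℝ) ^ 2 * RR x ^ 4900 ≤ (L : ℝ) ^ 3 := by
  have hL : 0 < (L : ℝ) := by exact_mod_cast h.pos.1
  have hRp := R_pos h hR
  have h1 : (K : ℝ) * L ≤ x := by exact_mod_cast h.KL
  have h2 := h.L5
  have h3 : (L : ℝ) ^ 2 * ((K : ℝ) ^ 2 * RR x ^ 4900) ≤ (L : ℝ) ^ 2 * (L : ℝ) ^ 3 := by
    calc (L : ℝ) ^ 2 * ((K : ℝ) ^ 2 * RR x ^ 4900) = (K * L) ^ 2 * RR x ^ 4900 := by ring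
      _ ≤ (x : ℝ) ^ 2 * RR x ^ 4900 := by gcongr
      _ ≤ (L : ℝ) ^ 5 := h2
      _ = (L : ℝ) ^ 2 * (L : ℝ) ^ 3 := by ring
  exact le_of_mul_le_mul_left h3 (by positivity)

/-- `K^(1/4) L^(-3/8) ≤ R^(-612)` -/
theorem KL_rpow : (K : ℝ) ^ (1 / 4 : ℝ) * (L : ℝ) ^ (-(3 / 8) : ℝ) ≤ RR x ^ (-612 : ℝ) := by
  have hL : 0 < (L : ℝ) := by exact_mod_cast h.pos.1
  have hK : 0 < (K : ℝ) := by exact_mod_cast lt_of_lt_of_le h.pos.1 h.LK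
  have hRp := R_pos h hR
  have h1 := KL_le h hR
  have h2 : (K : ℝ) ^ 2 * ((L : ℝ) ^ 3)⁻¹ ≤ (RR x ^ 4900)⁻¹ := by
    rw [← div_eq_mul_inv, div_le_iff₀ (by positivity), inv_mul_eq_div, le_div_iff₀ (by positivity)]
    exact h1
  have h3 : ((K : ℝ) ^ 2 * ((L : ℝ) ^ 3)⁻¹) ^ (1 / 8 : ℝ) ≤ ((RR x ^ 4900)⁻¹) ^ (1 / 8 : ℝ) :=
    Real.rpow_le_rpow (by positivity) h2 (by norm_num)
  have h4 : ((K : ℝ) ^ 2 * ((L : ℝ) ^ 3)⁻¹) ^ (1 / 8 : ℝ) =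
      (K : ℝ) ^ (1 / 4 : ℝ) * (L : ℝ) ^ (-(3 / 8) : ℝ) := by
    rw [Real.mul_rpow (by positivity) (by positivity), Real.inv_rpow (by positivity),
      ← Real.rpow_natCast, ← Real.rpow_natCast, ← Real.rpow_mul hK.le, ← Real.rpow_mul hL.le,
      ← Real.rpow_neg hL.le]
    norm_num
  have h5 : ((RR x ^ 4900)⁻¹) ^ (1 / 8 : ℝ) ≤ RR x ^ (-612 : ℝ) := by
    rw [Real.inv_rpow (by positivity), ← Real.rpow_natCast, ← Real.rpow_mul hRp.le,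
      ← Real.rpow_neg hRp.le]
    apply Real.rpow_le_rpow_of_exponent_le (by linarith)
    norm_num
  rw [← h4]
  exact h3.trans h5

end

end BN

open BN

theorem setup_num : ∃ x₀ : ℕ, ∀ x ≥ x₀, ∀ K L M U V : ℕ, Hyp x K L M U V →
    8 ≤ K ∧ 8 ≤ L ∧ M ≤ K ∧ M ≤ L ∧ 16 * V ^ 4 ≤ L ∧ L / V ^ 2 + 1 ≤ M ∧ 6 * K * L ≤ x ^ 4 ∧
      1024 * M * U ^ 2 * V ^ 4 ≤ x ^ 4 := by
  obtain ⟨x₀, hx₀⟩ := large
  refine ⟨x₀, fun x hx K L M U V h => ?_⟩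
  obtain ⟨hR, hx100⟩ := hx₀ x hx
  have hRp := R_pos h hR
  have hR1 : 1 ≤ RR x := by linarith
  have hLb := L_big h hR
  have hMb := M_big h hR
  have hpow : ∀ a b : ℕ, a ≤ b → RR x ^ a ≤ RR x ^ b := fun a b hab => pow_le_pow_right₀ hR1 hab
  have hL8 : 8 ≤ L := by
    have h1 : (8 : ℝ) ≤ L := by
      have h2 := hpow 1 400980 (by norm_num)
      rw [pow_one] at h2
      linarith
    exact_mod_cast h1
  have hML : M ≤ L := by exact_mod_cast M_le_L h hR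
  have hxR : RR x ^ 1000000 = (x : ℝ) := RR_pow x
  have hVp : 0 < (V : ℝ) := by exact_mod_cast h.pos.2.2.2
  have hUp : 0 < (U : ℝ) := by exact_mod_cast h.pos.2.2.1
  have hMp : 0 < (M : ℝ) := by exact_mod_cast h.pos.2.1
  have hLp : 0 < (L : ℝ) := by exact_mod_cast h.pos.1
  have hKp : 0 < (K : ℝ) := by exact_mod_cast lt_of_lt_of_le h.pos.1 h.LK
  refine ⟨hL8.trans h.LK, hL8, hML.trans h.LK, hML, ?_, ?_, ?_, ?_⟩
  · have h1 : 16 * (V : ℝ) ^ 4 ≤ L := by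
      calc 16 * (V : ℝ) ^ 4 ≤ RR x * (RR x ^ 151) ^ 4 := by
            have := h.V2
            gcongr
            linarith
        _ = RR x ^ 605 := by ring
        _ ≤ RR x ^ 400980 := hpow _ _ (by norm_num)
        _ ≤ L := hLb
    exact_mod_cast h1
  · have h1 : ((L / V ^ 2 : ℕ) : ℝ) ≤ (L : ℝ) / (V : ℝ) ^ 2 := by
      have := Nat.cast_div_le (α := ℝ) (m := L) (n := V ^ 2)
      push_cast at this
      exact this
    have h2 : (L : ℝ) / (V : ℝ) ^ 2 ≤ M / 2 := by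
      rw [div_le_iff₀ (by positivity)]
      have h3 := h.V1
      have h4 : RR x ^ 200 ≤ 4 * (V : ℝ) ^ 2 := by
        calc RR x ^ 200 = (RR x ^ 100) ^ 2 := by rw [← pow_mul]
          _ ≤ (2 * (V : ℝ)) ^ 2 := by gcongr
          _ = _ := by ring
      have h5 := h.LM
      have h6 : 8 * RR x ^ 165 ≤ RR x ^ 200 := by
        calc 8 * RR x ^ 165 ≤ RR x * RR x ^ 165 := by
              gcongr
              linarith
          _ = RR x ^ 166 := by ring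
          _ ≤ RR x ^ 200 := hpow _ _ (by norm_num)
      calc (L : ℝ) ≤ M * RR x ^ 165 := h5
        _ ≤ M * ((V : ℝ) ^ 2 / 2) := by
            gcongr
            linarith
        _ = M / 2 * (V : ℝ) ^ 2 := by ring
    have h3 : (1 : ℝ) ≤ M / 2 := by
      have h4 := hpow 1 400815 (by norm_num)
      rw [pow_one] at h4
      linarith
    have h4 : (((L / V ^ 2 + 1 : ℕ)) : ℝ) ≤ (M : ℝ) := by
      push_cast
      push_cast at h1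
      linarith
    exact_mod_cast h4
  · have h1 : 6 * K * L ≤ 6 * x := by
      have := h.KL
      nlinarith
    have h2 : 6 * x ≤ x ^ 4 := by
      have h3 : 6 ≤ x ^ 3 := le_trans (by norm_num) (Nat.pow_le_pow_left hx100 3)
      calc 6 * x ≤ x ^ 3 * x := Nat.mul_le_mul_right x h3
        _ = x ^ 4 := by ring
    exact h1.trans h2
  · have h1 : (1024 : ℝ) * M * U ^ 2 * V ^ 4 ≤ (x : ℝ) ^ 4 := by
      have h2 := D_le h hR
      rw [div_le_iff₀ hKp] at h2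
      have h3 : (V : ℝ) ^ 2 ≤ RR x ^ 302 := by
        calc (V : ℝ) ^ 2 ≤ (RR x ^ 151) ^ 2 := by
              have := h.V2
              gcongr
          _ = _ := by rw [← pow_mul]
      have hKx : (K : ℝ) ≤ x := by
        have h4 : (K : ℝ) * L ≤ x := by exact_mod_cast h.KL
        have h5 : (1 : ℝ) ≤ L := by exact_mod_cast h.pos.1
        nlinarith
      have hx0 : (0 : ℝ) < x := by linarith
      calc (1024 : ℝ) * M * U ^ 2 * V ^ 4 = 1024 * (M * U ^ 2 * V ^ 2) * V ^ 2 := by ring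
        _ ≤ (RR x * RR x) * (RR x ^ 181 * K) * RR x ^ 302 := by
            gcongr
            nlinarith
        _ ≤ (RR x * RR x) * (RR x ^ 181 * x) * RR x ^ 302 := by gcongr
        _ = RR x ^ 485 * x := by ring
        _ ≤ RR x ^ 3000000 * x := by
            gcongr
            norm_num
        _ = (x : ℝ) ^ 4 := by
            have : RR x ^ 3000000 = (x : ℝ) ^ 3 := by
              rw [← hxR, ← pow_mul]
            rw [this]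
            ring
    exact_mod_cast h1

theorem rho_le : ∃ x₀ : ℕ, ∀ x ≥ x₀, ∀ K L M U V : ℕ, Hyp x K L M U V →
    rho M U V K L (RR x ^ 100) ≤ 1 / RR x ^ 8 := by
  obtain ⟨x₀, hx₀⟩ := large
  refine ⟨x₀, fun x hx K L M U V h => ?_⟩
  obtain ⟨hR, hx100⟩ := hx₀ x hx
  have hRp := R_pos h hR
  have hR1 : 1 ≤ RR x := by linarith
  have hVp : 0 < (V : ℝ) := by exact_mod_cast h.pos.2.2.2
  have hUp : 0 < (U : ℝ) := by exact_mod_cast h.pos.2.2.1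
  have hMp : 0 < (M : ℝ) := by exact_mod_cast h.pos.2.1
  have hLp : 0 < (L : ℝ) := by exact_mod_cast h.pos.1
  have hKp : 0 < (K : ℝ) := by exact_mod_cast lt_of_lt_of_le h.pos.1 h.LK
  have hV1 : (1 : ℝ) ≤ V := by exact_mod_cast h.pos.2.2.2
  have hLK : (L : ℝ) ≤ K := by exact_mod_cast h.LK
  set R := RR x with hRdef
  have hD := D_le h hR
  have hMUV := MUV_le h hR
  have hKL := KL_rpow h hR
  rw [← hRdef] at hD hMUV hKL
  have hMUVK : (M * U * V : ℝ) / K ≤ R ^ 8 := by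
    rw [div_le_iff₀ hKp]
    linarith
  have hVr : (V : ℝ) ≤ R ^ (151 : ℝ) := by
    have := h.V2
    rw [← hRdef] at this
    exact_mod_cast this
  have hVlo : R ^ (100 : ℝ) ≤ 2 * V := by
    have := h.V1
    rw [← hRdef] at this
    exact_mod_cast this
  have hpw : ∀ (k : ℕ) (t : ℝ), (R ^ k) ^ t = R ^ ((k : ℝ) * t) := by
    intro k t
    rw [← Real.rpow_natCast, ← Real.rpow_mul hRp.le]
  have hmono : ∀ s t : ℝ, s ≤ t → R ^ s ≤ R ^ t := fun s t hst =>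
    Real.rpow_le_rpow_of_exponent_le hR1 hst
  have hVinv : (1 : ℝ) / V ≤ 2 * R ^ (-100 : ℝ) := by
    rw [Real.rpow_neg hRp.le, div_le_iff₀ hVp, mul_assoc, inv_mul_eq_div, ← mul_div_assoc,
      le_div_iff₀ (by positivity)]
    linarith
  -- the terms
  have t1 : 1 / R ^ 100 ≤ R ^ (-10 : ℝ) := by
    have h1 : 1 / R ^ 100 = R ^ (-100 : ℝ) := by
      rw [Real.rpow_neg hRp.le, one_div]
      congr 1
      exact_mod_cast rfl
    rw [h1]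
    exact hmono _ _ (by norm_num)
  have t2 : (M : ℝ) / L ≤ R ^ (-10 : ℝ) := by
    have h1 := h.ML
    rw [← hRdef] at h1
    rw [Real.rpow_neg hRp.le, div_le_iff₀ hLp, inv_mul_eq_div, le_div_iff₀ (by positivity)]
    exact_mod_cast h1
  have t3 : (M : ℝ) / K ≤ R ^ (-10 : ℝ) := by
    refine le_trans ?_ t2
    gcongr
  have t4 : ((M * U ^ 2 * V ^ 2 : ℝ) / K) ^ (1 / 2 : ℝ) / V ≤ 2 * R ^ (-9.5 : ℝ) := by
    have h1 : ((M * U ^ 2 * V ^ 2 : ℝ) / K) ^ (1 / 2 : ℝ) ≤ R ^ (90.5 : ℝ) := by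
      calc ((M * U ^ 2 * V ^ 2 : ℝ) / K) ^ (1 / 2 : ℝ) ≤ (R ^ 181) ^ (1 / 2 : ℝ) :=
            Real.rpow_le_rpow (by positivity) hD (by norm_num)
        _ = R ^ (90.5 : ℝ) := by
            rw [hpw]
            norm_num
    calc ((M * U ^ 2 * V ^ 2 : ℝ) / K) ^ (1 / 2 : ℝ) / V
        = ((M * U ^ 2 * V ^ 2 : ℝ) / K) ^ (1 / 2 : ℝ) * (1 / V) := by ring
      _ ≤ R ^ (90.5 : ℝ) * (2 * R ^ (-100 : ℝ)) := by gcongr
      _ = 2 * (R ^ (90.5 : ℝ) * R ^ (-100 : ℝ)) := by ring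
      _ = 2 * R ^ (-9.5 : ℝ) := by
          rw [← Real.rpow_add hRp]
          norm_num
  have hD0 : 0 ≤ (M * U ^ 2 * V ^ 2 : ℝ) / K := by positivity
  have hE0 : 0 ≤ (M * U * V : ℝ) / K := by positivity
  have t5 : ((M * U ^ 2 * V ^ 2 : ℝ) / K) ^ (9 / 8 : ℝ) * (V : ℝ) ^ (7 / 4 : ℝ) *
      (L : ℝ) ^ (-(3 / 8) : ℝ) * (M : ℝ) ^ (1 / 4 : ℝ) * (U : ℝ) ^ (1 / 2 : ℝ) ≤ R ^ (-10 : ℝ) := by
    have h1 : ((M * U ^ 2 * V ^ 2 : ℝ) / K) ^ (9 / 8 : ℝ) ≤ R ^ (204 : ℝ) := by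
      calc ((M * U ^ 2 * V ^ 2 : ℝ) / K) ^ (9 / 8 : ℝ) ≤ (R ^ 181) ^ (9 / 8 : ℝ) :=
            Real.rpow_le_rpow hD0 hD (by norm_num)
        _ = R ^ ((181 : ℕ) * (9 / 8) : ℝ) := hpw _ _
        _ ≤ R ^ (204 : ℝ) := hmono _ _ (by norm_num)
    have h2 : (V : ℝ) ^ (7 / 4 : ℝ) ≤ R ^ (265 : ℝ) := by
      calc (V : ℝ) ^ (7 / 4 : ℝ) ≤ (R ^ (151 : ℝ)) ^ (7 / 4 : ℝ) :=
            Real.rpow_le_rpow hVp.le hVr (by norm_num)
        _ = R ^ (151 * (7 / 4) : ℝ) := by rw [← Real.rpow_mul hRp.le]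
        _ ≤ R ^ (265 : ℝ) := hmono _ _ (by norm_num)
    have h3 : (M : ℝ) ^ (1 / 4 : ℝ) * (U : ℝ) ^ (1 / 2 : ℝ) ≤ R ^ (46 : ℝ) * (K : ℝ) ^ (1 / 4 : ℝ) := by
      have e1 : (M : ℝ) * U ^ 2 ≤ R ^ 181 * K := by
        rw [div_le_iff₀ hKp] at hD
        have e2 : (M : ℝ) * U ^ 2 * 1 ≤ M * U ^ 2 * V ^ 2 := by
          have : (1 : ℝ) ≤ (V : ℝ) ^ 2 := one_le_pow₀ hV1
          gcongr
        linarith
      have e3 : (M : ℝ) ^ (1 / 4 : ℝ) * (U : ℝ) ^ (1 / 2 : ℝ) = ((M : ℝ) * U ^ 2) ^ (1 / 4 : ℝ) := by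
        rw [Real.mul_rpow hMp.le (by positivity), ← Real.rpow_natCast (U : ℝ) 2,
          ← Real.rpow_mul hUp.le]
        norm_num
      rw [e3]
      calc ((M : ℝ) * U ^ 2) ^ (1 / 4 : ℝ) ≤ (R ^ 181 * K) ^ (1 / 4 : ℝ) :=
            Real.rpow_le_rpow (by positivity) e1 (by norm_num)
        _ = R ^ ((181 : ℕ) * (1 / 4) : ℝ) * (K : ℝ) ^ (1 / 4 : ℝ) := by
            rw [Real.mul_rpow (by positivity) hKp.le, hpw]
        _ ≤ R ^ (46 : ℝ) * (K : ℝ) ^ (1 / 4 : ℝ) := by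
            have := hmono ((181 : ℕ) * (1 / 4) : ℝ) 46 (by norm_num)
            gcongr
    calc ((M * U ^ 2 * V ^ 2 : ℝ) / K) ^ (9 / 8 : ℝ) * (V : ℝ) ^ (7 / 4 : ℝ) *
          (L : ℝ) ^ (-(3 / 8) : ℝ) * (M : ℝ) ^ (1 / 4 : ℝ) * (U : ℝ) ^ (1 / 2 : ℝ)
        = ((M * U ^ 2 * V ^ 2 : ℝ) / K) ^ (9 / 8 : ℝ) * (V : ℝ) ^ (7 / 4 : ℝ) *
          (L : ℝ) ^ (-(3 / 8) : ℝ) * ((M : ℝ) ^ (1 / 4 : ℝ) * (U : ℝ) ^ (1 / 2 : ℝ)) := by ring
      _ ≤ R ^ (204 : ℝ) * R ^ (265 : ℝ) * (L : ℝ) ^ (-(3 / 8) : ℝ) *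
          (R ^ (46 : ℝ) * (K : ℝ) ^ (1 / 4 : ℝ)) := by gcongr
      _ = R ^ (204 : ℝ) * R ^ (265 : ℝ) * R ^ (46 : ℝ) *
          ((K : ℝ) ^ (1 / 4 : ℝ) * (L : ℝ) ^ (-(3 / 8) : ℝ)) := by ring
      _ ≤ R ^ (204 : ℝ) * R ^ (265 : ℝ) * R ^ (46 : ℝ) * R ^ (-612 : ℝ) := by gcongr
      _ = R ^ (204 + 265 + 46 + -612 : ℝ) := by
          rw [Real.rpow_add hRp, Real.rpow_add hRp, Real.rpow_add hRp]
      _ ≤ R ^ (-10 : ℝ) := hmono _ _ (by norm_num)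
  have t6 : ((M * U * V : ℝ) / K) ^ (1 / 2 : ℝ) / (V : ℝ) ^ (1 / 2 : ℝ) ≤ 2 * R ^ (-10 : ℝ) := by
    have h1 : ((M * U * V : ℝ) / K) ^ (1 / 2 : ℝ) ≤ R ^ (4 : ℝ) := by
      calc ((M * U * V : ℝ) / K) ^ (1 / 2 : ℝ) ≤ (R ^ 8) ^ (1 / 2 : ℝ) :=
            Real.rpow_le_rpow hE0 hMUVK (by norm_num)
        _ = R ^ (4 : ℝ) := by
            rw [hpw]
            norm_num
    have h2 : ((1 : ℝ) / V) ^ (1 / 2 : ℝ) ≤ 2 * R ^ (-50 : ℝ) := by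
      calc ((1 : ℝ) / V) ^ (1 / 2 : ℝ) ≤ (2 * R ^ (-100 : ℝ)) ^ (1 / 2 : ℝ) :=
            Real.rpow_le_rpow (by positivity) hVinv (by norm_num)
        _ = (2 : ℝ) ^ (1 / 2 : ℝ) * R ^ (-100 * (1 / 2) : ℝ) := by
            rw [Real.mul_rpow (by norm_num) (by positivity), ← Real.rpow_mul hRp.le]
        _ ≤ 2 * R ^ (-50 : ℝ) := by
            have e1 : (2 : ℝ) ^ (1 / 2 : ℝ) ≤ 2 := by
              calc (2 : ℝ) ^ (1 / 2 : ℝ) ≤ (2 : ℝ) ^ (1 : ℝ) :=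
                    Real.rpow_le_rpow_of_exponent_le (by norm_num) (by norm_num)
                _ = 2 := by norm_num
            have e2 : (-100 * (1 / 2) : ℝ) = -50 := by norm_num
            rw [e2]
            gcongr
    have h3 : ((M * U * V : ℝ) / K) ^ (1 / 2 : ℝ) / (V : ℝ) ^ (1 / 2 : ℝ) =
        ((M * U * V : ℝ) / K) ^ (1 / 2 : ℝ) * ((1 : ℝ) / V) ^ (1 / 2 : ℝ) := by
      rw [Real.div_rpow (by norm_num) hVp.le, Real.one_rpow]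
      ring
    rw [h3]
    calc ((M * U * V : ℝ) / K) ^ (1 / 2 : ℝ) * ((1 : ℝ) / V) ^ (1 / 2 : ℝ)
        ≤ R ^ (4 : ℝ) * (2 * R ^ (-50 : ℝ)) := by gcongr
      _ = 2 * R ^ (4 + -50 : ℝ) := by
          rw [Real.rpow_add hRp]
          ring
      _ ≤ 2 * R ^ (-10 : ℝ) := by
          have := hmono (4 + -50 : ℝ) (-10) (by norm_num)
          linarith
  have t7 : ((M * U * V : ℝ) / K) ^ (9 / 8 : ℝ) * (V : ℝ) ^ (7 / 8 : ℝ) *
      (L : ℝ) ^ (-(3 / 8) : ℝ) * ((M : ℝ) * U) ^ (1 / 4 : ℝ) ≤ R ^ (-10 : ℝ) := by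
    have h1 : ((M * U * V : ℝ) / K) ^ (9 / 8 : ℝ) ≤ R ^ (9 : ℝ) := by
      calc ((M * U * V : ℝ) / K) ^ (9 / 8 : ℝ) ≤ (R ^ 8) ^ (9 / 8 : ℝ) :=
            Real.rpow_le_rpow hE0 hMUVK (by norm_num)
        _ = R ^ (9 : ℝ) := by
            rw [hpw]
            norm_num
    have h2 : (V : ℝ) ^ (7 / 8 : ℝ) ≤ R ^ (133 : ℝ) := by
      calc (V : ℝ) ^ (7 / 8 : ℝ) ≤ (R ^ (151 : ℝ)) ^ (7 / 8 : ℝ) :=
            Real.rpow_le_rpow hVp.le hVr (by norm_num)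
        _ = R ^ (151 * (7 / 8) : ℝ) := by rw [← Real.rpow_mul hRp.le]
        _ ≤ R ^ (133 : ℝ) := hmono _ _ (by norm_num)
    have h3 : ((M : ℝ) * U) ^ (1 / 4 : ℝ) ≤ R ^ (2 : ℝ) * (K : ℝ) ^ (1 / 4 : ℝ) := by
      have e1 : (M : ℝ) * U ≤ R ^ 8 * K := by
        have e2 : (M : ℝ) * U * 1 ≤ M * U * V := by gcongr
        linarith
      calc ((M : ℝ) * U) ^ (1 / 4 : ℝ) ≤ (R ^ 8 * K) ^ (1 / 4 : ℝ) :=
            Real.rpow_le_rpow (by positivity) e1 (by norm_num)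
        _ = R ^ (2 : ℝ) * (K : ℝ) ^ (1 / 4 : ℝ) := by
            rw [Real.mul_rpow (by positivity) hKp.le, hpw]
            norm_num
    calc ((M * U * V : ℝ) / K) ^ (9 / 8 : ℝ) * (V : ℝ) ^ (7 / 8 : ℝ) *
          (L : ℝ) ^ (-(3 / 8) : ℝ) * ((M : ℝ) * U) ^ (1 / 4 : ℝ)
        ≤ R ^ (9 : ℝ) * R ^ (133 : ℝ) * (L : ℝ) ^ (-(3 / 8) : ℝ) *
          (R ^ (2 : ℝ) * (K : ℝ) ^ (1 / 4 : ℝ)) := by gcongr
      _ = R ^ (9 : ℝ) * R ^ (133 : ℝ) * R ^ (2 : ℝ) *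
          ((K : ℝ) ^ (1 / 4 : ℝ) * (L : ℝ) ^ (-(3 / 8) : ℝ)) := by ring
      _ ≤ R ^ (9 : ℝ) * R ^ (133 : ℝ) * R ^ (2 : ℝ) * R ^ (-612 : ℝ) := by gcongr
      _ = R ^ (9 + 133 + 2 + -612 : ℝ) := by
          rw [Real.rpow_add hRp, Real.rpow_add hRp, Real.rpow_add hRp]
      _ ≤ R ^ (-10 : ℝ) := hmono _ _ (by norm_num)
  -- the sum
  have hs : R ^ (-10 : ℝ) ≤ 1 / 100 * R ^ (-9 : ℝ) := by
    have h1 : R ^ (-10 : ℝ) = R ^ (-1 : ℝ) * R ^ (-9 : ℝ) := by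
      rw [← Real.rpow_add hRp]
      norm_num
    have h2 : R ^ (-1 : ℝ) ≤ 1 / 100 := by
      rw [Real.rpow_neg_one, one_div]
      exact inv_anti₀ (by norm_num) hR
    rw [h1]
    gcongr
  have hs2 : R ^ (-9.5 : ℝ) ≤ R ^ (-9 : ℝ) := hmono _ _ (by norm_num)
  have hs3 : R ^ (-9 : ℝ) ≤ 1 / 100 * R ^ (-8 : ℝ) := by
    have h1 : R ^ (-9 : ℝ) = R ^ (-1 : ℝ) * R ^ (-8 : ℝ) := by
      rw [← Real.rpow_add hRp]
      norm_num
    have h2 : R ^ (-1 : ℝ) ≤ 1 / 100 := by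
      rw [Real.rpow_neg_one, one_div]
      exact inv_anti₀ (by norm_num) hR
    rw [h1]
    gcongr
  have hend : 1 / R ^ 8 = R ^ (-8 : ℝ) := by
    rw [Real.rpow_neg hRp.le, one_div]
    congr 1
    exact_mod_cast rfl
  have h80 : 0 < R ^ (-8 : ℝ) := by positivity
  have h90 : 0 < R ^ (-9 : ℝ) := by positivity
  unfold rho
  rw [hend]
  linarith

end Pool.Agent.ZH.D
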