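import Mathlib

/-! # Cell ZH, dispersion part: definitions

`tri N k₀ k` = triangular weight, `kph R A t` = Kloosterman phase `e(A t⁻¹ / R)` (zero at non-units),
`energy F` = additive energy of a function on `ZMod R`. -/

namespace Pool.Agent.ZH.D

open Finset

noncomputable section

/-- `e(t) = exp (2 π i t)` -/
def e (t : ℝ) : ℂ := Complex.exp (2 * Real.pi * t * Complex.I)

/-- Triangular weight: the number of `(a, b)` in `[0, N)²` with `k₀ + a + b = k`, divided by `N`. -/
def tri (N k₀ k : ℕ) : ℝ :=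
  (((range N ×ˢ range N).filter (fun p => k₀ + p.1 + p.2 = k)).card : ℝ) / N

/-- Kloosterman phase modulo `R`: `e(A t⁻¹ / R)` at units `t`, `0` at non-units. -/
def kph (R : ℕ) [NeZero R] (A t : ZMod R) : ℂ :=
  open Classical in if IsUnit t then ZMod.stdAddChar (A * t⁻¹) else 0

/-- Additive energy. -/
def energy {R : ℕ} [NeZero R] (F : ZMod R → ℂ) : ℝ :=
  ∑ r : ZMod R, ‖∑ t : ZMod R, F (t + r) * (starRingEnd ℂ) (F t)‖ ^ 2

/-- number of divisors, real valued -/
def tau (n : ℕ) : ℝ := (n.divisors.card : ℝ)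

end

end Pool.Agent.ZH.D
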