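import Pool.Agent.Work.ZH.D.Defs

/-! # Module DiagCount: the number of pairs with `h' w = h w'`

`n = h' w = h w'` is a nonzero integer with `|n| ≤ Y * max w`; for given `n` the number of
`(h', v₁, v₂)` with `h' v₁ v₂ = n` is at most `τ(|n|)^2`. -/

namespace Pool.Agent.ZH.D

open Finset

namespace DiagCount

/-- nonzero integers up to `N` -/
noncomputable def nz (N : ℕ) : Finset ℤ := (Icc (-(N : ℤ)) N).filter (fun n => n ≠ 0)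

theorem card_nz (N : ℕ) : (nz N).card ≤ 2 * N := by
  have h1 : nz N = (Icc (-(N : ℤ)) N).erase 0 := by
    ext n
    unfold nz
    rw [Finset.mem_filter, Finset.mem_erase]
    exact and_comm
  have h2 : (0 : ℤ) ∈ Icc (-(N : ℤ)) N := by
    rw [Finset.mem_Icc]
    omega
  rw [h1, Finset.card_erase_of_mem h2, Int.card_Icc]
  omega

theorem sum_nz_le (X : ℕ) (T Z : ℝ) (hT : ∀ n : ℕ, 0 < n → n ≤ X → tau n ≤ T) (hZ0 : 0 ≤ Z)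
    (hX : Z ≤ X) (k : ℕ) :
    ((∑ n ∈ nz ⌊Z⌋₊, (n.natAbs.divisors.card) ^ k : ℕ) : ℝ) ≤ 2 * Z * T ^ k := by
  push_cast
  have h1 : ∀ n ∈ nz ⌊Z⌋₊, ((n.natAbs.divisors.card : ℝ)) ^ k ≤ T ^ k := by
    intro n hn
    unfold nz at hn
    rw [Finset.mem_filter, Finset.mem_Icc] at hn
    have h2 : 0 < n.natAbs := Int.natAbs_pos.2 hn.2
    have h3 : n.natAbs ≤ ⌊Z⌋₊ := by omega
    have h4 : n.natAbs ≤ X := by
      have h5 : ((⌊Z⌋₊ : ℕ) : ℝ) ≤ X := (Nat.floor_le hZ0).trans hX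
      exact h3.trans (by exact_mod_cast h5)
    have h5 := hT n.natAbs h2 h4
    unfold tau at h5
    gcongr
  have hT0 : 0 ≤ T ^ k ∨ nz ⌊Z⌋₊ = ∅ := by
    rcases (nz ⌊Z⌋₊).eq_empty_or_nonempty with h | ⟨n, hn⟩
    · exact Or.inr h
    · exact Or.inl (le_trans (by positivity) (h1 n hn))
  have hc : ((nz ⌊Z⌋₊).card : ℝ) ≤ 2 * Z := by
    have h2 := card_nz ⌊Z⌋₊
    have h3 : ((nz ⌊Z⌋₊).card : ℝ) ≤ 2 * (⌊Z⌋₊ : ℝ) := by exact_mod_cast h2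
    have h4 := Nat.floor_le hZ0
    linarith
  rcases hT0 with h2 | h2
  · calc ∑ n ∈ nz ⌊Z⌋₊, ((n.natAbs.divisors.card : ℝ)) ^ k ≤ ∑ n ∈ nz ⌊Z⌋₊, T ^ k :=
          Finset.sum_le_sum h1
      _ = (nz ⌊Z⌋₊).card * T ^ k := by rw [Finset.sum_const, nsmul_eq_mul]
      _ ≤ _ := by gcongr
  · rcases Nat.eq_zero_or_pos ⌊Z⌋₊ with h3 | h3
    · rw [h2, Finset.sum_empty]
      -- `Z < 1`; the right side may have any sign only if `T < 0`, but then use `nz = ∅`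
      by_cases hZ1 : Z = 0
      · rw [hZ1]; simp
      · by_contra hneg
        push Not at hneg
        have hZpos : 0 < Z := lt_of_le_of_ne hZ0 (Ne.symm hZ1)
        have hX1 : 1 ≤ X := by
          by_contra hX0
          have : X = 0 := by omega
          rw [this] at hX
          simp only [Nat.cast_zero] at hX
          linarith
        have hT1 := hT 1 one_pos hX1
        have : 0 ≤ T := le_trans (by unfold tau; positivity) hT1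
        have : 0 ≤ 2 * Z * T ^ k := by positivity
        linarith
    · exfalso
      have : (1 : ℤ) ∈ nz ⌊Z⌋₊ := by
        unfold nz
        rw [Finset.mem_filter, Finset.mem_Icc]
        omega
      rw [h2] at this
      simp at this

theorem mem_nz_of {Z : ℝ} (hZ0 : 0 ≤ Z) {n : ℤ} (h0 : n ≠ 0) (h : |(n : ℝ)| ≤ Z) : n ∈ nz ⌊Z⌋₊ := by
  have h4 : |(n : ℝ)| = (n.natAbs : ℝ) := by
    rw [← Int.cast_abs, Int.abs_eq_natAbs, Int.cast_natCast]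
  rw [h4] at h
  have h5 : n.natAbs ≤ ⌊Z⌋₊ := Nat.le_floor h
  unfold nz
  rw [Finset.mem_filter, Finset.mem_Icc]
  omega

theorem mem_div {n : ℤ} (h0 : n ≠ 0) {v : ℕ} (h : (v : ℤ) ∣ n) : v ∈ n.natAbs.divisors := by
  rw [Nat.mem_divisors]
  exact ⟨Int.natCast_dvd.1 h, Int.natAbs_ne_zero.2 h0⟩

end DiagCount

open DiagCount

theorem diag3 (V X : ℕ) (T Y : ℝ) (J : Finset ℤ) (hV : 1 ≤ V) (hY : 1 ≤ Y)
    (hT : ∀ n : ℕ, 0 < n → n ≤ X → tau n ≤ T) (hJ : ∀ h ∈ J, h ≠ 0 ∧ |(h : ℝ)| ≤ Y)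
    (hX : 4 * Y * (V : ℝ) ^ 2 ≤ X) :
    ((((((Ico V (2 * V)) ×ˢ (Ico V (2 * V))) ×ˢ J) ×ˢ (((Ico V (2 * V)) ×ˢ (Ico V (2 * V))) ×ˢ J)).filter
      (fun p : ((ℕ × ℕ) × ℤ) × ((ℕ × ℕ) × ℤ) =>
        p.2.2 * ((p.1.1.1 * p.1.1.2 : ℕ) : ℤ) = p.1.2 * ((p.2.1.1 * p.2.1.2 : ℕ) : ℤ))).card : ℝ) ≤
      8 * Y * (V : ℝ) ^ 2 * T ^ 4 := by
  have hZ0 : 0 ≤ 4 * Y * (V : ℝ) ^ 2 := by positivity
  set Z := 4 * Y * (V : ℝ) ^ 2 with hZ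
  have hsum := sum_nz_le X T Z hT hZ0 hX 4
  have e1 : 2 * Z * T ^ 4 = 8 * Y * (V : ℝ) ^ 2 * T ^ 4 := by rw [hZ]; ring
  rw [← e1]
  refine le_trans ?_ hsum
  have e2 : ∑ n ∈ nz ⌊Z⌋₊, (n.natAbs.divisors.card) ^ 4 =
      ((nz ⌊Z⌋₊).sigma (fun n => (n.natAbs.divisors ×ˢ n.natAbs.divisors) ×ˢ
        (n.natAbs.divisors ×ˢ n.natAbs.divisors))).card := by
    rw [Finset.card_sigma]
    refine Finset.sum_congr rfl fun n _ => ?_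
    rw [Finset.card_product, Finset.card_product]
    ring
  rw [e2]
  have key : ∀ v₁ v₂ : ℕ, V ≤ v₁ → v₁ < 2 * V → V ≤ v₂ → v₂ < 2 * V → ∀ h : ℤ, h ∈ J →
      h * ((v₁ * v₂ : ℕ) : ℤ) ≠ 0 ∧ |((h * ((v₁ * v₂ : ℕ) : ℤ) : ℤ) : ℝ)| ≤ Z := by
    intro v₁ v₂ h1 h2 h3 h4 h hh
    obtain ⟨h5, h6⟩ := hJ h hh
    have h7 : v₁ * v₂ ≠ 0 := Nat.mul_ne_zero (by omega) (by omega)
    refine ⟨mul_ne_zero h5 (by exact_mod_cast h7), ?_⟩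
    push_cast
    rw [abs_mul, abs_of_nonneg (show (0 : ℝ) ≤ (v₁ : ℝ) * v₂ by positivity)]
    have h8 : (v₁ : ℝ) ≤ 2 * V := by exact_mod_cast h2.le
    have h9 : (v₂ : ℝ) ≤ 2 * V := by exact_mod_cast h4.le
    calc |(h : ℝ)| * ((v₁ : ℝ) * v₂) ≤ Y * ((2 * V) * (2 * V)) := by gcongr
      _ = Z := by rw [hZ]; ring
  have hcard := Finset.card_le_card_of_injOn
    (s := ((((Ico V (2 * V)) ×ˢ (Ico V (2 * V))) ×ˢ J) ×ˢ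
      (((Ico V (2 * V)) ×ˢ (Ico V (2 * V))) ×ˢ J)).filter
      (fun p : ((ℕ × ℕ) × ℤ) × ((ℕ × ℕ) × ℤ) =>
        p.2.2 * ((p.1.1.1 * p.1.1.2 : ℕ) : ℤ) = p.1.2 * ((p.2.1.1 * p.2.1.2 : ℕ) : ℤ)))
    (t := (nz ⌊Z⌋₊).sigma (fun n => (n.natAbs.divisors ×ˢ n.natAbs.divisors) ×ˢ
        (n.natAbs.divisors ×ˢ n.natAbs.divisors)))
    (fun p => (⟨p.2.2 * ((p.1.1.1 * p.1.1.2 : ℕ) : ℤ),
      ((p.1.1.1, p.1.1.2), (p.2.1.1, p.2.1.2))⟩ : Σ _ : ℤ, (ℕ × ℕ) × (ℕ × ℕ)))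
    (by
      rintro ⟨⟨⟨v₁, v₂⟩, h⟩, ⟨⟨v₃, v₄⟩, h'⟩⟩ hp
      simp only [Finset.coe_filter, Finset.mem_product, Finset.mem_Ico, Set.mem_ofPred_eq] at hp
      obtain ⟨⟨⟨⟨a1, a2⟩, a3⟩, ⟨⟨a4, a5⟩, a6⟩⟩, a7⟩ := hp
      obtain ⟨k1, k2⟩ := key v₁ v₂ a1.1 a1.2 a2.1 a2.2 h' a6
      have d1 : ((v₁ : ℕ) : ℤ) ∣ h' * ((v₁ * v₂ : ℕ) : ℤ) := ⟨h' * v₂, by push_cast; ring⟩
      have d2 : ((v₂ : ℕ) : ℤ) ∣ h' * ((v₁ * v₂ : ℕ) : ℤ) := ⟨h' * v₁, by push_cast; ring⟩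
      have d3 : ((v₃ : ℕ) : ℤ) ∣ h' * ((v₁ * v₂ : ℕ) : ℤ) := by
        rw [a7]; exact ⟨h * v₄, by push_cast; ring⟩
      have d4 : ((v₄ : ℕ) : ℤ) ∣ h' * ((v₁ * v₂ : ℕ) : ℤ) := by
        rw [a7]; exact ⟨h * v₃, by push_cast; ring⟩
      simp only [Finset.coe_sigma, Set.mem_sigma_iff, Finset.mem_coe, Finset.mem_product]
      exact ⟨mem_nz_of hZ0 k1 k2, ⟨mem_div k1 d1, mem_div k1 d2⟩, mem_div k1 d3, mem_div k1 d4⟩)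
    (by
      rintro ⟨⟨⟨v₁, v₂⟩, h⟩, ⟨⟨v₃, v₄⟩, h'⟩⟩ hp ⟨⟨⟨w₁, w₂⟩, k⟩, ⟨⟨w₃, w₄⟩, k'⟩⟩ hq heq
      simp only [Finset.coe_filter, Finset.mem_product, Finset.mem_Ico, Set.mem_ofPred_eq] at hp hq
      simp only [Sigma.mk.injEq, heq_eq_eq, Prod.mk.injEq] at heq
      obtain ⟨e0, ⟨rfl, rfl⟩, rfl, rfl⟩ := heq
      obtain ⟨⟨⟨⟨a1, a2⟩, a3⟩, ⟨⟨a4, a5⟩, a6⟩⟩, a7⟩ := hp
      have b7 := hq.2
      have n12 : ((v₁ * v₂ : ℕ) : ℤ) ≠ 0 := by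
        exact_mod_cast Nat.mul_ne_zero (by omega) (by omega)
      have n34 : ((v₃ * v₄ : ℕ) : ℤ) ≠ 0 := by
        exact_mod_cast Nat.mul_ne_zero (by omega) (by omega)
      have e3 : h' = k' := mul_right_cancel₀ n12 e0
      have e4 : h = k := by
        apply mul_right_cancel₀ n34
        rw [← a7, ← b7, e0]
      rw [e3, e4])
  exact_mod_cast hcard

theorem diag2 (V X : ℕ) (T Y : ℝ) (J : Finset ℤ) (hV : 1 ≤ V) (hY : 1 ≤ Y)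
    (hT : ∀ n : ℕ, 0 < n → n ≤ X → tau n ≤ T) (hJ : ∀ h ∈ J, h ≠ 0 ∧ |(h : ℝ)| ≤ Y)
    (hX : 2 * Y * (V : ℝ) ≤ X) :
    ((((Ico V (2 * V)) ×ˢ J) ×ˢ ((Ico V (2 * V)) ×ˢ J)).filter
      (fun p : (ℕ × ℤ) × (ℕ × ℤ) => p.2.2 * (p.1.1 : ℤ) = p.1.2 * (p.2.1 : ℤ))).card ≤
      4 * Y * (V : ℝ) * T ^ 2 := by
  have hZ0 : 0 ≤ 2 * Y * (V : ℝ) := by positivity
  set Z := 2 * Y * (V : ℝ) with hZ
  have hsum := sum_nz_le X T Z hT hZ0 hX 2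
  have e1 : 2 * Z * T ^ 2 = 4 * Y * (V : ℝ) * T ^ 2 := by rw [hZ]; ring
  rw [← e1]
  refine le_trans ?_ hsum
  have e2 : ∑ n ∈ nz ⌊Z⌋₊, (n.natAbs.divisors.card) ^ 2 =
      ((nz ⌊Z⌋₊).sigma (fun n => n.natAbs.divisors ×ˢ n.natAbs.divisors)).card := by
    rw [Finset.card_sigma]
    refine Finset.sum_congr rfl fun n _ => ?_
    rw [Finset.card_product]
    ring
  rw [e2]
  have key : ∀ v₁ : ℕ, V ≤ v₁ → v₁ < 2 * V → ∀ h : ℤ, h ∈ J →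
      h * (v₁ : ℤ) ≠ 0 ∧ |((h * (v₁ : ℤ) : ℤ) : ℝ)| ≤ Z := by
    intro v₁ h1 h2 h hh
    obtain ⟨h5, h6⟩ := hJ h hh
    have h7 : v₁ ≠ 0 := by omega
    refine ⟨mul_ne_zero h5 (by exact_mod_cast h7), ?_⟩
    push_cast
    rw [abs_mul, abs_of_nonneg (show (0 : ℝ) ≤ (v₁ : ℝ) by positivity)]
    have h8 : (v₁ : ℝ) ≤ 2 * V := by exact_mod_cast h2.le
    calc |(h : ℝ)| * (v₁ : ℝ) ≤ Y * (2 * V) := by gcongr
      _ = Z := by rw [hZ]; ring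
  have hcard := Finset.card_le_card_of_injOn
    (s := (((Ico V (2 * V)) ×ˢ J) ×ˢ ((Ico V (2 * V)) ×ˢ J)).filter
      (fun p : (ℕ × ℤ) × (ℕ × ℤ) => p.2.2 * (p.1.1 : ℤ) = p.1.2 * (p.2.1 : ℤ)))
    (t := (nz ⌊Z⌋₊).sigma (fun n => n.natAbs.divisors ×ˢ n.natAbs.divisors))
    (fun p => (⟨p.2.2 * (p.1.1 : ℤ), (p.1.1, p.2.1)⟩ : Σ _ : ℤ, ℕ × ℕ))
    (by
      rintro ⟨⟨v₁, h⟩, ⟨v₃, h'⟩⟩ hp
      simp only [Finset.coe_filter, Finset.mem_product, Finset.mem_Ico, Set.mem_ofPred_eq] at hp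
      obtain ⟨⟨⟨a1, a3⟩, ⟨a4, a6⟩⟩, a7⟩ := hp
      obtain ⟨k1, k2⟩ := key v₁ a1.1 a1.2 h' a6
      have d1 : ((v₁ : ℕ) : ℤ) ∣ h' * (v₁ : ℤ) := ⟨h', by ring⟩
      have d3 : ((v₃ : ℕ) : ℤ) ∣ h' * (v₁ : ℤ) := by
        rw [a7]; exact ⟨h, by ring⟩
      simp only [Finset.coe_sigma, Set.mem_sigma_iff, Finset.mem_coe, Finset.mem_product]
      exact ⟨mem_nz_of hZ0 k1 k2, mem_div k1 d1, mem_div k1 d3⟩)
    (by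
      rintro ⟨⟨v₁, h⟩, ⟨v₃, h'⟩⟩ hp ⟨⟨w₁, k⟩, ⟨w₃, k'⟩⟩ hq heq
      simp only [Finset.coe_filter, Finset.mem_product, Finset.mem_Ico, Set.mem_ofPred_eq] at hp hq
      simp only [Sigma.mk.injEq, heq_eq_eq, Prod.mk.injEq] at heq
      obtain ⟨e0, rfl, rfl⟩ := heq
      obtain ⟨⟨⟨a1, a3⟩, ⟨a4, a6⟩⟩, a7⟩ := hp
      have b7 := hq.2
      have n12 : ((v₁ : ℕ) : ℤ) ≠ 0 := by
        exact_mod_cast (show v₁ ≠ 0 by omega)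
      have n34 : ((v₃ : ℕ) : ℤ) ≠ 0 := by
        exact_mod_cast (show v₃ ≠ 0 by omega)
      have e3 : h' = k' := mul_right_cancel₀ n12 e0
      have e4 : h = k := by
        apply mul_right_cancel₀ n34
        rw [← a7, ← b7, e0]
      rw [e3, e4])
  exact_mod_cast hcard

end Pool.Agent.ZH.D
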