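import Pool.Agent.Work.ZH.D.Setup
import Pool.Agent.Work.ZH.D.Fejer
import Pool.Agent.Work.ZH.D.Count

/-! # Module Rest: the remaining terms for good tuples

For good tuples, with `n₁ = u₁ v₁`, `n₂ = u₂ v₂`, `φᵢ = φ(nᵢ)`:
`rest = (mu - K/(m n₁ φ₂)) - K/(m n₂ φ₁) + A22 + (B1/φ₂ - A12) + (B1'/φ₁ - A21)`, where
`B1/φ₂ - A12 = (1/φ₂) ∑_{k l ≡ 1 (m n₁), (k, n₂) > 1} wt ≥ 0` (count: `(k,l)`, `T^3` triples `(m,u₁,v₁)`,
`∑_{(u₂,v₂) : (k,n₂)>1} 1/φ₂ ≤ 6 T²/z`, `l'`: `≤ 2L/M`), and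
`A22 = (1/(φ₁ φ₂)) ∑_{k l ≡ 1 (m), (k, n₁ n₂) = 1} wt`, `|∑_{k l ≡ 1 (m)} wt - K/m| ≤ M/K` (`fejer`);
`0 ≤ 1/φ(n) - 1/n ≤ τ(n)^2/(z n)` for `n` with all prime factors `≥ z`. -/

namespace Pool.Agent.ZH.D

open Finset

/-! ### the weight in a residue class -/

theorem sum_inv_sq_nat : ∀ m : ℕ, ∑ j ∈ Icc 1 (m + 1), 1 / (j : ℝ) ^ 2 ≤ 2 - 1 / ((m : ℝ) + 1) := by
  intro m
  induction m with
  | zero => norm_num
  | succ m ih =>
    rw [Finset.sum_Icc_succ_top (by omega)]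
    have h : 1 / (((m + 1 + 1 : ℕ) : ℝ)) ^ 2 ≤ 1 / ((m : ℝ) + 1) - 1 / ((m : ℝ) + 1 + 1) := by
      have h1 : (0 : ℝ) < (m : ℝ) + 1 := by positivity
      have h2 : (0 : ℝ) < (m : ℝ) + 1 + 1 := by positivity
      rw [div_sub_div _ _ h1.ne' h2.ne', div_le_div_iff₀ (by positivity) (by positivity)]
      push_cast
      nlinarith
    push_cast at h ih ⊢
    linarith

theorem sum_inv_sq_int (m : ℕ) :
    ∑ h ∈ (Icc (-(m : ℤ)) m).filter (fun h => h ≠ 0), 1 / (h : ℝ) ^ 2 ≤ 4 := by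
  classical
  have h1 : ∑ j ∈ Icc 1 m, 1 / (j : ℝ) ^ 2 ≤ 2 := by
    rcases m with _ | m
    · simp
    · have := sum_inv_sq_nat m
      have h2 : (0 : ℝ) ≤ 1 / ((m : ℝ) + 1) := by positivity
      linarith
  have hsub : (Icc (-(m : ℤ)) m).filter (fun h => h ≠ 0) ⊆
      (Icc 1 m).image (fun j : ℕ => (j : ℤ)) ∪ (Icc 1 m).image (fun j : ℕ => -(j : ℤ)) := by
    intro h hh
    rw [mem_filter, mem_Icc] at hh
    rw [mem_union, mem_image, mem_image]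
    rcases lt_trichotomy h 0 with h0 | h0 | h0
    · right
      exact ⟨h.natAbs, by rw [mem_Icc]; omega, by omega⟩
    · exact absurd h0 hh.2
    · left
      exact ⟨h.natAbs, by rw [mem_Icc]; omega, by omega⟩
  have hnn : ∀ h : ℤ, 0 ≤ 1 / (h : ℝ) ^ 2 := fun h => by positivity
  calc ∑ h ∈ (Icc (-(m : ℤ)) m).filter (fun h => h ≠ 0), 1 / (h : ℝ) ^ 2
      ≤ ∑ h ∈ (Icc 1 m).image (fun j : ℕ => (j : ℤ)) ∪ (Icc 1 m).image (fun j : ℕ => -(j : ℤ)),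
          1 / (h : ℝ) ^ 2 := sum_le_sum_of_subset_of_nonneg hsub fun h _ _ => hnn h
    _ ≤ ∑ h ∈ (Icc 1 m).image (fun j : ℕ => (j : ℤ)), 1 / (h : ℝ) ^ 2 +
          ∑ h ∈ (Icc 1 m).image (fun j : ℕ => -(j : ℤ)), 1 / (h : ℝ) ^ 2 := by
        rw [← Finset.sum_union_inter]
        have : 0 ≤ ∑ h ∈ (Icc 1 m).image (fun j : ℕ => (j : ℤ)) ∩
            (Icc 1 m).image (fun j : ℕ => -(j : ℤ)), 1 / (h : ℝ) ^ 2 := sum_nonneg fun h _ => hnn h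
        linarith
    _ = ∑ j ∈ Icc 1 m, 1 / (j : ℝ) ^ 2 + ∑ j ∈ Icc 1 m, 1 / (j : ℝ) ^ 2 := by
        rw [Finset.sum_image, Finset.sum_image]
        · simp
        · intro a _ b _ h
          simpa using h
        · intro a _ b _ h
          simpa using h
    _ ≤ 4 := by linarith

theorem exists_inv {l m : ℕ} (hc : l.Coprime m) : ∃ κ : ℕ, κ * l ≡ 1 [MOD m] := by
  rcases Nat.lt_or_ge 1 m with h | h
  · obtain ⟨a, -, ha⟩ := Nat.exists_mul_mod_eq_one_of_coprime hc h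
    refine ⟨a, ?_⟩
    rw [Nat.ModEq, mul_comm, ha, Nat.mod_eq_of_lt h]
  · refine ⟨1, ?_⟩
    interval_cases m
    · rw [Nat.coprime_zero_right] at hc
      rw [hc]
    · exact Nat.modEq_one

theorem W_bound {K m l : ℕ} (hK : 1 ≤ K) (hm : 1 ≤ m) (hc : l.Coprime m) :
    |∑ k ∈ range (3 * K), (if k * l ≡ 1 [MOD m] then wt K k else 0) - (K : ℝ) / m| ≤ (m : ℝ) / K := by
  obtain ⟨κ, hκ⟩ := exists_inv hc
  obtain ⟨g, _, h1, _, h3⟩ := fejer K (K / 2) hK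
  have h4 := h3 m (3 * K) hm (by omega) κ
  have hK0 : (0 : ℝ) < K := by exact_mod_cast (show 0 < K by omega)
  have h5 : ∑ k ∈ range (3 * K), (if k * l ≡ 1 [MOD m] then wt K k else 0) =
      ∑ k ∈ (range (3 * K)).filter (fun k => k ≡ κ [MOD m]), tri K (K / 2) k := by
    rw [Finset.sum_filter]
    refine sum_congr rfl fun k _ => ?_
    have h6 : k * l ≡ 1 [MOD m] ↔ k ≡ κ [MOD m] := by
      constructor
      · intro h
        exact Nat.ModEq.cancel_right_of_coprime (Nat.coprime_comm.1 hc) (h.trans hκ.symm)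
      · intro h
        exact (h.mul_right l).trans hκ
    by_cases h : k ≡ κ [MOD m]
    · rw [if_pos h, if_pos (h6.2 h)]
      rfl
    · rw [if_neg h, if_neg (fun h' => h (h6.1 h'))]
  rw [h5]
  have h6 : ((∑ k ∈ (range (3 * K)).filter (fun k => k ≡ κ [MOD m]), tri K (K / 2) k -
      (K : ℝ) / m : ℝ) : ℂ) = ∑ h ∈ (Icc (-(m : ℤ)) m).filter (fun h => h ≠ 0),
          g m h * e (-(h * κ : ℝ) / m) := by
    rw [Complex.ofReal_sub, h4]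
    push_cast
    ring
  rw [← Real.norm_eq_abs, ← Complex.norm_real, h6]
  calc ‖∑ h ∈ (Icc (-(m : ℤ)) m).filter (fun h => h ≠ 0), g m h * e (-(h * κ : ℝ) / m)‖
      ≤ ∑ h ∈ (Icc (-(m : ℤ)) m).filter (fun h => h ≠ 0), ‖g m h * e (-(h * κ : ℝ) / m)‖ :=
        norm_sum_le _ _
    _ ≤ ∑ h ∈ (Icc (-(m : ℤ)) m).filter (fun h => h ≠ 0), (m : ℝ) / (4 * K) * (1 / (h : ℝ) ^ 2) := by
        refine sum_le_sum fun h hh => ?_
        rw [norm_mul, norm_e, mul_one]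
        refine (h1 m h hm (mem_filter.1 hh).2).trans (le_of_eq ?_)
        rw [div_mul_div_comm, mul_one]
    _ = (m : ℝ) / (4 * K) * ∑ h ∈ (Icc (-(m : ℤ)) m).filter (fun h => h ≠ 0), 1 / (h : ℝ) ^ 2 := by
        rw [Finset.mul_sum]
    _ ≤ (m : ℝ) / (4 * K) * 4 := by
        have := sum_inv_sq_int m
        gcongr
    _ = (m : ℝ) / K := by
        field_simp

/-! ### the pointwise bound -/

/-- `1/φ(uv)` -/
noncomputable def Q (p : ℕ × ℕ) : ℝ := 1 / (((p.1 * p.2).totient : ℕ) : ℝ)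

/-- `1/φ(uv) - 1/(uv)` for rough `uv` -/
noncomputable def P (z : ℝ) (p : ℕ × ℕ) : ℝ :=
  if Rg z p.1 p.2 then 1 / (((p.1 * p.2).totient : ℕ) : ℝ) - 1 / ((p.1 : ℝ) * p.2) else 0

/-- `1/φ(uv)` if `uv` is rough and not coprime to `k` -/
noncomputable def Nk (z : ℝ) (k : ℕ) (p : ℕ × ℕ) : ℝ :=
  if Rg z p.1 p.2 ∧ ¬ k.Coprime (p.1 * p.2) then 1 / (((p.1 * p.2).totient : ℕ) : ℝ) else 0

/-- `1[k l ≡ 1 mod m]` -/
noncomputable def G0 (m k l : ℕ) : ℝ := if k * l ≡ 1 [MOD m] then 1 else 0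

theorem Q_nonneg (p : ℕ × ℕ) : 0 ≤ Q p := by unfold Q; positivity

theorem Nk_nonneg (z : ℝ) (k : ℕ) (p : ℕ × ℕ) : 0 ≤ Nk z k p := by
  unfold Nk; split_ifs <;> positivity

theorem G0_nonneg (m k l : ℕ) : 0 ≤ G0 m k l := by unfold G0; split_ifs <;> norm_num

theorem G1_nonneg (m u v k l : ℕ) : 0 ≤ G1 m u v k l := by unfold G1; split_ifs <;> norm_num

theorem wt_zero {K : ℕ} (hK : 8 ≤ K) : wt K 0 = 0 := by
  by_contra h
  have := (tri_support K (K / 2) 0 h).1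
  omega

theorem sum_range_le {K : ℕ} (hK : 8 ≤ K) (f g : ℕ → ℝ) (hg : ∀ k, 0 ≤ g k)
    (hf : ∀ k, f k = wt K k * g k) :
    ∑ k ∈ range (3 * K), f k ≤ ∑ k ∈ Ico 1 (3 * K), g k := by
  have h0 : range (3 * K) = insert 0 (Ico 1 (3 * K)) := by
    ext k
    simp only [mem_range, mem_insert, mem_Ico]
    omega
  rw [h0, sum_insert (by simp), hf 0, wt_zero hK, zero_mul, zero_add]
  refine sum_le_sum fun k _ => ?_
  rw [hf k]
  have h1 : wt K k ≤ 1 := tri_le_one _ _ _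
  have := hg k
  nlinarith

theorem rest_abs_le {K m u₁ v₁ u₂ v₂ l l' : ℕ} {z : ℝ} (hK : 8 ≤ K) (hm : 1 ≤ m)
    (hn₁ : 0 < u₁ * v₁) (hn₂ : 0 < u₂ * v₂) (hG : Gd m u₁ v₁ u₂ v₂ l l')
    (hR₁ : Rg z u₁ v₁) (hR₂ : Rg z u₂ v₂) :
    |rest K m u₁ v₁ u₂ v₂ l l'| ≤
      (K : ℝ) / m * (P z (u₁, v₁) * P z (u₂, v₂)) + (m : ℝ) / K * (Q (u₁, v₁) * Q (u₂, v₂)) +
      ∑ k ∈ Ico 1 (3 * K), (G0 m k l * Q (u₂, v₂)) * Nk z k (u₁, v₁) +
      ∑ k ∈ Ico 1 (3 * K), (G0 m k l * Q (u₁, v₁)) * Nk z k (u₂, v₂) +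
      ∑ k ∈ Ico 1 (3 * K), G1 m u₁ v₁ k l * Nk z k (u₂, v₂) +
      ∑ k ∈ Ico 1 (3 * K), G1 m u₂ v₂ k l' * Nk z k (u₁, v₁) := by
  obtain ⟨-, -, hmod, hcl, hcl'⟩ := hG
  have hK1 : 1 ≤ K := by omega
  have hcm : l.Coprime m := by
    rw [mul_assoc] at hcl
    exact Nat.Coprime.coprime_mul_right_right hcl
  have hc1 : l.Coprime (u₁ * v₁) := by
    rw [mul_assoc] at hcl
    exact Nat.Coprime.coprime_mul_left_right hcl
  have hc2 : l'.Coprime (u₂ * v₂) := by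
    rw [mul_assoc] at hcl'
    exact Nat.Coprime.coprime_mul_left_right hcl'
  -- the congruences
  have hmm : ∀ k, (k * l ≡ 1 [MOD m] ↔ k * l' ≡ 1 [MOD m]) := fun k =>
    ⟨fun h => ((hmod.mul_left k).symm).trans h, fun h => (hmod.mul_left k).trans h⟩
  have hk1 : ∀ k, ((k * l).Coprime (u₁ * v₁) ↔ k.Coprime (u₁ * v₁)) := fun k =>
    ⟨fun h => Nat.Coprime.coprime_mul_right h, fun h => Nat.Coprime.mul_left h hc1⟩
  have hk2 : ∀ k, ((k * l').Coprime (u₂ * v₂) ↔ k.Coprime (u₂ * v₂)) := fun k =>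
    ⟨fun h => Nat.Coprime.coprime_mul_right h, fun h => Nat.Coprime.mul_left h hc2⟩
  set φ₁ : ℝ := (((u₁ * v₁).totient : ℕ) : ℝ) with hφ₁
  set φ₂ : ℝ := (((u₂ * v₂).totient : ℕ) : ℝ) with hφ₂
  have hφ₁0 : 0 < φ₁ := by rw [hφ₁]; exact_mod_cast Nat.totient_pos.2 hn₁
  have hφ₂0 : 0 < φ₂ := by rw [hφ₂]; exact_mod_cast Nat.totient_pos.2 hn₂
  have hQ1 : Q (u₁, v₁) = 1 / φ₁ := rfl
  have hQ2 : Q (u₂, v₂) = 1 / φ₂ := rfl
  have hP1 : P z (u₁, v₁) = 1 / φ₁ - 1 / ((u₁ : ℝ) * v₁) := by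
    unfold P
    rw [if_pos hR₁]
  have hP2 : P z (u₂, v₂) = 1 / φ₂ - 1 / ((u₂ : ℝ) * v₂) := by
    unfold P
    rw [if_pos hR₂]
  have hN1 : ∀ k, Nk z k (u₁, v₁) = if k.Coprime (u₁ * v₁) then 0 else 1 / φ₁ := by
    intro k
    unfold Nk
    by_cases h : k.Coprime (u₁ * v₁)
    · rw [if_neg (fun h' => h'.2 h), if_pos h]
    · rw [if_pos ⟨hR₁, h⟩, if_neg h]
  have hN2 : ∀ k, Nk z k (u₂, v₂) = if k.Coprime (u₂ * v₂) then 0 else 1 / φ₂ := by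
    intro k
    unfold Nk
    by_cases h : k.Coprime (u₂ * v₂)
    · rw [if_neg (fun h' => h'.2 h), if_pos h]
    · rw [if_pos ⟨hR₂, h⟩, if_neg h]
  have hmdvd : ∀ k, k * l ≡ 1 [MOD m * u₁ * v₁] → k * l ≡ 1 [MOD m] := by
    intro k h
    rw [mul_assoc] at h
    exact Nat.ModEq.of_mul_right _ h
  have hmdvd' : ∀ k, k * l' ≡ 1 [MOD m * u₂ * v₂] → k * l' ≡ 1 [MOD m] := by
    intro k h
    rw [mul_assoc] at h
    exact Nat.ModEq.of_mul_right _ h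
  -- the four sums
  have e12 : B1 K m u₁ v₁ l / φ₂ - A12 K m u₁ v₁ u₂ v₂ l l' =
      ∑ k ∈ range (3 * K), wt K k * (G1 m u₁ v₁ k l * Nk z k (u₂, v₂)) := by
    unfold B1 A12
    rw [Finset.sum_div, ← Finset.sum_sub_distrib]
    refine sum_congr rfl fun k _ => ?_
    rw [hN2 k]
    unfold G1 G2
    by_cases h1 : k * l ≡ 1 [MOD m * u₁ * v₁]
    · have h2 : k * l' ≡ 1 [MOD m] := (hmm k).1 (hmdvd k h1)
      by_cases h3 : k.Coprime (u₂ * v₂)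
      · rw [if_pos h1, if_pos ⟨h2, (hk2 k).2 h3⟩, if_pos h3]
        rw [← hφ₂]
        ring
      · rw [if_pos h1, if_neg (fun h => h3 ((hk2 k).1 h.2)), if_neg h3]
        ring
    · rw [if_neg h1]
      ring
  have e21 : B1 K m u₂ v₂ l' / φ₁ - A21 K m u₁ v₁ u₂ v₂ l l' =
      ∑ k ∈ range (3 * K), wt K k * (G1 m u₂ v₂ k l' * Nk z k (u₁, v₁)) := by
    unfold B1 A21
    rw [Finset.sum_div, ← Finset.sum_sub_distrib]
    refine sum_congr rfl fun k _ => ?_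
    rw [hN1 k]
    unfold G1 G2
    by_cases h1 : k * l' ≡ 1 [MOD m * u₂ * v₂]
    · have h2 : k * l ≡ 1 [MOD m] := (hmm k).2 (hmdvd' k h1)
      by_cases h3 : k.Coprime (u₁ * v₁)
      · rw [if_pos h1, if_pos ⟨h2, (hk1 k).2 h3⟩, if_pos h3]
        rw [← hφ₁]
        ring
      · rw [if_pos h1, if_neg (fun h => h3 ((hk1 k).1 h.2)), if_neg h3]
        ring
    · rw [if_neg h1]
      ring
  set W : ℝ := ∑ k ∈ range (3 * K), (if k * l ≡ 1 [MOD m] then wt K k else 0) with hW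
  have hWb := W_bound hK1 hm hcm
  rw [← hW] at hWb
  have e22 : |W / (φ₁ * φ₂) - A22 K m u₁ v₁ u₂ v₂ l l'| ≤
      ∑ k ∈ range (3 * K), wt K k * ((G0 m k l * Q (u₂, v₂)) * Nk z k (u₁, v₁) +
        (G0 m k l * Q (u₁, v₁)) * Nk z k (u₂, v₂)) := by
    unfold A22
    rw [hW, Finset.sum_div, ← Finset.sum_sub_distrib]
    refine (abs_sum_le_sum_abs _ _).trans (sum_le_sum fun k _ => ?_)
    rw [hN1 k, hN2 k, hQ1, hQ2]
    have hwt : 0 ≤ wt K k := tri_nonneg _ _ _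
    unfold G0 G2
    by_cases h1 : k * l ≡ 1 [MOD m]
    · have h2 := (hmm k).1 h1
      by_cases h3 : k.Coprime (u₁ * v₁)
      · by_cases h4 : k.Coprime (u₂ * v₂)
        · rw [if_pos h1, if_pos ⟨h1, (hk1 k).2 h3⟩, if_pos ⟨h2, (hk2 k).2 h4⟩, if_pos h3, if_pos h4,
            if_pos h1]
          rw [← hφ₁, ← hφ₂]
          have : wt K k / (φ₁ * φ₂) - wt K k * (1 / φ₁ * (1 / φ₂)) = 0 := by
            field_simp
            ring
          rw [this, abs_zero]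
          simp
        · rw [if_pos h1, if_pos ⟨h1, (hk1 k).2 h3⟩, if_neg (fun h => h4 ((hk2 k).1 h.2)), if_pos h3,
            if_neg h4, if_pos h1]
          rw [abs_of_nonneg (by simp; positivity)]
          apply le_of_eq
          field_simp
          ring
      · by_cases h4 : k.Coprime (u₂ * v₂)
        · rw [if_pos h1, if_neg (fun h => h3 ((hk1 k).1 h.2)), if_pos ⟨h2, (hk2 k).2 h4⟩, if_neg h3,
            if_pos h4, if_pos h1]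
          rw [abs_of_nonneg (by simp; positivity)]
          apply le_of_eq
          field_simp
          ring
        · rw [if_pos h1, if_neg (fun h => h3 ((hk1 k).1 h.2)), if_neg (fun h => h4 ((hk2 k).1 h.2)),
            if_neg h3, if_neg h4, if_pos h1]
          rw [abs_of_nonneg (by simp; positivity)]
          have : 0 ≤ wt K k * (1 * (1 / φ₁) * (1 / φ₂)) := by positivity
          calc wt K k / (φ₁ * φ₂) - wt K k * (0 * 0) = wt K k * (1 * (1 / φ₂) * (1 / φ₁)) := by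
                field_simp
                ring
            _ ≤ wt K k * (1 * (1 / φ₂) * (1 / φ₁) + 1 * (1 / φ₁) * (1 / φ₂)) := by
                rw [mul_add]
                linarith
    · rw [if_neg h1, if_neg (fun h => h1 h.1), if_neg h1]
      simp
  have key : rest K m u₁ v₁ u₂ v₂ l l' = (K : ℝ) / m * (P z (u₁, v₁) * P z (u₂, v₂)) +
      (W - (K : ℝ) / m) / (φ₁ * φ₂) - (W / (φ₁ * φ₂) - A22 K m u₁ v₁ u₂ v₂ l l') +
      (B1 K m u₁ v₁ l / φ₂ - A12 K m u₁ v₁ u₂ v₂ l l') +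
      (B1 K m u₂ v₂ l' / φ₁ - A21 K m u₁ v₁ u₂ v₂ l l') := by
    have hm0 : (m : ℝ) ≠ 0 := by
      have : 0 < m := hm
      exact_mod_cast this.ne'
    have hu1 : (u₁ : ℝ) ≠ 0 := by
      intro h
      have : u₁ = 0 := by exact_mod_cast h
      rw [this, zero_mul] at hn₁
      exact lt_irrefl _ hn₁
    have hv1 : (v₁ : ℝ) ≠ 0 := by
      intro h
      have : v₁ = 0 := by exact_mod_cast h
      rw [this, mul_zero] at hn₁
      exact lt_irrefl _ hn₁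
    have hu2 : (u₂ : ℝ) ≠ 0 := by
      intro h
      have : u₂ = 0 := by exact_mod_cast h
      rw [this, zero_mul] at hn₂
      exact lt_irrefl _ hn₂
    have hv2 : (v₂ : ℝ) ≠ 0 := by
      intro h
      have : v₂ = 0 := by exact_mod_cast h
      rw [this, mul_zero] at hn₂
      exact lt_irrefl _ hn₂
    unfold rest mu
    rw [hP1, hP2, ← hφ₁, ← hφ₂]
    have : (K : ℝ) / (↑m * ↑u₁ * ↑v₁ * ↑u₂ * ↑v₂) - K / (↑m * ↑u₁ * ↑v₁) / φ₂ -
        K / (↑m * ↑u₂ * ↑v₂) / φ₁ = (K : ℝ) / m * ((1 / φ₁ - 1 / ((u₁ : ℝ) * v₁)) *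
        (1 / φ₂ - 1 / ((u₂ : ℝ) * v₂))) - (K : ℝ) / m / (φ₁ * φ₂) := by
      field_simp
      ring
    have h2 : (B1 K m u₁ v₁ l - K / (↑m * ↑u₁ * ↑v₁)) / φ₂ =
        B1 K m u₁ v₁ l / φ₂ - K / (↑m * ↑u₁ * ↑v₁) / φ₂ := by ring
    have h3 : (B1 K m u₂ v₂ l' - K / (↑m * ↑u₂ * ↑v₂)) / φ₁ =
        B1 K m u₂ v₂ l' / φ₁ - K / (↑m * ↑u₂ * ↑v₂) / φ₁ := by ring
    rw [h2, h3]
    have h4 : (W - (K : ℝ) / m) / (φ₁ * φ₂) = W / (φ₁ * φ₂) - (K : ℝ) / m / (φ₁ * φ₂) := by ring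
    rw [h4]
    linarith
  have hPnn : 0 ≤ (K : ℝ) / m * (P z (u₁, v₁) * P z (u₂, v₂)) := by
    have h1 : 0 ≤ P z (u₁, v₁) := by
      rw [hP1]
      have := inv_totient_sub_nonneg hn₁
      push_cast at this
      exact this
    have h2 : 0 ≤ P z (u₂, v₂) := by
      rw [hP2]
      have := inv_totient_sub_nonneg hn₂
      push_cast at this
      exact this
    positivity
  have hb12 : ∑ k ∈ range (3 * K), wt K k * (G1 m u₁ v₁ k l * Nk z k (u₂, v₂)) ≤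
      ∑ k ∈ Ico 1 (3 * K), G1 m u₁ v₁ k l * Nk z k (u₂, v₂) :=
    sum_range_le hK _ _ (fun k => mul_nonneg (G1_nonneg _ _ _ _ _) (Nk_nonneg _ _ _)) fun k => rfl
  have hb21 : ∑ k ∈ range (3 * K), wt K k * (G1 m u₂ v₂ k l' * Nk z k (u₁, v₁)) ≤
      ∑ k ∈ Ico 1 (3 * K), G1 m u₂ v₂ k l' * Nk z k (u₁, v₁) :=
    sum_range_le hK _ _ (fun k => mul_nonneg (G1_nonneg _ _ _ _ _) (Nk_nonneg _ _ _)) fun k => rfl
  have hb22 : ∑ k ∈ range (3 * K), wt K k * ((G0 m k l * Q (u₂, v₂)) * Nk z k (u₁, v₁) +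
        (G0 m k l * Q (u₁, v₁)) * Nk z k (u₂, v₂)) ≤
      ∑ k ∈ Ico 1 (3 * K), (G0 m k l * Q (u₂, v₂)) * Nk z k (u₁, v₁) +
      ∑ k ∈ Ico 1 (3 * K), (G0 m k l * Q (u₁, v₁)) * Nk z k (u₂, v₂) := by
    rw [← Finset.sum_add_distrib]
    exact sum_range_le hK _ _ (fun k => add_nonneg
      (mul_nonneg (mul_nonneg (G0_nonneg _ _ _) (Q_nonneg _)) (Nk_nonneg _ _ _))
      (mul_nonneg (mul_nonneg (G0_nonneg _ _ _) (Q_nonneg _)) (Nk_nonneg _ _ _))) fun k => rfl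
  have hn12 : 0 ≤ ∑ k ∈ range (3 * K), wt K k * (G1 m u₁ v₁ k l * Nk z k (u₂, v₂)) :=
    sum_nonneg fun k _ => mul_nonneg (tri_nonneg _ _ _)
      (mul_nonneg (G1_nonneg _ _ _ _ _) (Nk_nonneg _ _ _))
  have hn21 : 0 ≤ ∑ k ∈ range (3 * K), wt K k * (G1 m u₂ v₂ k l' * Nk z k (u₁, v₁)) :=
    sum_nonneg fun k _ => mul_nonneg (tri_nonneg _ _ _)
      (mul_nonneg (G1_nonneg _ _ _ _ _) (Nk_nonneg _ _ _))
  have hWb2 : |(W - (K : ℝ) / m) / (φ₁ * φ₂)| ≤ (m : ℝ) / K * (Q (u₁, v₁) * Q (u₂, v₂)) := by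
    rw [abs_div, abs_of_pos (mul_pos hφ₁0 hφ₂0), hQ1, hQ2, one_div_mul_one_div, mul_one_div]
    gcongr
  rw [key, e12, e21]
  rw [abs_le] at hWb2 e22 ⊢
  constructor <;> linarith [hWb2.1, hWb2.2, e22.1, e22.2]


/-! ### the sums -/

theorem comm3 {α : Type*} (A : Finset α) (C D : Finset ℕ) (f : α → ℕ → ℕ → ℝ) :
    ∑ a ∈ A, ∑ l ∈ C, ∑ k ∈ D, f a l k = ∑ l ∈ C, ∑ k ∈ D, ∑ a ∈ A, f a l k := by
  rw [Finset.sum_comm]
  refine sum_congr rfl fun l _ => ?_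
  rw [Finset.sum_comm]

/-- congruent pairs, the summand does not depend on `l'` -/
theorem tot_le {A C : Finset ℕ} {B : Finset (ℕ × ℕ)} {lam : ℝ}
    (hlam : ∀ m ∈ A, ∀ l ∈ C, ∑ l' ∈ C, (if l ≡ l' [MOD m] then (1 : ℝ) else 0) ≤ lam)
    (F : ℕ → ℕ × ℕ → ℕ × ℕ → ℕ → ℝ) (hF : ∀ m p q l, 0 ≤ F m p q l) :
    ∑ m ∈ A, ∑ p ∈ B, ∑ q ∈ B, ∑ l ∈ C, ∑ l' ∈ C, (if l ≡ l' [MOD m] then F m p q l else 0) ≤
      lam * ∑ m ∈ A, ∑ p ∈ B, ∑ q ∈ B, ∑ l ∈ C, F m p q l := by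
  rw [Finset.mul_sum]
  refine sum_le_sum fun m hm => ?_
  rw [Finset.mul_sum]
  refine sum_le_sum fun p _ => ?_
  rw [Finset.mul_sum]
  refine sum_le_sum fun q _ => ?_
  rw [Finset.mul_sum]
  refine sum_le_sum fun l hl => ?_
  calc ∑ l' ∈ C, (if l ≡ l' [MOD m] then F m p q l else 0)
      = (∑ l' ∈ C, (if l ≡ l' [MOD m] then (1 : ℝ) else 0)) * F m p q l := by
        rw [Finset.sum_mul]
        refine sum_congr rfl fun l' _ => ?_
        split_ifs <;> simp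
    _ ≤ lam * F m p q l := mul_le_mul_of_nonneg_right (hlam m hm l hl) (hF m p q l)

/-- the same with `l'` -/
theorem tot_le' {A C : Finset ℕ} {B : Finset (ℕ × ℕ)} {lam : ℝ}
    (hlam : ∀ m ∈ A, ∀ l ∈ C, ∑ l' ∈ C, (if l ≡ l' [MOD m] then (1 : ℝ) else 0) ≤ lam)
    (F : ℕ → ℕ × ℕ → ℕ × ℕ → ℕ → ℝ) (hF : ∀ m p q l, 0 ≤ F m p q l) :
    ∑ m ∈ A, ∑ p ∈ B, ∑ q ∈ B, ∑ l ∈ C, ∑ l' ∈ C, (if l ≡ l' [MOD m] then F m p q l' else 0) ≤
      lam * ∑ m ∈ A, ∑ p ∈ B, ∑ q ∈ B, ∑ l ∈ C, F m p q l := by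
  refine le_trans (le_of_eq ?_) (tot_le hlam F hF)
  refine sum_congr rfl fun m _ => sum_congr rfl fun p _ => sum_congr rfl fun q _ => ?_
  rw [Finset.sum_comm]
  refine sum_congr rfl fun l _ => sum_congr rfl fun l' _ => ?_
  have : (l' ≡ l [MOD m]) ↔ (l ≡ l' [MOD m]) := ⟨fun h => h.symm, fun h => h.symm⟩
  simp only [this]

/-- sums of products with `k` inside -/
theorem sum_prod_le {A C D : Finset ℕ} {B : Finset (ℕ × ℕ)} {a b : ℝ}
    (α : ℕ → ℕ × ℕ → ℕ → ℕ → ℝ) (β : ℕ → ℕ × ℕ → ℝ) (ha : 0 ≤ a)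
    (hβ0 : ∀ k p, 0 ≤ β k p)
    (hα : ∀ k ∈ D, ∀ l ∈ C, ∑ m ∈ A, ∑ p ∈ B, α m p k l ≤ a) (hβ : ∀ k ∈ D, ∑ p ∈ B, β k p ≤ b) :
    ∑ m ∈ A, ∑ p ∈ B, ∑ q ∈ B, ∑ l ∈ C, ∑ k ∈ D, α m p k l * β k q ≤
      (C.card : ℝ) * ((D.card : ℝ) * (a * b)) := by
  have h1 : ∑ m ∈ A, ∑ p ∈ B, ∑ q ∈ B, ∑ l ∈ C, ∑ k ∈ D, α m p k l * β k q =
      ∑ l ∈ C, ∑ k ∈ D, (∑ m ∈ A, ∑ p ∈ B, α m p k l) * ∑ q ∈ B, β k q := by
    calc ∑ m ∈ A, ∑ p ∈ B, ∑ q ∈ B, ∑ l ∈ C, ∑ k ∈ D, α m p k l * β k q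
        = ∑ m ∈ A, ∑ p ∈ B, ∑ l ∈ C, ∑ k ∈ D, ∑ q ∈ B, α m p k l * β k q :=
          sum_congr rfl fun m _ => sum_congr rfl fun p _ =>
            comm3 B C D (fun q l k => α m p k l * β k q)
      _ = ∑ m ∈ A, ∑ l ∈ C, ∑ k ∈ D, ∑ p ∈ B, ∑ q ∈ B, α m p k l * β k q :=
          sum_congr rfl fun m _ => comm3 B C D (fun p l k => ∑ q ∈ B, α m p k l * β k q)
      _ = ∑ l ∈ C, ∑ k ∈ D, ∑ m ∈ A, ∑ p ∈ B, ∑ q ∈ B, α m p k l * β k q :=
          comm3 A C D (fun m l k => ∑ p ∈ B, ∑ q ∈ B, α m p k l * β k q)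
      _ = _ := by
          refine sum_congr rfl fun l _ => sum_congr rfl fun k _ => ?_
          rw [Finset.sum_mul]
          refine sum_congr rfl fun m _ => ?_
          rw [Finset.sum_mul]
          refine sum_congr rfl fun p _ => ?_
          rw [Finset.mul_sum]
  rw [h1, ← nsmul_eq_mul, ← nsmul_eq_mul, ← Finset.sum_const, ← Finset.sum_const]
  refine sum_le_sum fun l hl => sum_le_sum fun k hk => ?_
  have h2 := hα k hk l hl
  have h3 := hβ k hk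
  have h4 : 0 ≤ ∑ q ∈ B, β k q := sum_nonneg fun q _ => hβ0 k q
  exact mul_le_mul h2 h3 h4 ha

/-- the same, roles of the pairs exchanged -/
theorem sum_prod_le' {A C D : Finset ℕ} {B : Finset (ℕ × ℕ)} {a b : ℝ}
    (α : ℕ → ℕ × ℕ → ℕ → ℕ → ℝ) (β : ℕ → ℕ × ℕ → ℝ) (ha : 0 ≤ a)
    (hβ0 : ∀ k p, 0 ≤ β k p)
    (hα : ∀ k ∈ D, ∀ l ∈ C, ∑ m ∈ A, ∑ p ∈ B, α m p k l ≤ a) (hβ : ∀ k ∈ D, ∑ p ∈ B, β k p ≤ b) :
    ∑ m ∈ A, ∑ p ∈ B, ∑ q ∈ B, ∑ l ∈ C, ∑ k ∈ D, α m q k l * β k p ≤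
      (C.card : ℝ) * ((D.card : ℝ) * (a * b)) := by
  refine le_trans (le_of_eq ?_) (sum_prod_le α β ha hβ0 hα hβ)
  refine sum_congr rfl fun m _ => ?_
  rw [Finset.sum_comm]

theorem sum_G0_le {M X K : ℕ} {T : ℝ} (hT : ∀ n : ℕ, 0 < n → n ≤ X → tau n ≤ T) {L k l : ℕ}
    (hk : k ∈ Ico 1 (3 * K)) (hL : 8 ≤ L) (hl : l ∈ Ico L (2 * L)) (hX : 6 * K * L ≤ X) :
    ∑ m ∈ Ico M (2 * M), G0 m k l ≤ T := by
  rw [mem_Ico] at hk hl
  have h1 : 1 ≤ k * l := Nat.mul_pos (by omega) (by omega)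
  have h2 : 1 < k * l := by
    calc 1 < 1 * 8 := by norm_num
      _ ≤ k * l := Nat.mul_le_mul hk.1 (by omega)
  have h3 : k * l ≤ X := by
    calc k * l ≤ (3 * K) * (2 * L) := Nat.mul_le_mul (by omega) (by omega)
      _ = 6 * K * L := by ring
      _ ≤ X := hX
  refine le_trans (le_of_eq ?_) (sum_dvd_le hT (Ico M (2 * M)) (n := k * l - 1) (by omega) (by omega))
  refine sum_congr rfl fun m _ => ?_
  unfold G0
  have h4 : (k * l ≡ 1 [MOD m]) ↔ m ∣ k * l - 1 := by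
    rw [← Nat.modEq_iff_dvd' h1]
    exact ⟨fun h => h.symm, fun h => h.symm⟩
  simp only [h4]

theorem sum_G1_le {M U V X K : ℕ} {T : ℝ} (hT : ∀ n : ℕ, 0 < n → n ≤ X → tau n ≤ T) {L k l : ℕ}
    (hk : k ∈ Ico 1 (3 * K)) (hL : 8 ≤ L) (hl : l ∈ Ico L (2 * L)) (hX : 6 * K * L ≤ X) :
    ∑ m ∈ Ico M (2 * M), ∑ p ∈ Ico U (2 * U) ×ˢ Ico V (2 * V), G1 m p.1 p.2 k l ≤ T ^ 3 := by
  rw [mem_Ico] at hk hl
  have h1 : 1 ≤ k * l := Nat.mul_pos (by omega) (by omega)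
  have h2 : 1 < k * l := by
    calc 1 < 1 * 8 := by norm_num
      _ ≤ k * l := Nat.mul_le_mul hk.1 (by omega)
  have h3 : k * l ≤ X := by
    calc k * l ≤ (3 * K) * (2 * L) := Nat.mul_le_mul (by omega) (by omega)
      _ = 6 * K * L := by ring
      _ ≤ X := hX
  refine le_trans (le_of_eq ?_) (sum_triple_le hT (Ico M (2 * M)) (Ico U (2 * U)) (Ico V (2 * V))
    (n := k * l - 1) (by omega) (by omega))
  refine sum_congr rfl fun m _ => ?_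
  rw [Finset.sum_product]
  refine sum_congr rfl fun u _ => sum_congr rfl fun v _ => ?_
  unfold G1
  have h4 : (k * l ≡ 1 [MOD m * u * v]) ↔ m * u * v ∣ k * l - 1 := by
    rw [← Nat.modEq_iff_dvd' h1]
    exact ⟨fun h => h.symm, fun h => h.symm⟩
  simp only [h4]

theorem Rest_bound {M U V K L X : ℕ} {z T : ℝ} {c : ℕ → ℕ → ℕ → ℝ} (S : Setup M U V K L X z T c) :
    ∑ m ∈ Ico M (2 * M), ∑ u₁ ∈ Ico U (2 * U), ∑ v₁ ∈ Ico V (2 * V), ∑ u₂ ∈ Ico U (2 * U),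
      ∑ v₂ ∈ Ico V (2 * V), ∑ l ∈ Ico L (2 * L), ∑ l' ∈ Ico L (2 * L),
        (if Gd m u₁ v₁ u₂ v₂ l l' then c m u₁ v₁ * c m u₂ v₂ * |rest K m u₁ v₁ u₂ v₂ l l'| else 0) ≤
      10000 * T ^ 12 * ((K : ℝ) * L ^ 2 / M) * (1 / z + (M : ℝ) / K) := by
  have hK8 := S.K8
  have hL8 := S.L8
  have hM1 := S.posM
  have hU1 := S.posU
  have hV1 := S.posV
  have hT := S.tau_le
  have hz1 := S.z1
  have hz0 : 0 < z := by linarith
  have hX6 := S.X1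
  have hXuv : 4 * U * V ≤ X := by
    refine le_trans ?_ S.X2
    have h1 : 1 ≤ U ^ 1 := Nat.pos_of_ne_zero (by positivity)
    have h2 : V ≤ V ^ 4 := by
      calc V = V ^ 1 := (pow_one V).symm
        _ ≤ V ^ 4 := Nat.pow_le_pow_right hV1 (by norm_num)
    have h3 : U ≤ U ^ 2 := by
      calc U = U ^ 1 := (pow_one U).symm
        _ ≤ U ^ 2 := Nat.pow_le_pow_right hU1 (by norm_num)
    calc 4 * U * V = 4 * (1 * U) * V := by ring
      _ ≤ 1024 * (M * U ^ 2) * V ^ 4 := by gcongr; norm_num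
      _ = 1024 * M * U ^ 2 * V ^ 4 := by ring
  have hX1 : 1 ≤ X := by
    have : 1 ≤ 4 * U * V := Nat.mul_pos (by omega) (by omega)
    omega
  have hT1 : 1 ≤ T := one_le_T hT hX1
  have hT0 : 0 ≤ T := by linarith
  have hK0 : (0 : ℝ) < K := by exact_mod_cast (show 0 < K by omega)
  have hL0 : (0 : ℝ) < L := by exact_mod_cast (show 0 < L by omega)
  have hM0 : (0 : ℝ) < M := by exact_mod_cast (show 0 < M by omega)
  have hMK : (M : ℝ) ≤ K := by exact_mod_cast S.MK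
  have hML : (M : ℝ) ≤ L := by exact_mod_cast S.ML
  set A := Ico M (2 * M) with hA
  set B := Ico U (2 * U) ×ˢ Ico V (2 * V) with hB
  set C := Ico L (2 * L) with hC
  set D := Ico 1 (3 * K) with hD
  set lam : ℝ := 2 * L / M with hlam
  have hlam0 : 0 ≤ lam := by positivity
  have hCcard : (C.card : ℝ) = L := by
    rw [hC, Nat.card_Ico]
    congr 1
    omega
  have hDcard : (D.card : ℝ) ≤ 3 * K := by
    rw [hD, Nat.card_Ico]
    have : 3 * K - 1 ≤ 3 * K := by omega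
    exact_mod_cast this
  have hl : ∀ m ∈ A, ∀ l ∈ C, ∑ l' ∈ C, (if l ≡ l' [MOD m] then (1 : ℝ) else 0) ≤ lam := by
    intro m hm l _
    rw [hA, mem_Ico] at hm
    have hmM : (M : ℝ) ≤ m := by exact_mod_cast hm.1
    refine (sum_modEq_le L m l (by omega)).trans ?_
    have h1 : (L : ℝ) / m ≤ L / M := by gcongr
    have h2 : (1 : ℝ) ≤ L / M := by
      rw [le_div_iff₀ hM0]
      linarith
    calc (L : ℝ) / m + 1 ≤ L / M + L / M := add_le_add h1 h2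
      _ = lam := by rw [hlam]; ring
  -- sums over the pairs
  have sQ : ∑ p ∈ B, Q p ≤ T := by
    rw [hB, Finset.sum_product]
    exact sum_phi_le hT hU1 hV1 hXuv
  have sP : ∑ p ∈ B, P z p ≤ T ^ 2 / z := by
    rw [hB, Finset.sum_product]
    exact sum_phi_sub_le hT hU1 hV1 hXuv hz1
  have sN : ∀ k ∈ D, ∑ p ∈ B, Nk z k p ≤ 6 * T ^ 2 / z := by
    intro k hk
    rw [hD, mem_Ico] at hk
    rw [hB, Finset.sum_product]
    refine sum_phi_ncop_le hT hU1 hV1 hXuv hz1 (by omega) ?_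
    calc k ≤ 6 * K * 1 := by omega
      _ ≤ 6 * K * L := Nat.mul_le_mul_left _ (by omega)
      _ ≤ X := hX6
  have hBpos : ∀ p ∈ B, 0 < p.1 * p.2 := by
    intro p hp
    rw [hB, mem_product, mem_Ico, mem_Ico] at hp
    exact Nat.mul_pos (by omega) (by omega)
  have hPQ : ∀ p ∈ B, 0 ≤ P z p ∧ P z p ≤ Q p := by
    intro p hp
    have h0 := hBpos p hp
    have h1 := inv_totient_sub_nonneg h0
    push_cast at h1
    unfold P Q
    split_ifs with h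
    · refine ⟨h1, ?_⟩
      have : 0 ≤ 1 / ((p.1 : ℝ) * p.2) := by positivity
      linarith
    · exact ⟨le_rfl, by positivity⟩
  have sP0 : 0 ≤ ∑ p ∈ B, P z p := sum_nonneg fun p hp => (hPQ p hp).1
  have sQ0 : 0 ≤ ∑ p ∈ B, Q p := sum_nonneg fun p _ => Q_nonneg p
  have sPT : ∑ p ∈ B, P z p ≤ T := (sum_le_sum fun p hp => (hPQ p hp).2).trans sQ
  -- step 1: pairs
  have step1 : ∑ m ∈ A, ∑ u₁ ∈ Ico U (2 * U), ∑ v₁ ∈ Ico V (2 * V), ∑ u₂ ∈ Ico U (2 * U),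
      ∑ v₂ ∈ Ico V (2 * V), ∑ l ∈ C, ∑ l' ∈ C,
        (if Gd m u₁ v₁ u₂ v₂ l l' then c m u₁ v₁ * c m u₂ v₂ * |rest K m u₁ v₁ u₂ v₂ l l'| else 0) =
      ∑ m ∈ A, ∑ p ∈ B, ∑ q ∈ B, ∑ l ∈ C, ∑ l' ∈ C,
        (if Gd m p.1 p.2 q.1 q.2 l l' then c m p.1 p.2 * c m q.1 q.2 *
          |rest K m p.1 p.2 q.1 q.2 l l'| else 0) := by
    refine sum_congr rfl fun m _ => ?_
    rw [hB, Finset.sum_product]
    refine sum_congr rfl fun u _ => sum_congr rfl fun v _ => ?_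
    rw [Finset.sum_product]
  rw [step1]
  -- the functions
  let F1 : ℕ → ℕ × ℕ → ℕ × ℕ → ℕ → ℝ := fun m p q _ => (K : ℝ) / m * (P z p * P z q)
  let F2 : ℕ → ℕ × ℕ → ℕ × ℕ → ℕ → ℝ := fun m p q _ => (m : ℝ) / K * (Q p * Q q)
  let F3 : ℕ → ℕ × ℕ → ℕ × ℕ → ℕ → ℝ := fun m p q l => ∑ k ∈ D, (G0 m k l * Q q) * Nk z k p
  let F4 : ℕ → ℕ × ℕ → ℕ × ℕ → ℕ → ℝ := fun m p q l => ∑ k ∈ D, (G0 m k l * Q p) * Nk z k q
  let F5 : ℕ → ℕ × ℕ → ℕ × ℕ → ℕ → ℝ := fun m p q l => ∑ k ∈ D, G1 m p.1 p.2 k l * Nk z k q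
  let F6 : ℕ → ℕ × ℕ → ℕ × ℕ → ℕ → ℝ := fun m p q l => ∑ k ∈ D, G1 m q.1 q.2 k l * Nk z k p
  have hPnn : ∀ p, 0 ≤ P z p := by
    intro p
    unfold P
    split_ifs with h
    · rcases Nat.eq_zero_or_pos (p.1 * p.2) with h0 | h0
      · have h1 : (p.1 : ℝ) * p.2 = 0 := by exact_mod_cast h0
        rw [h1, h0]
        simp
      · have h1 := inv_totient_sub_nonneg h0
        push_cast at h1
        exact h1
    · exact le_rfl
  have nn1 : ∀ m p q l, 0 ≤ F1 m p q l := fun m p q l => by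
    have := hPnn p
    have := hPnn q
    simp only [F1]
    positivity
  have nn2 : ∀ m p q l, 0 ≤ F2 m p q l := fun m p q l => by
    have := Q_nonneg p
    have := Q_nonneg q
    simp only [F2]
    positivity
  have nn3 : ∀ m p q l, 0 ≤ F3 m p q l := fun m p q l => sum_nonneg fun k _ =>
    mul_nonneg (mul_nonneg (G0_nonneg _ _ _) (Q_nonneg _)) (Nk_nonneg _ _ _)
  have nn4 : ∀ m p q l, 0 ≤ F4 m p q l := fun m p q l => sum_nonneg fun k _ =>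
    mul_nonneg (mul_nonneg (G0_nonneg _ _ _) (Q_nonneg _)) (Nk_nonneg _ _ _)
  have nn5 : ∀ m p q l, 0 ≤ F5 m p q l := fun m p q l => sum_nonneg fun k _ =>
    mul_nonneg (G1_nonneg _ _ _ _ _) (Nk_nonneg _ _ _)
  have nn6 : ∀ m p q l, 0 ≤ F6 m p q l := fun m p q l => sum_nonneg fun k _ =>
    mul_nonneg (G1_nonneg _ _ _ _ _) (Nk_nonneg _ _ _)
  -- step 2: the pointwise bound
  have step2 : ∑ m ∈ A, ∑ p ∈ B, ∑ q ∈ B, ∑ l ∈ C, ∑ l' ∈ C,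
        (if Gd m p.1 p.2 q.1 q.2 l l' then c m p.1 p.2 * c m q.1 q.2 *
          |rest K m p.1 p.2 q.1 q.2 l l'| else 0) ≤
      T ^ 2 * (∑ m ∈ A, ∑ p ∈ B, ∑ q ∈ B, ∑ l ∈ C, ∑ l' ∈ C, (if l ≡ l' [MOD m] then
          (F1 m p q l + F2 m p q l + F3 m p q l + F4 m p q l + F5 m p q l) else 0) +
        ∑ m ∈ A, ∑ p ∈ B, ∑ q ∈ B, ∑ l ∈ C, ∑ l' ∈ C, (if l ≡ l' [MOD m] then
          F6 m p q l' else 0)) := by
    rw [← Finset.sum_add_distrib, Finset.mul_sum]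
    refine sum_le_sum fun m hm => ?_
    rw [← Finset.sum_add_distrib, Finset.mul_sum]
    refine sum_le_sum fun p hp => ?_
    rw [← Finset.sum_add_distrib, Finset.mul_sum]
    refine sum_le_sum fun q hq => ?_
    rw [← Finset.sum_add_distrib, Finset.mul_sum]
    refine sum_le_sum fun l hl => ?_
    rw [← Finset.sum_add_distrib, Finset.mul_sum]
    refine sum_le_sum fun l' hl' => ?_
    have hnn : 0 ≤ F1 m p q l + F2 m p q l + F3 m p q l + F4 m p q l + F5 m p q l := by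
      have := nn1 m p q l
      have := nn2 m p q l
      have := nn3 m p q l
      have := nn4 m p q l
      have := nn5 m p q l
      linarith
    have hnn6 := nn6 m p q l'
    by_cases hG : Gd m p.1 p.2 q.1 q.2 l l'
    · rw [if_pos hG, if_pos hG.2.2.1, if_pos hG.2.2.1]
      by_cases hc : c m p.1 p.2 = 0 ∨ c m q.1 q.2 = 0
      · have h0 : c m p.1 p.2 * c m q.1 q.2 * |rest K m p.1 p.2 q.1 q.2 l l'| = 0 := by
          rcases hc with h | h <;> rw [h] <;> ring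
        rw [h0]
        exact mul_nonneg (by positivity) (add_nonneg hnn hnn6)
      · push Not at hc
        obtain ⟨hc1, hc2⟩ := hc
        have hb := rest_abs_le (K := K) (m := m) (z := z) hK8 (by rw [hA, mem_Ico] at hm; omega)
          (hBpos p hp) (hBpos q hq) hG (S.c_rough _ _ _ hc1) (S.c_rough _ _ _ hc2)
        have hcc : c m p.1 p.2 * c m q.1 q.2 ≤ T ^ 2 := by
          rw [sq]
          exact mul_le_mul (S.c_le _ _ _) (S.c_le _ _ _) (S.c_nonneg _ _ _) hT0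
        refine mul_le_mul hcc ?_ (abs_nonneg _) (by positivity)
        exact hb.trans (le_of_eq rfl)
    · rw [if_neg hG]
      refine mul_nonneg (by positivity) (add_nonneg ?_ ?_)
      · split_ifs
        · exact hnn
        · exact le_rfl
      · split_ifs
        · exact hnn6
        · exact le_rfl
  refine step2.trans ?_
  -- step 3: the six sums
  have t1 : ∑ m ∈ A, ∑ p ∈ B, ∑ q ∈ B, ∑ l ∈ C, F1 m p q l ≤ L * (K * (T ^ 2 / z * T)) := by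
    have h1 : ∀ m ∈ A, ∑ p ∈ B, ∑ q ∈ B, ∑ l ∈ C, F1 m p q l ≤ (L * (K * (T ^ 2 / z * T))) * (1 / m) := by
      intro m _
      simp only [F1, sum_const, nsmul_eq_mul, hCcard]
      have h2 : ∑ p ∈ B, ∑ q ∈ B, (L : ℝ) * ((K : ℝ) / m * (P z p * P z q)) =
          (L * (K / m)) * ((∑ p ∈ B, P z p) * ∑ q ∈ B, P z q) := by
        rw [Finset.sum_mul_sum, Finset.mul_sum]
        refine sum_congr rfl fun p _ => ?_
        rw [Finset.mul_sum]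
        refine sum_congr rfl fun q _ => ?_
        ring
      rw [h2]
      have h3 : (∑ p ∈ B, P z p) * ∑ q ∈ B, P z q ≤ T ^ 2 / z * T :=
        mul_le_mul sP sPT sP0 (by positivity)
      calc (L : ℝ) * (K / m) * ((∑ p ∈ B, P z p) * ∑ q ∈ B, P z q)
          ≤ (L : ℝ) * (K / m) * (T ^ 2 / z * T) := by gcongr
        _ = _ := by ring
    refine (sum_le_sum h1).trans ?_
    rw [← Finset.mul_sum]
    have h4 := sum_inv_le M hM1
    calc (L * (K * (T ^ 2 / z * T))) * ∑ m ∈ A, 1 / (m : ℝ)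
        ≤ (L * (K * (T ^ 2 / z * T))) * 1 := by gcongr
      _ = _ := by ring
  have t2 : ∑ m ∈ A, ∑ p ∈ B, ∑ q ∈ B, ∑ l ∈ C, F2 m p q l ≤ M * (L * (2 * M / K * (T * T))) := by
    have h1 : ∀ m ∈ A, ∑ p ∈ B, ∑ q ∈ B, ∑ l ∈ C, F2 m p q l ≤ L * (2 * M / K * (T * T)) := by
      intro m hm
      rw [hA, mem_Ico] at hm
      have hm2 : (m : ℝ) ≤ 2 * M := by exact_mod_cast hm.2.le
      simp only [F2, sum_const, nsmul_eq_mul, hCcard]
      have h2 : ∑ p ∈ B, ∑ q ∈ B, (L : ℝ) * ((m : ℝ) / K * (Q p * Q q)) =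
          (L * (m / K)) * ((∑ p ∈ B, Q p) * ∑ q ∈ B, Q q) := by
        rw [Finset.sum_mul_sum, Finset.mul_sum]
        refine sum_congr rfl fun p _ => ?_
        rw [Finset.mul_sum]
        refine sum_congr rfl fun q _ => ?_
        ring
      rw [h2]
      have h3 : (∑ p ∈ B, Q p) * ∑ q ∈ B, Q q ≤ T * T := mul_le_mul sQ sQ sQ0 hT0
      calc (L : ℝ) * (m / K) * ((∑ p ∈ B, Q p) * ∑ q ∈ B, Q q)
          ≤ (L : ℝ) * (2 * M / K) * (T * T) := by gcongr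
        _ = _ := by ring
    refine (sum_le_sum h1).trans ?_
    rw [sum_const, nsmul_eq_mul, hA, Nat.card_Ico]
    have : 2 * M - M = M := by omega
    rw [this]
  have aα : ∀ k ∈ D, ∀ l ∈ C, ∑ m ∈ A, ∑ p ∈ B, G0 m k l * Q p ≤ T * T := by
    intro k hk l hl'
    have h1 : ∑ m ∈ A, ∑ p ∈ B, G0 m k l * Q p = (∑ m ∈ A, G0 m k l) * ∑ p ∈ B, Q p := by
      rw [Finset.sum_mul_sum]
    rw [h1]
    have h2 : ∑ m ∈ A, G0 m k l ≤ T := sum_G0_le hT hk hL8 hl' hX6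
    exact mul_le_mul h2 sQ sQ0 hT0
  have bα : ∀ k ∈ D, ∀ l ∈ C, ∑ m ∈ A, ∑ p ∈ B, G1 m p.1 p.2 k l ≤ T ^ 3 := by
    intro k hk l hl'
    exact sum_G1_le hT hk hL8 hl' hX6
  have cD : ∀ a : ℝ, 0 ≤ a → (C.card : ℝ) * ((D.card : ℝ) * (a * (6 * T ^ 2 / z))) ≤
      L * (3 * K * (a * (6 * T ^ 2 / z))) := by
    intro a ha
    rw [hCcard]
    gcongr
  have t3 : ∑ m ∈ A, ∑ p ∈ B, ∑ q ∈ B, ∑ l ∈ C, F3 m p q l ≤
      L * (3 * K * ((T * T) * (6 * T ^ 2 / z))) :=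
    (sum_prod_le' (fun m p k l => G0 m k l * Q p) (fun k p => Nk z k p) (by positivity)
      (fun k p => Nk_nonneg z k p) aα sN).trans (cD _ (by positivity))
  have t4 : ∑ m ∈ A, ∑ p ∈ B, ∑ q ∈ B, ∑ l ∈ C, F4 m p q l ≤
      L * (3 * K * ((T * T) * (6 * T ^ 2 / z))) :=
    (sum_prod_le (fun m p k l => G0 m k l * Q p) (fun k p => Nk z k p) (by positivity)
      (fun k p => Nk_nonneg z k p) aα sN).trans (cD _ (by positivity))
  have t5 : ∑ m ∈ A, ∑ p ∈ B, ∑ q ∈ B, ∑ l ∈ C, F5 m p q l ≤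
      L * (3 * K * (T ^ 3 * (6 * T ^ 2 / z))) :=
    (sum_prod_le (fun m p k l => G1 m p.1 p.2 k l) (fun k p => Nk z k p) (by positivity)
      (fun k p => Nk_nonneg z k p) bα sN).trans (cD _ (by positivity))
  have t6 : ∑ m ∈ A, ∑ p ∈ B, ∑ q ∈ B, ∑ l ∈ C, F6 m p q l ≤
      L * (3 * K * (T ^ 3 * (6 * T ^ 2 / z))) :=
    (sum_prod_le' (fun m p k l => G1 m p.1 p.2 k l) (fun k p => Nk z k p) (by positivity)
      (fun k p => Nk_nonneg z k p) bα sN).trans (cD _ (by positivity))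
  have s1 : ∑ m ∈ A, ∑ p ∈ B, ∑ q ∈ B, ∑ l ∈ C, ∑ l' ∈ C, (if l ≡ l' [MOD m] then
          (F1 m p q l + F2 m p q l + F3 m p q l + F4 m p q l + F5 m p q l) else 0) ≤
      lam * (L * (K * (T ^ 2 / z * T)) + M * (L * (2 * M / K * (T * T))) +
        L * (3 * K * ((T * T) * (6 * T ^ 2 / z))) + L * (3 * K * ((T * T) * (6 * T ^ 2 / z))) +
        L * (3 * K * (T ^ 3 * (6 * T ^ 2 / z)))) := by
    refine (tot_le hl (fun m p q l => F1 m p q l + F2 m p q l + F3 m p q l + F4 m p q l + F5 m p q l)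
      (fun m p q l => ?_)).trans ?_
    · have := nn1 m p q l
      have := nn2 m p q l
      have := nn3 m p q l
      have := nn4 m p q l
      have := nn5 m p q l
      linarith
    · refine mul_le_mul_of_nonneg_left ?_ hlam0
      simp only [Finset.sum_add_distrib]
      exact add_le_add (add_le_add (add_le_add (add_le_add t1 t2) t3) t4) t5
  have s2 : ∑ m ∈ A, ∑ p ∈ B, ∑ q ∈ B, ∑ l ∈ C, ∑ l' ∈ C, (if l ≡ l' [MOD m] then
          F6 m p q l' else 0) ≤ lam * (L * (3 * K * (T ^ 3 * (6 * T ^ 2 / z)))) :=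
    (tot_le' hl F6 nn6).trans (mul_le_mul_of_nonneg_left t6 hlam0)
  -- numbers
  have hpow : ∀ j : ℕ, j ≤ 12 → T ^ j ≤ T ^ 12 := fun j hj => pow_le_pow_right₀ hT1 hj
  calc T ^ 2 * (∑ m ∈ A, ∑ p ∈ B, ∑ q ∈ B, ∑ l ∈ C, ∑ l' ∈ C, (if l ≡ l' [MOD m] then
          (F1 m p q l + F2 m p q l + F3 m p q l + F4 m p q l + F5 m p q l) else 0) +
        ∑ m ∈ A, ∑ p ∈ B, ∑ q ∈ B, ∑ l ∈ C, ∑ l' ∈ C, (if l ≡ l' [MOD m] then
          F6 m p q l' else 0))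
      ≤ T ^ 2 * (lam * (L * (K * (T ^ 2 / z * T)) + M * (L * (2 * M / K * (T * T))) +
        L * (3 * K * ((T * T) * (6 * T ^ 2 / z))) + L * (3 * K * ((T * T) * (6 * T ^ 2 / z))) +
        L * (3 * K * (T ^ 3 * (6 * T ^ 2 / z)))) + lam * (L * (3 * K * (T ^ 3 * (6 * T ^ 2 / z))))) := by
        gcongr
    _ = ((K : ℝ) * L ^ 2 / M) * ((2 * T ^ 5 + 72 * T ^ 6 + 72 * T ^ 7) * (1 / z) +
          4 * T ^ 4 * (M / K * (M / K))) := by
        rw [hlam]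
        field_simp
        ring
    _ ≤ ((K : ℝ) * L ^ 2 / M) * (10000 * T ^ 12 * (1 / z) + 10000 * T ^ 12 * (M / K)) := by
        have h5 := hpow 5 (by norm_num)
        have h6 := hpow 6 (by norm_num)
        have h7 := hpow 7 (by norm_num)
        have h4 := hpow 4 (by norm_num)
        have hT12 : 0 ≤ T ^ 12 := by positivity
        have hMK1 : (M : ℝ) / K ≤ 1 := by
          rw [div_le_one hK0]
          exact hMK
        have hMK0 : 0 ≤ (M : ℝ) / K := by positivity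
        have hmk2 : (M : ℝ) / K * (M / K) ≤ M / K := by nlinarith
        have hx : 2 * T ^ 5 + 72 * T ^ 6 + 72 * T ^ 7 ≤ 10000 * T ^ 12 := by linarith
        have hy : 4 * T ^ 4 * ((M : ℝ) / K * (M / K)) ≤ 10000 * T ^ 12 * (M / K) := by
          refine mul_le_mul (by linarith) hmk2 (by positivity) (by positivity)
        gcongr
    _ = 10000 * T ^ 12 * ((K : ℝ) * L ^ 2 / M) * (1 / z + (M : ℝ) / K) := by ring

end Pool.Agent.ZH.D
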