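import Pool.Agent.Work.ZH.D.Setup
import Pool.Agent.Work.ZH.D.Blocks
import Pool.Agent.Work.ZH.D.DiagCount
import Pool.Agent.Work.ZH.D.Count
import Pool.Agent.Work.ZH.D.Fejer
import Pool.Agent.Work.ZH.D.Phase

/-! # Module T2: the exponential sum part of the mixed sums

Same as T1 with the single modulus `W = m u₁ v₁`: for `l` prime to `W`
`B1 - K/(m u₁ v₁) = ∑_{h ≠ 0} g(W,h) e(-hκ/W)`, `D2 = M U V ≤ W ≤ 8 D2`, `R = m u₁`, `w = v₁`, `ω₀ = V`, `ω = 2V`,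
`phase_single`, `blocks` (`n₀ = V`, `G0 = T`, `a = K/D2`, `b = 2 D2/K`, `P = 4 V T²` by `diag2`), outer variables `(m,j,u₁,(u₂,v₂))` with weights `c(m,u₂,v₂)/φ(u₂ v₂)`,
`∑_{u₂,v₂} 1/φ(u₂ v₂) ≤ T` (`n ≤ τ(n) φ(n)`). -/

namespace Pool.Agent.ZH.D

open Finset

namespace T2

/-- an inverse of `l` modulo `W` -/
theorem exists_inv {l W : ℕ} (hW : W ≠ 0) (h : l.Coprime W) : ∃ κ : ℕ, κ * l ≡ 1 [MOD W] := by
  obtain ⟨n, -, hn⟩ := Nat.exists_mul_mod_eq_of_coprime 1 h hW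
  exact ⟨n, by rw [mul_comm]; exact hn⟩

theorem modEq_inv {l W κ k : ℕ} (hκ : κ * l ≡ 1 [MOD W]) : k * l ≡ 1 [MOD W] ↔ k ≡ κ [MOD W] := by
  constructor
  · intro hk
    have h1 : k * l * κ ≡ 1 * κ [MOD W] := hk.mul_right κ
    have h2 : k * (κ * l) ≡ k * 1 [MOD W] := hκ.mul_left k
    rw [one_mul] at h1
    rw [mul_one, show k * (κ * l) = k * l * κ by ring] at h2
    exact h2.symm.trans h1
  · intro hk
    exact (hk.mul_right l).trans hκ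

/-- the sum `B1` as a sum over a residue class -/
theorem B1_eq {K m u v l κ : ℕ} (hκ : κ * l ≡ 1 [MOD m * u * v]) :
    B1 K m u v l = ∑ k ∈ (range (3 * K)).filter (fun k => k ≡ κ [MOD m * u * v]), tri K (K / 2) k := by
  unfold B1 G1 wt
  rw [sum_filter]
  refine sum_congr rfl fun k _ => ?_
  by_cases h : k ≡ κ [MOD m * u * v]
  · rw [if_pos h, if_pos ((modEq_inv hκ).2 h), mul_one]
  · rw [if_neg h, if_neg (fun h' => h ((modEq_inv hκ).1 h')), mul_zero]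

/-- the size on the right of `T2_bound` -/
noncomputable def E (M U V K L : ℕ) : ℝ :=
  ((K : ℝ) / (M * U * V)) ^ (1 / 2 : ℝ) * (V : ℝ) ^ (1 / 2 : ℝ) +
    ((M * U * V : ℝ) / K) ^ (1 / 8 : ℝ) * (V : ℝ) ^ (15 / 8 : ℝ) * (L : ℝ) ^ (-(3 / 8) : ℝ) *
      ((M : ℝ) * U) ^ (1 / 4 : ℝ)

/-- the size given by `blocks` -/
theorem size_le {M U V K L R : ℕ} {T τ : ℝ} (hM : 1 ≤ M) (hU : 1 ≤ U) (hV : 1 ≤ V) (hK : 1 ≤ K) (hL : 1 ≤ L)
    (hT : 1 ≤ T) (hτ0 : 0 ≤ τ) (hτ : τ ≤ T) (hR : R ≤ 4 * M * U) :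
    20 * T * T * ((L : ℝ) * (4 * V * T ^ 2) ^ (1 / 2 : ℝ) *
        (((K : ℝ) / (M * U * V)) ^ (3 / 4 : ℝ) * (2 * (M * U * V) / K : ℝ) ^ (1 / 4 : ℝ)) +
        (V : ℝ) * (((2 * V : ℕ) : ℝ)) ^ (7 / 8 : ℝ) * (L : ℝ) ^ (5 / 8 : ℝ) * τ ^ (3 / 8 : ℝ) *
          (R : ℝ) ^ (1 / 4 : ℝ) *
          (((K : ℝ) / (M * U * V)) ^ (7 / 16 : ℝ) * (2 * (M * U * V) / K : ℝ) ^ (9 / 16 : ℝ))) ≤
      320 * T ^ 3 * (L * E M U V K L) := by
  have hM' : (0 : ℝ) < M := by exact_mod_cast hM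
  have hU' : (0 : ℝ) < U := by exact_mod_cast hU
  have hV' : (0 : ℝ) < V := by exact_mod_cast hV
  have hK' : (0 : ℝ) < K := by exact_mod_cast hK
  have hL' : (0 : ℝ) < L := by exact_mod_cast hL
  have hT0 : (0 : ℝ) < T := by linarith
  set D : ℝ := (M : ℝ) * U * V with hD
  have hD0 : 0 < D := by positivity
  set q : ℝ := D / K with hq
  have hq0 : 0 < q := by positivity
  have hKD : (K : ℝ) / D = q⁻¹ := by rw [hq, inv_div]
  have e1 : (2 * D / K : ℝ) = 2 * q := by rw [hq]; ring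
  have two_le : ∀ s : ℝ, 0 ≤ s → s ≤ 1 → (2 : ℝ) ^ s ≤ 2 := by
    intro s _ h1
    calc (2 : ℝ) ^ s ≤ 2 ^ (1 : ℝ) := Real.rpow_le_rpow_of_exponent_le (by norm_num) h1
      _ = 2 := Real.rpow_one 2
  have p1 : (4 * (V : ℝ) * T ^ 2) ^ (1 / 2 : ℝ) = 2 * (V : ℝ) ^ (1 / 2 : ℝ) * T := by
    rw [Real.mul_rpow (by positivity) (by positivity), Real.mul_rpow (by norm_num) hV'.le]
    have h4 : (4 : ℝ) ^ (1 / 2 : ℝ) = 2 := by
      rw [show (4 : ℝ) = 2 ^ (2 : ℝ) by norm_num, ← Real.rpow_mul (by norm_num)]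
      norm_num
    have hT2 : (T ^ 2) ^ (1 / 2 : ℝ) = T := by
      rw [← Real.rpow_natCast, ← Real.rpow_mul hT0.le]
      norm_num
    rw [h4, hT2]
  have p2 : ((K : ℝ) / D) ^ (3 / 4 : ℝ) * (2 * D / K : ℝ) ^ (1 / 4 : ℝ) ≤ 2 * ((K : ℝ) / D) ^ (1 / 2 : ℝ) := by
    rw [e1, hKD, Real.mul_rpow (by norm_num) hq0.le, Real.inv_rpow hq0.le, Real.inv_rpow hq0.le,
      ← Real.rpow_neg hq0.le, ← Real.rpow_neg hq0.le]
    calc q ^ (-(3 / 4) : ℝ) * (2 ^ (1 / 4 : ℝ) * q ^ (1 / 4 : ℝ))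
        = 2 ^ (1 / 4 : ℝ) * (q ^ (-(3 / 4) : ℝ) * q ^ (1 / 4 : ℝ)) := by ring
      _ = 2 ^ (1 / 4 : ℝ) * q ^ (-(1 / 2) : ℝ) := by
          rw [← Real.rpow_add hq0]; norm_num
      _ ≤ 2 * q ^ (-(1 / 2) : ℝ) := by
          have := two_le (1 / 4) (by norm_num) (by norm_num)
          gcongr
  have p3 : ((K : ℝ) / D) ^ (7 / 16 : ℝ) * (2 * D / K : ℝ) ^ (9 / 16 : ℝ) ≤ 2 * (D / K) ^ (1 / 8 : ℝ) := by
    rw [e1, hKD, ← hq, Real.mul_rpow (by norm_num) hq0.le, Real.inv_rpow hq0.le, ← Real.rpow_neg hq0.le]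
    calc q ^ (-(7 / 16) : ℝ) * (2 ^ (9 / 16 : ℝ) * q ^ (9 / 16 : ℝ))
        = 2 ^ (9 / 16 : ℝ) * (q ^ (-(7 / 16) : ℝ) * q ^ (9 / 16 : ℝ)) := by ring
      _ = 2 ^ (9 / 16 : ℝ) * q ^ (1 / 8 : ℝ) := by
          rw [← Real.rpow_add hq0]; norm_num
      _ ≤ 2 * q ^ (1 / 8 : ℝ) := by
          have := two_le (9 / 16) (by norm_num) (by norm_num)
          gcongr
  have p4 : (V : ℝ) * (((2 * V : ℕ) : ℝ)) ^ (7 / 8 : ℝ) ≤ 2 * (V : ℝ) ^ (15 / 8 : ℝ) := by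
    push_cast
    rw [Real.mul_rpow (by norm_num) hV'.le]
    calc (V : ℝ) * (2 ^ (7 / 8 : ℝ) * (V : ℝ) ^ (7 / 8 : ℝ))
        = 2 ^ (7 / 8 : ℝ) * ((V : ℝ) ^ (1 : ℝ) * (V : ℝ) ^ (7 / 8 : ℝ)) := by rw [Real.rpow_one]; ring
      _ = 2 ^ (7 / 8 : ℝ) * (V : ℝ) ^ (15 / 8 : ℝ) := by
          rw [← Real.rpow_add hV']; norm_num
      _ ≤ 2 * (V : ℝ) ^ (15 / 8 : ℝ) := by
          have := two_le (7 / 8) (by norm_num) (by norm_num)
          gcongr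
  have p5 : (L : ℝ) ^ (5 / 8 : ℝ) = L * (L : ℝ) ^ (-(3 / 8) : ℝ) := by
    nth_rewrite 2 [← Real.rpow_one (L : ℝ)]
    rw [← Real.rpow_add hL']; norm_num
  have p6 : τ ^ (3 / 8 : ℝ) ≤ T := by
    calc τ ^ (3 / 8 : ℝ) ≤ T ^ (3 / 8 : ℝ) := Real.rpow_le_rpow hτ0 hτ (by norm_num)
      _ ≤ T ^ (1 : ℝ) := Real.rpow_le_rpow_of_exponent_le hT (by norm_num)
      _ = T := Real.rpow_one T
  have p7 : (R : ℝ) ^ (1 / 4 : ℝ) ≤ 2 * ((M : ℝ) * U) ^ (1 / 4 : ℝ) := by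
    have h1 : (R : ℝ) ≤ 4 * ((M : ℝ) * U) := by
      have : (R : ℝ) ≤ ((4 * M * U : ℕ) : ℝ) := by exact_mod_cast hR
      push_cast at this
      linarith
    calc (R : ℝ) ^ (1 / 4 : ℝ) ≤ (4 * ((M : ℝ) * U)) ^ (1 / 4 : ℝ) :=
          Real.rpow_le_rpow (Nat.cast_nonneg _) h1 (by norm_num)
      _ = 4 ^ (1 / 4 : ℝ) * ((M : ℝ) * U) ^ (1 / 4 : ℝ) := Real.mul_rpow (by norm_num) (by positivity)
      _ = 2 ^ (1 / 2 : ℝ) * ((M : ℝ) * U) ^ (1 / 4 : ℝ) := by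
          rw [show (4 : ℝ) = 2 ^ (2 : ℝ) by norm_num, ← Real.rpow_mul (by norm_num)]
          norm_num
      _ ≤ 2 * ((M : ℝ) * U) ^ (1 / 4 : ℝ) := by
          have := two_le (1 / 2) (by norm_num) (by norm_num)
          gcongr
  unfold E
  rw [← hD, p1, p5]
  calc 20 * T * T * ((L : ℝ) * (2 * (V : ℝ) ^ (1 / 2 : ℝ) * T) *
        (((K : ℝ) / D) ^ (3 / 4 : ℝ) * (2 * D / K : ℝ) ^ (1 / 4 : ℝ)) +
        (V : ℝ) * (((2 * V : ℕ) : ℝ)) ^ (7 / 8 : ℝ) * (L * (L : ℝ) ^ (-(3 / 8) : ℝ)) * τ ^ (3 / 8 : ℝ) *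
          (R : ℝ) ^ (1 / 4 : ℝ) *
          (((K : ℝ) / D) ^ (7 / 16 : ℝ) * (2 * D / K : ℝ) ^ (9 / 16 : ℝ)))
      ≤ 20 * T * T * ((L : ℝ) * (2 * (V : ℝ) ^ (1 / 2 : ℝ) * T) *
        (2 * ((K : ℝ) / D) ^ (1 / 2 : ℝ)) +
        (2 * (V : ℝ) ^ (15 / 8 : ℝ)) * (L * (L : ℝ) ^ (-(3 / 8) : ℝ)) * T *
          (2 * ((M : ℝ) * U) ^ (1 / 4 : ℝ)) *
          (2 * (D / K) ^ (1 / 8 : ℝ))) := by
        gcongr
    _ = 80 * T ^ 3 * (L * (((K : ℝ) / D) ^ (1 / 2 : ℝ) * (V : ℝ) ^ (1 / 2 : ℝ))) +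
        160 * T ^ 3 * (L * ((D / K) ^ (1 / 8 : ℝ) * (V : ℝ) ^ (15 / 8 : ℝ) * (L : ℝ) ^ (-(3 / 8) : ℝ) *
          ((M : ℝ) * U) ^ (1 / 4 : ℝ))) := by ring
    _ ≤ 320 * T ^ 3 * (L * (((K : ℝ) / D) ^ (1 / 2 : ℝ) * (V : ℝ) ^ (1 / 2 : ℝ))) +
        320 * T ^ 3 * (L * ((D / K) ^ (1 / 8 : ℝ) * (V : ℝ) ^ (15 / 8 : ℝ) * (L : ℝ) ^ (-(3 / 8) : ℝ) *
          ((M : ℝ) * U) ^ (1 / 4 : ℝ))) := by
        gcongr <;> norm_num
    _ = _ := by ring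

/-- the inner sum -/
theorem inner {M U V K L X : ℕ} {z T : ℝ} {c : ℕ → ℕ → ℕ → ℝ} (S : Setup M U V K L X z T c)
    {m u₁ u₂ v₂ : ℕ} (hm : m ∈ Ico M (2 * M)) (hu₁ : u₁ ∈ Ico U (2 * U)) :
    ∃ Φ : ℕ → ℝ, (∀ l, 0 ≤ Φ l) ∧
      (∀ l l' : ℕ, |∑ v₁ ∈ Ico V (2 * V), (if Gd m u₁ v₁ u₂ v₂ l l' then
          c m u₁ v₁ * (B1 K m u₁ v₁ l - K / ((m : ℝ) * u₁ * v₁)) else 0)| ≤
        Φ l * (if l ≡ l' [MOD m] then 1 else 0)) ∧
      ∑ l ∈ Ico L (2 * L), Φ l ≤ 320 * T ^ 3 * (L * E M U V K L) := by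
  have hM := S.posM
  have hU := S.posU
  have hV := S.posV
  have hK := S.K8
  have hL := S.L8
  have hm1 := mem_Ico.1 hm
  have hu1 := mem_Ico.1 hu₁
  have hm0 : 0 < m := by omega
  have hu0 : 0 < u₁ := by omega
  have hK' : (0 : ℝ) < K := by exact_mod_cast (show 0 < K by omega)
  have hM' : (0 : ℝ) < M := by exact_mod_cast hM
  have hU' : (0 : ℝ) < U := by exact_mod_cast hU
  have hV' : (0 : ℝ) < V := by exact_mod_cast hV
  have hX1 : 1 ≤ X := by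
    have := S.X1
    have h2 : 1 ≤ 6 * K * L := Nat.succ_le_of_lt (by positivity)
    omega
  have hT1 : 1 ≤ T := one_le_T S.tau_le hX1
  -- sizes
  have hV4 : V ≤ V ^ 4 := Nat.le_self_pow (by norm_num) V
  have hV24 : V ^ 2 ≤ V ^ 4 := Nat.pow_le_pow_right hV (by norm_num)
  have hUU : U ≤ U ^ 2 := Nat.le_self_pow (by norm_num) U
  have hX2 : 16 * M * U * V ^ 2 ≤ X := by
    refine le_trans ?_ S.X2
    have h1 : M * U * V ^ 2 ≤ M * U ^ 2 * V ^ 4 := by gcongr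
    nlinarith
  have hMUV : M * U * V ≤ M * U * V ^ 2 := by
    have : V ≤ V ^ 2 := Nat.le_self_pow (by norm_num) V
    gcongr
  have hMU : M * U ≤ M * U * V ^ 2 := Nat.le_mul_of_pos_right _ (by positivity)
  set R : ℕ := m * u₁ with hR
  have hR0 : 0 < R := Nat.mul_pos hm0 hu0
  have : NeZero R := ⟨hR0.ne'⟩
  have hRle : R ≤ 4 * M * U := by
    calc R ≤ (2 * M) * (2 * U) := Nat.mul_le_mul hm1.2.le hu1.2.le
      _ = 4 * M * U := by ring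
  have hRge : M * U ≤ R := Nat.mul_le_mul hm1.1 hu1.1
  have hRX : R ≤ X := by nlinarith
  -- Fejer
  obtain ⟨g, hg0, hg1, hg2, hgs⟩ := fejer K (K / 2) (by omega)
  have hF : ∀ (v : ℕ) (h : ℤ), ∃ F0 : ℕ → ℂ, 0 < v → v.Coprime R → (∀ t, ‖F0 t‖ ≤ 1) ∧
      (∀ t, F0 (t + v) = F0 t) ∧
      (∀ l κ : ℕ, κ * l ≡ 1 [MOD R * v] →
        Pool.Agent.ZH.D.e (-(h * κ : ℝ) / ((R * v : ℕ) : ℝ)) =
          F0 l * kph R (-(h : ZMod R) * (v : ZMod R)⁻¹) (l : ZMod R)) ∧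
      (∀ l : ℕ, ¬ l.Coprime (R * v) →
        F0 l * kph R (-(h : ZMod R) * (v : ZMod R)⁻¹) (l : ZMod R) = 0) := by
    intro v h
    by_cases hv : 0 < v ∧ v.Coprime R
    · obtain ⟨F0, hF0⟩ := phase_single R v hv.1 hv.2 h
      exact ⟨F0, fun _ _ => hF0⟩
    · exact ⟨fun _ => 0, fun h1 h2 => absurd ⟨h1, h2⟩ hv⟩
  choose F0 hF0 using hF
  set S0 := (Ico V (2 * V)).filter (fun v => (u₁ * v).Coprime (u₂ * v₂) ∧ c m u₁ v ≠ 0) with hS0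
  have hS0V : ∀ v ∈ S0, V ≤ v ∧ v < 2 * V := fun v hv => mem_Ico.1 (mem_filter.1 hv).1
  have hS0cop : ∀ v ∈ S0, v.Coprime R := by
    intro v hv
    have h1 := (mem_filter.1 hv).2.2
    have h2 := S.c_cop m u₁ v h1
    have h3 := S.c_cop' m u₁ v h1
    exact Nat.Coprime.mul_right (Nat.Coprime.coprime_mul_left_right h2).symm h3.symm
  have hS0pos : ∀ v ∈ S0, 0 < v := fun v hv => by have := hS0V v hv; omega
  let Φ : ℕ → ℝ := fun l => ‖∑ v ∈ S0, (c m u₁ v : ℂ) *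
    ∑ h ∈ (Icc (-((R * v : ℕ) : ℤ)) ((R * v : ℕ) : ℤ)).filter (fun h => h ≠ 0),
      g (R * v) h * (F0 v h l * kph R (-(h : ZMod R) * (v : ZMod R)⁻¹) ((l : ZMod R) + 0))‖
  refine ⟨Φ, fun l => norm_nonneg _, fun l l' => ?_, ?_⟩
  · -- pointwise
    by_cases hll : l ≡ l' [MOD m]
    swap
    · rw [if_neg hll, mul_zero, sum_eq_zero, abs_zero]
      intro v _
      exact if_neg fun h => hll h.2.2.1
    rw [if_pos hll, mul_one]
    by_cases hgood : l ≠ l' ∧ l'.Coprime (m * u₂ * v₂)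
    swap
    · rw [sum_eq_zero, abs_zero]
      · exact norm_nonneg _
      intro v _
      exact if_neg fun h => hgood ⟨h.2.1, h.2.2.2.2⟩
    have hre : ((∑ v₁ ∈ Ico V (2 * V), (if Gd m u₁ v₁ u₂ v₂ l l' then
          c m u₁ v₁ * (B1 K m u₁ v₁ l - K / ((m : ℝ) * u₁ * v₁)) else 0) : ℝ) : ℂ) =
        ∑ v ∈ S0, (c m u₁ v : ℂ) *
          ∑ h ∈ (Icc (-((R * v : ℕ) : ℤ)) ((R * v : ℕ) : ℤ)).filter (fun h => h ≠ 0),
            g (R * v) h * (F0 v h l * kph R (-(h : ZMod R) * (v : ZMod R)⁻¹) ((l : ZMod R) + 0)) := by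
      rw [Complex.ofReal_sum, hS0, sum_filter]
      refine sum_congr rfl fun v hv => ?_
      have hv0 : 0 < v := by have := (mem_Ico.1 hv).1; omega
      by_cases hv1 : (u₁ * v).Coprime (u₂ * v₂) ∧ c m u₁ v ≠ 0
      swap
      · rw [if_neg hv1]
        split_ifs with hG
        · have : c m u₁ v = 0 := by
            by_contra hcon
            exact hv1 ⟨hG.1, hcon⟩
          rw [this]; simp
        · simp
      rw [if_pos hv1]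
      have hvS : v ∈ S0 := mem_filter.2 ⟨hv, hv1⟩
      by_cases hcop : l.Coprime (R * v)
      · have hG : Gd m u₁ v u₂ v₂ l l' := ⟨hv1.1, hgood.1, hll, hcop, hgood.2⟩
        rw [if_pos hG]
        have hW : R * v ≠ 0 := (Nat.mul_pos hR0 hv0).ne'
        obtain ⟨κ, hκ⟩ := exists_inv hW hcop
        have h1 := hgs (R * v) (3 * K) (Nat.one_le_iff_ne_zero.2 hW) (by omega) κ
        rw [← B1_eq (m := m) (u := u₁) (v := v) (l := l) hκ] at h1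
        rw [Complex.ofReal_mul, Complex.ofReal_sub, h1]
        congr 1
        have h2 : (K : ℂ) / ((R * v : ℕ) : ℂ) = (((K : ℝ) / ((m : ℝ) * u₁ * v) : ℝ) : ℂ) := by
          rw [hR]; push_cast; rfl
        rw [h2, add_sub_cancel_left]
        refine sum_congr rfl fun h _ => ?_
        rw [(hF0 v h hv0 (hS0cop v hvS)).2.2.1 l κ hκ, add_zero]
      · rw [if_neg (fun hG => hcop hG.2.2.2.1)]
        rw [sum_eq_zero (fun h _ => by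
          rw [add_zero, (hF0 v h hv0 (hS0cop v hvS)).2.2.2 l hcop, mul_zero]), mul_zero,
          Complex.ofReal_zero]
    have h5 : |∑ v₁ ∈ Ico V (2 * V), (if Gd m u₁ v₁ u₂ v₂ l l' then
          c m u₁ v₁ * (B1 K m u₁ v₁ l - K / ((m : ℝ) * u₁ * v₁)) else 0)| =
        ‖((∑ v₁ ∈ Ico V (2 * V), (if Gd m u₁ v₁ u₂ v₂ l l' then
          c m u₁ v₁ * (B1 K m u₁ v₁ l - K / ((m : ℝ) * u₁ * v₁)) else 0) : ℝ) : ℂ)‖ := by
      rw [Complex.norm_real, Real.norm_eq_abs]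
    rw [h5, hre]
  · -- blocks
    have hWlo : ∀ v ∈ S0, ((M : ℝ) * U * V) ≤ ((R * v : ℕ) : ℝ) := by
      intro v hv
      have : M * U * V ≤ R * v := Nat.mul_le_mul hRge (hS0V v hv).1
      exact_mod_cast this
    have hWhi : ∀ v ∈ S0, R * v ≤ 8 * M * U * V := by
      intro v hv
      calc R * v ≤ (4 * M * U) * (2 * V) := Nat.mul_le_mul hRle (hS0V v hv).2.le
        _ = 8 * M * U * V := by ring
    have hWpos : ∀ v ∈ S0, 1 ≤ R * v := fun v hv => Nat.mul_pos hR0 (hS0pos v hv)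
    have hD0 : (0 : ℝ) < (M : ℝ) * U * V := by positivity
    have hb := blocks S0 R L (4 * M * U * V) X hL 0 (fun v => v) (fun v => R * v) F0
      (fun v => (c m u₁ v : ℂ)) (fun v => g (R * v)) T ((K : ℝ) / (M * U * V)) (2 * (M * U * V) / K) T
      (4 * V * T ^ 2) V (2 * V) V (by linarith) (by positivity) (by positivity) (by positivity) hV
      (by
        have h1 : 4 * V ^ 2 ≤ L := by
          have := S.VL
          nlinarith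
        have h2 : ((4 * V ^ 2 : ℕ) : ℝ) ≤ L := by exact_mod_cast h1
        push_cast at h2 ⊢
        nlinarith)
      (fun v hv => (hS0V v hv).1) (fun v hv => (hS0V v hv).2.le) hS0cop
      (fun v hv h t => (hF0 v h (hS0pos v hv) (hS0cop v hv)).1 t)
      (fun v hv h t => (hF0 v h (hS0pos v hv) (hS0cop v hv)).2.1 t)
      (fun v hv => by
        rw [Complex.norm_real, Real.norm_eq_abs, abs_of_nonneg (S.c_nonneg _ _ _)]
        exact S.c_le _ _ _)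
      (by
        have := S.LV
        rw [← sq]
        have h1 : M ≤ R := le_trans (Nat.le_mul_of_pos_right _ hU) hRge
        omega)
      (fun v hv h _ => by
        refine (hg0 (R * v) h (hWpos v hv)).trans ?_
        exact div_le_div_of_nonneg_left hK'.le hD0 (hWlo v hv))
      (fun v hv h hh => by
        refine (hg1 (R * v) h (hWpos v hv) hh).trans ?_
        have hh' : (0 : ℝ) < (h : ℝ) ^ 2 := by
          have : (h : ℝ) ≠ 0 := by exact_mod_cast hh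
          positivity
        have h1 : ((R * v : ℕ) : ℝ) ≤ 8 * (M * U * V) := by
          have : ((R * v : ℕ) : ℝ) ≤ ((8 * M * U * V : ℕ) : ℝ) := by exact_mod_cast hWhi v hv
          push_cast at this ⊢
          linarith
        calc ((R * v : ℕ) : ℝ) / (4 * K * (h : ℝ) ^ 2) ≤ 8 * (M * U * V) / (4 * K * (h : ℝ) ^ 2) := by gcongr
          _ = 2 * (M * U * V) / K / (h : ℝ) ^ 2 := by field_simp; ring)
      (fun v hv h hh => by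
        refine hg2 (R * v) h (hWpos v hv) ?_
        have h1 := hWhi v hv
        have h2 : ((R * v : ℕ) : ℤ) ≤ ((8 * M * U * V : ℕ) : ℤ) := by exact_mod_cast h1
        have h3 : ((8 * M * U * V : ℕ) : ℤ) = 2 * ((4 * M * U * V : ℕ) : ℤ) := by push_cast; ring
        omega)
      S.tau_le (by nlinarith) hX1
      (fun Y hY1 hY2 J hJ => by
        have h1 : 2 * Y * (V : ℝ) ≤ X := by
          have h2 : 2 * Y * (V : ℝ) ≤ 2 * (2 * ((4 * M * U * V : ℕ) : ℝ)) * V := by gcongr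
          have h3 : 2 * (2 * ((4 * M * U * V : ℕ) : ℝ)) * V = ((16 * M * U * V ^ 2 : ℕ) : ℝ) := by
            push_cast; ring
          rw [h3] at h2
          exact h2.trans (by exact_mod_cast hX2)
        have h4 := diag2 V X T Y J hV hY1 S.tau_le hJ h1
        have h5 : 4 * Y * (V : ℝ) * T ^ 2 = 4 * V * T ^ 2 * Y := by ring
        rw [h5] at h4
        refine le_trans ?_ h4
        have h6 : S0 ⊆ Ico V (2 * V) := filter_subset _ _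
        exact Nat.cast_le.2 (card_le_card (filter_subset_filter _
          (product_subset_product (product_subset_product_left h6) (product_subset_product_left h6)))))
      ((card_le_card (filter_subset _ _)).trans (by rw [Nat.card_Ico]; omega))
    refine hb.trans ?_
    have htR : tau R ≤ T := S.tau_le R hR0 hRX
    have htR0 : 0 ≤ tau R := by unfold tau; positivity
    exact size_le hM hU hV (by omega) (by omega) hT1 htR0 htR hRle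

end T2

open T2

theorem T2_bound {M U V K L X : ℕ} {z T : ℝ} {c : ℕ → ℕ → ℕ → ℝ} (S : Setup M U V K L X z T c) :
    ∑ m ∈ Ico M (2 * M), ∑ u₁ ∈ Ico U (2 * U), ∑ u₂ ∈ Ico U (2 * U), ∑ v₂ ∈ Ico V (2 * V),
      ∑ l ∈ Ico L (2 * L), ∑ l' ∈ Ico L (2 * L), c m u₂ v₂ / (((u₂ * v₂).totient : ℕ) : ℝ) *
        |∑ v₁ ∈ Ico V (2 * V), (if Gd m u₁ v₁ u₂ v₂ l l' then
          c m u₁ v₁ * (B1 K m u₁ v₁ l - K / ((m : ℝ) * u₁ * v₁)) else 0)| ≤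
      10000 * T ^ 8 * ((L : ℝ) ^ 2 * (U : ℝ)) *
        (((K : ℝ) / (M * U * V)) ^ (1 / 2 : ℝ) * (V : ℝ) ^ (1 / 2 : ℝ) +
          ((M * U * V : ℝ) / K) ^ (1 / 8 : ℝ) * (V : ℝ) ^ (15 / 8 : ℝ) * (L : ℝ) ^ (-(3 / 8) : ℝ) *
            ((M : ℝ) * U) ^ (1 / 4 : ℝ)) := by
  have hM := S.posM
  have hU := S.posU
  have hV := S.posV
  have hM' : (0 : ℝ) < M := by exact_mod_cast hM
  have hU' : (0 : ℝ) < U := by exact_mod_cast hU
  have hV' : (0 : ℝ) < V := by exact_mod_cast hV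
  have hX1 : 1 ≤ X := by
    have := S.X1
    have hK := S.K8
    have hL := S.L8
    have h2 : 1 ≤ 6 * K * L := Nat.succ_le_of_lt (by positivity)
    omega
  have hT1 : 1 ≤ T := one_le_T S.tau_le hX1
  have hT0 : 0 ≤ T := by linarith
  have hUVX : 4 * U * V ≤ X := by
    refine le_trans ?_ S.X2
    have h1 : U * V ≤ M * U ^ 2 * V ^ 4 := by
      have h2 : U ≤ U ^ 2 := Nat.le_self_pow (by norm_num) U
      have h3 : V ≤ V ^ 4 := Nat.le_self_pow (by norm_num) V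
      calc U * V ≤ U ^ 2 * V ^ 4 := Nat.mul_le_mul h2 h3
        _ ≤ M * (U ^ 2 * V ^ 4) := Nat.le_mul_of_pos_left _ hM
        _ = _ := by ring
    nlinarith
  have hE0 : 0 ≤ E M U V K L := by unfold E; positivity
  set Q : ℝ := 2 * (L / M) * (320 * T ^ 3 * (L * E M U V K L)) with hQ
  have hQ0 : 0 ≤ Q := by positivity
  have hmain : ∀ m ∈ Ico M (2 * M), ∀ u₁ ∈ Ico U (2 * U), ∀ u₂ ∈ Ico U (2 * U), ∀ v₂ ∈ Ico V (2 * V),
      ∑ l ∈ Ico L (2 * L), ∑ l' ∈ Ico L (2 * L), c m u₂ v₂ / (((u₂ * v₂).totient : ℕ) : ℝ) *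
        |∑ v₁ ∈ Ico V (2 * V), (if Gd m u₁ v₁ u₂ v₂ l l' then
          c m u₁ v₁ * (B1 K m u₁ v₁ l - K / ((m : ℝ) * u₁ * v₁)) else 0)| ≤
      T * Q * (1 / (((u₂ * v₂).totient : ℕ) : ℝ)) := by
    intro m hm u₁ hu₁ u₂ _ v₂ _
    obtain ⟨Φ, hΦ0, hΦ1, hΦ2⟩ := T2.inner S (u₂ := u₂) (v₂ := v₂) hm hu₁
    have hm1 := mem_Ico.1 hm
    have hcount : ∀ l, ∑ l' ∈ Ico L (2 * L), (if l ≡ l' [MOD m] then (1 : ℝ) else 0) ≤ 2 * (L / M) := by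
      intro l
      have h1 := sum_modEq_le L m l (by omega)
      have h2 : (L : ℝ) / m ≤ L / M := by
        have : (M : ℝ) ≤ m := by exact_mod_cast hm1.1
        gcongr
      have h3 : (1 : ℝ) ≤ L / M := by
        rw [le_div_iff₀ hM', one_mul]
        exact_mod_cast S.ML
      linarith
    have h4 : ∑ l ∈ Ico L (2 * L), ∑ l' ∈ Ico L (2 * L),
        |∑ v₁ ∈ Ico V (2 * V), (if Gd m u₁ v₁ u₂ v₂ l l' then
          c m u₁ v₁ * (B1 K m u₁ v₁ l - K / ((m : ℝ) * u₁ * v₁)) else 0)| ≤ Q := by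
      calc ∑ l ∈ Ico L (2 * L), ∑ l' ∈ Ico L (2 * L),
          |∑ v₁ ∈ Ico V (2 * V), (if Gd m u₁ v₁ u₂ v₂ l l' then
            c m u₁ v₁ * (B1 K m u₁ v₁ l - K / ((m : ℝ) * u₁ * v₁)) else 0)|
          ≤ ∑ l ∈ Ico L (2 * L), ∑ l' ∈ Ico L (2 * L), Φ l * (if l ≡ l' [MOD m] then 1 else 0) :=
            sum_le_sum fun l _ => sum_le_sum fun l' _ => hΦ1 l l'
        _ = ∑ l ∈ Ico L (2 * L), Φ l * ∑ l' ∈ Ico L (2 * L), (if l ≡ l' [MOD m] then (1 : ℝ) else 0) := by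
            simp_rw [mul_sum]
        _ ≤ ∑ l ∈ Ico L (2 * L), Φ l * (2 * (L / M)) :=
            sum_le_sum fun l _ => mul_le_mul_of_nonneg_left (hcount l) (hΦ0 l)
        _ = 2 * (L / M) * ∑ l ∈ Ico L (2 * L), Φ l := by rw [← sum_mul, mul_comm]
        _ ≤ Q := mul_le_mul_of_nonneg_left hΦ2 (by positivity)
    have h5 : ∑ l ∈ Ico L (2 * L), ∑ l' ∈ Ico L (2 * L), c m u₂ v₂ / (((u₂ * v₂).totient : ℕ) : ℝ) *
        |∑ v₁ ∈ Ico V (2 * V), (if Gd m u₁ v₁ u₂ v₂ l l' then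
          c m u₁ v₁ * (B1 K m u₁ v₁ l - K / ((m : ℝ) * u₁ * v₁)) else 0)| =
        c m u₂ v₂ / (((u₂ * v₂).totient : ℕ) : ℝ) * ∑ l ∈ Ico L (2 * L), ∑ l' ∈ Ico L (2 * L),
        |∑ v₁ ∈ Ico V (2 * V), (if Gd m u₁ v₁ u₂ v₂ l l' then
          c m u₁ v₁ * (B1 K m u₁ v₁ l - K / ((m : ℝ) * u₁ * v₁)) else 0)| := by
      simp_rw [mul_sum]
    rw [h5]
    have h6 : c m u₂ v₂ / (((u₂ * v₂).totient : ℕ) : ℝ) ≤ T * (1 / (((u₂ * v₂).totient : ℕ) : ℝ)) := by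
      rw [div_eq_mul_one_div]
      exact mul_le_mul_of_nonneg_right (S.c_le _ _ _) (by positivity)
    have h7 : 0 ≤ c m u₂ v₂ / (((u₂ * v₂).totient : ℕ) : ℝ) :=
      div_nonneg (S.c_nonneg _ _ _) (Nat.cast_nonneg _)
    calc _ ≤ c m u₂ v₂ / (((u₂ * v₂).totient : ℕ) : ℝ) * Q := mul_le_mul_of_nonneg_left h4 h7
      _ ≤ (T * (1 / (((u₂ * v₂).totient : ℕ) : ℝ))) * Q := mul_le_mul_of_nonneg_right h6 hQ0
      _ = _ := by ring
  have hphi := sum_phi_le S.tau_le hU hV hUVX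
  have hE : ((K : ℝ) / (M * U * V)) ^ (1 / 2 : ℝ) * (V : ℝ) ^ (1 / 2 : ℝ) +
          ((M * U * V : ℝ) / K) ^ (1 / 8 : ℝ) * (V : ℝ) ^ (15 / 8 : ℝ) * (L : ℝ) ^ (-(3 / 8) : ℝ) *
            ((M : ℝ) * U) ^ (1 / 4 : ℝ) = E M U V K L := rfl
  rw [hE]
  calc ∑ m ∈ Ico M (2 * M), ∑ u₁ ∈ Ico U (2 * U), ∑ u₂ ∈ Ico U (2 * U), ∑ v₂ ∈ Ico V (2 * V),
      ∑ l ∈ Ico L (2 * L), ∑ l' ∈ Ico L (2 * L), c m u₂ v₂ / (((u₂ * v₂).totient : ℕ) : ℝ) *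
        |∑ v₁ ∈ Ico V (2 * V), (if Gd m u₁ v₁ u₂ v₂ l l' then
          c m u₁ v₁ * (B1 K m u₁ v₁ l - K / ((m : ℝ) * u₁ * v₁)) else 0)|
      ≤ ∑ m ∈ Ico M (2 * M), ∑ u₁ ∈ Ico U (2 * U), ∑ u₂ ∈ Ico U (2 * U), ∑ v₂ ∈ Ico V (2 * V),
        T * Q * (1 / (((u₂ * v₂).totient : ℕ) : ℝ)) :=
        sum_le_sum fun m hm => sum_le_sum fun u₁ hu₁ => sum_le_sum fun u₂ hu₂ => sum_le_sum fun v₂ hv₂ =>
          hmain m hm u₁ hu₁ u₂ hu₂ v₂ hv₂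
    _ = (M : ℝ) * (U * (T * Q * ∑ u₂ ∈ Ico U (2 * U), ∑ v₂ ∈ Ico V (2 * V),
        1 / (((u₂ * v₂).totient : ℕ) : ℝ))) := by
        simp_rw [← mul_sum]
        rw [sum_const, sum_const, Nat.card_Ico, Nat.card_Ico, nsmul_eq_mul, nsmul_eq_mul]
        have h1 : 2 * M - M = M := by omega
        have h2 : 2 * U - U = U := by omega
        rw [h1, h2]
        ring
    _ ≤ (M : ℝ) * (U * (T * Q * T)) := by gcongr
    _ = 640 * T ^ 5 * ((L : ℝ) ^ 2 * U) * E M U V K L := by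
        rw [hQ]; field_simp; ring
    _ ≤ 10000 * T ^ 8 * ((L : ℝ) ^ 2 * U) * E M U V K L := by
        have h1 : T ^ 5 ≤ T ^ 8 := pow_le_pow_right₀ hT1 (by norm_num)
        have h2 : 640 * T ^ 5 ≤ 10000 * T ^ 8 := by
          have : 0 ≤ T ^ 8 := by positivity
          linarith
        gcongr

end Pool.Agent.ZH.D
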