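import Pool.Agent.Work.ZH.D.T1
import Pool.Agent.Work.ZH.D.T2
import Pool.Agent.Work.ZH.D.Bad
import Pool.Agent.Work.ZH.D.Rest

/-! # Module Disp: the dispersion is small

Open the square: `D1 = Re ∑ c c' β(l) conj β(l') (A11 - A12 - A21 + A22)`. For good tuples
`A11 - A12 - A21 + A22 = (A11 - mu) - (B1 - K/(m n₁))/φ₂ - (B1' - K/(m n₂))/φ₁ + rest`. -/

namespace Pool.Agent.ZH.D

open Finset

/-- relative size of the dispersion -/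
noncomputable def rho (M U V K L : ℕ) (z : ℝ) : ℝ :=
  1 / z + (M : ℝ) / L + (M : ℝ) / K +
    ((M * U ^ 2 * V ^ 2 : ℝ) / K) ^ (1 / 2 : ℝ) / V +
    ((M * U ^ 2 * V ^ 2 : ℝ) / K) ^ (9 / 8 : ℝ) * (V : ℝ) ^ (7 / 4 : ℝ) * (L : ℝ) ^ (-(3 / 8) : ℝ) *
      (M : ℝ) ^ (1 / 4 : ℝ) * (U : ℝ) ^ (1 / 2 : ℝ) +
    ((M * U * V : ℝ) / K) ^ (1 / 2 : ℝ) / (V : ℝ) ^ (1 / 2 : ℝ) +
    ((M * U * V : ℝ) / K) ^ (9 / 8 : ℝ) * (V : ℝ) ^ (7 / 8 : ℝ) * (L : ℝ) ^ (-(3 / 8) : ℝ) *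
      ((M : ℝ) * U) ^ (1 / 4 : ℝ)

/-! ## Elementary facts -/

lemma disp_wt_nonneg (K k : ℕ) : 0 ≤ wt K k := by
  unfold wt tri; positivity

lemma disp_G1_nonneg (m u v k l : ℕ) : 0 ≤ G1 m u v k l := by
  unfold G1; split_ifs <;> norm_num

lemma disp_G2_nonneg (m u v k l : ℕ) : 0 ≤ G2 m u v k l := by
  unfold G2; split_ifs <;> positivity

lemma disp_A11_nonneg (K m u₁ v₁ u₂ v₂ l l' : ℕ) : 0 ≤ A11 K m u₁ v₁ u₂ v₂ l l' :=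
  sum_nonneg fun _ _ => mul_nonneg (disp_wt_nonneg _ _)
    (mul_nonneg (disp_G1_nonneg _ _ _ _ _) (disp_G1_nonneg _ _ _ _ _))

lemma disp_A12_nonneg (K m u₁ v₁ u₂ v₂ l l' : ℕ) : 0 ≤ A12 K m u₁ v₁ u₂ v₂ l l' :=
  sum_nonneg fun _ _ => mul_nonneg (disp_wt_nonneg _ _)
    (mul_nonneg (disp_G1_nonneg _ _ _ _ _) (disp_G2_nonneg _ _ _ _ _))

lemma disp_A21_nonneg (K m u₁ v₁ u₂ v₂ l l' : ℕ) : 0 ≤ A21 K m u₁ v₁ u₂ v₂ l l' :=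
  sum_nonneg fun _ _ => mul_nonneg (disp_wt_nonneg _ _)
    (mul_nonneg (disp_G2_nonneg _ _ _ _ _) (disp_G1_nonneg _ _ _ _ _))

lemma disp_A22_nonneg (K m u₁ v₁ u₂ v₂ l l' : ℕ) : 0 ≤ A22 K m u₁ v₁ u₂ v₂ l l' :=
  sum_nonneg fun _ _ => mul_nonneg (disp_wt_nonneg _ _)
    (mul_nonneg (disp_G2_nonneg _ _ _ _ _) (disp_G2_nonneg _ _ _ _ _))

lemma disp_swap22 {A B C D : Finset ℕ} (f : ℕ → ℕ → ℕ → ℕ → ℝ) :
    ∑ a ∈ A, ∑ b ∈ B, ∑ c ∈ C, ∑ d ∈ D, f a b c d =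
      ∑ c ∈ C, ∑ d ∈ D, ∑ a ∈ A, ∑ b ∈ B, f a b c d := by
  calc ∑ a ∈ A, ∑ b ∈ B, ∑ c ∈ C, ∑ d ∈ D, f a b c d
      = ∑ a ∈ A, ∑ c ∈ C, ∑ b ∈ B, ∑ d ∈ D, f a b c d :=
        sum_congr rfl (fun a _ => sum_comm)
    _ = ∑ c ∈ C, ∑ a ∈ A, ∑ b ∈ B, ∑ d ∈ D, f a b c d := sum_comm
    _ = ∑ c ∈ C, ∑ a ∈ A, ∑ d ∈ D, ∑ b ∈ B, f a b c d :=
        sum_congr rfl (fun c _ => sum_congr rfl (fun a _ => sum_comm))
    _ = ∑ c ∈ C, ∑ d ∈ D, ∑ a ∈ A, ∑ b ∈ B, f a b c d :=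
        sum_congr rfl (fun c _ => sum_comm)

lemma disp_swap12 {A B C : Finset ℕ} (f : ℕ → ℕ → ℕ → ℝ) :
    ∑ a ∈ A, ∑ b ∈ B, ∑ c ∈ C, f a b c = ∑ b ∈ B, ∑ c ∈ C, ∑ a ∈ A, f a b c := by
  calc ∑ a ∈ A, ∑ b ∈ B, ∑ c ∈ C, f a b c = ∑ b ∈ B, ∑ a ∈ A, ∑ c ∈ C, f a b c := sum_comm
    _ = ∑ b ∈ B, ∑ c ∈ C, ∑ a ∈ A, f a b c := sum_congr rfl (fun b _ => sum_comm)

lemma disp_sq {ι : Type*} (I : Finset ι) (f : ι → ℂ) :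
    ‖∑ i ∈ I, f i‖ ^ 2 = ∑ i ∈ I, ∑ j ∈ I, (f i * (starRingEnd ℂ) (f j)).re := by
  have h : (‖∑ i ∈ I, f i‖ ^ 2 : ℝ) = ((∑ i ∈ I, f i) * (starRingEnd ℂ) (∑ i ∈ I, f i)).re := by
    rw [Complex.mul_conj, Complex.ofReal_re, Complex.normSq_eq_norm_sq]
  rw [h, map_sum, sum_mul_sum, Complex.re_sum]
  exact sum_congr rfl (fun i _ => Complex.re_sum _ _)

/-- the real part of `β l * conj (β l')` -/
noncomputable def bb (β : ℕ → ℂ) (l l' : ℕ) : ℝ := (β l * (starRingEnd ℂ) (β l')).re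

lemma disp_bb_le (β : ℕ → ℂ) (hβ : ∀ l, ‖β l‖ ≤ 1) (l l' : ℕ) : |bb β l l'| ≤ 1 := by
  unfold bb
  refine (Complex.abs_re_le_norm _).trans ?_
  rw [norm_mul, RCLike.norm_conj]
  exact mul_le_one₀ (hβ l) (norm_nonneg _) (hβ l')

lemma disp_bb_mul (β : ℕ → ℂ) (hβ : ∀ l, ‖β l‖ ≤ 1) (l l' : ℕ) (x : ℝ) : bb β l l' * x ≤ |x| := by
  refine (le_abs_self _).trans ?_
  rw [abs_mul]
  exact mul_le_of_le_one_left (abs_nonneg _) (disp_bb_le β hβ l l')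

/-- the square opened, fixed `m` -/
lemma disp_open (m U V K L : ℕ) (c : ℕ → ℕ → ℕ → ℝ) (β : ℕ → ℂ) :
    ∑ k ∈ range (3 * K), wt K k *
      ‖∑ u ∈ Ico U (2 * U), ∑ v ∈ Ico V (2 * V), (c m u v : ℂ) *
        ∑ l ∈ Ico L (2 * L), ((G1 m u v k l - G2 m u v k l : ℝ) : ℂ) * β l‖ ^ 2 =
    ∑ u₁ ∈ Ico U (2 * U), ∑ v₁ ∈ Ico V (2 * V), ∑ u₂ ∈ Ico U (2 * U), ∑ v₂ ∈ Ico V (2 * V),
      ∑ l ∈ Ico L (2 * L), ∑ l' ∈ Ico L (2 * L), bb β l l' * (c m u₁ v₁ * c m u₂ v₂ *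
        (A11 K m u₁ v₁ u₂ v₂ l l' - A12 K m u₁ v₁ u₂ v₂ l l' - A21 K m u₁ v₁ u₂ v₂ l l' +
          A22 K m u₁ v₁ u₂ v₂ l l')) := by
  have h1 : ∀ k ∈ range (3 * K), wt K k *
      ‖∑ u ∈ Ico U (2 * U), ∑ v ∈ Ico V (2 * V), (c m u v : ℂ) *
        ∑ l ∈ Ico L (2 * L), ((G1 m u v k l - G2 m u v k l : ℝ) : ℂ) * β l‖ ^ 2 =
      ∑ u₁ ∈ Ico U (2 * U), ∑ v₁ ∈ Ico V (2 * V), ∑ u₂ ∈ Ico U (2 * U), ∑ v₂ ∈ Ico V (2 * V),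
      ∑ l ∈ Ico L (2 * L), ∑ l' ∈ Ico L (2 * L), wt K k * (bb β l l' * (c m u₁ v₁ * c m u₂ v₂ *
        ((G1 m u₁ v₁ k l - G2 m u₁ v₁ k l) * (G1 m u₂ v₂ k l' - G2 m u₂ v₂ k l')))) := by
    intro k _
    have e1 : ∑ u ∈ Ico U (2 * U), ∑ v ∈ Ico V (2 * V), (c m u v : ℂ) *
        ∑ l ∈ Ico L (2 * L), ((G1 m u v k l - G2 m u v k l : ℝ) : ℂ) * β l =
        ∑ p ∈ Ico U (2 * U) ×ˢ (Ico V (2 * V) ×ˢ Ico L (2 * L)),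
          (((c m p.1 p.2.1) * (G1 m p.1 p.2.1 k p.2.2 - G2 m p.1 p.2.1 k p.2.2) : ℝ) : ℂ) *
            β p.2.2 := by
      rw [sum_product]
      refine sum_congr rfl (fun u _ => ?_)
      rw [sum_product]
      refine sum_congr rfl (fun v _ => ?_)
      rw [mul_sum]
      refine sum_congr rfl (fun l _ => ?_)
      push_cast
      ring
    rw [e1, disp_sq, sum_product, mul_sum]
    refine sum_congr rfl (fun u₁ _ => ?_)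
    rw [sum_product, mul_sum]
    refine sum_congr rfl (fun v₁ _ => ?_)
    rw [mul_sum]
    rw [← disp_swap12 (fun l u₂ v₂ => ∑ l' ∈ Ico L (2 * L), wt K k * (bb β l l' *
      (c m u₁ v₁ * c m u₂ v₂ *
        ((G1 m u₁ v₁ k l - G2 m u₁ v₁ k l) * (G1 m u₂ v₂ k l' - G2 m u₂ v₂ k l')))))]
    refine sum_congr rfl (fun l _ => ?_)
    rw [sum_product, mul_sum]
    refine sum_congr rfl (fun u₂ _ => ?_)
    rw [sum_product, mul_sum]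
    refine sum_congr rfl (fun v₂ _ => ?_)
    rw [mul_sum]
    refine sum_congr rfl (fun l' _ => ?_)
    unfold bb
    rw [map_mul, Complex.conj_ofReal]
    rw [show ∀ (a b : ℝ) (x y : ℂ), ((a : ℂ) * x) * ((b : ℂ) * y) = ((a * b : ℝ) : ℂ) * (x * y) by
      intro a b x y; push_cast; ring]
    rw [Complex.re_ofReal_mul]
    ring
  rw [sum_congr rfl h1, sum_comm]
  refine sum_congr rfl (fun u₁ _ => ?_)
  rw [sum_comm]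
  refine sum_congr rfl (fun v₁ _ => ?_)
  rw [sum_comm]
  refine sum_congr rfl (fun u₂ _ => ?_)
  rw [sum_comm]
  refine sum_congr rfl (fun v₂ _ => ?_)
  rw [sum_comm]
  refine sum_congr rfl (fun l _ => ?_)
  rw [sum_comm]
  refine sum_congr rfl (fun l' _ => ?_)
  unfold A11 A12 A21 A22
  rw [← sum_sub_distrib, ← sum_sub_distrib, ← sum_add_distrib, mul_sum, mul_sum]
  refine sum_congr rfl (fun k _ => ?_)
  ring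

lemma disp_T_ge {M U V K L X : ℕ} {z T : ℝ} {c : ℕ → ℕ → ℕ → ℝ} (S : Setup M U V K L X z T c) :
    1 ≤ T := by
  have hX : 1 ≤ X := by
    refine le_trans ?_ S.X1
    have h1 := S.K8
    have h2 := S.L8
    nlinarith
  have := S.tau_le 1 one_pos hX
  simpa [tau] using this

/-- the four parts of the sum for good tuples -/
lemma disp_split (K m u₁ v₁ u₂ v₂ l l' : ℕ) (a b : ℝ) :
    a * (b * (A11 K m u₁ v₁ u₂ v₂ l l' - A12 K m u₁ v₁ u₂ v₂ l l' - A21 K m u₁ v₁ u₂ v₂ l l' +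
      A22 K m u₁ v₁ u₂ v₂ l l')) =
    a * (b * (A11 K m u₁ v₁ u₂ v₂ l l' - mu K m u₁ v₁ u₂ v₂)) +
      -a * (b * ((B1 K m u₁ v₁ l - K / ((m : ℝ) * u₁ * v₁)) / (((u₂ * v₂).totient : ℕ) : ℝ))) +
      -a * (b * ((B1 K m u₂ v₂ l' - K / ((m : ℝ) * u₂ * v₂)) / (((u₁ * v₁).totient : ℕ) : ℝ))) +
      a * (b * rest K m u₁ v₁ u₂ v₂ l l') := by
  unfold rest
  ring

lemma disp_bad (K m u₁ v₁ u₂ v₂ l l' : ℕ) (a b : ℝ) (ha : |a| ≤ 1) (hb : 0 ≤ b) :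
    a * (b * (A11 K m u₁ v₁ u₂ v₂ l l' - A12 K m u₁ v₁ u₂ v₂ l l' - A21 K m u₁ v₁ u₂ v₂ l l' +
      A22 K m u₁ v₁ u₂ v₂ l l')) ≤
    b * (A11 K m u₁ v₁ u₂ v₂ l l' + A12 K m u₁ v₁ u₂ v₂ l l' + A21 K m u₁ v₁ u₂ v₂ l l' +
      A22 K m u₁ v₁ u₂ v₂ l l') := by
  have h1 := disp_A11_nonneg K m u₁ v₁ u₂ v₂ l l'
  have h2 := disp_A12_nonneg K m u₁ v₁ u₂ v₂ l l'
  have h3 := disp_A21_nonneg K m u₁ v₁ u₂ v₂ l l'
  have h4 := disp_A22_nonneg K m u₁ v₁ u₂ v₂ l l'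
  refine (le_abs_self _).trans ?_
  rw [abs_mul, abs_mul, abs_of_nonneg hb]
  refine (mul_le_of_le_one_left (by positivity) ha).trans ?_
  refine mul_le_mul_of_nonneg_left ?_ hb
  rw [abs_le]
  constructor <;> linarith

lemma disp_sum3 {M U V K L : ℕ} {c : ℕ → ℕ → ℕ → ℝ}
    (β : ℕ → ℂ) (hβ : ∀ l, ‖β l‖ ≤ 1) (σ : ℝ) (hσ : |σ| ≤ 1) :
    ∑ m ∈ Ico M (2 * M), ∑ u₁ ∈ Ico U (2 * U), ∑ v₁ ∈ Ico V (2 * V), ∑ u₂ ∈ Ico U (2 * U),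
      ∑ v₂ ∈ Ico V (2 * V), ∑ l ∈ Ico L (2 * L), ∑ l' ∈ Ico L (2 * L),
        (if Gd m u₁ v₁ u₂ v₂ l l' then σ * bb β l l' * (c m u₁ v₁ * c m u₂ v₂ *
          (A11 K m u₁ v₁ u₂ v₂ l l' - mu K m u₁ v₁ u₂ v₂)) else 0) ≤
    ∑ m ∈ Ico M (2 * M), ∑ u₁ ∈ Ico U (2 * U), ∑ u₂ ∈ Ico U (2 * U),
      ∑ l ∈ Ico L (2 * L), ∑ l' ∈ Ico L (2 * L),
        |∑ v₁ ∈ Ico V (2 * V), ∑ v₂ ∈ Ico V (2 * V), (if Gd m u₁ v₁ u₂ v₂ l l' then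
          c m u₁ v₁ * c m u₂ v₂ * (A11 K m u₁ v₁ u₂ v₂ l l' - mu K m u₁ v₁ u₂ v₂) else 0)| := by
  refine sum_le_sum (fun m _ => sum_le_sum (fun u₁ _ => ?_))
  rw [sum_comm]
  refine sum_le_sum (fun u₂ _ => ?_)
  rw [disp_swap22]
  refine sum_le_sum (fun l _ => sum_le_sum (fun l' _ => ?_))
  have e : ∑ v₁ ∈ Ico V (2 * V), ∑ v₂ ∈ Ico V (2 * V), (if Gd m u₁ v₁ u₂ v₂ l l' then
      σ * bb β l l' * (c m u₁ v₁ * c m u₂ v₂ *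
          (A11 K m u₁ v₁ u₂ v₂ l l' - mu K m u₁ v₁ u₂ v₂)) else 0) =
      (σ * bb β l l') * ∑ v₁ ∈ Ico V (2 * V), ∑ v₂ ∈ Ico V (2 * V), (if Gd m u₁ v₁ u₂ v₂ l l' then
          c m u₁ v₁ * c m u₂ v₂ * (A11 K m u₁ v₁ u₂ v₂ l l' - mu K m u₁ v₁ u₂ v₂) else 0) := by
    rw [mul_sum]
    refine sum_congr rfl (fun v₁ _ => ?_)
    rw [mul_sum]
    refine sum_congr rfl (fun v₂ _ => ?_)
    split_ifs
    · rfl
    · ring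
  rw [e]
  refine (le_abs_self _).trans ?_
  rw [abs_mul]
  refine mul_le_of_le_one_left (abs_nonneg _) ?_
  rw [abs_mul]
  exact mul_le_one₀ hσ (abs_nonneg _) (disp_bb_le β hβ l l')

lemma disp_sum4 {M U V K L X : ℕ} {z T : ℝ} {c : ℕ → ℕ → ℕ → ℝ} (S : Setup M U V K L X z T c)
    (b : ℕ → ℕ → ℝ) (hb : ∀ l l', |b l l'| ≤ 1) :
    ∑ m ∈ Ico M (2 * M), ∑ u₁ ∈ Ico U (2 * U), ∑ v₁ ∈ Ico V (2 * V), ∑ u₂ ∈ Ico U (2 * U),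
      ∑ v₂ ∈ Ico V (2 * V), ∑ l ∈ Ico L (2 * L), ∑ l' ∈ Ico L (2 * L),
        (if Gd m u₁ v₁ u₂ v₂ l l' then b l l' * (c m u₁ v₁ * c m u₂ v₂ *
          ((B1 K m u₁ v₁ l - K / ((m : ℝ) * u₁ * v₁)) / (((u₂ * v₂).totient : ℕ) : ℝ))) else 0) ≤
    ∑ m ∈ Ico M (2 * M), ∑ u₁ ∈ Ico U (2 * U), ∑ u₂ ∈ Ico U (2 * U), ∑ v₂ ∈ Ico V (2 * V),
      ∑ l ∈ Ico L (2 * L), ∑ l' ∈ Ico L (2 * L), c m u₂ v₂ / (((u₂ * v₂).totient : ℕ) : ℝ) *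
        |∑ v₁ ∈ Ico V (2 * V), (if Gd m u₁ v₁ u₂ v₂ l l' then
          c m u₁ v₁ * (B1 K m u₁ v₁ l - K / ((m : ℝ) * u₁ * v₁)) else 0)| := by
  refine sum_le_sum (fun m _ => sum_le_sum (fun u₁ _ => ?_))
  rw [sum_comm]
  refine sum_le_sum (fun u₂ _ => ?_)
  rw [sum_comm]
  refine sum_le_sum (fun v₂ _ => ?_)
  rw [disp_swap12]
  refine sum_le_sum (fun l _ => sum_le_sum (fun l' _ => ?_))
  have e : ∑ v₁ ∈ Ico V (2 * V), (if Gd m u₁ v₁ u₂ v₂ l l' then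
      b l l' * (c m u₁ v₁ * c m u₂ v₂ *
          ((B1 K m u₁ v₁ l - K / ((m : ℝ) * u₁ * v₁)) / (((u₂ * v₂).totient : ℕ) : ℝ))) else 0) =
      (c m u₂ v₂ / (((u₂ * v₂).totient : ℕ) : ℝ)) * (b l l' *
        ∑ v₁ ∈ Ico V (2 * V), (if Gd m u₁ v₁ u₂ v₂ l l' then
          c m u₁ v₁ * (B1 K m u₁ v₁ l - K / ((m : ℝ) * u₁ * v₁)) else 0)) := by
    rw [mul_sum, mul_sum]
    refine sum_congr rfl (fun v₁ _ => ?_)
    split_ifs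
    · ring
    · ring
  rw [e]
  refine mul_le_mul_of_nonneg_left ?_ (div_nonneg (S.c_nonneg _ _ _) (Nat.cast_nonneg _))
  refine (le_abs_self _).trans ?_
  rw [abs_mul]
  exact mul_le_of_le_one_left (abs_nonneg _) (hb l l')

lemma disp_gd_symm (m u₁ v₁ u₂ v₂ l l' : ℕ) : Gd m u₁ v₁ u₂ v₂ l l' ↔ Gd m u₂ v₂ u₁ v₁ l' l := by
  unfold Gd
  constructor
  · rintro ⟨h1, h2, h3, h4, h5⟩
    exact ⟨h1.symm, h2.symm, h3.symm, h5, h4⟩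
  · rintro ⟨h1, h2, h3, h4, h5⟩
    exact ⟨h1.symm, h2.symm, h3.symm, h5, h4⟩

lemma disp_swap_all (U V L : ℕ) (f : ℕ → ℕ → ℕ → ℕ → ℕ → ℕ → ℝ) :
    ∑ u₁ ∈ Ico U (2 * U), ∑ v₁ ∈ Ico V (2 * V), ∑ u₂ ∈ Ico U (2 * U),
      ∑ v₂ ∈ Ico V (2 * V), ∑ l ∈ Ico L (2 * L), ∑ l' ∈ Ico L (2 * L), f u₁ v₁ u₂ v₂ l l' =
    ∑ u₁ ∈ Ico U (2 * U), ∑ v₁ ∈ Ico V (2 * V), ∑ u₂ ∈ Ico U (2 * U),
      ∑ v₂ ∈ Ico V (2 * V), ∑ l ∈ Ico L (2 * L), ∑ l' ∈ Ico L (2 * L), f u₂ v₂ u₁ v₁ l' l := by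
  rw [disp_swap22]
  refine sum_congr rfl (fun u₁ _ => sum_congr rfl (fun v₁ _ => sum_congr rfl (fun u₂ _ =>
    sum_congr rfl (fun v₂ _ => ?_))))
  rw [sum_comm]

lemma disp_sum5 {M U V K L X : ℕ} {z T : ℝ} {c : ℕ → ℕ → ℕ → ℝ} (S : Setup M U V K L X z T c)
    (b : ℕ → ℕ → ℝ) (hb : ∀ l l', |b l l'| ≤ 1) :
    ∑ m ∈ Ico M (2 * M), ∑ u₁ ∈ Ico U (2 * U), ∑ v₁ ∈ Ico V (2 * V), ∑ u₂ ∈ Ico U (2 * U),
      ∑ v₂ ∈ Ico V (2 * V), ∑ l ∈ Ico L (2 * L), ∑ l' ∈ Ico L (2 * L),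
        (if Gd m u₁ v₁ u₂ v₂ l l' then b l l' * (c m u₁ v₁ * c m u₂ v₂ *
          ((B1 K m u₂ v₂ l' - K / ((m : ℝ) * u₂ * v₂)) / (((u₁ * v₁).totient : ℕ) : ℝ))) else 0) ≤
    ∑ m ∈ Ico M (2 * M), ∑ u₁ ∈ Ico U (2 * U), ∑ u₂ ∈ Ico U (2 * U), ∑ v₂ ∈ Ico V (2 * V),
      ∑ l ∈ Ico L (2 * L), ∑ l' ∈ Ico L (2 * L), c m u₂ v₂ / (((u₂ * v₂).totient : ℕ) : ℝ) *
        |∑ v₁ ∈ Ico V (2 * V), (if Gd m u₁ v₁ u₂ v₂ l l' then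
          c m u₁ v₁ * (B1 K m u₁ v₁ l - K / ((m : ℝ) * u₁ * v₁)) else 0)| := by
  refine le_trans (le_of_eq ?_) (disp_sum4 (K := K) S (fun l l' => b l' l) (fun l l' => hb l' l))
  refine sum_congr rfl (fun m _ => ?_)
  rw [disp_swap_all]
  refine sum_congr rfl (fun u₁ _ => sum_congr rfl (fun v₁ _ => sum_congr rfl (fun u₂ _ =>
    sum_congr rfl (fun v₂ _ => sum_congr rfl (fun l _ => sum_congr rfl (fun l' _ => ?_))))))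
  by_cases h : Gd m u₁ v₁ u₂ v₂ l l'
  · rw [if_pos h, if_pos ((disp_gd_symm _ _ _ _ _ _ _).1 h)]
    ring
  · rw [if_neg h, if_neg (fun h' => h ((disp_gd_symm _ _ _ _ _ _ _).2 h'))]

lemma disp_term {M U V K L X : ℕ} {z T : ℝ} {c : ℕ → ℕ → ℕ → ℝ} (S : Setup M U V K L X z T c)
    (β : ℕ → ℂ) (hβ : ∀ l, ‖β l‖ ≤ 1) (m u₁ v₁ u₂ v₂ l l' : ℕ) :
    bb β l l' * (c m u₁ v₁ * c m u₂ v₂ *
        (A11 K m u₁ v₁ u₂ v₂ l l' - A12 K m u₁ v₁ u₂ v₂ l l' - A21 K m u₁ v₁ u₂ v₂ l l' +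
          A22 K m u₁ v₁ u₂ v₂ l l')) ≤
      (if Gd m u₁ v₁ u₂ v₂ l l' then 1 * bb β l l' * (c m u₁ v₁ * c m u₂ v₂ *
          (A11 K m u₁ v₁ u₂ v₂ l l' - mu K m u₁ v₁ u₂ v₂)) else 0) +
      (if Gd m u₁ v₁ u₂ v₂ l l' then (-bb β l l') * (c m u₁ v₁ * c m u₂ v₂ *
          ((B1 K m u₁ v₁ l - K / ((m : ℝ) * u₁ * v₁)) / (((u₂ * v₂).totient : ℕ) : ℝ))) else 0) +
      (if Gd m u₁ v₁ u₂ v₂ l l' then (-bb β l l') * (c m u₁ v₁ * c m u₂ v₂ *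
          ((B1 K m u₂ v₂ l' - K / ((m : ℝ) * u₂ * v₂)) / (((u₁ * v₁).totient : ℕ) : ℝ))) else 0) +
      (if Gd m u₁ v₁ u₂ v₂ l l' then 0 else c m u₁ v₁ * c m u₂ v₂ *
          (A11 K m u₁ v₁ u₂ v₂ l l' + A12 K m u₁ v₁ u₂ v₂ l l' + A21 K m u₁ v₁ u₂ v₂ l l' +
            A22 K m u₁ v₁ u₂ v₂ l l')) +
      (if Gd m u₁ v₁ u₂ v₂ l l' then c m u₁ v₁ * c m u₂ v₂ * |rest K m u₁ v₁ u₂ v₂ l l'| else 0) := by
  have hc : 0 ≤ c m u₁ v₁ * c m u₂ v₂ := mul_nonneg (S.c_nonneg _ _ _) (S.c_nonneg _ _ _)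
  by_cases h : Gd m u₁ v₁ u₂ v₂ l l'
  · simp only [if_pos h]
    rw [disp_split, one_mul, add_zero]
    refine add_le_add le_rfl ?_
    refine (disp_bb_mul β hβ l l' _).trans ?_
    rw [abs_mul, abs_of_nonneg hc]
  · simp only [if_neg h]
    rw [zero_add, zero_add, zero_add, add_zero]
    exact disp_bad K m u₁ v₁ u₂ v₂ l l' _ _ (disp_bb_le β hβ l l') hc

lemma disp_num1 {M U V K L : ℝ} (hM : 0 < M) (hU : 0 < U) (hV : 0 < V) (hK : 0 < K) (hL : 0 < L) :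
    (L ^ 2 * U ^ 2) * ((K / (M * U ^ 2 * V ^ 2)) ^ (1 / 2 : ℝ) * V +
          ((M * U ^ 2 * V ^ 2) / K) ^ (1 / 8 : ℝ) * V ^ (15 / 4 : ℝ) * L ^ (-(3 / 8) : ℝ) *
            M ^ (1 / 4 : ℝ) * U ^ (1 / 2 : ℝ)) =
      (K * L ^ 2 / M) * (((M * U ^ 2 * V ^ 2) / K) ^ (1 / 2 : ℝ) / V +
    ((M * U ^ 2 * V ^ 2) / K) ^ (9 / 8 : ℝ) * V ^ (7 / 4 : ℝ) * L ^ (-(3 / 8) : ℝ) *
      M ^ (1 / 4 : ℝ) * U ^ (1 / 2 : ℝ)) := by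
  set q : ℝ := (M * U ^ 2 * V ^ 2) / K with hq
  have hq0 : 0 < q := by positivity
  have e1 : K / (M * U ^ 2 * V ^ 2) = q⁻¹ := by rw [hq, inv_div]
  have e2 : K * L ^ 2 / M = L ^ 2 * U ^ 2 * V ^ 2 / q := by
    rw [hq]; field_simp
  have e3 : q⁻¹ ^ (1 / 2 : ℝ) = q ^ (1 / 2 : ℝ) / q := by
    have h1 : q ^ (1 / 2 : ℝ) * q ^ (1 / 2 : ℝ) = q := by
      rw [← Real.rpow_add hq0]; norm_num
    have h2 : 0 < q ^ (1 / 2 : ℝ) := by positivity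
    rw [Real.inv_rpow hq0.le, eq_div_iff hq0.ne', inv_mul_eq_iff_eq_mul₀ h2.ne', h1]
  have e4 : q ^ (9 / 8 : ℝ) = q * q ^ (1 / 8 : ℝ) := by
    nth_rewrite 2 [← Real.rpow_one q]
    rw [← Real.rpow_add hq0]
    norm_num
  have e5 : V ^ (15 / 4 : ℝ) = V ^ 2 * V ^ (7 / 4 : ℝ) := by
    rw [← Real.rpow_natCast, ← Real.rpow_add hV]
    norm_num
  rw [e1, e2, e3, e4, e5]
  field_simp

lemma disp_num2 {M U V K L : ℝ} (hM : 0 < M) (hU : 0 < U) (hV : 0 < V) (hK : 0 < K) (hL : 0 < L) :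
    (L ^ 2 * U) * ((K / (M * U * V)) ^ (1 / 2 : ℝ) * V ^ (1 / 2 : ℝ) +
          ((M * U * V) / K) ^ (1 / 8 : ℝ) * V ^ (15 / 8 : ℝ) * L ^ (-(3 / 8) : ℝ) *
            (M * U) ^ (1 / 4 : ℝ)) =
      (K * L ^ 2 / M) * (((M * U * V) / K) ^ (1 / 2 : ℝ) / V ^ (1 / 2 : ℝ) +
    ((M * U * V) / K) ^ (9 / 8 : ℝ) * V ^ (7 / 8 : ℝ) * L ^ (-(3 / 8) : ℝ) *
      (M * U) ^ (1 / 4 : ℝ)) := by
  set q : ℝ := (M * U * V) / K with hq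
  have hq0 : 0 < q := by positivity
  have e1 : K / (M * U * V) = q⁻¹ := by rw [hq, inv_div]
  have e2 : K * L ^ 2 / M = L ^ 2 * U * V / q := by
    rw [hq]; field_simp
  have e3 : q⁻¹ ^ (1 / 2 : ℝ) = q ^ (1 / 2 : ℝ) / q := by
    have h1 : q ^ (1 / 2 : ℝ) * q ^ (1 / 2 : ℝ) = q := by
      rw [← Real.rpow_add hq0]; norm_num
    have h2 : 0 < q ^ (1 / 2 : ℝ) := by positivity
    rw [Real.inv_rpow hq0.le, eq_div_iff hq0.ne', inv_mul_eq_iff_eq_mul₀ h2.ne', h1]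
  have e4 : q ^ (9 / 8 : ℝ) = q * q ^ (1 / 8 : ℝ) := by
    nth_rewrite 2 [← Real.rpow_one q]
    rw [← Real.rpow_add hq0]
    norm_num
  have e5 : V ^ (15 / 8 : ℝ) = V * V ^ (7 / 8 : ℝ) := by
    nth_rewrite 2 [← Real.rpow_one V]
    rw [← Real.rpow_add hV]
    norm_num
  have e6 : V = V ^ (1 / 2 : ℝ) * V ^ (1 / 2 : ℝ) := by
    rw [← Real.rpow_add hV]
    norm_num
  have hV2 : 0 < V ^ (1 / 2 : ℝ) := by positivity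
  rw [e1, e2, e3, e4, e5]
  field_simp
  generalize V ^ (1 / 2 : ℝ) = w at *
  subst e6
  ring

theorem D1_le {M U V K L X : ℕ} {z T : ℝ} {c : ℕ → ℕ → ℕ → ℝ} (S : Setup M U V K L X z T c)
    (β : ℕ → ℂ) (hβ : ∀ l, ‖β l‖ ≤ 1) :
    D1 M U V K L c β ≤ 100000 * T ^ 12 * ((K : ℝ) * L ^ 2 / M) * rho M U V K L z := by
  have hT : 1 ≤ T := disp_T_ge S
  have hM : (0 : ℝ) < M := by have := S.posM; exact_mod_cast this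
  have hU : (0 : ℝ) < U := by have := S.posU; exact_mod_cast this
  have hV : (0 : ℝ) < V := by have := S.posV; exact_mod_cast this
  have hK : (0 : ℝ) < K := by have := S.K8; exact_mod_cast (by omega : 0 < K)
  have hL : (0 : ℝ) < L := by have := S.L8; exact_mod_cast (by omega : 0 < L)
  have hz : 0 < z := lt_of_lt_of_le one_pos S.z1
  have h1 := T1_bound S
  have h2 := T2_bound S
  have h3 := Bad_bound S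
  have h4 := Rest_bound S
  have s3 := disp_sum3 (M := M) (U := U) (V := V) (K := K) (L := L) (c := c) β hβ 1 (by norm_num)
  have s4 := disp_sum4 S (fun l l' => -bb β l l') (fun l l' => by
    rw [abs_neg]; exact disp_bb_le β hβ l l')
  have s5 := disp_sum5 S (fun l l' => -bb β l l') (fun l l' => by
    rw [abs_neg]; exact disp_bb_le β hβ l l')
  have n1 := disp_num1 hM hU hV hK hL
  have n2 := disp_num2 hM hU hV hK hL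
  have key : D1 M U V K L c β ≤
      10000 * T ^ 8 * ((L : ℝ) ^ 2 * (U : ℝ) ^ 2) *
        (((K : ℝ) / (M * U ^ 2 * V ^ 2)) ^ (1 / 2 : ℝ) * V +
          ((M * U ^ 2 * V ^ 2 : ℝ) / K) ^ (1 / 8 : ℝ) * (V : ℝ) ^ (15 / 4 : ℝ) * (L : ℝ) ^ (-(3 / 8) : ℝ) *
            (M : ℝ) ^ (1 / 4 : ℝ) * (U : ℝ) ^ (1 / 2 : ℝ)) +
      10000 * T ^ 8 * ((L : ℝ) ^ 2 * (U : ℝ)) *
        (((K : ℝ) / (M * U * V)) ^ (1 / 2 : ℝ) * (V : ℝ) ^ (1 / 2 : ℝ) +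
          ((M * U * V : ℝ) / K) ^ (1 / 8 : ℝ) * (V : ℝ) ^ (15 / 8 : ℝ) * (L : ℝ) ^ (-(3 / 8) : ℝ) *
            ((M : ℝ) * U) ^ (1 / 4 : ℝ)) +
      10000 * T ^ 8 * ((L : ℝ) ^ 2 * (U : ℝ)) *
        (((K : ℝ) / (M * U * V)) ^ (1 / 2 : ℝ) * (V : ℝ) ^ (1 / 2 : ℝ) +
          ((M * U * V : ℝ) / K) ^ (1 / 8 : ℝ) * (V : ℝ) ^ (15 / 8 : ℝ) * (L : ℝ) ^ (-(3 / 8) : ℝ) *
            ((M : ℝ) * U) ^ (1 / 4 : ℝ)) +
      10000 * T ^ 12 * ((K : ℝ) * L ^ 2 / M) * (1 / z + (M : ℝ) / L) +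
      10000 * T ^ 12 * ((K : ℝ) * L ^ 2 / M) * (1 / z + (M : ℝ) / K) := by
    refine le_trans ?_ (add_le_add (add_le_add (add_le_add (add_le_add (s3.trans h1) (s4.trans h2))
      (s5.trans h2)) h3) h4)
    unfold D1
    simp only [← sum_add_distrib]
    refine sum_le_sum (fun m _ => ?_)
    rw [disp_open]
    refine sum_le_sum (fun u₁ _ => sum_le_sum (fun v₁ _ => sum_le_sum (fun u₂ _ =>
      sum_le_sum (fun v₂ _ => sum_le_sum (fun l _ => sum_le_sum (fun l' _ => ?_))))))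
    exact disp_term S β hβ m u₁ v₁ u₂ v₂ l l'
  refine key.trans ?_
  have hTp : T ^ 8 ≤ T ^ 12 := pow_le_pow_right₀ hT (by norm_num)
  rw [mul_assoc (10000 * T ^ 8), n1, mul_assoc (10000 * T ^ 8), n2]
  unfold rho
  set X1 : ℝ := (K : ℝ) * L ^ 2 / M with hX1
  have hX10 : 0 < X1 := by positivity
  set a1 : ℝ := 1 / z with ha1
  set a2 : ℝ := (M : ℝ) / L with ha2
  set a3 : ℝ := (M : ℝ) / K with ha3
  set a4 : ℝ := ((M * U ^ 2 * V ^ 2 : ℝ) / K) ^ (1 / 2 : ℝ) / V with ha4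
  set a5 : ℝ := ((M * U ^ 2 * V ^ 2 : ℝ) / K) ^ (9 / 8 : ℝ) * (V : ℝ) ^ (7 / 4 : ℝ) *
    (L : ℝ) ^ (-(3 / 8) : ℝ) * (M : ℝ) ^ (1 / 4 : ℝ) * (U : ℝ) ^ (1 / 2 : ℝ) with ha5
  set a6 : ℝ := ((M * U * V : ℝ) / K) ^ (1 / 2 : ℝ) / (V : ℝ) ^ (1 / 2 : ℝ) with ha6
  set a7 : ℝ := ((M * U * V : ℝ) / K) ^ (9 / 8 : ℝ) * (V : ℝ) ^ (7 / 8 : ℝ) *
    (L : ℝ) ^ (-(3 / 8) : ℝ) * ((M : ℝ) * U) ^ (1 / 4 : ℝ) with ha7
  have p1 : 0 ≤ a1 := by positivity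
  have p2 : 0 ≤ a2 := by positivity
  have p3 : 0 ≤ a3 := by positivity
  have p4 : 0 ≤ a4 := by positivity
  have p5 : 0 ≤ a5 := by positivity
  have p6 : 0 ≤ a6 := by positivity
  have p7 : 0 ≤ a7 := by positivity
  have q1 : 10000 * T ^ 8 * (X1 * (a4 + a5)) ≤ 10000 * T ^ 12 * (X1 * (a4 + a5)) := by
    gcongr
  have q2 : 10000 * T ^ 8 * (X1 * (a6 + a7)) ≤ 10000 * T ^ 12 * (X1 * (a6 + a7)) := by
    gcongr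
  have hTX : 0 ≤ T ^ 12 * X1 := by positivity
  have hTX1 := mul_nonneg hTX p1
  have hTX2 := mul_nonneg hTX p2
  have hTX3 := mul_nonneg hTX p3
  have hTX4 := mul_nonneg hTX p4
  have hTX5 := mul_nonneg hTX p5
  have hTX6 := mul_nonneg hTX p6
  have hTX7 := mul_nonneg hTX p7
  linarith

lemma disp_D1_ge {M U V K L : ℕ} (hK : 8 ≤ K) (c : ℕ → ℕ → ℕ → ℝ) (β : ℕ → ℂ) :
    ∑ m ∈ Ico M (2 * M), ∑ k ∈ Ico K (2 * K),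
      ‖∑ u ∈ Ico U (2 * U), ∑ v ∈ Ico V (2 * V), (c m u v : ℂ) *
        ∑ l ∈ Ico L (2 * L), ((G1 m u v k l - G2 m u v k l : ℝ) : ℂ) * β l‖ ^ 2 ≤
      4 * D1 M U V K L c β := by
  unfold D1
  rw [mul_sum]
  refine sum_le_sum (fun m _ => ?_)
  rw [mul_sum]
  have hsub : Ico K (2 * K) ⊆ range (3 * K) := by
    intro k hk
    rw [mem_Ico] at hk
    rw [mem_range]
    omega
  refine le_trans ?_ (sum_le_sum_of_subset_of_nonneg hsub (fun k _ _ =>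
    mul_nonneg (by norm_num) (mul_nonneg (disp_wt_nonneg K k) (sq_nonneg _))))
  refine sum_le_sum (fun k hk => ?_)
  rw [mem_Ico] at hk
  have h := quarter_le_tri K k hK hk.1 hk.2.le
  have hw : 1 / 4 ≤ wt K k := h
  have := mul_le_mul_of_nonneg_right hw (sq_nonneg ‖∑ u ∈ Ico U (2 * U), ∑ v ∈ Ico V (2 * V),
    (c m u v : ℂ) * ∑ l ∈ Ico L (2 * L), ((G1 m u v k l - G2 m u v k l : ℝ) : ℂ) * β l‖)
  linarith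

/-- the bilinear form compared with the modulus `m` only: power saving -/
theorem E1 {M U V K L X : ℕ} {z T : ℝ} {c : ℕ → ℕ → ℕ → ℝ} (S : Setup M U V K L X z T c)
    (α β : ℕ → ℂ) (hα : ∀ k, ‖α k‖ ≤ 1) (hβ : ∀ l, ‖β l‖ ≤ 1) :
    ‖∑ m ∈ Ico M (2 * M), ∑ u ∈ Ico U (2 * U), ∑ v ∈ Ico V (2 * V), (c m u v : ℂ) *
        ∑ k ∈ Ico K (2 * K), ∑ l ∈ Ico L (2 * L), α k * β l * ((G1 m u v k l - G2 m u v k l : ℝ) : ℂ)‖ ≤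
      1000 * T ^ 6 * ((K : ℝ) * L) * (rho M U V K L z) ^ (1 / 2 : ℝ) := by
  have hT : 1 ≤ T := disp_T_ge S
  have hM : (0 : ℝ) < M := by have := S.posM; exact_mod_cast this
  have hU : (0 : ℝ) < U := by have := S.posU; exact_mod_cast this
  have hV : (0 : ℝ) < V := by have := S.posV; exact_mod_cast this
  have hK : (0 : ℝ) < K := by have := S.K8; exact_mod_cast (by omega : 0 < K)
  have hL : (0 : ℝ) < L := by have := S.L8; exact_mod_cast (by omega : 0 < L)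
  have hz : 0 < z := lt_of_lt_of_le one_pos S.z1
  have hrho : 0 ≤ rho M U V K L z := by
    unfold rho
    positivity
  set F : ℕ → ℕ → ℂ := fun m k => ∑ u ∈ Ico U (2 * U), ∑ v ∈ Ico V (2 * V), (c m u v : ℂ) *
        ∑ l ∈ Ico L (2 * L), ((G1 m u v k l - G2 m u v k l : ℝ) : ℂ) * β l with hF
  have e1 : ∑ m ∈ Ico M (2 * M), ∑ u ∈ Ico U (2 * U), ∑ v ∈ Ico V (2 * V), (c m u v : ℂ) *
        ∑ k ∈ Ico K (2 * K), ∑ l ∈ Ico L (2 * L), α k * β l * ((G1 m u v k l - G2 m u v k l : ℝ) : ℂ) =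
      ∑ m ∈ Ico M (2 * M), ∑ k ∈ Ico K (2 * K), α k * F m k := by
    refine sum_congr rfl (fun m _ => ?_)
    have e2 : ∀ k ∈ Ico K (2 * K), α k * F m k = ∑ u ∈ Ico U (2 * U), ∑ v ∈ Ico V (2 * V),
        (c m u v : ℂ) * ∑ l ∈ Ico L (2 * L), α k * β l * ((G1 m u v k l - G2 m u v k l : ℝ) : ℂ) := by
      intro k _
      rw [hF]
      simp only [mul_sum]
      refine sum_congr rfl (fun u _ => sum_congr rfl (fun v _ => sum_congr rfl (fun l _ => ?_)))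
      ring
    rw [sum_congr rfl e2]
    symm
    rw [sum_comm]
    refine sum_congr rfl (fun u _ => ?_)
    rw [sum_comm]
    refine sum_congr rfl (fun v _ => ?_)
    rw [mul_sum]
  rw [e1]
  have b1 : ‖∑ m ∈ Ico M (2 * M), ∑ k ∈ Ico K (2 * K), α k * F m k‖ ≤
      ∑ p ∈ Ico M (2 * M) ×ˢ Ico K (2 * K), ‖F p.1 p.2‖ := by
    rw [sum_product]
    refine (norm_sum_le _ _).trans (sum_le_sum (fun m _ => ?_))
    refine (norm_sum_le _ _).trans (sum_le_sum (fun k _ => ?_))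
    rw [norm_mul]
    exact mul_le_of_le_one_left (norm_nonneg _) (hα k)
  have b2 : (∑ p ∈ Ico M (2 * M) ×ˢ Ico K (2 * K), ‖F p.1 p.2‖) ^ 2 ≤
      ((M : ℝ) * K) * ∑ p ∈ Ico M (2 * M) ×ˢ Ico K (2 * K), ‖F p.1 p.2‖ ^ 2 := by
    have h := sq_sum_le_card_mul_sum_sq (s := Ico M (2 * M) ×ˢ Ico K (2 * K))
      (f := fun p : ℕ × ℕ => ‖F p.1 p.2‖)
    have hc : ((Ico M (2 * M) ×ˢ Ico K (2 * K)).card : ℝ) = (M : ℝ) * K := by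
      rw [card_product, Nat.card_Ico, Nat.card_Ico]
      have h1 : 2 * M - M = M := by omega
      have h2 : 2 * K - K = K := by omega
      rw [h1, h2]
      push_cast
      ring
    rw [hc] at h
    exact h
  have b3 : ∑ p ∈ Ico M (2 * M) ×ˢ Ico K (2 * K), ‖F p.1 p.2‖ ^ 2 ≤
      4 * (100000 * T ^ 12 * ((K : ℝ) * L ^ 2 / M) * rho M U V K L z) := by
    rw [sum_product]
    refine (disp_D1_ge S.K8 c β).trans ?_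
    have := D1_le S β hβ
    linarith
  refine b1.trans ?_
  have hr : (rho M U V K L z) ^ (1 / 2 : ℝ) * (rho M U V K L z) ^ (1 / 2 : ℝ) = rho M U V K L z := by
    rw [← Real.rpow_add_of_nonneg hrho (by norm_num) (by norm_num)]
    norm_num
  refine abs_le_of_sq_le_sq' ?_ (by positivity) |>.2
  refine b2.trans ((mul_le_mul_of_nonneg_left b3 (by positivity)).trans ?_)
  have e3 : (1000 * T ^ 6 * ((K : ℝ) * L) * (rho M U V K L z) ^ (1 / 2 : ℝ)) ^ 2 =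
      1000000 * (T ^ 12 * ((K : ℝ) * L) ^ 2 * rho M U V K L z) := by
    rw [show (1000 * T ^ 6 * ((K : ℝ) * L) * (rho M U V K L z) ^ (1 / 2 : ℝ)) ^ 2 =
      1000000 * (T ^ 12 * ((K : ℝ) * L) ^ 2 * ((rho M U V K L z) ^ (1 / 2 : ℝ) *
        (rho M U V K L z) ^ (1 / 2 : ℝ))) by ring, hr]
  rw [e3]
  have e4 : (M : ℝ) * K * (4 * (100000 * T ^ 12 * ((K : ℝ) * L ^ 2 / M) * rho M U V K L z)) =
      400000 * (T ^ 12 * ((K : ℝ) * L) ^ 2 * rho M U V K L z) := by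
    field_simp
    ring
  rw [e4]
  have : 0 ≤ T ^ 12 * ((K : ℝ) * L) ^ 2 * rho M U V K L z := by positivity
  linarith

end Pool.Agent.ZH.D
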