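import Pool.Agent.Work.ZH.D.Defs

/-! # Module Energy (any modulus, no squarefreeness, no CRT)

Proof. `φ(R) energy(A) = ∑_{u unit} energy(u A) ≤ ∑_{v mod R} energy(v A)
  = R #{(r,x,y) : x, y, x+r, y+r units, A ((x+r)⁻¹ - x⁻¹ - (y+r)⁻¹ + y⁻¹) = 0}
  ≤ R #{(r,x,y) : A r (x-y) (x+y+r) = 0}`.
With `g = gcd(A,R)`, `R' = R/g`, `a = r`, `b = x-y`: `R' | a b (a+b+2y)`; so `R' = r₁ r₂ r₃`,
`r₁ | a`, `r₂ | b`, `r₃ | a+b+2y`; for fixed `(r₁,r₂)` there are at most
`(R/r₁) (R/r₂) (2R/r₃) = 2 R²g` triples.  Finally `R ≤ τ(R) φ(R)`. -/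

namespace Pool.Agent.ZH.D

open Finset
open scoped ComplexConjugate

noncomputable section

theorem energy_nonneg {R : ℕ} [NeZero R] (F : ZMod R → ℂ) : 0 ≤ energy F :=
  sum_nonneg fun _ _ => by positivity

section

variable {R : ℕ} [NeZero R]

theorem kph_smul (A t : ZMod R) {u : ZMod R} (hu : IsUnit u) : kph R (u * A) (u * t) = kph R A t := by
  classical
  unfold kph
  have h1 : IsUnit (u * t) ↔ IsUnit t := by
    rw [IsUnit.mul_iff]; tauto
  by_cases ht : IsUnit t
  · rw [if_pos (h1.2 ht), if_pos ht]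
    congr 1
    have e1 := ZMod.mul_inv_of_unit _ (h1.2 ht)
    have e2 := ZMod.mul_inv_of_unit _ ht
    calc u * A * (u * t)⁻¹ = u * A * (u * t)⁻¹ * (t * t⁻¹) := by rw [e2, mul_one]
      _ = A * t⁻¹ * (u * t * (u * t)⁻¹) := by ring
      _ = A * t⁻¹ := by rw [e1, mul_one]
  · rw [if_neg (fun h => ht (h1.1 h)), if_neg ht]

theorem energy_smul (A : ZMod R) {u : ZMod R} (hu : IsUnit u) :
    energy (kph R (u * A)) = energy (kph R A) := by
  obtain ⟨w, rfl⟩ := hu
  unfold energy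
  rw [← Equiv.sum_comp (Units.mulLeft w)
    (fun r => ‖∑ t, kph R (w * A) (t + r) * conj (kph R (w * A) t)‖ ^ 2)]
  refine sum_congr rfl fun r _ => ?_
  rw [← Equiv.sum_comp (Units.mulLeft w)
    (fun t => kph R (w * A) (t + (Units.mulLeft w) r) * conj (kph R (w * A) t))]
  simp only [Units.mulLeft_apply, ← mul_add, kph_smul A _ w.isUnit]

theorem totient_mul_energy (A : ZMod R) :
    (Nat.totient R : ℝ) * energy (kph R A) ≤ ∑ v : ZMod R, energy (kph R (v * A)) := by
  have h1 : ∑ u : (ZMod R)ˣ, energy (kph R ((u : ZMod R) * A)) = (Nat.totient R : ℝ) * energy (kph R A) := by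
    rw [sum_congr rfl fun u _ => energy_smul A u.isUnit, sum_const, card_univ, ZMod.card_units_eq_totient,
      nsmul_eq_mul]
  have h2 : ∑ u : (ZMod R)ˣ, energy (kph R ((u : ZMod R) * A)) =
      ∑ v ∈ univ.map ⟨fun u : (ZMod R)ˣ => (u : ZMod R), fun a b h => Units.ext h⟩,
        energy (kph R (v * A)) := by
    rw [sum_map]; rfl
  rw [← h1, h2]
  exact sum_le_sum_of_subset_of_nonneg (subset_univ _) fun _ _ _ => energy_nonneg _

theorem kph_conj (A x : ZMod R) : conj (kph R A x) =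
    open Classical in if IsUnit x then ZMod.stdAddChar (-(A * x⁻¹)) else 0 := by
  classical
  unfold kph
  split_ifs with h
  · rw [AddChar.map_neg_eq_conj]
  · simp

/-- nontrivial quadruples -/
def good (A r x y : ZMod R) : Prop :=
  (IsUnit x ∧ IsUnit y ∧ IsUnit (x + r) ∧ IsUnit (y + r)) ∧
    ((x + r)⁻¹ - x⁻¹ - (y + r)⁻¹ + y⁻¹) * A = 0

omit [NeZero R] in
theorem good_imp {A r x y : ZMod R} (h : good A r x y) : A * (r * (x - y) * (x + y + r)) = 0 := by
  obtain ⟨⟨hx, hy, hxr, hyr⟩, h⟩ := h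
  have e1 := ZMod.mul_inv_of_unit _ hx
  have e2 := ZMod.mul_inv_of_unit _ hy
  have e3 := ZMod.mul_inv_of_unit _ hxr
  have e4 := ZMod.mul_inv_of_unit _ hyr
  generalize x⁻¹ = x' at *
  generalize y⁻¹ = y' at *
  generalize (x + r)⁻¹ = z' at *
  generalize (y + r)⁻¹ = w' at *
  have key : (z' - x' - w' + y') * (x * y * (x + r) * (y + r)) = r * (x - y) * (x + y + r) := by
    linear_combination (x * y * (y + r)) * e3 - (y * (x + r) * (y + r)) * e1 -
      (x * y * (x + r)) * e4 + (x * (x + r) * (y + r)) * e2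
  calc A * (r * (x - y) * (x + y + r)) =
      (z' - x' - w' + y') * A * (x * y * (x + r) * (y + r)) := by rw [← key]; ring
    _ = 0 := by rw [h, zero_mul]

theorem sum_quad (A r x y : ZMod R) :
    ∑ v : ZMod R, kph R (v * A) (x + r) * conj (kph R (v * A) x) *
      conj (kph R (v * A) (y + r) * conj (kph R (v * A) y)) =
      open Classical in if good A r x y then (R : ℂ) else 0 := by
  classical
  have hP := ZMod.isPrimitive_stdAddChar R
  by_cases h1 : IsUnit x ∧ IsUnit y ∧ IsUnit (x + r) ∧ IsUnit (y + r)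
  · obtain ⟨hx, hy, hxr, hyr⟩ := h1
    have e : ∀ v : ZMod R, kph R (v * A) (x + r) * conj (kph R (v * A) x) *
        conj (kph R (v * A) (y + r) * conj (kph R (v * A) y)) =
        ZMod.stdAddChar (v * (((x + r)⁻¹ - x⁻¹ - (y + r)⁻¹ + y⁻¹) * A)) := by
      intro v
      rw [map_mul, Complex.conj_conj, kph_conj, kph_conj]
      unfold kph
      simp only [hx, hy, hxr, hyr, if_true]
      rw [← AddChar.map_add_eq_mul, ← AddChar.map_add_eq_mul, ← AddChar.map_add_eq_mul]
      congr 1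
      ring
    rw [sum_congr rfl fun v _ => e v, AddChar.sum_mulShift _ hP]
    have hg : (((x + r)⁻¹ - x⁻¹ - (y + r)⁻¹ + y⁻¹) * A = 0) ↔ good A r x y := by
      unfold good; tauto
    simp only [hg, ZMod.card]
    split_ifs <;> simp
  · have hg : ¬ good A r x y := fun h => h1 h.1
    rw [if_neg hg]
    refine sum_eq_zero fun v _ => ?_
    have h2 : ¬ IsUnit x ∨ ¬ IsUnit y ∨ ¬ IsUnit (x + r) ∨ ¬ IsUnit (y + r) := by tauto
    unfold kph
    rcases h2 with h2 | h2 | h2 | h2 <;> simp [h2]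

theorem sum_energy_eq (A : ZMod R) : ∑ v : ZMod R, energy (kph R (v * A)) =
    R * ∑ r : ZMod R, ∑ x : ZMod R, ∑ y : ZMod R,
      open Classical in if good A r x y then (1 : ℝ) else 0 := by
  classical
  have h : ((∑ v : ZMod R, energy (kph R (v * A)) : ℝ) : ℂ) =
      ((R * ∑ r : ZMod R, ∑ x : ZMod R, ∑ y : ZMod R, if good A r x y then (1 : ℝ) else 0 : ℝ) : ℂ) := by
    unfold energy
    push_cast
    rw [sum_comm, mul_sum]
    refine sum_congr rfl fun r _ => ?_
    have e : ∀ v : ZMod R, ((‖∑ x, kph R (v * A) (x + r) * conj (kph R (v * A) x)‖ : ℂ)) ^ 2 =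
        ∑ x, ∑ y, kph R (v * A) (x + r) * conj (kph R (v * A) x) *
          conj (kph R (v * A) (y + r) * conj (kph R (v * A) y)) := by
      intro v
      rw [← Complex.ofReal_pow, ← Complex.normSq_eq_norm_sq, ← Complex.mul_conj, map_sum,
        sum_mul_sum]
    rw [sum_congr rfl fun v _ => e v, sum_comm, mul_sum]
    refine sum_congr rfl fun x _ => ?_
    rw [sum_comm, mul_sum]
    refine sum_congr rfl fun y _ => ?_
    rw [sum_quad]
    split_ifs <;> simp
  exact_mod_cast h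

/-! ### The count -/

theorem card_dvd_val {r : ℕ} (hr : r ∣ R) :
    ((univ.filter fun a : ZMod R => r ∣ a.val).card : ℝ) ≤ (R : ℝ) / r := by
  have hR : 0 < R := Nat.pos_of_ne_zero (NeZero.ne R)
  have hr0 : 0 < r := Nat.pos_of_dvd_of_pos hr hR
  obtain ⟨k, hk⟩ := hr
  have h1 : (univ.filter fun a : ZMod R => r ∣ a.val).card ≤ (range k).card := by
    refine card_le_card_of_injOn (fun a => a.val / r) ?_ ?_
    · intro a _
      have := ZMod.val_lt a
      simp only [coe_range, Set.mem_Iio]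
      rw [Nat.div_lt_iff_lt_mul hr0, mul_comm]
      omega
    · intro a ha b hb hab
      simp only [coe_filter, mem_univ, true_and, Set.mem_ofPred_eq] at ha hb
      apply ZMod.val_injective R
      simp only at hab
      rw [← Nat.div_mul_cancel ha, hab, Nat.div_mul_cancel hb]
  rw [card_range] at h1
  have h2 : (k : ℝ) = (R : ℝ) / r := by
    rw [hk]; push_cast
    field_simp
  rw [← h2]
  exact_mod_cast h1

/-- `2 w = c` has at most two solutions -/
theorem card_two_mul (c : ZMod R) : (univ.filter fun w : ZMod R => c + 2 * w = 0).card ≤ 2 := by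
  classical
  by_contra hcon
  push Not at hcon
  obtain ⟨a, b, d, ha, hb, hd, hab, had, hbd⟩ := two_lt_card_iff.1 hcon
  simp only [mem_filter, mem_univ, true_and] at ha hb hd
  have hR : 0 < R := Nat.pos_of_ne_zero (NeZero.ne R)
  -- differences are killed by two
  have key : ∀ p q : ZMod R, c + 2 * p = 0 → c + 2 * q = 0 → p ≠ q → 2 * (p - q).val = R := by
    intro p q hp hq hpq
    have h1 : ((2 * (p - q).val : ℕ) : ZMod R) = 0 := by
      push_cast
      rw [ZMod.natCast_zmod_val]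
      linear_combination hp - hq
    have h2 : R ∣ 2 * (p - q).val := (ZMod.natCast_eq_zero_iff _ _).1 h1
    have h3 : (p - q).val < R := ZMod.val_lt _
    have h4 : (p - q).val ≠ 0 := by
      intro h
      exact hpq (sub_eq_zero.1 ((ZMod.val_eq_zero _).1 h))
    obtain ⟨k, hk⟩ := h2
    have h5 : k < 2 := by
      by_contra h6
      push Not at h6
      nlinarith
    have h7 : k ≠ 0 := by
      rintro rfl
      omega
    have : k = 1 := by omega
    rw [this] at hk
    omega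
  have e1 := key a b ha hb hab
  have e2 := key a d ha hd had
  have e3 : a - b = a - d := by
    apply ZMod.val_injective R
    omega
  exact hbd (by linear_combination -e3)

theorem card_affine {r : ℕ} (hr : r ∣ R) (c : ZMod R) :
    ((univ.filter fun y : ZMod R => r ∣ (c + 2 * y).val).card : ℝ) ≤ 2 * (R : ℝ) / r := by
  classical
  have h1 : (univ.filter fun y : ZMod R => r ∣ (c + 2 * y).val).card ≤
      2 * (univ.filter fun a : ZMod R => r ∣ a.val).card := by
    refine card_le_mul_card_image_of_maps_to (f := fun y : ZMod R => c + 2 * y) ?_ 2 ?_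
    · intro y hy
      simpa using hy
    · intro z _
      refine (card_le_card ?_).trans (card_two_mul (c - z))
      intro y hy
      simp only [mem_filter, mem_univ, true_and] at hy ⊢
      linear_combination hy.2
  have h2 := card_dvd_val (R := R) hr
  have h3 : ((univ.filter fun y : ZMod R => r ∣ (c + 2 * y).val).card : ℝ) ≤
      2 * ((univ.filter fun a : ZMod R => r ∣ a.val).card : ℝ) := by exact_mod_cast h1
  calc _ ≤ 2 * ((univ.filter fun a : ZMod R => r ∣ a.val).card : ℝ) := h3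
    _ ≤ 2 * ((R : ℝ) / r) := by gcongr
    _ = _ := by ring

theorem exists_factors (A a b c : ZMod R) (h : A * (a * b * c) = 0) :
    ∃ r₁ r₂ r₃ : ℕ, r₁ ∣ a.val ∧ r₂ ∣ b.val ∧ r₃ ∣ c.val ∧ r₁ * r₂ * r₃ = R / Nat.gcd A.val R := by
  have hR : 0 < R := Nat.pos_of_ne_zero (NeZero.ne R)
  have h1 : ((A.val * (a.val * b.val * c.val) : ℕ) : ZMod R) = 0 := by
    push_cast
    simp only [ZMod.natCast_zmod_val]
    exact h
  have h2 : R ∣ A.val * (a.val * b.val * c.val) := (ZMod.natCast_eq_zero_iff _ _).1 h1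
  have h3 : R / Nat.gcd A.val R ∣ a.val * b.val * c.val := by
    have h4 := (Nat.dvd_gcd_mul_iff_dvd_mul (k := R) (n := A.val) (m := a.val * b.val * c.val)).2 h2
    rw [Nat.gcd_comm] at h4
    exact (Nat.div_dvd_iff_dvd_mul (Nat.gcd_dvd_right _ _) (Nat.gcd_pos_of_pos_right _ hR)).2 h4
  obtain ⟨s, r₃, hs, h5, h6⟩ := exists_dvd_and_dvd_of_dvd_mul h3
  obtain ⟨r₁, r₂, h7, h8, h9⟩ := exists_dvd_and_dvd_of_dvd_mul hs
  exact ⟨r₁, r₂, r₃, h7, h8, h5, by rw [h6, h9]⟩

theorem card_good (A : ZMod R) : (∑ r : ZMod R, ∑ x : ZMod R, ∑ y : ZMod R,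
      open Classical in if good A r x y then (1 : ℝ) else 0) ≤
    2 * tau R ^ 2 * (R : ℝ) ^ 2 * (Nat.gcd A.val R : ℝ) := by
  classical
  have hR : 0 < R := Nat.pos_of_ne_zero (NeZero.ne R)
  set g := Nat.gcd A.val R with hg
  set R' := R / g with hR'
  have hg0 : 0 < g := Nat.gcd_pos_of_pos_right _ hR
  have hgR : g ∣ R := Nat.gcd_dvd_right _ _
  have hR'R : R' ∣ R := Nat.div_dvd_of_dvd hgR
  have hR'0 : 0 < R' := Nat.pos_of_dvd_of_pos hR'R hR
  have hgR' : (R : ℝ) = g * R' := by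
    rw [hR']; exact_mod_cast (Nat.mul_div_cancel' hgR).symm
  -- change of variables
  have h1 : (∑ r : ZMod R, ∑ x : ZMod R, ∑ y : ZMod R, if good A r x y then (1 : ℝ) else 0) ≤
      ∑ a : ZMod R, ∑ b : ZMod R, ∑ y : ZMod R,
        if A * (a * b * (a + b + 2 * y)) = 0 then (1 : ℝ) else 0 := by
    refine sum_le_sum fun r _ => ?_
    rw [sum_comm, sum_comm (s := univ) (t := univ) (f := fun b y =>
      if A * (r * b * (r + b + 2 * y)) = 0 then (1 : ℝ) else 0)]
    refine sum_le_sum fun y _ => ?_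
    rw [← Equiv.sum_comp (Equiv.subRight y) (fun b => if A * (r * b * (r + b + 2 * y)) = 0 then (1 : ℝ) else 0)]
    refine sum_le_sum fun x _ => ?_
    simp only [Equiv.subRight_apply]
    by_cases h : good A r x y
    · have h' := good_imp h
      have h'' : A * (r * (x - y) * (r + (x - y) + 2 * y)) = 0 := by
        rw [← h']; ring
      rw [if_pos h, if_pos h'']
    · rw [if_neg h]
      split_ifs <;> norm_num
  refine h1.trans ?_
  -- factorisations
  set D := (R'.divisors ×ˢ R'.divisors).filter (fun p => p.1 * p.2 ∣ R') with hD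
  have h2 : ∀ a b y : ZMod R, (if A * (a * b * (a + b + 2 * y)) = 0 then (1 : ℝ) else 0) ≤
      ∑ p ∈ D, (if p.1 ∣ a.val then (1 : ℝ) else 0) * (if p.2 ∣ b.val then 1 else 0) *
        (if R' / (p.1 * p.2) ∣ (a + b + 2 * y).val then 1 else 0) := by
    intro a b y
    have hn : ∀ p ∈ D, (0 : ℝ) ≤ (if p.1 ∣ a.val then (1 : ℝ) else 0) * (if p.2 ∣ b.val then 1 else 0) *
        (if R' / (p.1 * p.2) ∣ (a + b + 2 * y).val then 1 else 0) := by
      intro p _
      split_ifs <;> norm_num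
    by_cases h : A * (a * b * (a + b + 2 * y)) = 0
    · rw [if_pos h]
      obtain ⟨r₁, r₂, r₃, d1, d2, d3, d4⟩ := exists_factors A a b _ h
      have d5 : r₁ * r₂ * r₃ = R' := d4
      have hr₁ : 0 < r₁ * r₂ := Nat.pos_of_ne_zero fun h => by rw [h, zero_mul] at d5; omega
      have hmem : (r₁, r₂) ∈ D := by
        rw [hD, mem_filter, mem_product, Nat.mem_divisors, Nat.mem_divisors]
        refine ⟨⟨⟨⟨r₂ * r₃, by rw [← d5]; ring⟩, hR'0.ne'⟩, ⟨r₁ * r₃, by rw [← d5]; ring⟩, hR'0.ne'⟩, r₃, d5.symm⟩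
      refine le_trans (le_of_eq ?_) (single_le_sum hn hmem)
      have e : R' / (r₁ * r₂) = r₃ := by
        rw [← d5]; exact Nat.mul_div_cancel_left _ hr₁
      simp only [e, d1, d2, d3, if_true, mul_one]
    · rw [if_neg h]
      exact sum_nonneg hn
  calc (∑ a : ZMod R, ∑ b : ZMod R, ∑ y : ZMod R,
        if A * (a * b * (a + b + 2 * y)) = 0 then (1 : ℝ) else 0)
      ≤ ∑ a : ZMod R, ∑ b : ZMod R, ∑ y : ZMod R, ∑ p ∈ D, (if p.1 ∣ a.val then (1 : ℝ) else 0) *
          (if p.2 ∣ b.val then 1 else 0) * (if R' / (p.1 * p.2) ∣ (a + b + 2 * y).val then 1 else 0) :=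
        sum_le_sum fun a _ => sum_le_sum fun b _ => sum_le_sum fun y _ => h2 a b y
    _ = ∑ p ∈ D, ∑ a : ZMod R, ∑ b : ZMod R, ∑ y : ZMod R, (if p.1 ∣ a.val then (1 : ℝ) else 0) *
          (if p.2 ∣ b.val then 1 else 0) * (if R' / (p.1 * p.2) ∣ (a + b + 2 * y).val then 1 else 0) := by
        rw [sum_comm' (s := D) (t := fun _ => univ) (s' := fun _ => D) (t' := univ) (by simp)]
        refine sum_congr rfl fun a _ => ?_
        rw [sum_comm' (s := D) (t := fun _ => univ) (s' := fun _ => D) (t' := univ) (by simp)]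
        refine sum_congr rfl fun b _ => ?_
        rw [sum_comm]
    _ ≤ ∑ p ∈ D, 2 * (R : ℝ) ^ 2 * g := ?_
    _ ≤ 2 * tau R ^ 2 * (R : ℝ) ^ 2 * g := ?_
  · refine sum_le_sum fun p hp => ?_
    rw [hD, mem_filter, mem_product, Nat.mem_divisors, Nat.mem_divisors] at hp
    obtain ⟨⟨⟨hp1, -⟩, hp2, -⟩, hp3⟩ := hp
    obtain ⟨r₃, hr₃⟩ := hp3
    have hp0 : 0 < p.1 * p.2 := Nat.pos_of_dvd_of_pos ⟨r₃, hr₃⟩ hR'0
    have e : R' / (p.1 * p.2) = r₃ := by
      rw [hr₃]; exact Nat.mul_div_cancel_left _ hp0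
    have hr₃' : r₃ ∣ R := (Dvd.intro_left _ hr₃.symm).trans hR'R
    rw [e]
    have c3 : ∀ a b : ZMod R, ∑ y : ZMod R, (if p.1 ∣ a.val then (1 : ℝ) else 0) *
          (if p.2 ∣ b.val then 1 else 0) * (if r₃ ∣ (a + b + 2 * y).val then 1 else 0) ≤
        (if p.1 ∣ a.val then (1 : ℝ) else 0) * (if p.2 ∣ b.val then 1 else 0) * (2 * (R : ℝ) / r₃) := by
      intro a b
      rw [← mul_sum]
      refine mul_le_mul_of_nonneg_left ?_ (by split_ifs <;> norm_num)
      rw [sum_boole]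
      exact card_affine hr₃' (a + b)
    have c2 : ∀ a : ZMod R, ∑ b : ZMod R, (if p.1 ∣ a.val then (1 : ℝ) else 0) *
        (if p.2 ∣ b.val then 1 else 0) * (2 * (R : ℝ) / r₃) ≤
        (if p.1 ∣ a.val then (1 : ℝ) else 0) * ((R : ℝ) / p.2) * (2 * (R : ℝ) / r₃) := by
      intro a
      rw [← sum_mul, ← mul_sum, sum_boole]
      refine mul_le_mul_of_nonneg_right (mul_le_mul_of_nonneg_left (card_dvd_val (hp2.trans hR'R)) ?_)
        (by positivity)
      split_ifs <;> norm_num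
    have c1 : ∑ a : ZMod R, (if p.1 ∣ a.val then (1 : ℝ) else 0) * ((R : ℝ) / p.2) * (2 * (R : ℝ) / r₃) ≤
        ((R : ℝ) / p.1) * ((R : ℝ) / p.2) * (2 * (R : ℝ) / r₃) := by
      rw [← sum_mul, ← sum_mul, sum_boole]
      refine mul_le_mul_of_nonneg_right (mul_le_mul_of_nonneg_right (card_dvd_val (hp1.trans hR'R)) ?_) ?_ <;>
      positivity
    refine (sum_le_sum fun a _ => (sum_le_sum fun b _ => c3 a b).trans (c2 a)).trans (c1.trans ?_)
    have hr₃0 : 0 < r₃ := Nat.pos_of_dvd_of_pos (Dvd.intro_left _ hr₃.symm) hR'0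
    have hp10 : 0 < p.1 := Nat.pos_of_mul_pos_right hp0
    have hp20 : 0 < p.2 := Nat.pos_of_mul_pos_left hp0
    have e2 : (R : ℝ) = g * (p.1 * p.2 * r₃) := by
      rw [hgR', hr₃]; push_cast; ring
    have q1 : (0 : ℝ) < p.1 := by exact_mod_cast hp10
    have q2 : (0 : ℝ) < p.2 := by exact_mod_cast hp20
    have q3 : (0 : ℝ) < r₃ := by exact_mod_cast hr₃0
    have e3 : ((R : ℝ) / p.1) * ((R : ℝ) / p.2) * (2 * (R : ℝ) / r₃) = 2 * (R : ℝ) ^ 2 * (R / (p.1 * p.2 * r₃)) := by
      field_simp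
    rw [e3]
    have e4 : (R : ℝ) / (p.1 * p.2 * r₃) = g := by
      rw [e2]; field_simp
    rw [e4]
  · rw [sum_const, nsmul_eq_mul]
    have hc : (D.card : ℝ) ≤ tau R ^ 2 := by
      have h3 : D.card ≤ R'.divisors.card * R'.divisors.card := by
        rw [← card_product]; exact card_filter_le _ _
      have h4 : R'.divisors.card ≤ R.divisors.card :=
        card_le_card (Nat.divisors_subset_of_dvd hR.ne' hR'R)
      have h5 : D.card ≤ R.divisors.card * R.divisors.card := h3.trans (Nat.mul_le_mul h4 h4)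
      unfold tau
      rw [sq]
      exact_mod_cast h5
    have : (0 : ℝ) ≤ 2 * (R : ℝ) ^ 2 * g := by positivity
    calc (D.card : ℝ) * (2 * (R : ℝ) ^ 2 * g) ≤ tau R ^ 2 * (2 * (R : ℝ) ^ 2 * g) := by gcongr
      _ = _ := by ring

end

theorem le_tau_mul_totient {R : ℕ} (hR : 0 < R) : (R : ℝ) ≤ tau R * (Nat.totient R : ℝ) := by
  have h := Nat.sum_totient R
  have h2 : ∑ d ∈ R.divisors, Nat.totient d ≤ ∑ _d ∈ R.divisors, Nat.totient R := by
    refine sum_le_sum fun d hd => ?_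
    exact Nat.le_of_dvd (Nat.totient_pos.2 hR) (Nat.totient_dvd_of_dvd (Nat.dvd_of_mem_divisors hd))
  rw [h, sum_const, smul_eq_mul] at h2
  unfold tau
  exact_mod_cast h2

theorem energy_kph (R : ℕ) [NeZero R] (A : ZMod R) :
    energy (kph R A) ≤ 2 * tau R ^ 3 * (R : ℝ) ^ 2 * (Nat.gcd A.val R : ℝ) := by
  have hR : 0 < R := Nat.pos_of_ne_zero (NeZero.ne R)
  have h1 := totient_mul_energy A
  rw [sum_energy_eq] at h1
  have h2 := card_good A
  have h3 := le_tau_mul_totient hR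
  have hφ : (0 : ℝ) < Nat.totient R := by exact_mod_cast Nat.totient_pos.2 hR
  have ht : 0 ≤ tau R := by unfold tau; positivity
  set X : ℝ := 2 * tau R ^ 2 * (R : ℝ) ^ 2 * (Nat.gcd A.val R : ℝ) with hX
  have hX0 : 0 ≤ X := by positivity
  have h4 : (Nat.totient R : ℝ) * energy (kph R A) ≤ (Nat.totient R : ℝ) * (tau R * X) := by
    calc (Nat.totient R : ℝ) * energy (kph R A) ≤ _ := h1
      _ ≤ (R : ℝ) * X := by gcongr
      _ ≤ (tau R * (Nat.totient R : ℝ)) * X := by gcongr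
      _ = _ := by ring
  have h5 := le_of_mul_le_mul_left h4 hφ
  refine h5.trans (le_of_eq ?_)
  rw [hX]; ring

end

end Pool.Agent.ZH.D
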