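import Pool.Agent.Work.ZH.D.Energy

/-! # Module IncSum: incomplete sums of Kloosterman phases

`F(t) = F0(t) kph R A (t + r)`, `F0` bounded by `1` and `q`-periodic, `(q,R) = 1`.
Paper proof: split `a, b` into classes mod `q` (`q^2` pairs); in each the sum is
`∑_{a',b' < n(α), n(β)} G(a'+b')`, `G(t') = kph R (A q⁻¹) (t' + r')` up to a constant of modulus `≤ 1`
(`s + α + β + q(a'+b') + r = q (a' + b' + r')`), lengths `≤ N/q + 1 =: n ≤ R`.
Two Cauchy-Schwarz: `|S|^4 ≤ n^5 energy`, and `gcd(A q⁻¹, R) = gcd(A, R)`. -/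

namespace Pool.Agent.ZH.D

open Finset ComplexConjugate

theorem incsum_energy_nonneg {R : ℕ} [NeZero R] (F : ZMod R → ℂ) : 0 ≤ energy F :=
  Finset.sum_nonneg fun _ _ => by positivity

theorem incsum_energy_shift {R : ℕ} [NeZero R] (F : ZMod R → ℂ) (r : ZMod R) :
    energy (fun x => F (x + r)) = energy F := by
  unfold energy
  refine Finset.sum_congr rfl fun d _ => ?_
  congr 2
  refine Fintype.sum_equiv (Equiv.addRight r) _ _ fun a => ?_
  simp only [Equiv.coe_addRight]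
  rw [show a + d + r = a + r + d by abel]

/-- two Cauchy-Schwarz steps -/
theorem two_cs (R : ℕ) [NeZero R] (F : ZMod R → ℂ) (n₁ n₂ : ℕ) (h₁ : n₁ ≤ R) (h₂ : n₂ ≤ R)
    (n : ℝ) (hn₁ : (n₁ : ℝ) ≤ n) (hn₂ : (n₂ : ℝ) ≤ n) :
    ‖∑ a ∈ range n₁, ∑ b ∈ range n₂, F ((a : ZMod R) + (b : ZMod R))‖ ^ 4 ≤ n ^ 5 * energy F := by
  classical
  have hinj : ∀ m : ℕ, m ≤ R → ∀ c : ZMod R,
      Set.InjOn (fun b : ℕ => (b : ZMod R) - c) (range m : Finset ℕ) := by
    intro m hm c b hb b' hb' hbb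
    simp only [coe_range, Set.mem_Iio] at hb hb'
    have h8 : (b : ZMod R) = (b' : ZMod R) := by simpa using hbb
    rw [ZMod.natCast_eq_natCast_iff'] at h8
    rwa [Nat.mod_eq_of_lt (by omega), Nat.mod_eq_of_lt (by omega)] at h8
  set S := ∑ a ∈ range n₁, ∑ b ∈ range n₂, F ((a : ZMod R) + (b : ZMod R)) with hS
  let T : ZMod R → ℂ := fun x => ∑ b ∈ range n₂, F (x + (b : ZMod R))
  let C : ZMod R → ℂ := fun d => ∑ a : ZMod R, F (a + d) * conj (F a)
  set Q : ℝ := ∑ x : ZMod R, ‖T x‖ ^ 2 with hQ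
  have hQ0 : 0 ≤ Q := Finset.sum_nonneg fun _ _ => by positivity
  have hn₂0 : (0 : ℝ) ≤ n₂ := Nat.cast_nonneg _
  have hn₁0 : (0 : ℝ) ≤ n₁ := Nat.cast_nonneg _
  -- first Cauchy-Schwarz
  have h1 : ‖S‖ ^ 2 ≤ n₁ * Q := by
    have h2 : ‖S‖ ≤ ∑ a ∈ range n₁, ‖T (a : ZMod R)‖ := norm_sum_le _ _
    have h3 : (∑ a ∈ range n₁, ‖T (a : ZMod R)‖) ^ 2 ≤
        n₁ * ∑ a ∈ range n₁, ‖T (a : ZMod R)‖ ^ 2 := by
      refine (sq_sum_le_card_mul_sum_sq).trans_eq ?_
      rw [card_range]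
    have h4 : ∑ a ∈ range n₁, ‖T (a : ZMod R)‖ ^ 2 ≤ Q := by
      have h5 : ∑ a ∈ range n₁, ‖T (a : ZMod R)‖ ^ 2 =
          ∑ x ∈ (range n₁).image (fun b : ℕ => (b : ZMod R) - 0), ‖T x‖ ^ 2 := by
        rw [Finset.sum_image (hinj n₁ h₁ 0)]
        simp
      rw [h5]
      exact Finset.sum_le_univ_sum_of_nonneg fun _ => by positivity
    calc ‖S‖ ^ 2 ≤ (∑ a ∈ range n₁, ‖T (a : ZMod R)‖) ^ 2 := by gcongr
      _ ≤ _ := h3
      _ ≤ n₁ * Q := by gcongr
  -- expansion of `Q`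
  have h2 : (Q : ℂ) = ∑ b ∈ range n₂, ∑ b' ∈ range n₂, C ((b : ZMod R) - (b' : ZMod R)) := by
    rw [hQ]
    push_cast
    have h3 : ∀ x : ZMod R, ((‖T x‖ : ℝ) : ℂ) ^ 2 =
        ∑ b ∈ range n₂, ∑ b' ∈ range n₂,
          F (x + (b : ZMod R)) * conj (F (x + (b' : ZMod R))) := by
      intro x
      rw [← Complex.mul_conj', map_sum, Finset.sum_mul_sum]
    simp_rw [h3]
    rw [Finset.sum_comm]
    refine Finset.sum_congr rfl fun b _ => ?_
    rw [Finset.sum_comm]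
    refine Finset.sum_congr rfl fun b' _ => ?_
    change _ = ∑ a : ZMod R, F (a + ((b : ZMod R) - (b' : ZMod R))) * conj (F a)
    refine Fintype.sum_equiv (Equiv.addRight (b' : ZMod R)) _ _ fun x => ?_
    simp only [Equiv.coe_addRight]
    rw [show x + (b' : ZMod R) + ((b : ZMod R) - (b' : ZMod R)) = x + (b : ZMod R) by ring]
  have h3 : Q ≤ ∑ b ∈ range n₂, ∑ b' ∈ range n₂, ‖C ((b : ZMod R) - (b' : ZMod R))‖ := by
    have h4 : Q = ‖(Q : ℂ)‖ := by rw [Complex.norm_real, Real.norm_of_nonneg hQ0]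
    rw [h4, h2]
    refine (norm_sum_le _ _).trans (Finset.sum_le_sum fun b _ => norm_sum_le _ _)
  -- second Cauchy-Schwarz
  have h4 : Q ^ 2 ≤ (n₂ : ℝ) ^ 3 * energy F := by
    have h5 : (∑ b ∈ range n₂, ∑ b' ∈ range n₂, ‖C ((b : ZMod R) - (b' : ZMod R))‖) ^ 2 ≤
        (n₂ : ℝ) ^ 2 *
          ∑ b ∈ range n₂, ∑ b' ∈ range n₂, ‖C ((b : ZMod R) - (b' : ZMod R))‖ ^ 2 := by
      rw [← Finset.sum_product', ← Finset.sum_product']
      refine (sq_sum_le_card_mul_sum_sq).trans_eq ?_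
      rw [Finset.card_product, card_range]
      push_cast
      ring
    have h6 : ∀ b' ∈ range n₂, ∑ b ∈ range n₂, ‖C ((b : ZMod R) - (b' : ZMod R))‖ ^ 2 ≤
        energy F := by
      intro b' _
      have h7 : ∑ b ∈ range n₂, ‖C ((b : ZMod R) - (b' : ZMod R))‖ ^ 2 =
          ∑ d ∈ (range n₂).image (fun b : ℕ => (b : ZMod R) - (b' : ZMod R)), ‖C d‖ ^ 2 := by
        rw [Finset.sum_image (hinj n₂ h₂ _)]
      rw [h7]
      exact Finset.sum_le_univ_sum_of_nonneg fun _ => by positivity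
    calc Q ^ 2 ≤ (∑ b ∈ range n₂, ∑ b' ∈ range n₂, ‖C ((b : ZMod R) - (b' : ZMod R))‖) ^ 2 := by
          gcongr
      _ ≤ _ := h5
      _ ≤ (n₂ : ℝ) ^ 2 * ∑ b' ∈ range n₂, energy F := by
          rw [Finset.sum_comm]
          gcongr with b' hb'
          exact h6 b' hb'
      _ = (n₂ : ℝ) ^ 3 * energy F := by
          rw [Finset.sum_const, card_range, nsmul_eq_mul]
          ring
  have hE := incsum_energy_nonneg F
  calc ‖S‖ ^ 4 = (‖S‖ ^ 2) ^ 2 := by ring
    _ ≤ (n₁ * Q) ^ 2 := by gcongr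
    _ = (n₁ : ℝ) ^ 2 * Q ^ 2 := by ring
    _ ≤ n ^ 2 * (n ^ 3 * energy F) := by
        have h5 : (n₁ : ℝ) ^ 2 ≤ n ^ 2 := by gcongr
        have h6 : Q ^ 2 ≤ n ^ 3 * energy F := h4.trans (by gcongr)
        exact mul_le_mul h5 h6 (by positivity) (by positivity)
    _ = _ := by ring

/-- Splitting a range into classes. -/
theorem incsum_split (q N : ℕ) (hq : 1 ≤ q) (f : ℕ → ℂ) :
    ∑ a ∈ range N, f a =
      ∑ α ∈ range q, ∑ a' ∈ range ((N - α + q - 1) / q), f (α + q * a') := by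
  classical
  have h1 : ∑ a ∈ range N, f a = ∑ α ∈ range q, ∑ a ∈ (range N).filter (fun a => a % q = α), f a := by
    rw [Finset.sum_fiberwise_of_maps_to]
    intro a _
    exact mem_range.2 (Nat.mod_lt _ (by omega))
  rw [h1]
  refine Finset.sum_congr rfl fun α hα => ?_
  rw [mem_range] at hα
  symm
  refine Finset.sum_nbij (fun a' => α + q * a') ?_ ?_ ?_ ?_
  · intro a' ha'
    rw [mem_range, ← Nat.succ_le_iff, Nat.le_div_iff_mul_le (by omega)] at ha'
    rw [mem_filter, mem_range]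
    constructor
    · have : Nat.succ a' * q = q * a' + q := by
        rw [Nat.succ_mul, Nat.mul_comm]
      omega
    · rw [Nat.add_mul_mod_self_left]
      exact Nat.mod_eq_of_lt hα
  · intro a _ b _ hab
    have h2 : q * a = q * b := by
      simp only at hab
      omega
    exact Nat.eq_of_mul_eq_mul_left (by omega) h2
  · intro a ha
    simp only [coe_filter, mem_range, Set.mem_ofPred_eq] at ha
    refine ⟨a / q, ?_, ?_⟩
    · simp only [coe_range, Set.mem_Iio]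
      rw [← Nat.succ_le_iff, Nat.le_div_iff_mul_le (by omega)]
      have h2 := Nat.mod_add_div a q
      have h3 : Nat.succ (a / q) * q = q * (a / q) + q := by
        rw [Nat.succ_mul, Nat.mul_comm]
      omega
    · simp only
      have h2 := Nat.mod_add_div a q
      rw [ha.2] at h2
      exact h2
  · intro a _
    rfl

theorem inc_sum (R q : ℕ) [NeZero R] (hq : 1 ≤ q) (hcop : q.Coprime R) (F0 : ℕ → ℂ)
    (hF0 : ∀ t, ‖F0 t‖ ≤ 1) (hper : ∀ t, F0 (t + q) = F0 t) (A r : ZMod R) (N s : ℕ)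
    (hN : N / q + 1 ≤ R) :
    ‖∑ a ∈ range N, ∑ b ∈ range N, F0 (s + a + b) * kph R A (((s + a + b : ℕ) : ZMod R) + r)‖ ≤
      (q : ℝ) ^ 2 * ((N : ℝ) / q + 1) ^ (5 / 4 : ℝ) *
        (2 * tau R ^ 3 * (R : ℝ) ^ 2 * (Nat.gcd A.val R : ℝ)) ^ (1 / 4 : ℝ) := by
  classical
  have hu : IsUnit (q : ZMod R) := (ZMod.isUnit_iff_coprime q R).2 hcop
  have hqi : (q : ZMod R) * (q : ZMod R)⁻¹ = 1 := ZMod.mul_inv_of_unit _ hu
  have hui : IsUnit ((q : ZMod R)⁻¹) := IsUnit.of_mul_eq_one (q : ZMod R) (by rw [mul_comm]; exact hqi)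
  have hperk : ∀ k t, F0 (t + q * k) = F0 t := by
    intro k
    induction k with
    | zero => intro t; simp
    | succ k ih =>
      intro t
      rw [Nat.mul_succ, ← Nat.add_assoc, hper, ih]
  have hk : ∀ t : ZMod R, kph R A ((q : ZMod R) * t) = kph R (A * (q : ZMod R)⁻¹) t := by
    intro t
    unfold kph
    by_cases ht : IsUnit t
    · rw [if_pos (hu.mul ht), if_pos ht]
      congr 1
      have h1 : (q : ZMod R) * t * ((q : ZMod R) * t)⁻¹ = 1 := ZMod.mul_inv_of_unit _ (hu.mul ht)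
      have h2 : t * t⁻¹ = 1 := ZMod.mul_inv_of_unit _ ht
      have h3 : ((q : ZMod R) * t)⁻¹ = (q : ZMod R)⁻¹ * t⁻¹ := by
        calc ((q : ZMod R) * t)⁻¹ = ((q : ZMod R) * (q : ZMod R)⁻¹) * (t * t⁻¹) *
              ((q : ZMod R) * t)⁻¹ := by rw [hqi, h2]; ring
          _ = ((q : ZMod R) * t * ((q : ZMod R) * t)⁻¹) * ((q : ZMod R)⁻¹ * t⁻¹) := by ring
          _ = _ := by rw [h1, one_mul]
      rw [h3]
      ring
    · rw [if_neg (fun h => ht (isUnit_of_mul_isUnit_right h)), if_neg ht]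
  have hgcd : Nat.gcd (A * (q : ZMod R)⁻¹).val R = Nat.gcd A.val R := by
    have h1 : Nat.Coprime ((q : ZMod R)⁻¹).val R := by
      have h2 : IsUnit ((((q : ZMod R)⁻¹).val : ℕ) : ZMod R) := by
        rw [ZMod.natCast_zmod_val]
        exact hui
      exact (ZMod.isUnit_iff_coprime _ _).1 h2
    rw [ZMod.val_mul, ← Nat.gcd_rec, Nat.gcd_comm, Nat.Coprime.gcd_mul_right_cancel _ h1]
  set n : ℝ := (N : ℝ) / q + 1 with hn
  set B : ℝ := 2 * tau R ^ 3 * (R : ℝ) ^ 2 * (Nat.gcd A.val R : ℝ) with hB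
  have hB0 : 0 ≤ B := by
    rw [hB]
    unfold tau
    positivity
  have hn0 : 0 ≤ n := by rw [hn]; positivity
  have hlen : ∀ α, (N - α + q - 1) / q ≤ R ∧ (((N - α + q - 1) / q : ℕ) : ℝ) ≤ n := by
    intro α
    have h1 : (N - α + q - 1) / q ≤ (N + q) / q := Nat.div_le_div_right (by omega)
    have h2 : (N + q) / q = N / q + 1 := Nat.add_div_right N (by omega)
    refine ⟨by omega, ?_⟩
    have h3 : (((N - α + q - 1) / q : ℕ) : ℝ) ≤ ((N / q + 1 : ℕ) : ℝ) := by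
      exact_mod_cast (h2 ▸ h1)
    refine h3.trans ?_
    rw [hn]
    push_cast
    have h4 : ((N / q : ℕ) : ℝ) ≤ (N : ℝ) / q := Nat.cast_div_le
    linarith
  -- one pair of classes
  have hone : ∀ α β : ℕ, ‖∑ a' ∈ range ((N - α + q - 1) / q), ∑ b' ∈ range ((N - β + q - 1) / q),
      F0 (s + (α + q * a') + (β + q * b')) *
        kph R A (((s + (α + q * a') + (β + q * b') : ℕ) : ZMod R) + r)‖ ≤
      n ^ (5 / 4 : ℝ) * B ^ (1 / 4 : ℝ) := by
    intro α β
    let r' : ZMod R := (q : ZMod R)⁻¹ * ((s : ZMod R) + α + β + r)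
    let F : ZMod R → ℂ := fun t => kph R (A * (q : ZMod R)⁻¹) (t + r')
    have h1 : ∀ a' b' : ℕ, F0 (s + (α + q * a') + (β + q * b')) *
        kph R A (((s + (α + q * a') + (β + q * b') : ℕ) : ZMod R) + r) =
        F0 (s + α + β) * F ((a' : ZMod R) + (b' : ZMod R)) := by
      intro a' b'
      congr 1
      · rw [← hperk (a' + b') (s + α + β)]
        congr 1
        ring
      · change _ = kph R (A * (q : ZMod R)⁻¹) ((a' : ZMod R) + (b' : ZMod R) + r')
        rw [← hk]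
        congr 1
        have h2 : (q : ZMod R) * r' = (s : ZMod R) + α + β + r := by
          change (q : ZMod R) * ((q : ZMod R)⁻¹ * ((s : ZMod R) + α + β + r)) = _
          rw [← mul_assoc, hqi, one_mul]
        rw [mul_add, h2]
        push_cast
        ring
    have h2 : ∑ a' ∈ range ((N - α + q - 1) / q), ∑ b' ∈ range ((N - β + q - 1) / q),
        F0 (s + (α + q * a') + (β + q * b')) *
        kph R A (((s + (α + q * a') + (β + q * b') : ℕ) : ZMod R) + r) =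
        F0 (s + α + β) * ∑ a' ∈ range ((N - α + q - 1) / q),
          ∑ b' ∈ range ((N - β + q - 1) / q), F ((a' : ZMod R) + (b' : ZMod R)) := by
      rw [Finset.mul_sum]
      refine Finset.sum_congr rfl fun a' _ => ?_
      rw [Finset.mul_sum]
      refine Finset.sum_congr rfl fun b' _ => h1 a' b'
    rw [h2, norm_mul]
    have h3 := two_cs R F _ _ (hlen α).1 (hlen β).1 n (hlen α).2 (hlen β).2
    have h4 : energy F ≤ B := by
      rw [incsum_energy_shift]
      refine (energy_kph R _).trans_eq ?_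
      rw [hgcd]
    set Z := ‖∑ a' ∈ range ((N - α + q - 1) / q),
          ∑ b' ∈ range ((N - β + q - 1) / q), F ((a' : ZMod R) + (b' : ZMod R))‖ with hZ
    have hZ0 : 0 ≤ Z := norm_nonneg _
    have h5 : Z ^ 4 ≤ n ^ 5 * B := h3.trans (by gcongr)
    have h6 : Z ≤ n ^ (5 / 4 : ℝ) * B ^ (1 / 4 : ℝ) := by
      have h7 : Z = (Z ^ 4) ^ (1 / 4 : ℝ) := by
        rw [← Real.rpow_natCast, ← Real.rpow_mul hZ0]
        norm_num
      rw [h7]
      calc (Z ^ 4) ^ (1 / 4 : ℝ) ≤ (n ^ 5 * B) ^ (1 / 4 : ℝ) :=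
            Real.rpow_le_rpow (by positivity) h5 (by norm_num)
        _ = _ := by
            rw [Real.mul_rpow (by positivity) hB0, ← Real.rpow_natCast, ← Real.rpow_mul hn0]
            norm_num
    calc ‖F0 (s + α + β)‖ * Z ≤ 1 * Z := by
          gcongr
          exact hF0 _
      _ ≤ _ := by rw [one_mul]; exact h6
  rw [incsum_split q N hq]
  have hsplit2 : ∀ a : ℕ, ∑ b ∈ range N, F0 (s + a + b) *
      kph R A (((s + a + b : ℕ) : ZMod R) + r) =
      ∑ β ∈ range q, ∑ b' ∈ range ((N - β + q - 1) / q), F0 (s + a + (β + q * b')) *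
        kph R A (((s + a + (β + q * b') : ℕ) : ZMod R) + r) := fun a =>
    incsum_split q N hq (fun b => F0 (s + a + b) * kph R A (((s + a + b : ℕ) : ZMod R) + r))
  simp_rw [hsplit2]
  have hcomm : ∀ α : ℕ, ∑ a' ∈ range ((N - α + q - 1) / q), ∑ β ∈ range q,
      ∑ b' ∈ range ((N - β + q - 1) / q), F0 (s + (α + q * a') + (β + q * b')) *
        kph R A (((s + (α + q * a') + (β + q * b') : ℕ) : ZMod R) + r) =
      ∑ β ∈ range q, ∑ a' ∈ range ((N - α + q - 1) / q),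
      ∑ b' ∈ range ((N - β + q - 1) / q), F0 (s + (α + q * a') + (β + q * b')) *
        kph R A (((s + (α + q * a') + (β + q * b') : ℕ) : ZMod R) + r) := fun α =>
    Finset.sum_comm
  simp_rw [hcomm]
  refine (norm_sum_le _ _).trans ?_
  refine (Finset.sum_le_sum fun α _ => (norm_sum_le _ _).trans
    (Finset.sum_le_sum fun β _ => hone α β)).trans_eq ?_
  simp only [Finset.sum_const, card_range, nsmul_eq_mul]
  ring

end Pool.Agent.ZH.D
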