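import Pool.Agent.Work.ZH.D.Defs

/-! # Setup: hypotheses and objects of the dispersion part

Sizes: `m ∈ [M,2M)`, `u ∈ [U,2U)`, `v ∈ [V,2V)`, `k ∈ [K,2K)`, `l ∈ [L,2L)`.
`T` bounds the divisor function up to `X` (it also bounds `Nat.log 2 X + 1`, take `n = 2^j`). -/

namespace Pool.Agent.ZH.D

open Finset

noncomputable section

structure Setup (M U V K L X : ℕ) (z T : ℝ) (c : ℕ → ℕ → ℕ → ℝ) : Prop where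
  posM : 1 ≤ M
  posU : 1 ≤ U
  posV : 1 ≤ V
  K8 : 8 ≤ K
  L8 : 8 ≤ L
  MK : M ≤ K
  ML : M ≤ L
  VL : 16 * V ^ 4 ≤ L
  LV : L / V ^ 2 + 1 ≤ M
  z1 : 1 ≤ z
  X1 : 6 * K * L ≤ X
  X2 : 1024 * M * U ^ 2 * V ^ 4 ≤ X
  tau_le : ∀ n : ℕ, 0 < n → n ≤ X → tau n ≤ T
  c_nonneg : ∀ m u v, 0 ≤ c m u v
  c_le : ∀ m u v, c m u v ≤ T
  c_cop : ∀ m u v, c m u v ≠ 0 → m.Coprime (u * v)
  c_cop' : ∀ m u v, c m u v ≠ 0 → u.Coprime v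
  c_rough : ∀ m u v, c m u v ≠ 0 → ∀ p : ℕ, p.Prime → p ∣ u * v → z ≤ (p : ℝ)

/-- `1[k l ≡ 1 mod m u v]` -/
def G1 (m u v k l : ℕ) : ℝ := if k * l ≡ 1 [MOD m * u * v] then 1 else 0

/-- `1[k l ≡ 1 mod m, (k l, u v) = 1] / φ(u v)` -/
def G2 (m u v k l : ℕ) : ℝ :=
  if k * l ≡ 1 [MOD m] ∧ (k * l).Coprime (u * v) then 1 / (((u * v).totient : ℕ) : ℝ) else 0

/-- the weight on `k` -/
def wt (K k : ℕ) : ℝ := tri K (K / 2) k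

def A11 (K m u₁ v₁ u₂ v₂ l l' : ℕ) : ℝ := ∑ k ∈ range (3 * K), wt K k * (G1 m u₁ v₁ k l * G1 m u₂ v₂ k l')
def A12 (K m u₁ v₁ u₂ v₂ l l' : ℕ) : ℝ := ∑ k ∈ range (3 * K), wt K k * (G1 m u₁ v₁ k l * G2 m u₂ v₂ k l')
def A21 (K m u₁ v₁ u₂ v₂ l l' : ℕ) : ℝ := ∑ k ∈ range (3 * K), wt K k * (G2 m u₁ v₁ k l * G1 m u₂ v₂ k l')
def A22 (K m u₁ v₁ u₂ v₂ l l' : ℕ) : ℝ := ∑ k ∈ range (3 * K), wt K k * (G2 m u₁ v₁ k l * G2 m u₂ v₂ k l')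
def B1 (K m u v l : ℕ) : ℝ := ∑ k ∈ range (3 * K), wt K k * G1 m u v k l

/-- good tuples: only they need exponential sums -/
def Gd (m u₁ v₁ u₂ v₂ l l' : ℕ) : Prop :=
  (u₁ * v₁).Coprime (u₂ * v₂) ∧ l ≠ l' ∧ l ≡ l' [MOD m] ∧ l.Coprime (m * u₁ * v₁) ∧
    l'.Coprime (m * u₂ * v₂)

instance (m u₁ v₁ u₂ v₂ l l' : ℕ) : Decidable (Gd m u₁ v₁ u₂ v₂ l l') := by
  unfold Gd; infer_instance

/-- main term -/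
def mu (K m u₁ v₁ u₂ v₂ : ℕ) : ℝ := (K : ℝ) / ((m : ℝ) * u₁ * v₁ * u₂ * v₂)

/-- what is left after the exponential sum terms are taken out -/
def rest (K m u₁ v₁ u₂ v₂ l l' : ℕ) : ℝ :=
  mu K m u₁ v₁ u₂ v₂ - A12 K m u₁ v₁ u₂ v₂ l l' - A21 K m u₁ v₁ u₂ v₂ l l' + A22 K m u₁ v₁ u₂ v₂ l l' +
    (B1 K m u₁ v₁ l - K / ((m : ℝ) * u₁ * v₁)) / (((u₂ * v₂).totient : ℕ) : ℝ) +
    (B1 K m u₂ v₂ l' - K / ((m : ℝ) * u₂ * v₂)) / (((u₁ * v₁).totient : ℕ) : ℝ)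

/-- the dispersion -/
def D1 (M U V K L : ℕ) (c : ℕ → ℕ → ℕ → ℝ) (β : ℕ → ℂ) : ℝ :=
  ∑ m ∈ Ico M (2 * M), ∑ k ∈ range (3 * K), wt K k *
    ‖∑ u ∈ Ico U (2 * U), ∑ v ∈ Ico V (2 * V), (c m u v : ℂ) *
      ∑ l ∈ Ico L (2 * L), ((G1 m u v k l - G2 m u v k l : ℝ) : ℂ) * β l‖ ^ 2

end

end Pool.Agent.ZH.D
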