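import Pool.Agent.Work.ZH.D.Setup
import Pool.Agent.Work.ZH.D.Blocks
import Pool.Agent.Work.ZH.D.DiagCount

/-! # Module T1: the exponential sum part of the main sum `A11`

`W = m u₁ u₂ v₁ v₂`, `l' = l + m j`, `j ≠ 0`, `|j| m < L`. For good tuples
`A11 - mu = ∑_{h ≠ 0, |h| ≤ W} g(W,h) e(-hκ/W)` (`fejer` with `N = K`, `k₀ = K/2`, `X = 3K`).
Use `blocks` for fixed `(m,j,u₁,u₂)` (index `(v₁,v₂)`, `w = v₁ v₂`, `R = m u₁ u₂`, `ω₀ = V²`, `ω = 4V²`, `n₀ = V²`,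
`γ = c c'`, `G0 = T²`, `a = K/D`, `b = 8D/K`, `P = 8 V² T⁴` by `diag3`, `H = W_max/2`), then sum over `(m,j,u₁,u₂)`.
In `blocks`: split `h` into dyadic blocks `2^i ≤ |h| < 2^(i+1)` (at most `T` of them, since `g = 0` for `2|h| > W`),
`|g| ≤ G_i = min(K/D, 8 D/(K 4^i))`, `D = M U² V²` (`D ≤ W ≤ 32 D`). For fixed `(m,j,u₁,u₂)`, Cauchy over
`l`, `bilinear` (`R = m u₁ u₂`, `w = v₁ v₂`, `ω₀ = V²`, `ω = 4 V²`, `Y = 2^(i+1)`), `diag3`: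
`∑_l |..| ≤ L^(1/2) (4 G_i² T⁴ [8 Y V² T⁴ L + 3 (2 Y V²)² (4V²)^(3/2) L^(1/4) T^(3/4) (8 M U²)^(1/2) (8 Y V²)^(1/4)])^(1/2)`;
`G_i Y^(1/2) ≤ 3 (K/D)^(1/2)` and `G_i Y^(9/8) ≤ 8 (D/K)^(1/8)` by `min(a,b) ≤ a^(1-θ) b^θ`, `θ = 1/4, 9/16`.
Sum over `(m,j,u₁,u₂)`: `M (2L/M) U²`. -/

namespace Pool.Agent.ZH.D

open Finset

namespace T1

theorem exists_inv {n l : ℕ} (h : l.Coprime n) : ∃ κ : ℕ, κ * l ≡ 1 [MOD n] := by
  refine ⟨((l : ZMod n)⁻¹).val, ?_⟩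
  rcases Nat.eq_zero_or_pos n with rfl | hn
  · have : l = 1 := by simpa using h
    subst this
    decide
  have : NeZero n := ⟨hn.ne'⟩
  rw [← ZMod.natCast_eq_natCast_iff]
  push_cast
  rw [ZMod.natCast_zmod_val, mul_comm]
  exact ZMod.coe_mul_inv_eq_one l h

theorem modEq_iff_of_inv {n l κ k : ℕ} (hκ : κ * l ≡ 1 [MOD n]) : k * l ≡ 1 [MOD n] ↔ k ≡ κ [MOD n] := by
  have hc : n.gcd l = 1 := by
    have h1 : (κ * l).gcd n = Nat.gcd 1 n := hκ.gcd_eq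
    rw [Nat.gcd_one_left] at h1
    exact Nat.Coprime.symm (Nat.Coprime.coprime_mul_left h1)
  constructor
  · intro h
    exact Nat.ModEq.cancel_right_of_coprime hc (h.trans hκ.symm)
  · intro h
    exact (h.mul_right l).trans hκ

/-- the two congruences are one congruence -/
theorem exists_kappa {m a b l l' : ℕ} (hab : a.Coprime b) (hl : l.Coprime (m * a)) (hl' : l'.Coprime (m * b))
    (hll : l ≡ l' [MOD m]) : ∃ κ : ℕ, κ * l ≡ 1 [MOD m * a] ∧ κ * l' ≡ 1 [MOD m * b] ∧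
      ∀ k : ℕ, (k * l ≡ 1 [MOD m * a] ∧ k * l' ≡ 1 [MOD m * b]) ↔ k ≡ κ [MOD m * (a * b)] := by
  obtain ⟨κ₁, h₁⟩ := exists_inv hl
  obtain ⟨κ₂, h₂⟩ := exists_inv hl'
  have hg : (m * a).gcd (m * b) = m := by
    rw [Nat.gcd_mul_left, hab.gcd_eq_one, mul_one]
  have h3 : κ₁ ≡ κ₂ [MOD (m * a).gcd (m * b)] := by
    rw [hg]
    have e1 : κ₁ * l ≡ 1 [MOD m] := h₁.of_mul_right a
    have e2 : κ₂ * l' ≡ 1 [MOD m] := h₂.of_mul_right b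
    have e3 : κ₂ * l ≡ 1 [MOD m] := (hll.mul_left κ₂).trans e2
    exact (modEq_iff_of_inv e3).1 e1
  obtain ⟨κ, hκ₁, hκ₂⟩ := Nat.chineseRemainder' h3
  have g1 : κ * l ≡ 1 [MOD m * a] := (hκ₁.mul_right l).trans h₁
  have g2 : κ * l' ≡ 1 [MOD m * b] := (hκ₂.mul_right l').trans h₂
  refine ⟨κ, g1, g2, fun k => ?_⟩
  rw [modEq_iff_of_inv g1, modEq_iff_of_inv g2]
  have hlcm : m * (a * b) = Nat.lcm (m * a) (m * b) := by
    rw [Nat.lcm_mul_left, hab.lcm_eq_mul]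
  constructor
  · rintro ⟨h4, h5⟩
    rw [hlcm]
    rw [← Int.natCast_modEq_iff, Int.modEq_iff_dvd] at h4 h5 ⊢
    rw [← Int.dvd_natAbs, Int.natCast_dvd_natCast] at h4 h5 ⊢
    exact Nat.lcm_dvd h4 h5
  · intro h
    refine ⟨?_, ?_⟩
    · have : m * (a * b) = m * a * b := by ring
      rw [this] at h
      exact h.of_mul_right b
    · have : m * (a * b) = m * b * a := by ring
      rw [this] at h
      exact h.of_mul_right a

theorem A11_eq {K m u₁ v₁ u₂ v₂ l l' κ : ℕ}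
    (h : ∀ k : ℕ, (k * l ≡ 1 [MOD m * (u₁ * v₁)] ∧ k * l' ≡ 1 [MOD m * (u₂ * v₂)]) ↔
      k ≡ κ [MOD m * ((u₁ * v₁) * (u₂ * v₂))]) :
    A11 K m u₁ v₁ u₂ v₂ l l' =
      ∑ k ∈ (range (3 * K)).filter (fun k => k ≡ κ [MOD m * u₁ * u₂ * (v₁ * v₂)]), tri K (K / 2) k := by
  unfold A11 G1 wt
  rw [sum_filter]
  refine sum_congr rfl fun k _ => ?_
  have hk := h k
  have e1 : m * (u₁ * v₁) = m * u₁ * v₁ := by ring
  have e2 : m * (u₂ * v₂) = m * u₂ * v₂ := by ring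
  have e3 : m * ((u₁ * v₁) * (u₂ * v₂)) = m * u₁ * u₂ * (v₁ * v₂) := by ring
  rw [e1, e2, e3] at hk
  by_cases h4 : k ≡ κ [MOD m * u₁ * u₂ * (v₁ * v₂)]
  · obtain ⟨h5, h6⟩ := hk.2 h4
    rw [if_pos h5, if_pos h6, if_pos h4]
    ring
  · rw [if_neg h4]
    by_cases h5 : k * l ≡ 1 [MOD m * u₁ * v₁]
    · have h6 : ¬ k * l' ≡ 1 [MOD m * u₂ * v₂] := fun h6 => h4 (hk.1 ⟨h5, h6⟩)
      rw [if_neg h6]
      ring
    · rw [if_neg h5]
      ring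

/-- reorganisation of a double sum over `l ≡ l'` -/
theorem sum_pairs_le {L m : ℕ} (hm : 0 < m) (f : ℕ → ℕ → ℝ) (Ψ : ℤ → ℕ → ℝ)
    (hf0 : ∀ l l', ¬ (l ≡ l' [MOD m] ∧ l ≠ l') → f l l' ≤ 0)
    (hΨ : ∀ (j : ℤ) (l l' : ℕ), j ≠ 0 → (l' : ℤ) = l + m * j → f l l' ≤ Ψ j l)
    (hΨ0 : ∀ j l, 0 ≤ Ψ j l) :
    ∑ l ∈ Ico L (2 * L), ∑ l' ∈ Ico L (2 * L), f l l' ≤
      ∑ j ∈ (Icc (-((L / m : ℕ) : ℤ)) ((L / m : ℕ) : ℤ)).filter (fun j => j ≠ 0),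
        ∑ l ∈ Ico L (2 * L), Ψ j l := by
  rw [sum_comm (s := (Icc (-((L / m : ℕ) : ℤ)) ((L / m : ℕ) : ℤ)).filter (fun j => j ≠ 0))]
  refine sum_le_sum fun l hl => ?_
  rw [mem_Ico] at hl
  have hm' : (0 : ℤ) < m := by exact_mod_cast hm
  calc ∑ l' ∈ Ico L (2 * L), f l l'
      ≤ ∑ l' ∈ (Ico L (2 * L)).filter (fun l' => l ≡ l' [MOD m] ∧ l ≠ l'), Ψ (((l' : ℤ) - l) / m) l := by
        rw [sum_filter]
        refine sum_le_sum fun l' _ => ?_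
        split_ifs with h
        · obtain ⟨h1, h2⟩ := h
          have h3 : (m : ℤ) ∣ (l' : ℤ) - l := by
            rw [← Int.modEq_iff_dvd]
            exact (Int.natCast_modEq_iff).2 h1
          obtain ⟨j, hj⟩ := h3
          have h4 : ((l' : ℤ) - l) / m = j := by
            rw [hj]; exact Int.mul_ediv_cancel_left _ hm'.ne'
          rw [h4]
          refine hΨ j l l' ?_ (by linarith)
          rintro rfl
          rw [mul_zero] at hj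
          exact h2 (by omega)
        · exact hf0 l l' h
    _ = ∑ j ∈ ((Ico L (2 * L)).filter (fun l' => l ≡ l' [MOD m] ∧ l ≠ l')).image
          (fun l' : ℕ => ((l' : ℤ) - l) / m), Ψ j l := by
        rw [sum_image]
        intro a ha b hb hab
        rw [mem_coe, mem_filter] at ha hb
        simp only at hab
        have h3 : (m : ℤ) ∣ (a : ℤ) - l := by
          rw [← Int.modEq_iff_dvd]
          exact (Int.natCast_modEq_iff).2 ha.2.1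
        have h4 : (m : ℤ) ∣ (b : ℤ) - l := by
          rw [← Int.modEq_iff_dvd]
          exact (Int.natCast_modEq_iff).2 hb.2.1
        have h5 := Int.mul_ediv_cancel' h3
        have h6 := Int.mul_ediv_cancel' h4
        rw [hab, h6] at h5
        omega
    _ ≤ _ := by
        refine sum_le_sum_of_subset_of_nonneg ?_ fun _ _ _ => hΨ0 _ _
        intro j hj
        rw [mem_image] at hj
        obtain ⟨l', hl', rfl⟩ := hj
        rw [mem_filter, mem_Ico] at hl'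
        obtain ⟨⟨h1, h2⟩, h3, h4⟩ := hl'
        have h5 : (m : ℤ) ∣ (l' : ℤ) - l := by
          rw [← Int.modEq_iff_dvd]
          exact (Int.natCast_modEq_iff).2 h3
        obtain ⟨j, hj⟩ := h5
        have h6 : ((l' : ℤ) - l) / m = j := by
          rw [hj]; exact Int.mul_ediv_cancel_left _ hm'.ne'
        rw [h6, mem_filter, mem_Icc]
        have h7 : |(m : ℤ) * j| ≤ L := by
          rw [← hj, abs_le]; constructor <;> omega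
        rw [abs_mul, abs_of_pos hm'] at h7
        have h8 : |j| ≤ ((L / m : ℕ) : ℤ) := by
          push_cast
          rw [Int.le_ediv_iff_mul_le hm', mul_comm]
          exact h7
        refine ⟨⟨by have := neg_abs_le j; omega, by have := le_abs_self j; omega⟩, ?_⟩
        rintro rfl
        rw [mul_zero] at hj
        exact h4 (by omega)

theorem card_J (L m : ℕ) :
    ((Icc (-((L / m : ℕ) : ℤ)) ((L / m : ℕ) : ℤ)).filter (fun j => j ≠ 0)).card = 2 * (L / m) := by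
  have h : (Icc (-((L / m : ℕ) : ℤ)) ((L / m : ℕ) : ℤ)).filter (fun j => j ≠ 0) =
      (Icc (-((L / m : ℕ) : ℤ)) ((L / m : ℕ) : ℤ)).erase 0 := by
    ext j; simp [mem_erase, and_comm]
  have h0 : (0 : ℤ) ≤ ((L / m : ℕ) : ℤ) := Int.natCast_nonneg _
  rw [h, card_erase_of_mem (by rw [mem_Icc]; exact ⟨by linarith, h0⟩), Int.card_Icc]
  generalize L / m = q
  omega

/-- numerical simplification of the output of `blocks` -/
theorem numerics {M U V K L : ℕ} {T : ℝ} (hM : 1 ≤ M) (hU : 1 ≤ U) (hV : 1 ≤ V) (hK : 1 ≤ K) (hL : 1 ≤ L)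
    (hT : 1 ≤ T) :
    20 * T * T ^ 2 * ((L : ℝ) * (8 * (V : ℝ) ^ 2 * T ^ 4) ^ (1 / 2 : ℝ) *
        (((K : ℝ) / (M * U ^ 2 * V ^ 2)) ^ (3 / 4 : ℝ) * (8 * (M * U ^ 2 * V ^ 2 : ℝ) / K) ^ (1 / 4 : ℝ)) +
      (V : ℝ) ^ 2 * (4 * (V : ℝ) ^ 2) ^ (7 / 8 : ℝ) * (L : ℝ) ^ (5 / 8 : ℝ) * T ^ (3 / 8 : ℝ) *
        (8 * (M : ℝ) * U ^ 2) ^ (1 / 4 : ℝ) *
        (((K : ℝ) / (M * U ^ 2 * V ^ 2)) ^ (7 / 16 : ℝ) * (8 * (M * U ^ 2 * V ^ 2 : ℝ) / K) ^ (9 / 16 : ℝ))) ≤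
    5000 * T ^ 8 * ((L : ℝ) * (((K : ℝ) / (M * U ^ 2 * V ^ 2)) ^ (1 / 2 : ℝ) * V +
          ((M * U ^ 2 * V ^ 2 : ℝ) / K) ^ (1 / 8 : ℝ) * (V : ℝ) ^ (15 / 4 : ℝ) * (L : ℝ) ^ (-(3 / 8) : ℝ) *
            (M : ℝ) ^ (1 / 4 : ℝ) * (U : ℝ) ^ (1 / 2 : ℝ))) := by
  have hM' : (0 : ℝ) < M := by exact_mod_cast hM
  have hU' : (0 : ℝ) < U := by exact_mod_cast hU
  have hV' : (0 : ℝ) < V := by exact_mod_cast hV
  have hK' : (0 : ℝ) < K := by exact_mod_cast hK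
  have hL' : (0 : ℝ) < L := by exact_mod_cast hL
  have hT' : (0 : ℝ) < T := by linarith
  set D : ℝ := (M : ℝ) * U ^ 2 * V ^ 2 with hD
  have hD' : 0 < D := by positivity
  set q : ℝ := (K : ℝ) / D with hq
  have hq' : 0 < q := by positivity
  have e0 : 8 * D / K = 8 * q⁻¹ := by rw [hq, inv_div]; ring
  have e0' : D / K = q⁻¹ := by rw [hq, inv_div]
  rw [e0, e0']
  have b8a : (8 : ℝ) ^ (1 / 4 : ℝ) ≤ 2 := by
    have h : (2 : ℝ) = (16 : ℝ) ^ (1 / 4 : ℝ) := by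
      rw [show (16 : ℝ) = 2 ^ (4 : ℝ) by norm_num, ← Real.rpow_mul (by norm_num)]; norm_num
    rw [h]
    exact Real.rpow_le_rpow (by norm_num) (by norm_num) (by norm_num)
  have b8b : (8 : ℝ) ^ (9 / 16 : ℝ) ≤ 4 := by
    have h : (4 : ℝ) = (8 : ℝ) ^ (2 / 3 : ℝ) := by
      rw [show (8 : ℝ) = 2 ^ (3 : ℝ) by norm_num, ← Real.rpow_mul (by norm_num)]; norm_num
    rw [h]
    exact Real.rpow_le_rpow_of_exponent_le (by norm_num) (by norm_num)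
  have e1 : (8 * (V : ℝ) ^ 2 * T ^ 4) ^ (1 / 2 : ℝ) ≤ 3 * (V * T ^ 2) := by
    have h : (3 * ((V : ℝ) * T ^ 2)) = ((3 * ((V : ℝ) * T ^ 2)) ^ (2 : ℕ)) ^ (1 / 2 : ℝ) := by
      rw [← Real.rpow_natCast (3 * ((V : ℝ) * T ^ 2)) 2, ← Real.rpow_mul (by positivity)]; norm_num
    rw [h]
    refine Real.rpow_le_rpow (by positivity) ?_ (by norm_num)
    have : 0 ≤ (V : ℝ) ^ 2 * T ^ 4 := by positivity
    nlinarith
  have e2 : q ^ (3 / 4 : ℝ) * (8 * q⁻¹) ^ (1 / 4 : ℝ) ≤ 2 * q ^ (1 / 2 : ℝ) := by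
    rw [Real.mul_rpow (by norm_num) (by positivity), Real.inv_rpow hq'.le, ← Real.rpow_neg hq'.le]
    have : q ^ (3 / 4 : ℝ) * (8 ^ (1 / 4 : ℝ) * q ^ (-(1 / 4) : ℝ)) = 8 ^ (1 / 4 : ℝ) * q ^ (1 / 2 : ℝ) := by
      rw [mul_left_comm, ← Real.rpow_add hq']; norm_num
    rw [this]
    gcongr
  have e3 : (4 * (V : ℝ) ^ 2) ^ (7 / 8 : ℝ) ≤ 4 * (V : ℝ) ^ (7 / 4 : ℝ) := by
    rw [Real.mul_rpow (by norm_num) (by positivity)]
    have h1 : (4 : ℝ) ^ (7 / 8 : ℝ) ≤ 4 := by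
      have := Real.rpow_le_rpow_of_exponent_le (x := 4) (by norm_num) (show (7 / 8 : ℝ) ≤ 1 by norm_num)
      rwa [Real.rpow_one] at this
    have h2 : ((V : ℝ) ^ 2) ^ (7 / 8 : ℝ) = (V : ℝ) ^ (7 / 4 : ℝ) := by
      rw [← Real.rpow_natCast, ← Real.rpow_mul hV'.le]; norm_num
    rw [h2]
    gcongr
  have e4 : T ^ (3 / 8 : ℝ) ≤ T := by
    have := Real.rpow_le_rpow_of_exponent_le hT (show (3 / 8 : ℝ) ≤ 1 by norm_num)
    rwa [Real.rpow_one] at this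
  have e5 : (8 * (M : ℝ) * U ^ 2) ^ (1 / 4 : ℝ) ≤ 2 * ((M : ℝ) ^ (1 / 4 : ℝ) * (U : ℝ) ^ (1 / 2 : ℝ)) := by
    rw [Real.mul_rpow (by positivity) (by positivity), Real.mul_rpow (by norm_num) (by positivity)]
    have h2 : ((U : ℝ) ^ 2) ^ (1 / 4 : ℝ) = (U : ℝ) ^ (1 / 2 : ℝ) := by
      rw [← Real.rpow_natCast, ← Real.rpow_mul hU'.le]; norm_num
    rw [h2, mul_assoc]
    gcongr
  have e6 : q ^ (7 / 16 : ℝ) * (8 * q⁻¹) ^ (9 / 16 : ℝ) ≤ 4 * q⁻¹ ^ (1 / 8 : ℝ) := by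
    rw [Real.mul_rpow (by norm_num) (by positivity), Real.inv_rpow hq'.le, ← Real.rpow_neg hq'.le,
      Real.inv_rpow hq'.le, ← Real.rpow_neg hq'.le]
    have : q ^ (7 / 16 : ℝ) * (8 ^ (9 / 16 : ℝ) * q ^ (-(9 / 16) : ℝ)) =
        8 ^ (9 / 16 : ℝ) * q ^ (-(1 / 8) : ℝ) := by
      rw [mul_left_comm, ← Real.rpow_add hq']; norm_num
    rw [this]
    gcongr
  have e7 : (V : ℝ) ^ 2 * (V : ℝ) ^ (7 / 4 : ℝ) = (V : ℝ) ^ (15 / 4 : ℝ) := by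
    rw [← Real.rpow_natCast, ← Real.rpow_add hV']; norm_num
  have e8 : (L : ℝ) ^ (5 / 8 : ℝ) = L * (L : ℝ) ^ (-(3 / 8) : ℝ) := by
    nth_rewrite 2 [← Real.rpow_one (L : ℝ)]
    rw [← Real.rpow_add hL']; norm_num
  have t5 : T ^ 5 ≤ T ^ 8 := pow_le_pow_right₀ hT (by norm_num)
  have t4 : T ^ 4 ≤ T ^ 8 := pow_le_pow_right₀ hT (by norm_num)
  set A := q ^ (1 / 2 : ℝ) with hA
  set A' := q⁻¹ ^ (1 / 8 : ℝ) with hA'
  set m4 := (M : ℝ) ^ (1 / 4 : ℝ)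
  set u2 := (U : ℝ) ^ (1 / 2 : ℝ)
  set l8 := (L : ℝ) ^ (-(3 / 8) : ℝ)
  have hA0 : 0 ≤ A := by positivity
  have hA'0 : 0 ≤ A' := by positivity
  have hm4 : 0 ≤ m4 := by positivity
  have hu2 : 0 ≤ u2 := by positivity
  have hl8 : 0 ≤ l8 := by positivity
  have f1 : (L : ℝ) * (8 * (V : ℝ) ^ 2 * T ^ 4) ^ (1 / 2 : ℝ) *
      (q ^ (3 / 4 : ℝ) * (8 * q⁻¹) ^ (1 / 4 : ℝ)) ≤ L * (3 * (V * T ^ 2)) * (2 * A) := by
    gcongr
  have f2 : (V : ℝ) ^ 2 * (4 * (V : ℝ) ^ 2) ^ (7 / 8 : ℝ) * (L : ℝ) ^ (5 / 8 : ℝ) * T ^ (3 / 8 : ℝ) *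
        (8 * (M : ℝ) * U ^ 2) ^ (1 / 4 : ℝ) * (q ^ (7 / 16 : ℝ) * (8 * q⁻¹) ^ (9 / 16 : ℝ)) ≤
      (V : ℝ) ^ 2 * (4 * (V : ℝ) ^ (7 / 4 : ℝ)) * (L * l8) * T * (2 * (m4 * u2)) * (4 * A') := by
    rw [e8]
    gcongr
  have f2' : (V : ℝ) ^ 2 * (4 * (V : ℝ) ^ (7 / 4 : ℝ)) * (L * l8) * T * (2 * (m4 * u2)) * (4 * A') =
      32 * T * (L * (A' * (V : ℝ) ^ (15 / 4 : ℝ) * l8 * m4 * u2)) := by
    rw [← e7]; ring
  calc 20 * T * T ^ 2 * ((L : ℝ) * (8 * (V : ℝ) ^ 2 * T ^ 4) ^ (1 / 2 : ℝ) *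
        (q ^ (3 / 4 : ℝ) * (8 * q⁻¹) ^ (1 / 4 : ℝ)) +
      (V : ℝ) ^ 2 * (4 * (V : ℝ) ^ 2) ^ (7 / 8 : ℝ) * (L : ℝ) ^ (5 / 8 : ℝ) * T ^ (3 / 8 : ℝ) *
        (8 * (M : ℝ) * U ^ 2) ^ (1 / 4 : ℝ) * (q ^ (7 / 16 : ℝ) * (8 * q⁻¹) ^ (9 / 16 : ℝ)))
      ≤ 20 * T * T ^ 2 * (L * (3 * (V * T ^ 2)) * (2 * A) +
          32 * T * (L * (A' * (V : ℝ) ^ (15 / 4 : ℝ) * l8 * m4 * u2))) := by
        rw [← f2']
        gcongr
    _ = 120 * T ^ 5 * (L * (A * V)) + 640 * T ^ 4 * (L * (A' * (V : ℝ) ^ (15 / 4 : ℝ) * l8 * m4 * u2)) := by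
        ring
    _ ≤ 5000 * T ^ 8 * (L * (A * V)) + 5000 * T ^ 8 * (L * (A' * (V : ℝ) ^ (15 / 4 : ℝ) * l8 * m4 * u2)) := by
        refine add_le_add (mul_le_mul_of_nonneg_right ?_ (by positivity))
          (mul_le_mul_of_nonneg_right ?_ (by positivity))
        · have := pow_pos hT' 5
          nlinarith
        · have := pow_pos hT' 4
          nlinarith
    _ = _ := by ring

theorem fixed {M U V K L X : ℕ} {z T : ℝ} {c : ℕ → ℕ → ℕ → ℝ} (S : Setup M U V K L X z T c)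
    {m u₁ u₂ : ℕ} (hm : m ∈ Ico M (2 * M)) (hu₁ : u₁ ∈ Ico U (2 * U)) (hu₂ : u₂ ∈ Ico U (2 * U)) (j : ℤ) :
    ∃ Ψ : ℕ → ℝ, (∀ l, 0 ≤ Ψ l) ∧ (∀ l l' : ℕ, j ≠ 0 → (l' : ℤ) = l + m * j →
      |∑ v₁ ∈ Ico V (2 * V), ∑ v₂ ∈ Ico V (2 * V), (if Gd m u₁ v₁ u₂ v₂ l l' then
          c m u₁ v₁ * c m u₂ v₂ * (A11 K m u₁ v₁ u₂ v₂ l l' - mu K m u₁ v₁ u₂ v₂) else 0)| ≤ Ψ l) ∧
      ∑ l ∈ Ico L (2 * L), Ψ l ≤ 5000 * T ^ 8 * ((L : ℝ) *
        (((K : ℝ) / (M * U ^ 2 * V ^ 2)) ^ (1 / 2 : ℝ) * V +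
          ((M * U ^ 2 * V ^ 2 : ℝ) / K) ^ (1 / 8 : ℝ) * (V : ℝ) ^ (15 / 4 : ℝ) * (L : ℝ) ^ (-(3 / 8) : ℝ) *
            (M : ℝ) ^ (1 / 4 : ℝ) * (U : ℝ) ^ (1 / 2 : ℝ))) := by
  classical
  rw [mem_Ico] at hm hu₁ hu₂
  have hM1 := S.posM
  have hU1 := S.posU
  have hV1 := S.posV
  have hK8 := S.K8
  have hL8 := S.L8
  have hX1 : 1 ≤ X := by have := S.X1; nlinarith
  have hT1 : 1 ≤ T := by
    have h := S.tau_le 1 one_pos hX1
    have h1 : tau 1 = 1 := by simp [tau]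
    rwa [h1] at h
  have hT0 : (0 : ℝ) < T := by linarith
  have hm0 : 0 < m := by omega
  have hu₁0 : 0 < u₁ := by omega
  have hu₂0 : 0 < u₂ := by omega
  by_cases hc : (m * u₁).Coprime u₂
  swap
  · refine ⟨fun _ => 0, fun _ => le_rfl, ?_, ?_⟩
    · intro l l' _ _
      have h0 : ∑ v₁ ∈ Ico V (2 * V), ∑ v₂ ∈ Ico V (2 * V), (if Gd m u₁ v₁ u₂ v₂ l l' then
          c m u₁ v₁ * c m u₂ v₂ * (A11 K m u₁ v₁ u₂ v₂ l l' - mu K m u₁ v₁ u₂ v₂) else 0) = 0 := by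
        refine sum_eq_zero fun v₁ _ => sum_eq_zero fun v₂ _ => ?_
        split_ifs with hG
        · by_cases h2 : c m u₂ v₂ = 0
          · rw [h2]; ring
          · exfalso
            apply hc
            have h3 := S.c_cop _ _ _ h2
            have h4 := hG.1
            rw [Nat.coprime_mul_iff_left] at *
            exact ⟨h3.coprime_mul_right_right, h4.1.coprime_mul_right_right⟩
        · rfl
      rw [h0]; simp
    · rw [sum_const_zero]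
      positivity
  have hR0 : 0 < m * u₁ * u₂ := by positivity
  have : NeZero (m * u₁ * u₂) := ⟨hR0.ne'⟩
  obtain ⟨g, hg0, hg1, hg2, hg3⟩ := fejer K (K / 2) (by omega)
  obtain ⟨r, hr⟩ := phase_pair m u₁ u₂ hc j
  set S0 : Finset (ℕ × ℕ) := ((Ico V (2 * V)) ×ˢ (Ico V (2 * V))).filter
    (fun i => c m u₁ i.1 ≠ 0 ∧ c m u₂ i.2 ≠ 0 ∧ (u₁ * i.1).Coprime (u₂ * i.2)) with hS0
  have hmem : ∀ i ∈ S0, (V ≤ i.1 ∧ i.1 < 2 * V) ∧ (V ≤ i.2 ∧ i.2 < 2 * V) ∧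
      (i.1 * i.2).Coprime (m * u₁ * u₂) ∧ i.1.Coprime i.2 ∧ (u₁ * i.1).Coprime (u₂ * i.2) := by
    intro i hi
    rw [hS0, mem_filter, mem_product, mem_Ico, mem_Ico] at hi
    obtain ⟨⟨h1, h2⟩, h3, h4, h5⟩ := hi
    have a1 := S.c_cop _ _ _ h3
    have a2 := S.c_cop' _ _ _ h3
    have a3 := S.c_cop _ _ _ h4
    have a4 := S.c_cop' _ _ _ h4
    have b1 : i.1.Coprime m := (a1.coprime_mul_left_right).symm
    have b3 : i.1.Coprime u₂ := h5.coprime_mul_left.coprime_mul_right_right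
    have b4 : i.2.Coprime m := (a3.coprime_mul_left_right).symm
    have b5 : i.2.Coprime u₁ := (h5.coprime_mul_right.coprime_mul_left_right).symm
    exact ⟨h1, h2, Nat.Coprime.mul_left ((b1.mul_right a2.symm).mul_right b3)
      ((b4.mul_right b5).mul_right a4.symm), h5.coprime_mul_left.coprime_mul_left_right, h5⟩
  have hF : ∀ i : ℕ × ℕ, ∀ h : ℤ, ∃ F0 : ℕ → ℂ, i ∈ S0 → ((∀ t, ‖F0 t‖ ≤ 1) ∧
        (∀ t, F0 (t + i.1 * i.2) = F0 t) ∧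
        (∀ l l' κ : ℕ, (l' : ℤ) = l + m * j → κ * l ≡ 1 [MOD m * u₁ * i.1] →
          κ * l' ≡ 1 [MOD m * u₂ * i.2] →
          e (-(h * κ : ℝ) / ((m * u₁ * u₂ * (i.1 * i.2) : ℕ) : ℝ)) =
            F0 l * kph (m * u₁ * u₂) (-(h : ZMod _) * ((i.1 * i.2 : ℕ) : ZMod _)⁻¹)
              ((l : ZMod _) + r)) ∧
        (∀ l l' : ℕ, (l' : ℤ) = l + m * j →
          ¬(l.Coprime (m * u₁ * i.1) ∧ l'.Coprime (m * u₂ * i.2)) →
          F0 l * kph (m * u₁ * u₂) (-(h : ZMod _) * ((i.1 * i.2 : ℕ) : ZMod _)⁻¹)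
              ((l : ZMod _) + r) = 0)) := by
    intro i h
    by_cases hi : i ∈ S0
    · obtain ⟨h1, h2, h3, h4, h5⟩ := hmem i hi
      obtain ⟨F0, hF0⟩ := hr i.1 i.2 (by omega) (by omega) h3 h4 h
      exact ⟨F0, fun _ => hF0⟩
    · exact ⟨fun _ => 0, fun h => absurd h hi⟩
  choose F0 hF0 using hF
  set W : ℕ × ℕ → ℕ := fun i => m * u₁ * u₂ * (i.1 * i.2) with hW
  have hWlo : ∀ i ∈ S0, M * U ^ 2 * V ^ 2 ≤ W i := by
    intro i hi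
    obtain ⟨h1, h2, -⟩ := hmem i hi
    calc M * U ^ 2 * V ^ 2 = M * U * U * (V * V) := by ring
      _ ≤ m * u₁ * u₂ * (i.1 * i.2) := by
          refine Nat.mul_le_mul (Nat.mul_le_mul (Nat.mul_le_mul hm.1 hu₁.1) hu₂.1)
            (Nat.mul_le_mul h1.1 h2.1)
  have hWhi : ∀ i ∈ S0, W i ≤ 32 * (M * U ^ 2 * V ^ 2) := by
    intro i hi
    obtain ⟨h1, h2, -⟩ := hmem i hi
    calc m * u₁ * u₂ * (i.1 * i.2) ≤ (2 * M) * (2 * U) * (2 * U) * ((2 * V) * (2 * V)) := by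
          refine Nat.mul_le_mul (Nat.mul_le_mul (Nat.mul_le_mul hm.2.le hu₁.2.le) hu₂.2.le)
            (Nat.mul_le_mul h1.2.le h2.2.le)
      _ = 32 * (M * U ^ 2 * V ^ 2) := by ring
  have hM' : (0 : ℝ) < M := by exact_mod_cast hM1
  have hU' : (0 : ℝ) < U := by exact_mod_cast hU1
  have hV' : (0 : ℝ) < V := by exact_mod_cast hV1
  have hK' : (0 : ℝ) < K := by exact_mod_cast (by omega : 0 < K)
  have hD0 : (0 : ℝ) < M * U ^ 2 * V ^ 2 := by positivity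
  have hV24 : V ^ 2 ≤ V ^ 4 := Nat.pow_le_pow_right hV1 (by norm_num)
  have hX2 := S.X2
  refine ⟨fun l => ‖∑ i ∈ S0, ((c m u₁ i.1 * c m u₂ i.2 : ℝ) : ℂ) *
    ∑ h ∈ (Icc (-(W i : ℤ)) (W i)).filter (fun h => h ≠ 0),
      g (W i) h * (F0 i h l * kph (m * u₁ * u₂) (-(h : ZMod (m * u₁ * u₂)) *
        ((i.1 * i.2 : ℕ) : ZMod (m * u₁ * u₂))⁻¹) ((l : ZMod (m * u₁ * u₂)) + r))‖, fun _ => norm_nonneg _,
    ?_, ?_⟩
  · -- pointwise
    intro l l' hj hll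
    rw [← Real.norm_eq_abs, ← Complex.norm_real]
    refine le_of_eq (congrArg _ ?_)
    rw [← sum_product', Complex.ofReal_sum, hS0, sum_filter]
    refine sum_congr rfl fun i hi => ?_
    by_cases hiS : c m u₁ i.1 ≠ 0 ∧ c m u₂ i.2 ≠ 0 ∧ (u₁ * i.1).Coprime (u₂ * i.2)
    swap
    · rw [if_neg hiS]
      have h0 : (if Gd m u₁ i.1 u₂ i.2 l l' then
          c m u₁ i.1 * c m u₂ i.2 * (A11 K m u₁ i.1 u₂ i.2 l l' - mu K m u₁ i.1 u₂ i.2) else 0) = 0 := by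
        split_ifs with hG
        · by_cases h1 : c m u₁ i.1 = 0
          · rw [h1]; ring
          · by_cases h2 : c m u₂ i.2 = 0
            · rw [h2]; ring
            · exact absurd ⟨h1, h2, hG.1⟩ hiS
        · rfl
      rw [h0]; simp
    rw [if_pos hiS]
    have hi' : i ∈ S0 := by rw [hS0, mem_filter]; exact ⟨hi, hiS⟩
    obtain ⟨h1, h2, h3, h4, h5⟩ := hmem i hi'
    have hW1 : 1 ≤ W i := by
      refine le_trans ?_ (hWlo i hi')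
      have : 0 < M * U ^ 2 * V ^ 2 := by positivity
      omega
    by_cases hG : Gd m u₁ i.1 u₂ i.2 l l'
    · rw [if_pos hG]
      obtain ⟨-, -, hll', hc1, hc2⟩ := hG
      have hc1' : l.Coprime (m * (u₁ * i.1)) := by rwa [← mul_assoc]
      have hc2' : l'.Coprime (m * (u₂ * i.2)) := by rwa [← mul_assoc]
      obtain ⟨κ, k1, k2, k3⟩ := exists_kappa h5 hc1' hc2' hll'
      rw [← mul_assoc] at k1 k2
      have hA := A11_eq (K := K) k3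
      have hf := hg3 (W i) (3 * K) hW1 (by omega) κ
      have hA' : ((A11 K m u₁ i.1 u₂ i.2 l l' - mu K m u₁ i.1 u₂ i.2 : ℝ) : ℂ) =
          ∑ h ∈ (Icc (-(W i : ℤ)) (W i)).filter (fun h => h ≠ 0),
            g (W i) h * (F0 i h l * kph (m * u₁ * u₂) (-(h : ZMod (m * u₁ * u₂)) *
              ((i.1 * i.2 : ℕ) : ZMod (m * u₁ * u₂))⁻¹) ((l : ZMod (m * u₁ * u₂)) + r)) := by
        rw [Complex.ofReal_sub, hA, hf]
        have hmu : ((mu K m u₁ i.1 u₂ i.2 : ℝ) : ℂ) = (K : ℂ) / (W i : ℕ) := by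
          unfold mu
          rw [hW]
          push_cast
          congr 1
          ring
        rw [hmu, add_sub_cancel_left]
        refine sum_congr rfl fun h _ => ?_
        rw [(hF0 i h hi').2.2.1 l l' κ hll k1 k2]
      rw [← hA']
      push_cast
      ring
    · rw [if_neg hG]
      have hn : ¬(l.Coprime (m * u₁ * i.1) ∧ l'.Coprime (m * u₂ * i.2)) := by
        rintro ⟨h6, h7⟩
        refine hG ⟨h5, ?_, ?_, h6, h7⟩
        · rintro rfl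
          have : (m : ℤ) * j = 0 := by linarith
          rcases mul_eq_zero.1 this with h8 | h8
          · omega
          · exact hj h8
        · rw [← Int.natCast_modEq_iff, Int.modEq_iff_dvd]
          exact ⟨j, by linarith⟩
      have h0 : ∑ h ∈ (Icc (-(W i : ℤ)) (W i)).filter (fun h => h ≠ 0),
            g (W i) h * (F0 i h l * kph (m * u₁ * u₂) (-(h : ZMod (m * u₁ * u₂)) *
              ((i.1 * i.2 : ℕ) : ZMod (m * u₁ * u₂))⁻¹) ((l : ZMod (m * u₁ * u₂)) + r)) = 0 := by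
        refine sum_eq_zero fun h _ => ?_
        rw [(hF0 i h hi').2.2.2 l l' hll hn, mul_zero]
      rw [h0]; simp
  · -- blocks
    have hdiag : ∀ Y : ℝ, 1 ≤ Y → Y ≤ 2 * ((16 * (M * U ^ 2 * V ^ 2) : ℕ) : ℝ) → ∀ J : Finset ℤ,
        (∀ h ∈ J, h ≠ 0 ∧ |(h : ℝ)| ≤ Y) →
        ((((S0 ×ˢ J) ×ˢ (S0 ×ˢ J)).filter (fun p : ((ℕ × ℕ) × ℤ) × ((ℕ × ℕ) × ℤ) =>
          p.2.2 * ((p.1.1.1 * p.1.1.2 : ℕ) : ℤ) = p.1.2 * ((p.2.1.1 * p.2.1.2 : ℕ) : ℤ))).card : ℝ) ≤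
          (8 * (V : ℝ) ^ 2 * T ^ 4) * Y := by
      intro Y hY1 hY2 J hJ
      have hXr : (1024 : ℝ) * M * U ^ 2 * V ^ 4 ≤ X := by exact_mod_cast hX2
      have hYV : 4 * Y * (V : ℝ) ^ 2 ≤ X := by
        push_cast at hY2
        calc 4 * Y * (V : ℝ) ^ 2 ≤ 4 * (2 * (16 * (M * U ^ 2 * V ^ 2))) * (V : ℝ) ^ 2 := by gcongr
          _ = 128 * ((M : ℝ) * U ^ 2 * V ^ 4) := by ring
          _ ≤ 1024 * ((M : ℝ) * U ^ 2 * V ^ 4) := by
              have : (0 : ℝ) ≤ (M : ℝ) * U ^ 2 * V ^ 4 := by positivity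
              linarith
          _ = 1024 * (M : ℝ) * U ^ 2 * V ^ 4 := by ring
          _ ≤ X := hXr
      have h1 := diag3 V X T Y J hV1 hY1 S.tau_le hJ hYV
      refine le_trans ?_ (h1.trans (le_of_eq (by ring)))
      have hsub : ((S0 ×ˢ J) ×ˢ (S0 ×ˢ J)).filter (fun p : ((ℕ × ℕ) × ℤ) × ((ℕ × ℕ) × ℤ) =>
          p.2.2 * ((p.1.1.1 * p.1.1.2 : ℕ) : ℤ) = p.1.2 * ((p.2.1.1 * p.2.1.2 : ℕ) : ℤ)) ⊆
          (((((Ico V (2 * V)) ×ˢ (Ico V (2 * V))) ×ˢ J) ×ˢ (((Ico V (2 * V)) ×ˢ (Ico V (2 * V))) ×ˢ J))).filter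
            (fun p : ((ℕ × ℕ) × ℤ) × ((ℕ × ℕ) × ℤ) =>
              p.2.2 * ((p.1.1.1 * p.1.1.2 : ℕ) : ℤ) = p.1.2 * ((p.2.1.1 * p.2.1.2 : ℕ) : ℤ)) := by
        refine filter_subset_filter _ ?_
        have : S0 ⊆ (Ico V (2 * V)) ×ˢ (Ico V (2 * V)) := filter_subset _ _
        exact product_subset_product (product_subset_product this Subset.rfl)
          (product_subset_product this Subset.rfl)
      exact_mod_cast card_le_card hsub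
    have hb := blocks S0 (m * u₁ * u₂) L (16 * (M * U ^ 2 * V ^ 2)) X hL8 r (fun i => i.1 * i.2) W F0
      (fun i => ((c m u₁ i.1 * c m u₂ i.2 : ℝ) : ℂ)) (fun i h => g (W i) h) (T ^ 2)
      ((K : ℝ) / (M * U ^ 2 * V ^ 2)) (8 * (M * U ^ 2 * V ^ 2 : ℝ) / K) T (8 * (V : ℝ) ^ 2 * T ^ 4)
      (V ^ 2) (4 * V ^ 2) (V ^ 2) (by positivity) (by positivity) (by positivity) (by positivity)
      (by have : 0 < V ^ 2 := by positivity
          omega) ?_ ?_ ?_ ?_ ?_ ?_ ?_ ?_ ?_ ?_ ?_ S.tau_le ?_ hX1 hdiag ?_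
    · refine hb.trans ?_
      refine le_trans ?_ (numerics (K := K) (L := L) hM1 hU1 hV1 (by omega) (by omega) hT1)
      have hτ : tau (m * u₁ * u₂) ≤ T := by
        refine S.tau_le _ hR0 ?_
        refine le_trans ?_ hX2
        calc m * u₁ * u₂ ≤ (2 * M) * (2 * U) * (2 * U) :=
              Nat.mul_le_mul (Nat.mul_le_mul hm.2.le hu₁.2.le) hu₂.2.le
          _ = 8 * (M * U ^ 2 * 1) := by ring
          _ ≤ 1024 * (M * U ^ 2 * V ^ 4) := by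
              have : M * U ^ 2 * 1 ≤ M * U ^ 2 * V ^ 4 := Nat.mul_le_mul_left _ (Nat.one_le_pow _ _ hV1)
              omega
          _ = _ := by ring
      have hτ0 : 0 ≤ tau (m * u₁ * u₂) := by unfold tau; positivity
      have hR : ((m * u₁ * u₂ : ℕ) : ℝ) ≤ 8 * (M : ℝ) * U ^ 2 := by
        have : m * u₁ * u₂ ≤ (2 * M) * (2 * U) * (2 * U) :=
              Nat.mul_le_mul (Nat.mul_le_mul hm.2.le hu₁.2.le) hu₂.2.le
        have h1 : ((m * u₁ * u₂ : ℕ) : ℝ) ≤ (((2 * M) * (2 * U) * (2 * U) : ℕ) : ℝ) := by exact_mod_cast this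
        refine h1.trans (le_of_eq ?_)
        push_cast
        ring
      have hτ' : tau (m * u₁ * u₂) ^ (3 / 8 : ℝ) ≤ T ^ (3 / 8 : ℝ) :=
        Real.rpow_le_rpow hτ0 hτ (by norm_num)
      have hR' : ((m * u₁ * u₂ : ℕ) : ℝ) ^ (1 / 4 : ℝ) ≤ (8 * (M : ℝ) * U ^ 2) ^ (1 / 4 : ℝ) :=
        Real.rpow_le_rpow (Nat.cast_nonneg _) hR (by norm_num)
      push_cast at hR' ⊢
      gcongr
    · -- hω
      have := S.VL
      have h1 : ((16 * V ^ 4 : ℕ) : ℝ) ≤ L := by exact_mod_cast this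
      push_cast at h1 ⊢
      nlinarith
    · -- hw₁
      intro i hi
      obtain ⟨h1, h2, -⟩ := hmem i hi
      rw [sq]
      exact Nat.mul_le_mul h1.1 h2.1
    · -- hw₂
      intro i hi
      obtain ⟨h1, h2, -⟩ := hmem i hi
      calc i.1 * i.2 ≤ (2 * V) * (2 * V) := Nat.mul_le_mul h1.2.le h2.2.le
        _ = 4 * V ^ 2 := by ring
    · intro i hi
      exact (hmem i hi).2.2.1
    · intro i hi h t
      exact (hF0 i h hi).1 t
    · intro i hi h t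
      exact (hF0 i h hi).2.1 t
    · -- hγ
      intro i hi
      rw [Complex.norm_real, Real.norm_of_nonneg (mul_nonneg (S.c_nonneg _ _ _) (S.c_nonneg _ _ _)), sq]
      exact mul_le_mul (S.c_le _ _ _) (S.c_le _ _ _) (S.c_nonneg _ _ _) hT0.le
    · -- hR
      have h1 : L / (V ^ 2 * V ^ 2) ≤ L / V ^ 2 :=
        Nat.div_le_div_left (Nat.le_mul_of_pos_left _ (by positivity)) (by positivity)
      have h2 := S.LV
      have h3 : M ≤ m * u₁ * u₂ := by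
        calc M ≤ m := hm.1
          _ ≤ m * (u₁ * u₂) := Nat.le_mul_of_pos_right _ (by positivity)
          _ = _ := by ring
      omega
    · -- hg0
      intro i hi h _
      have hW1 : 1 ≤ W i := by
        refine le_trans ?_ (hWlo i hi)
        have : 0 < M * U ^ 2 * V ^ 2 := by positivity
        omega
      refine (hg0 (W i) h hW1).trans ?_
      refine div_le_div_of_nonneg_left hK'.le hD0 ?_
      exact_mod_cast hWlo i hi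
    · -- hg1
      intro i hi h hh
      have hW1 : 1 ≤ W i := by
        refine le_trans ?_ (hWlo i hi)
        have : 0 < M * U ^ 2 * V ^ 2 := by positivity
        omega
      refine (hg1 (W i) h hW1 hh).trans ?_
      have h1 : (W i : ℝ) ≤ 32 * (M * U ^ 2 * V ^ 2) := by exact_mod_cast hWhi i hi
      have h2 : (0 : ℝ) < (h : ℝ) ^ 2 := by
        have : (h : ℝ) ≠ 0 := by exact_mod_cast hh
        positivity
      calc (W i : ℝ) / (4 * K * (h : ℝ) ^ 2) ≤ (32 * (M * U ^ 2 * V ^ 2)) / (4 * K * (h : ℝ) ^ 2) := by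
            gcongr
        _ = 8 * (M * U ^ 2 * V ^ 2 : ℝ) / K / (h : ℝ) ^ 2 := by
            field_simp
            ring
    · -- hg2
      intro i hi h hh
      have hW1 : 1 ≤ W i := by
        refine le_trans ?_ (hWlo i hi)
        have : 0 < M * U ^ 2 * V ^ 2 := by positivity
        omega
      refine hg2 (W i) h hW1 ?_
      have h1 : (W i : ℤ) ≤ 32 * (M * U ^ 2 * V ^ 2) := by exact_mod_cast hWhi i hi
      push_cast at hh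
      linarith
    · -- hHX
      refine le_trans ?_ hX2
      calc 16 * (M * U ^ 2 * V ^ 2) ≤ 16 * (M * U ^ 2 * V ^ 4) := by gcongr
        _ ≤ 1024 * (M * U ^ 2 * V ^ 4) := by omega
        _ = _ := by ring
    · -- card
      calc S0.card ≤ ((Ico V (2 * V)) ×ˢ (Ico V (2 * V))).card := card_filter_le _ _
        _ = V ^ 2 := by
          rw [card_product, Nat.card_Ico, sq]
          congr 1 <;> omega

end T1

open T1 in
theorem T1_bound {M U V K L X : ℕ} {z T : ℝ} {c : ℕ → ℕ → ℕ → ℝ} (S : Setup M U V K L X z T c) :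
    ∑ m ∈ Ico M (2 * M), ∑ u₁ ∈ Ico U (2 * U), ∑ u₂ ∈ Ico U (2 * U),
      ∑ l ∈ Ico L (2 * L), ∑ l' ∈ Ico L (2 * L),
        |∑ v₁ ∈ Ico V (2 * V), ∑ v₂ ∈ Ico V (2 * V), (if Gd m u₁ v₁ u₂ v₂ l l' then
          c m u₁ v₁ * c m u₂ v₂ * (A11 K m u₁ v₁ u₂ v₂ l l' - mu K m u₁ v₁ u₂ v₂) else 0)| ≤
      10000 * T ^ 8 * ((L : ℝ) ^ 2 * (U : ℝ) ^ 2) *
        (((K : ℝ) / (M * U ^ 2 * V ^ 2)) ^ (1 / 2 : ℝ) * V +
          ((M * U ^ 2 * V ^ 2 : ℝ) / K) ^ (1 / 8 : ℝ) * (V : ℝ) ^ (15 / 4 : ℝ) * (L : ℝ) ^ (-(3 / 8) : ℝ) *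
            (M : ℝ) ^ (1 / 4 : ℝ) * (U : ℝ) ^ (1 / 2 : ℝ)) := by
  classical
  have hM1 := S.posM
  have hX1 : 1 ≤ X := by have := S.X1; have := S.K8; have := S.L8; nlinarith
  have hT1 : 1 ≤ T := by
    have h := S.tau_le 1 one_pos hX1
    have h1 : tau 1 = 1 := by simp [tau]
    rwa [h1] at h
  set E : ℝ := ((K : ℝ) / (M * U ^ 2 * V ^ 2)) ^ (1 / 2 : ℝ) * V +
          ((M * U ^ 2 * V ^ 2 : ℝ) / K) ^ (1 / 8 : ℝ) * (V : ℝ) ^ (15 / 4 : ℝ) * (L : ℝ) ^ (-(3 / 8) : ℝ) *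
            (M : ℝ) ^ (1 / 4 : ℝ) * (U : ℝ) ^ (1 / 2 : ℝ) with hE
  have hE0 : 0 ≤ E := by positivity
  have hM' : (0 : ℝ) < M := by exact_mod_cast hM1
  have hone : ∀ m ∈ Ico M (2 * M), ∀ u₁ ∈ Ico U (2 * U), ∀ u₂ ∈ Ico U (2 * U),
      ∑ l ∈ Ico L (2 * L), ∑ l' ∈ Ico L (2 * L),
        |∑ v₁ ∈ Ico V (2 * V), ∑ v₂ ∈ Ico V (2 * V), (if Gd m u₁ v₁ u₂ v₂ l l' then
          c m u₁ v₁ * c m u₂ v₂ * (A11 K m u₁ v₁ u₂ v₂ l l' - mu K m u₁ v₁ u₂ v₂) else 0)| ≤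
        (2 * (L / M)) * (5000 * T ^ 8 * (L * E)) := by
    intro m hm u₁ hu₁ u₂ hu₂
    have hm' := mem_Ico.1 hm
    have hm0 : 0 < m := by omega
    choose Ψ hΨ0 hΨ1 hΨ2 using fun j : ℤ => fixed S hm hu₁ hu₂ j
    refine (sum_pairs_le hm0 _ Ψ ?_ ?_ hΨ0).trans ?_
    · intro l l' h
      have h0 : ∑ v₁ ∈ Ico V (2 * V), ∑ v₂ ∈ Ico V (2 * V), (if Gd m u₁ v₁ u₂ v₂ l l' then
          c m u₁ v₁ * c m u₂ v₂ * (A11 K m u₁ v₁ u₂ v₂ l l' - mu K m u₁ v₁ u₂ v₂) else 0) = 0 := by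
        refine sum_eq_zero fun v₁ _ => sum_eq_zero fun v₂ _ => ?_
        rw [if_neg]
        intro hG
        exact h ⟨hG.2.2.1, hG.2.1⟩
      rw [h0]; simp
    · intro j l l' hj hll
      exact hΨ1 j l l' hj hll
    · refine (sum_le_sum fun j _ => hΨ2 j).trans ?_
      rw [sum_const, card_J, nsmul_eq_mul]
      have h1 : ((2 * (L / m) : ℕ) : ℝ) ≤ 2 * (L / M) := by
        push_cast
        have h2 : ((L / m : ℕ) : ℝ) ≤ (L : ℝ) / m := Nat.cast_div_le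
        have h3 : (L : ℝ) / m ≤ (L : ℝ) / M := by
          refine div_le_div_of_nonneg_left (by positivity) hM' ?_
          exact_mod_cast hm'.1
        linarith
      have h4 : 0 ≤ 5000 * T ^ 8 * (L * E) := by positivity
      exact mul_le_mul_of_nonneg_right h1 h4
  refine (sum_le_sum fun m hm => sum_le_sum fun u₁ hu₁ => sum_le_sum fun u₂ hu₂ => hone m hm u₁ hu₁ u₂ hu₂).trans ?_
  simp only [sum_const, Nat.card_Ico, nsmul_eq_mul]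
  have e1 : 2 * M - M = M := by omega
  have e2 : 2 * U - U = U := by omega
  rw [e1, e2]
  refine le_of_eq ?_
  field_simp
  ring

end Pool.Agent.ZH.D
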